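import Pool.Agent.MFB.Stmts

/-!
# Composition with an isometry maps modular forms to modular forms
-/

namespace Pool.Agent.MFB

open HL

theorem ACT_thm : S_ACT := by
  intro n Λ Γ Γ' g hg hΓ f hf
  have hf' : f ∈ Algebra.adjoin ℂ {f | ∃ k : ℕ, Λ.IsMF Γ k f} := hf
  clear hf
  induction hf' using Algebra.adjoin_induction with
  | mem f hf =>
    obtain ⟨k, hk⟩ := hf
    exact (hk.act hg hΓ).mem_MS
  | algebraMap c =>
    rw [Λ.act_algebraMap hg]
    exact Subalgebra.algebraMap_mem _ c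
  | add f f' _ _ h1 h2 =>
    rw [Λ.act_add]
    exact Subalgebra.add_mem _ h1 h2
  | mul f f' _ _ h1 h2 =>
    rw [Λ.act_mul]
    exact Subalgebra.mul_mem _ h1 h2

end Pool.Agent.MFB
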