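import Mathlib

/-!
# Modular forms on the complex ball for Hermitian lattices: definitions
-/

namespace Pool.Agent.MFB

/-- The coordinate space. -/
abbrev V (n : ℕ) := Fin (n + 1) → ℂ

/-- The imaginary quadratic field `ℚ(√d)` (for `d < 0`) in `ℂ`. -/
def Fld (d : ℤ) : Set ℂ :=
  {z | ∃ a b : ℚ, z = (a : ℂ) + (b : ℂ) * ((Real.sqrt (-(d : ℝ)) : ℝ) * Complex.I)}

/-- The ring of integers of `ℚ(√d)`. -/
def OF (d : ℤ) : Set ℂ := {z | z ∈ Fld d ∧ IsIntegral ℤ z}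

/-- The Hermitian form with matrix `H`, linear in the first variable. -/
def hf {n : ℕ} (H : Matrix (Fin (n + 1)) (Fin (n + 1)) ℂ) (x y : V n) : ℂ :=
  ∑ i, ∑ j, x i * H i j * (starRingEnd ℂ) (y j)

/-- The standard Hermitian form of signature `(n, 1)`. -/
def std {n : ℕ} (x y : V n) : ℂ :=
  ∑ i : Fin n, x i.castSucc * (starRingEnd ℂ) (y i.castSucc) -
    x (Fin.last n) * (starRingEnd ℂ) (y (Fin.last n))

/-- A Hermitian lattice of signature `(n, 1)` over the ring of integers of `ℚ(√d)`: in the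
coordinates of a basis over `ℚ(√d)`, the Hermitian form has the matrix `H`, and `L` is a finitely
generated module over the ring of integers, of rank `n + 1`. -/
structure HL (n : ℕ) where
  d : ℤ
  neg : d < 0
  sqf : Squarefree d
  H : Matrix (Fin (n + 1)) (Fin (n + 1)) ℂ
  ent : ∀ i j, H i j ∈ Fld d
  sig : ∃ P : V n ≃ₗ[ℂ] V n, ∀ x y, hf H x y = std (P x) (P y)
  L : AddSubgroup (V n)
  fg : L.FG
  smul : ∀ a ∈ OF d, ∀ x ∈ L, a • x ∈ L
  coord : ∀ x ∈ L, ∀ i, x i ∈ Fld d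
  span : Submodule.span ℂ (L : Set (V n)) = ⊤

namespace HL

variable {n : ℕ} (Λ : HL n)

/-- The Hermitian form. -/
def h (x y : V n) : ℂ := hf Λ.H x y

/-- The automorphisms of the lattice which preserve the form. -/
def U : Subgroup (V n ≃ₗ[ℂ] V n) where
  carrier := {g | (∀ x, g x ∈ Λ.L ↔ x ∈ Λ.L) ∧ ∀ x y, Λ.h (g x) (g y) = Λ.h x y}
  one_mem' := ⟨fun _ => Iff.rfl, fun _ _ => rfl⟩
  mul_mem' := by
    intro a b ha hb
    exact ⟨fun x => (ha.1 (b x)).trans (hb.1 x), fun x y => (ha.2 (b x) (b y)).trans (hb.2 x y)⟩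
  inv_mem' := by
    intro a ha
    have h1 : ∀ x, a (a⁻¹ x) = x := fun x => a.apply_symm_apply x
    refine ⟨fun x => ?_, fun x y => ?_⟩
    · have := ha.1 (a⁻¹ x)
      rw [h1] at this
      exact this.symm
    · have := ha.2 (a⁻¹ x) (a⁻¹ y)
      rw [h1, h1] at this
      exact this.symm

/-- A reflection: `x ↦ x - (1 - ε) (h(x, r) / h(r, r)) r` with `h(r, r) > 0` and `ε ≠ 1` a root of
unity. -/
def IsRefl (g : V n ≃ₗ[ℂ] V n) : Prop :=
  g ∈ Λ.U ∧ ∃ (r : V n) (ε : ℂ), 0 < (Λ.h r r).re ∧ ε ≠ 1 ∧ (∃ m : ℕ, 0 < m ∧ ε ^ m = 1) ∧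
    ∀ x, g x = x - ((1 - ε) * (Λ.h x r / Λ.h r r)) • r

/-- The affine cone over the ball. -/
def A : Set (V n) := {z | (Λ.h z z).re < 0}

open Classical in
/-- The extension of a function by zero. -/
noncomputable def ext (f : Λ.A → ℂ) (z : V n) : ℂ := if hz : z ∈ Λ.A then f ⟨z, hz⟩ else 0

/-- Modular forms of weight `k` for `Γ` (for `n ≥ 2` the condition at the cusps is automatic). -/
structure IsMF (Γ : Subgroup (V n ≃ₗ[ℂ] V n)) (k : ℕ) (f : Λ.A → ℂ) : Prop where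
  hol : DifferentiableOn ℂ (Λ.ext f) Λ.A
  hom : ∀ (t : ℂ) (z z' : Λ.A), (z' : V n) = t • (z : V n) → t ^ k * f z' = f z
  inv : ∀ γ ∈ Γ, ∀ z z' : Λ.A, (z' : V n) = γ (z : V n) → f z' = f z

/-- The algebra of modular forms for `Γ`. -/
def MS (Γ : Subgroup (V n ≃ₗ[ℂ] V n)) : Subalgebra ℂ (Λ.A → ℂ) :=
  Algebra.adjoin ℂ {f | ∃ k : ℕ, Λ.IsMF Γ k f}

/-- The algebra of modular forms for `Γ` is a polynomial algebra in `n + 1` algebraically
independent modular forms of positive weights. -/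
def IsFree (Γ : Subgroup (V n ≃ₗ[ℂ] V n)) : Prop :=
  ∃ X : Fin (n + 1) → (Λ.A → ℂ), (∀ i, ∃ k : ℕ, 0 < k ∧ Λ.IsMF Γ k (X i)) ∧
    AlgebraicIndependent ℂ X ∧ Algebra.adjoin ℂ (Set.range X) = Λ.MS Γ

end HL

end Pool.Agent.MFB
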