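import Mathlib
import Pool.Agent.MFB.Defs

/-!
# Basic facts on the Hermitian form and the cone over the ball
-/

namespace Pool.Agent.MFB

open Complex

namespace HL

variable {n : ℕ} (Λ : HL n)

/-! ### The form -/

theorem h_add_left (x y z : V n) : Λ.h (x + y) z = Λ.h x z + Λ.h y z := by
  simp only [h, hf, Pi.add_apply, add_mul, Finset.sum_add_distrib]

theorem h_smul_left (a : ℂ) (x z : V n) : Λ.h (a • x) z = a * Λ.h x z := by
  simp only [h, hf, Pi.smul_apply, smul_eq_mul, Finset.mul_sum, mul_assoc]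

theorem h_add_right (x y z : V n) : Λ.h x (y + z) = Λ.h x y + Λ.h x z := by
  simp only [h, hf, Pi.add_apply, map_add, mul_add, Finset.sum_add_distrib]

theorem h_smul_right (a : ℂ) (x z : V n) : Λ.h x (a • z) = (starRingEnd ℂ) a * Λ.h x z := by
  simp only [h, hf, Pi.smul_apply, smul_eq_mul, map_mul, Finset.mul_sum]
  refine Finset.sum_congr rfl fun i _ => Finset.sum_congr rfl fun j _ => ?_
  ring

theorem h_zero_left (z : V n) : Λ.h 0 z = 0 := by
  simpa using Λ.h_smul_left 0 0 z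

theorem h_zero_right (z : V n) : Λ.h z 0 = 0 := by
  simpa using Λ.h_smul_right 0 z 0

theorem h_neg_left (x z : V n) : Λ.h (-x) z = -Λ.h x z := by
  simpa using Λ.h_smul_left (-1) x z

theorem h_neg_right (x z : V n) : Λ.h x (-z) = -Λ.h x z := by
  simpa using Λ.h_smul_right (-1) x z

theorem h_sub_left (x y z : V n) : Λ.h (x - y) z = Λ.h x z - Λ.h y z := by
  rw [sub_eq_add_neg, h_add_left, h_neg_left, sub_eq_add_neg]

theorem h_sub_right (x y z : V n) : Λ.h x (y - z) = Λ.h x y - Λ.h x z := by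
  rw [sub_eq_add_neg, h_add_right, h_neg_right, sub_eq_add_neg]

theorem std_conj (x y : V n) : (starRingEnd ℂ) (std x y) = std y x := by
  simp only [std, map_sub, map_sum, map_mul, Complex.conj_conj]
  congr 1
  · exact Finset.sum_congr rfl fun i _ => mul_comm _ _
  · exact mul_comm _ _

theorem h_conj (x y : V n) : (starRingEnd ℂ) (Λ.h x y) = Λ.h y x := by
  obtain ⟨P, hP⟩ := Λ.sig
  rw [h, h, hP, hP, std_conj]

theorem h_self_im (x : V n) : (Λ.h x x).im = 0 := by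
  have h1 := congrArg Complex.im (Λ.h_conj x x)
  rw [Complex.conj_im] at h1
  linarith

theorem h_self (x : V n) : Λ.h x x = ((Λ.h x x).re : ℂ) := by
  apply Complex.ext
  · simp
  · simp [Λ.h_self_im x]

theorem h_swap_zero {x y : V n} (hxy : Λ.h x y = 0) : Λ.h y x = 0 := by
  rw [← Λ.h_conj, hxy, map_zero]

/-- The form in the first variable as a linear form. -/
noncomputable def hl (y : V n) : V n →ₗ[ℂ] ℂ where
  toFun x := Λ.h x y
  map_add' x z := Λ.h_add_left x z y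
  map_smul' a x := Λ.h_smul_left a x y

theorem hl_apply (x y : V n) : Λ.hl y x = Λ.h x y := rfl

theorem continuous_h_left (y : V n) : Continuous fun x => Λ.h x y :=
  (Λ.hl y).continuous_of_finiteDimensional

theorem continuous_h_self : Continuous fun x => Λ.h x x := by
  unfold h hf
  fun_prop

theorem isOpen_A : IsOpen Λ.A :=
  isOpen_lt (Complex.continuous_re.comp Λ.continuous_h_self) continuous_const

theorem mem_A {z : V n} : z ∈ Λ.A ↔ (Λ.h z z).re < 0 := Iff.rfl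

theorem h_smul_self (t : ℂ) (z : V n) : Λ.h (t • z) (t • z) = ((‖t‖ ^ 2 : ℝ) : ℂ) * Λ.h z z := by
  rw [h_smul_left, h_smul_right, ← mul_assoc, Complex.mul_conj, Complex.normSq_eq_norm_sq]

theorem smul_mem_A {t : ℂ} (ht : t ≠ 0) {z : V n} (hz : z ∈ Λ.A) : t • z ∈ Λ.A := by
  rw [mem_A, h_smul_self, Complex.re_ofReal_mul]
  exact mul_neg_of_pos_of_neg (by positivity) hz

theorem ne_zero_of_mem_A {z : V n} (hz : z ∈ Λ.A) : z ≠ 0 := by
  rintro rfl
  rw [mem_A, h_zero_left] at hz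
  simp at hz

theorem h_self_ne_zero {z : V n} (hz : z ∈ Λ.A) : Λ.h z z ≠ 0 := by
  intro h0
  rw [mem_A, h0] at hz
  simp at hz

theorem exists_mem_A : ∃ z, z ∈ Λ.A := by
  obtain ⟨P, hP⟩ := Λ.sig
  refine ⟨P.symm (Pi.single (Fin.last n) 1), ?_⟩
  rw [mem_A, h, hP, P.apply_symm_apply]
  simp [std]

/-! ### The orthogonal complement of a point of the cone -/

theorem std_pos {z y : V n} (hz : (std z z).re < 0) (hy : y ≠ 0) (hyz : std y z = 0) :
    0 < (std y y).re := by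
  have e : ∀ x : V n, (std x x).re =
      ∑ i : Fin n, ‖x i.castSucc‖ ^ 2 - ‖x (Fin.last n)‖ ^ 2 := by
    intro x
    simp only [std, Complex.sub_re, Complex.re_sum, Complex.mul_conj, Complex.ofReal_re,
      Complex.normSq_eq_norm_sq]
  rw [e] at hz ⊢
  have h1 : y (Fin.last n) * (starRingEnd ℂ) (z (Fin.last n)) =
      ∑ i : Fin n, y i.castSucc * (starRingEnd ℂ) (z i.castSucc) := by
    rw [std] at hyz
    exact (sub_eq_zero.1 hyz).symm
  have h2 : ‖y (Fin.last n)‖ * ‖z (Fin.last n)‖ ≤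
      ∑ i : Fin n, ‖y i.castSucc‖ * ‖z i.castSucc‖ := by
    have := congrArg norm h1
    rw [norm_mul, RCLike.norm_conj] at this
    rw [this]
    refine (norm_sum_le _ _).trans (le_of_eq ?_)
    refine Finset.sum_congr rfl fun i _ => ?_
    rw [norm_mul, RCLike.norm_conj]
  have h3 := Finset.sum_mul_sq_le_sq_mul_sq Finset.univ (fun i : Fin n => ‖y i.castSucc‖)
    (fun i : Fin n => ‖z i.castSucc‖)
  set a := ∑ i : Fin n, ‖y i.castSucc‖ ^ 2 with ha
  set b := ∑ i : Fin n, ‖z i.castSucc‖ ^ 2 with hb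
  set u := ‖y (Fin.last n)‖ with hu
  set v := ‖z (Fin.last n)‖ with hv
  have hu0 : 0 ≤ u := norm_nonneg _
  have hv0 : 0 ≤ v := norm_nonneg _
  have ha0 : 0 ≤ a := Finset.sum_nonneg fun i _ => by positivity
  have hb0 : 0 ≤ b := Finset.sum_nonneg fun i _ => by positivity
  have h4 : (u * v) ^ 2 ≤ a * b := (pow_le_pow_left₀ (by positivity) h2 2).trans h3
  have hvb : b < v ^ 2 := by linarith
  have hv2 : 0 < v ^ 2 := lt_of_le_of_lt hb0 hvb
  have ha1 : 0 < a := by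
    rcases ha0.lt_or_eq with h5 | h5
    · exact h5
    · exfalso
      apply hy
      have h6 : ∀ i : Fin n, y i.castSucc = 0 := by
        intro i
        have h7 := (Finset.sum_eq_zero_iff_of_nonneg (fun i _ => by positivity)).1 h5.symm i
          (Finset.mem_univ i)
        simpa using h7
      have h8 : u = 0 := by
        rw [← h5, zero_mul] at h4
        have h9 : (u * v) ^ 2 = 0 := le_antisymm h4 (by positivity)
        have h10 : u * v = 0 := by simpa using h9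
        rcases mul_eq_zero.1 h10 with h11 | h11
        · exact h11
        · rw [h11] at hv2; simp at hv2
      funext i
      refine Fin.lastCases ?_ (fun i => ?_) i
      · simpa [hu] using h8
      · exact h6 i
  by_contra hcon
  push Not at hcon
  have h12 : a ≤ u ^ 2 := by linarith
  have h13 : a * v ^ 2 ≤ a * b := by
    calc a * v ^ 2 ≤ u ^ 2 * v ^ 2 := by gcongr
      _ = (u * v) ^ 2 := by ring
      _ ≤ a * b := h4
  have h14 : a * b < a * v ^ 2 := by gcongr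
  linarith

/-- The form is positive definite on the orthogonal complement of a point of the cone. -/
theorem pos_of_orth {z y : V n} (hz : z ∈ Λ.A) (hy : y ≠ 0) (hyz : Λ.h y z = 0) :
    0 < (Λ.h y y).re := by
  obtain ⟨P, hP⟩ := Λ.sig
  rw [mem_A, h, hP] at hz
  rw [h, hP] at hyz ⊢
  exact std_pos hz (fun h0 => hy (by simpa using h0)) hyz

/-- The component orthogonal to `z`. -/
noncomputable def orth (z w : V n) : V n := w - (Λ.h w z / Λ.h z z) • z

theorem orth_h {z : V n} (hz : z ∈ Λ.A) (w : V n) : Λ.h (Λ.orth z w) z = 0 := by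
  have h1 := Λ.h_self_ne_zero hz
  rw [orth, h_sub_left, h_smul_left]
  field_simp
  ring

theorem orth_add (z w : V n) : w = (Λ.h w z / Λ.h z z) • z + Λ.orth z w := by
  rw [orth]; abel

/-- The Pythagorean identity. -/
theorem h_decomp {z : V n} (hz : z ∈ Λ.A) (w : V n) :
    (Λ.h w w).re * (Λ.h z z).re = ‖Λ.h w z‖ ^ 2 +
      (Λ.h (Λ.orth z w) (Λ.orth z w)).re * (Λ.h z z).re := by
  have h1 := Λ.h_self_ne_zero hz
  have h2 := Λ.orth_h hz w
  have h2' := Λ.h_swap_zero h2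
  set y := Λ.orth z w with hy
  set α := Λ.h w z / Λ.h z z with hα
  have hw : w = α • z + y := Λ.orth_add z w
  have h3 : Λ.h w w = ((‖α‖ ^ 2 : ℝ) : ℂ) * Λ.h z z + Λ.h y y := by
    conv_lhs => rw [hw]
    rw [h_add_left, h_add_right, h_add_right, h_smul_self, h_smul_left, h_smul_right, h2, h2']
    ring
  have h4 : Λ.h w z = α * Λ.h z z := by rw [hα]; field_simp
  have h5 : (Λ.h w w).re = ‖α‖ ^ 2 * (Λ.h z z).re + (Λ.h y y).re := by
    rw [h3, Complex.add_re, Complex.re_ofReal_mul]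
  have h6 : ‖Λ.h z z‖ ^ 2 = (Λ.h z z).re ^ 2 := by
    conv_lhs => rw [Λ.h_self z]
    rw [Complex.norm_real, Real.norm_eq_abs, sq_abs]
  rw [h5, h4, norm_mul, mul_pow, h6]
  ring

/-- The reversed Cauchy-Schwarz inequality. -/
theorem rcs {z w : V n} (hz : z ∈ Λ.A) :
    (Λ.h w w).re * (Λ.h z z).re ≤ ‖Λ.h w z‖ ^ 2 := by
  rw [Λ.h_decomp hz w]
  by_cases h0 : Λ.orth z w = 0
  · rw [h0, h_zero_left]
    simp
  · have h1 := Λ.pos_of_orth hz h0 (Λ.orth_h hz w)
    have h2 : (Λ.h z z).re < 0 := hz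
    nlinarith

theorem rcs_lt {z w : V n} (hz : z ∈ Λ.A) (hw : ∀ t : ℂ, w ≠ t • z) :
    (Λ.h w w).re * (Λ.h z z).re < ‖Λ.h w z‖ ^ 2 := by
  rw [Λ.h_decomp hz w]
  have h0 : Λ.orth z w ≠ 0 := by
    intro h0
    apply hw (Λ.h w z / Λ.h z z)
    have := Λ.orth_add z w
    rw [h0, add_zero] at this
    exact this
  have h1 := Λ.pos_of_orth hz h0 (Λ.orth_h hz w)
  have h2 : (Λ.h z z).re < 0 := hz
  nlinarith

theorem h_ne_zero {z w : V n} (hz : z ∈ Λ.A) (hw : w ∈ Λ.A) : Λ.h w z ≠ 0 := by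
  intro h0
  have h1 := Λ.rcs (w := w) hz
  rw [h0, norm_zero] at h1
  have h2 : (Λ.h z z).re < 0 := hz
  have h3 : (Λ.h w w).re < 0 := hw
  have h4 := mul_pos_of_neg_of_neg h3 h2
  norm_num at h1
  linarith

/-! ### Isometries -/

/-- The isometries of the form. -/
def I : Subgroup (V n ≃ₗ[ℂ] V n) where
  carrier := {g | ∀ x y, Λ.h (g x) (g y) = Λ.h x y}
  one_mem' := fun _ _ => rfl
  mul_mem' := by
    intro a b ha hb x y
    exact (ha (b x) (b y)).trans (hb x y)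
  inv_mem' := by
    intro a ha x y
    have h1 : ∀ x, a (a⁻¹ x) = x := fun x => a.apply_symm_apply x
    have := ha (a⁻¹ x) (a⁻¹ y)
    rw [h1, h1] at this
    exact this.symm

theorem mem_I {g : V n ≃ₗ[ℂ] V n} : g ∈ Λ.I ↔ ∀ x y, Λ.h (g x) (g y) = Λ.h x y := Iff.rfl

theorem U_le_I : Λ.U ≤ Λ.I := fun _ hg => hg.2

theorem apply_mem_A {g : V n ≃ₗ[ℂ] V n} (hg : g ∈ Λ.I) {z : V n} : g z ∈ Λ.A ↔ z ∈ Λ.A := by
  rw [mem_A, mem_A, hg z z]

/-- The isometries with entries in the field. -/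
def IF : Subgroup (V n ≃ₗ[ℂ] V n) where
  carrier := {g | g ∈ Λ.I ∧ (∀ x : V n, (∀ i, x i ∈ Fld Λ.d) ↔ ∀ i, g x i ∈ Fld Λ.d)}
  one_mem' := ⟨Λ.I.one_mem, fun _ => Iff.rfl⟩
  mul_mem' := by
    rintro a b ⟨ha, ha'⟩ ⟨hb, hb'⟩
    exact ⟨Λ.I.mul_mem ha hb, fun x => (hb' x).trans (ha' (b x))⟩
  inv_mem' := by
    rintro a ⟨ha, ha'⟩
    refine ⟨Λ.I.inv_mem ha, fun x => ?_⟩
    have h1 : a (a⁻¹ x) = x := a.apply_symm_apply x
    have := ha' (a⁻¹ x)
    rw [h1] at this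
    exact this.symm

/-- The reflection with eigenvalue `ζ` at `r`, as a linear map. -/
noncomputable def rl (r : V n) (ζ : ℂ) : V n →ₗ[ℂ] V n where
  toFun x := x - ((1 - ζ) * (Λ.h x r / Λ.h r r)) • r
  map_add' x y := by
    rw [h_add_left, add_div, mul_add, add_smul]
    abel
  map_smul' a x := by
    rw [h_smul_left, RingHom.id_apply, smul_sub, smul_smul]
    congr 2
    ring

theorem rl_apply (r : V n) (ζ : ℂ) (x : V n) :
    Λ.rl r ζ x = x - ((1 - ζ) * (Λ.h x r / Λ.h r r)) • r := rfl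

theorem rl_rl {r : V n} (hr : Λ.h r r ≠ 0) (ζ ξ : ℂ) (x : V n) :
    Λ.rl r ζ (Λ.rl r ξ x) = Λ.rl r (ζ * ξ) x := by
  rw [rl_apply, rl_apply, rl_apply, h_sub_left, h_smul_left, sub_sub, ← add_smul]
  congr 2
  field_simp
  ring

theorem rl_one (r x : V n) : Λ.rl r 1 x = x := by
  rw [rl_apply]
  simp

/-- The reflection with eigenvalue `ζ` at `r`. -/
noncomputable def rf (r : V n) (ζ : ℂ) (hr : Λ.h r r ≠ 0) (hζ : ζ ≠ 0) : V n ≃ₗ[ℂ] V n :=
  LinearEquiv.ofLinearMap (Λ.rl r ζ) (Λ.rl r ζ⁻¹)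
    (by
      ext1 i
      ext1
      show Λ.rl r ζ (Λ.rl r ζ⁻¹ _) = _
      rw [rl_rl Λ hr, mul_inv_cancel₀ hζ, rl_one]
      rfl)
    (by
      ext1 i
      ext1
      show Λ.rl r ζ⁻¹ (Λ.rl r ζ _) = _
      rw [rl_rl Λ hr, inv_mul_cancel₀ hζ, rl_one]
      rfl)

theorem rf_apply {r : V n} {ζ : ℂ} (hr : Λ.h r r ≠ 0) (hζ : ζ ≠ 0) (x : V n) :
    Λ.rf r ζ hr hζ x = x - ((1 - ζ) * (Λ.h x r / Λ.h r r)) • r := rfl

theorem rf_mem_I {r : V n} {ζ : ℂ} (hr : Λ.h r r ≠ 0) (hζ : ζ ≠ 0) (h1 : ‖ζ‖ = 1) :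
    Λ.rf r ζ hr hζ ∈ Λ.I := by
  intro x y
  rw [rf_apply, rf_apply, h_sub_left, h_sub_right, h_sub_right, h_smul_left, h_smul_left,
    h_smul_right, h_smul_right]
  have h2 : (starRingEnd ℂ) (Λ.h r r) = Λ.h r r := Λ.h_conj r r
  have h3 : (starRingEnd ℂ) (Λ.h y r) = Λ.h r y := Λ.h_conj y r
  have h4 : ζ * (starRingEnd ℂ) ζ = 1 := by
    rw [Complex.mul_conj, Complex.normSq_eq_norm_sq, h1]
    norm_num
  simp only [map_mul, map_sub, map_one, map_div₀, h2, h3]
  have h5 : Λ.h x y - (1 - (starRingEnd ℂ) ζ) * (Λ.h r y / Λ.h r r) * Λ.h x r -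
      ((1 - ζ) * (Λ.h x r / Λ.h r r) * Λ.h r y -
        (1 - ζ) * (Λ.h x r / Λ.h r r) * ((1 - (starRingEnd ℂ) ζ) * (Λ.h r y / Λ.h r r) *
          Λ.h r r)) = Λ.h x y + (ζ * (starRingEnd ℂ) ζ - 1) * (Λ.h x r * Λ.h r y / Λ.h r r) := by
    field_simp
    ring
  rw [h5, h4]
  ring

end HL

end Pool.Agent.MFB
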