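import Mathlib
import Pool.Agent.MFB.Base

/-!
# Basic facts on modular forms
-/

namespace Pool.Agent.MFB

open Complex

namespace HL

variable {n : ℕ} (Λ : HL n)

/-! ### Extension by zero and composition -/

theorem ext_of_mem (f : Λ.A → ℂ) {z : V n} (hz : z ∈ Λ.A) : Λ.ext f z = f ⟨z, hz⟩ := by
  rw [ext, dif_pos hz]

theorem ext_of_not_mem (f : Λ.A → ℂ) {z : V n} (hz : z ∉ Λ.A) : Λ.ext f z = 0 := by
  rw [ext, dif_neg hz]

theorem ext_coe (f : Λ.A → ℂ) (z : Λ.A) : Λ.ext f z = f z := Λ.ext_of_mem f z.2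

theorem ext_add (f g : Λ.A → ℂ) : Λ.ext (f + g) = Λ.ext f + Λ.ext g := by
  funext z
  by_cases hz : z ∈ Λ.A
  · simp [Λ.ext_of_mem _ hz]
  · simp [Λ.ext_of_not_mem _ hz]

theorem ext_mul (f g : Λ.A → ℂ) : Λ.ext (f * g) = Λ.ext f * Λ.ext g := by
  funext z
  by_cases hz : z ∈ Λ.A
  · simp [Λ.ext_of_mem _ hz]
  · simp [Λ.ext_of_not_mem _ hz]

theorem ext_smul (c : ℂ) (f : Λ.A → ℂ) : Λ.ext (c • f) = c • Λ.ext f := by
  funext z
  by_cases hz : z ∈ Λ.A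
  · simp [Λ.ext_of_mem _ hz]
  · simp [Λ.ext_of_not_mem _ hz]

/-- Composition with `g`. -/
noncomputable def act (g : V n ≃ₗ[ℂ] V n) (f : Λ.A → ℂ) : Λ.A → ℂ := fun z => Λ.ext f (g z)

theorem act_apply {g : V n ≃ₗ[ℂ] V n} (hg : g ∈ Λ.I) (f : Λ.A → ℂ) (z : Λ.A) :
    Λ.act g f z = f ⟨g z, (Λ.apply_mem_A hg).2 z.2⟩ := Λ.ext_of_mem f _

theorem ext_act {g : V n ≃ₗ[ℂ] V n} (hg : g ∈ Λ.I) (f : Λ.A → ℂ) (z : V n) :
    Λ.ext (Λ.act g f) z = Λ.ext f (g z) := by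
  by_cases hz : z ∈ Λ.A
  · rw [Λ.ext_of_mem _ hz]
    rfl
  · rw [Λ.ext_of_not_mem _ hz, Λ.ext_of_not_mem]
    rwa [Λ.apply_mem_A hg]

theorem act_add (g : V n ≃ₗ[ℂ] V n) (f f' : Λ.A → ℂ) :
    Λ.act g (f + f') = Λ.act g f + Λ.act g f' := by
  funext z
  simp [act, ext_add]

theorem act_mul (g : V n ≃ₗ[ℂ] V n) (f f' : Λ.A → ℂ) :
    Λ.act g (f * f') = Λ.act g f * Λ.act g f' := by
  funext z
  simp [act, ext_mul]

theorem act_smul (g : V n ≃ₗ[ℂ] V n) (c : ℂ) (f : Λ.A → ℂ) :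
    Λ.act g (c • f) = c • Λ.act g f := by
  funext z
  simp [act, ext_smul]

theorem act_algebraMap {g : V n ≃ₗ[ℂ] V n} (hg : g ∈ Λ.I) (c : ℂ) :
    Λ.act g (algebraMap ℂ (Λ.A → ℂ) c) = algebraMap ℂ (Λ.A → ℂ) c := by
  funext z
  rw [Λ.act_apply hg]
  rfl

theorem act_one_left (f : Λ.A → ℂ) : Λ.act 1 f = f := by
  funext z
  exact Λ.ext_coe f z

theorem act_mul_left {g g' : V n ≃ₗ[ℂ] V n} (hg : g ∈ Λ.I) (f : Λ.A → ℂ) :
    Λ.act (g * g') f = Λ.act g' (Λ.act g f) := by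
  funext z
  show Λ.ext f (g (g' z)) = Λ.ext (Λ.act g f) (g' z)
  rw [Λ.ext_act hg]

/-- The composition with the inverse, as an algebra automorphism of the algebra of functions. -/
noncomputable def rho : Λ.I →* ((Λ.A → ℂ) ≃ₐ[ℂ] (Λ.A → ℂ)) where
  toFun g :=
    { toFun := Λ.act ((g⁻¹ : Λ.I) : V n ≃ₗ[ℂ] V n)
      invFun := Λ.act (g : V n ≃ₗ[ℂ] V n)
      left_inv := fun f => by
        rw [← Λ.act_mul_left (g⁻¹ : Λ.I).2, ← Subgroup.coe_mul, inv_mul_cancel, Subgroup.coe_one,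
          act_one_left]
      right_inv := fun f => by
        rw [← Λ.act_mul_left g.2, ← Subgroup.coe_mul, mul_inv_cancel, Subgroup.coe_one,
          act_one_left]
      map_mul' := Λ.act_mul _
      map_add' := Λ.act_add _
      commutes' := Λ.act_algebraMap (g⁻¹ : Λ.I).2 }
  map_one' := by
    ext f z
    show Λ.act ((1⁻¹ : Λ.I) : V n ≃ₗ[ℂ] V n) f z = f z
    rw [inv_one, Subgroup.coe_one, act_one_left]
  map_mul' g g' := by
    ext f z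
    show Λ.act (((g * g')⁻¹ : Λ.I) : V n ≃ₗ[ℂ] V n) f z =
      Λ.act ((g⁻¹ : Λ.I) : V n ≃ₗ[ℂ] V n) (Λ.act ((g'⁻¹ : Λ.I) : V n ≃ₗ[ℂ] V n) f) z
    rw [mul_inv_rev, Subgroup.coe_mul, Λ.act_mul_left (g'⁻¹ : Λ.I).2]

theorem rho_apply (g : Λ.I) (f : Λ.A → ℂ) :
    Λ.rho g f = Λ.act ((g⁻¹ : Λ.I) : V n ≃ₗ[ℂ] V n) f := rfl

/-! ### Modular forms -/

variable {Λ} {Γ Γ' : Subgroup (V n ≃ₗ[ℂ] V n)} {k l : ℕ} {f f' : Λ.A → ℂ}

theorem IsMF.mono (h : Λ.IsMF Γ k f) (hΓ : Γ' ≤ Γ) : Λ.IsMF Γ' k f :=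
  ⟨h.hol, h.hom, fun γ hγ => h.inv γ (hΓ hγ)⟩

theorem IsMF.add (h : Λ.IsMF Γ k f) (h' : Λ.IsMF Γ k f') : Λ.IsMF Γ k (f + f') := by
  refine ⟨?_, fun t z z' hz => ?_, fun γ hγ z z' hz => ?_⟩
  · rw [ext_add]
    exact h.hol.add h'.hol
  · rw [Pi.add_apply, Pi.add_apply, mul_add, h.hom t z z' hz, h'.hom t z z' hz]
  · rw [Pi.add_apply, Pi.add_apply, h.inv γ hγ z z' hz, h'.inv γ hγ z z' hz]

theorem IsMF.smul (h : Λ.IsMF Γ k f) (c : ℂ) : Λ.IsMF Γ k (c • f) := by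
  refine ⟨?_, fun t z z' hz => ?_, fun γ hγ z z' hz => ?_⟩
  · rw [ext_smul]
    exact h.hol.const_smul c
  · rw [Pi.smul_apply, Pi.smul_apply, smul_eq_mul, smul_eq_mul, ← h.hom t z z' hz]
    ring
  · rw [Pi.smul_apply, Pi.smul_apply, h.inv γ hγ z z' hz]

theorem IsMF.mul (h : Λ.IsMF Γ k f) (h' : Λ.IsMF Γ l f') : Λ.IsMF Γ (k + l) (f * f') := by
  refine ⟨?_, fun t z z' hz => ?_, fun γ hγ z z' hz => ?_⟩
  · rw [ext_mul]
    exact h.hol.mul h'.hol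
  · rw [Pi.mul_apply, Pi.mul_apply, ← h.hom t z z' hz, ← h'.hom t z z' hz]
    ring
  · rw [Pi.mul_apply, Pi.mul_apply, h.inv γ hγ z z' hz, h'.inv γ hγ z z' hz]

variable (Λ) (Γ) in
theorem IsMF.const (c : ℂ) : Λ.IsMF Γ 0 (algebraMap ℂ (Λ.A → ℂ) c) := by
  refine ⟨?_, fun t z z' hz => ?_, fun γ hγ z z' hz => rfl⟩
  · refine (differentiableOn_const (c := c)).congr fun z hz => ?_
    rw [ext_of_mem _ _ hz]
    rfl
  · rw [pow_zero, one_mul]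
    rfl

variable (Λ) (Γ) in
theorem IsMF.one : Λ.IsMF Γ 0 (1 : Λ.A → ℂ) := by
  simpa using IsMF.const Λ Γ 1

variable (Λ) (Γ) (k) in
theorem IsMF.zero : Λ.IsMF Γ k (0 : Λ.A → ℂ) := by
  refine ⟨?_, fun t z z' hz => ?_, fun γ hγ z z' hz => rfl⟩
  · refine (differentiableOn_const (c := (0 : ℂ))).congr fun z hz => ?_
    rw [ext_of_mem _ _ hz]
    rfl
  · simp

/-- Composition with an isometry. -/
theorem IsMF.act (h : Λ.IsMF Γ k f) {g : V n ≃ₗ[ℂ] V n} (hg : g ∈ Λ.I)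
    (hΓ : ∀ γ ∈ Γ', g * γ * g⁻¹ ∈ Γ) : Λ.IsMF Γ' k (Λ.act g f) := by
  refine ⟨?_, fun t z z' hz => ?_, fun γ hγ z z' hz => ?_⟩
  · have h1 : DifferentiableOn ℂ (fun z : V n => Λ.ext f (g z)) Λ.A := by
      refine h.hol.comp ?_ fun z hz => (Λ.apply_mem_A hg).2 hz
      exact ((g : V n →ₗ[ℂ] V n).toContinuousLinearMap.differentiable).differentiableOn
    refine h1.congr fun z _ => ?_
    rw [Λ.ext_act hg]
  · rw [Λ.act_apply hg, Λ.act_apply hg]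
    refine h.hom t _ _ ?_
    show g z' = t • g z
    rw [hz, map_smul]
  · rw [Λ.act_apply hg, Λ.act_apply hg]
    refine h.inv _ (hΓ γ hγ) _ _ ?_
    show g z' = (g * γ * g⁻¹) (g z)
    have h1 : g⁻¹ (g (z : V n)) = z := g.symm_apply_apply _
    rw [hz, LinearEquiv.mul_apply, LinearEquiv.mul_apply, h1]

variable (Λ) in
/-- The modular forms of weight `k`. -/
def Mk (Γ : Subgroup (V n ≃ₗ[ℂ] V n)) (k : ℕ) : Submodule ℂ (Λ.A → ℂ) where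
  carrier := {f | Λ.IsMF Γ k f}
  add_mem' := fun h h' => h.add h'
  zero_mem' := IsMF.zero Λ Γ k
  smul_mem' := fun c _ h => h.smul c

theorem mem_Mk : f ∈ Λ.Mk Γ k ↔ Λ.IsMF Γ k f := Iff.rfl

theorem IsMF.mem_MS (h : Λ.IsMF Γ k f) : f ∈ Λ.MS Γ := Algebra.subset_adjoin ⟨k, h⟩

theorem MS_mono (hΓ : Γ' ≤ Γ) : Λ.MS Γ ≤ Λ.MS Γ' :=
  Algebra.adjoin_mono fun _ ⟨k, h⟩ => ⟨k, h.mono hΓ⟩

/-- The elements of the algebra are the sums of modular forms. -/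
theorem MS_eq_iSup : Subalgebra.toSubmodule (Λ.MS Γ) = ⨆ k, Λ.Mk Γ k := by
  apply le_antisymm
  · intro f hf
    have hf' : f ∈ Algebra.adjoin ℂ {f | ∃ k : ℕ, Λ.IsMF Γ k f} := hf
    clear hf
    induction hf' using Algebra.adjoin_induction with
    | mem f hf =>
      obtain ⟨k, hk⟩ := hf
      exact Submodule.mem_iSup_of_mem k hk
    | algebraMap c => exact Submodule.mem_iSup_of_mem 0 (IsMF.const Λ Γ c)
    | add f g _ _ h1 h2 => exact Submodule.add_mem _ h1 h2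
    | mul f g _ _ h3 h4 =>
      refine Submodule.iSup_induction (fun k => Λ.Mk Γ k)
        (motive := fun f => f * g ∈ ⨆ k, Λ.Mk Γ k) h3 ?_ ?_ ?_
      · intro k f hf
        refine Submodule.iSup_induction (fun k => Λ.Mk Γ k)
          (motive := fun g => f * g ∈ ⨆ k, Λ.Mk Γ k) h4 ?_ ?_ ?_
        · intro l g hg
          exact Submodule.mem_iSup_of_mem (k + l) (IsMF.mul hf hg)
        · rw [mul_zero]
          exact Submodule.zero_mem _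
        · intro g g' h5 h6
          rw [mul_add]
          exact Submodule.add_mem _ h5 h6
      · rw [zero_mul]
        exact Submodule.zero_mem _
      · intro f f' h5 h6
        rw [add_mul]
        exact Submodule.add_mem _ h5 h6
  · refine iSup_le fun k f hf => ?_
    exact IsMF.mem_MS hf

end HL

end Pool.Agent.MFB
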