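import Mathlib
import Pool.Agent.MFB.Forms

/-!
# Modular forms on the complex ball: statements of the modules
-/

namespace Pool.Agent.MFB

/-! ### Abstract algebra -/

/-- A graded algebra with constants in degree zero, on which a group acts through a finite
quotient, preserving the degrees. -/
structure GrA {B : Type} [CommRing B] [Algebra ℂ B] (𝒜 : ℕ → Submodule ℂ B) {G : Type} [Group G]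
    (ρ : G →* (B ≃ₐ[ℂ] B)) : Prop where
  one : (1 : B) ∈ 𝒜 0
  mul : ∀ i j, ∀ a ∈ 𝒜 i, ∀ b ∈ 𝒜 j, a * b ∈ 𝒜 (i + j)
  int : DirectSum.IsInternal 𝒜
  zer : ∀ b ∈ 𝒜 0, ∃ c : ℂ, b = algebraMap ℂ B c
  fin : Finite ρ.range
  gr : ∀ g k, ∀ b ∈ 𝒜 k, ρ g b ∈ 𝒜 k

/-- The group is generated by elements whose fixed divisors are principal. -/
def RefG {B : Type} [CommRing B] [Algebra ℂ B] (𝒜 : ℕ → Submodule ℂ B) {G : Type} [Group G]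
    (ρ : G →* (B ≃ₐ[ℂ] B)) : Prop :=
  ∃ T : Set G, Subgroup.closure T ⊔ ρ.ker = ⊤ ∧
    ∀ σ ∈ T, ∃ d, 0 < d ∧ ∃ p ∈ 𝒜 d, ∀ b, ∃ c, ρ σ b - b = p * c

/-- The ideal generated by the invariants of positive degree. -/
def IA {B : Type} [CommRing B] [Algebra ℂ B] (𝒜 : ℕ → Submodule ℂ B) {G : Type} [Group G]
    (ρ : G →* (B ≃ₐ[ℂ] B)) : Ideal B :=
  Ideal.span {a | (∀ γ, ρ γ a = a) ∧ ∃ k, 0 < k ∧ a ∈ 𝒜 k}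

/-- CH1: Chevalley's lemma. -/
def S_CH1 : Prop :=
  ∀ (B : Type) [CommRing B] [IsDomain B] [Algebra ℂ B] (𝒜 : ℕ → Submodule ℂ B) (G : Type)
    [Group G] (ρ : G →* (B ≃ₐ[ℂ] B)), GrA 𝒜 ρ → RefG 𝒜 ρ → ∀ (s : ℕ) (f g : Fin (s + 1) → B)
    (d : Fin (s + 1) → ℕ) (N : ℕ), (∀ i, f i ∈ 𝒜 (d i)) → (∀ i γ, ρ γ (f i) = f i) →
    (∀ i, g i = 0 ∨ (d i ≤ N ∧ g i ∈ 𝒜 (N - d i))) → ∑ i, f i * g i = 0 →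
    (¬ ∃ c : Fin s → B, (∀ i γ, ρ γ (c i) = c i) ∧ f 0 = ∑ i, f i.succ * c i) →
    g 0 ∈ IA 𝒜 ρ

/-- DER: the derivations of a graded polynomial subalgebra. -/
def S_DER : Prop :=
  ∀ (B : Type) [CommRing B] [IsDomain B] [Algebra ℂ B] (𝒜 : ℕ → Submodule ℂ B),
    (1 : B) ∈ 𝒜 0 → (∀ i j, ∀ a ∈ 𝒜 i, ∀ b ∈ 𝒜 j, a * b ∈ 𝒜 (i + j)) → DirectSum.IsInternal 𝒜 →
    ∀ (m : ℕ) (x : Fin m → B) (e : Fin m → ℕ), (∀ j, x j ∈ 𝒜 (e j)) → AlgebraicIndependent ℂ x →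
    ∃ D : Fin m → Derivation ℂ (Algebra.adjoin ℂ (Set.range x)) (Algebra.adjoin ℂ (Set.range x)),
      (∀ j k (c : Algebra.adjoin ℂ (Set.range x)), (c : B) ∈ 𝒜 k →
        D j c = 0 ∨ (e j ≤ k ∧ ((D j c : Algebra.adjoin ℂ (Set.range x)) : B) ∈ 𝒜 (k - e j))) ∧
      ∀ k (c : Algebra.adjoin ℂ (Set.range x)), (c : B) ∈ 𝒜 k →
        ∑ j, (e j : ℂ) • (x j * ((D j c : Algebra.adjoin ℂ (Set.range x)) : B)) =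
          (k : ℂ) • (c : B)

/-- MIN: a relation of minimal weighted degree. -/
def S_MIN : Prop :=
  ∀ (B : Type) [CommRing B] [IsDomain B] [Algebra ℂ B] (𝒜 : ℕ → Submodule ℂ B),
    (1 : B) ∈ 𝒜 0 → (∀ i j, ∀ a ∈ 𝒜 i, ∀ b ∈ 𝒜 j, a * b ∈ 𝒜 (i + j)) → DirectSum.IsInternal 𝒜 →
    ∀ (r : ℕ) (f : Fin r → B) (d : Fin r → ℕ), (∀ i, f i ∈ 𝒜 (d i)) → (∀ i, 0 < d i) →
    ¬ AlgebraicIndependent ℂ f → ∃ (N : ℕ) (P : MvPolynomial (Fin r) ℂ),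
      MvPolynomial.aeval f P = 0 ∧ (∃ i, MvPolynomial.pderiv i P ≠ 0) ∧
      (∀ i, MvPolynomial.aeval f (MvPolynomial.pderiv i P) = 0 ∨
        (d i ≤ N ∧ MvPolynomial.aeval f (MvPolynomial.pderiv i P) ∈ 𝒜 (N - d i))) ∧
      ∀ i, MvPolynomial.pderiv i P ≠ 0 → MvPolynomial.aeval f (MvPolynomial.pderiv i P) ≠ 0

/-- NOE: a minimal finite set of homogeneous generators of the ideal of the invariants of positive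
degree. -/
def S_NOE : Prop :=
  ∀ (B : Type) [CommRing B] [IsDomain B] [Algebra ℂ B] (𝒜 : ℕ → Submodule ℂ B) (G : Type)
    [Group G] (ρ : G →* (B ≃ₐ[ℂ] B)), GrA 𝒜 ρ → ∀ (H : Subgroup G) (m : ℕ) (x : Fin m → B),
    (∀ b, b ∈ Algebra.adjoin ℂ (Set.range x) ↔ ∀ g ∈ H, ρ g b = b) →
    ∃ (r : ℕ) (f : Fin r → B), (∀ i, ∃ k, 0 < k ∧ f i ∈ 𝒜 k) ∧ (∀ i γ, ρ γ (f i) = f i) ∧
      (∀ a, (∀ γ, ρ γ a = a) → (∃ k, 0 < k ∧ a ∈ 𝒜 k) →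
        ∃ c : Fin r → B, (∀ i γ, ρ γ (c i) = c i) ∧ a = ∑ i, f i * c i) ∧
      ∀ i, ¬ ∃ c : Fin r → B, (∀ j γ, ρ γ (c j) = c j) ∧ c i = 0 ∧ f i = ∑ j, f j * c j

/-- GEN: generators of the ideal generate the algebra. -/
def S_GEN : Prop :=
  ∀ (B : Type) [CommRing B] [IsDomain B] [Algebra ℂ B] (𝒜 : ℕ → Submodule ℂ B) (G : Type)
    [Group G] (ρ : G →* (B ≃ₐ[ℂ] B)), GrA 𝒜 ρ → ∀ (r : ℕ) (f : Fin r → B),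
    (∀ i, ∃ k, 0 < k ∧ f i ∈ 𝒜 k) → (∀ i γ, ρ γ (f i) = f i) →
    (∀ a, (∀ γ, ρ γ a = a) → (∃ k, 0 < k ∧ a ∈ 𝒜 k) →
      ∃ c : Fin r → B, (∀ i γ, ρ γ (c i) = c i) ∧ a = ∑ i, f i * c i) →
    ∀ b, b ∈ Algebra.adjoin ℂ (Set.range f) ↔ ∀ γ, ρ γ b = b

/-- CH2: the generators of the invariants are algebraically independent. -/
def S_CH2 : Prop :=
  ∀ (B : Type) [CommRing B] [IsDomain B] [Algebra ℂ B] (𝒜 : ℕ → Submodule ℂ B) (G : Type)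
    [Group G] (ρ : G →* (B ≃ₐ[ℂ] B)), GrA 𝒜 ρ → RefG 𝒜 ρ → ∀ (H : Subgroup G) (m : ℕ)
    (x : Fin m → B), (∀ i, ∃ k, 0 < k ∧ x i ∈ 𝒜 k) → AlgebraicIndependent ℂ x →
    (∀ b, b ∈ Algebra.adjoin ℂ (Set.range x) ↔ ∀ g ∈ H, ρ g b = b) →
    ∀ (r : ℕ) (f : Fin r → B), (∀ i, ∃ k, 0 < k ∧ f i ∈ 𝒜 k) → (∀ i γ, ρ γ (f i) = f i) →
    (∀ a, (∀ γ, ρ γ a = a) → (∃ k, 0 < k ∧ a ∈ 𝒜 k) →
      ∃ c : Fin r → B, (∀ i γ, ρ γ (c i) = c i) ∧ a = ∑ i, f i * c i) →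
    (∀ i, ¬ ∃ c : Fin r → B, (∀ j γ, ρ γ (c j) = c j) ∧ c i = 0 ∧ f i = ∑ j, f j * c j) →
    AlgebraicIndependent ℂ f

/-- ALG: Chevalley's theorem for graded algebras in which the fixed divisors are principal. -/
def S_ALG : Prop :=
  ∀ (B : Type) [CommRing B] [IsDomain B] [Algebra ℂ B] (𝒜 : ℕ → Submodule ℂ B) (G : Type)
    [Group G] (ρ : G →* (B ≃ₐ[ℂ] B)), GrA 𝒜 ρ → RefG 𝒜 ρ → ∀ (H : Subgroup G) (m : ℕ)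
    (x : Fin m → B), (∀ i, ∃ k, 0 < k ∧ x i ∈ 𝒜 k) → AlgebraicIndependent ℂ x →
    (∀ b, b ∈ Algebra.adjoin ℂ (Set.range x) ↔ ∀ g ∈ H, ρ g b = b) →
    ∃ y : Fin m → B, (∀ i, ∃ k, 0 < k ∧ y i ∈ 𝒜 k) ∧ AlgebraicIndependent ℂ y ∧
      ∀ b, b ∈ Algebra.adjoin ℂ (Set.range y) ↔ ∀ g, ρ g b = b

/-- HFA: the factors of a homogeneous element are homogeneous. -/
def S_HFA : Prop :=
  ∀ (B : Type) [CommRing B] [IsDomain B] [Algebra ℂ B] (𝒜 : ℕ → Submodule ℂ B),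
    (∀ i j, ∀ a ∈ 𝒜 i, ∀ b ∈ 𝒜 j, a * b ∈ 𝒜 (i + j)) → DirectSum.IsInternal 𝒜 →
    ∀ (k : ℕ) (a b : B), a * b ≠ 0 → a * b ∈ 𝒜 k → ∃ i j, i + j = k ∧ a ∈ 𝒜 i ∧ b ∈ 𝒜 j

/-- ELI: two relatively prime relations. -/
def S_ELI : Prop :=
  ∀ (n : ℕ) (D : Type) [CommRing D] [IsDomain D] [Algebra ℂ D]
    (φ : MvPolynomial (Fin (n + 1)) ℂ →ₐ[ℂ] D) (p q : MvPolynomial (Fin (n + 1)) ℂ),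
    IsRelPrime p q → φ p = 0 → φ q = 0 → ∀ y : Fin n → D,
    (∀ i, IsIntegral φ.range (y i)) → ¬ AlgebraicIndependent ℂ y

/-- COQ: relatively prime elements in a prime ideal of an integral extension. -/
def S_COQ : Prop :=
  ∀ (B : Type) [CommRing B] [IsDomain B] [Algebra ℂ B] (R : Subalgebra ℂ B),
    UniqueFactorizationMonoid B → UniqueFactorizationMonoid R → (∀ b : B, IsIntegral R b) →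
    ∀ P : Ideal B, P.IsPrime → ∀ p ∈ P, ∀ q ∈ P, IsRelPrime p q →
    ∃ p' q' : R, IsRelPrime p' q' ∧ (p' : B) ∈ P ∧ (q' : B) ∈ P

/-- CORE: the invariants of a group which is generated by a subgroup with factorial invariants and
by reflections are factorial. -/
def S_CORE : Prop :=
  ∀ (B : Type) [CommRing B] [IsDomain B] [Algebra ℂ B] (G : Type) [Group G]
    (ρ : G →* (B ≃ₐ[ℂ] B)) (K : Subgroup G) [K.FiniteIndex] (R S : Subalgebra ℂ B),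
    (∀ b, b ∈ R ↔ ∀ g ∈ K, ρ g b = b) → (∀ b, b ∈ S ↔ ∀ g, ρ g b = b) →
    UniqueFactorizationMonoid R → (∀ u : R, IsUnit u → ∃ c : ℂ, u = algebraMap ℂ R c) →
    ∀ T : Set G, Subgroup.closure ((K : Set G) ∪ T) = ⊤ →
    (∀ t ∈ T, ∀ f g : R, IsRelPrime f g → ∀ ζ : ℂ, ζ ≠ 1 → ρ t f = ζ • (f : B) →
      ρ t g = ζ • (g : B) → False) →
    UniqueFactorizationMonoid S ∧
      ∀ (f g : S) (f' g' : R), (f' : B) = f → (g' : B) = g → IsRelPrime f g → IsRelPrime f' g'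

/-- IDX: a subgroup of index at most three contains a normal subgroup as a subgroup of index at
most two. -/
def S_IDX : Prop :=
  ∀ (X : Type) [Group X] (Γ Γ₁ : Subgroup X), Γ ≤ Γ₁ → (Γ.subgroupOf Γ₁).index ≠ 0 →
    (Γ.subgroupOf Γ₁).index ≤ 3 → ∃ Γ₀ : Subgroup X, Γ₀ ≤ Γ ∧
      (∀ g ∈ Γ₁, ∀ γ ∈ Γ₀, g * γ * g⁻¹ ∈ Γ₀) ∧ (Γ₀.subgroupOf Γ).index ≠ 0 ∧
      (Γ₀.subgroupOf Γ).index ≤ 2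

/-! ### Modular forms -/

/-- The homogeneous parts of the algebra of modular forms. -/
def HL.gr {n : ℕ} (Λ : HL n) (Γ : Subgroup (V n ≃ₗ[ℂ] V n)) (k : ℕ) :
    Submodule ℂ (Λ.MS Γ) :=
  (Λ.Mk Γ k).comap (Λ.MS Γ).val.toLinearMap

/-- GR: the grading of the algebra of modular forms. -/
def S_GR : Prop :=
  ∀ (n : ℕ) (Λ : HL n) (Γ : Subgroup (V n ≃ₗ[ℂ] V n)),
    (1 : Λ.MS Γ) ∈ Λ.gr Γ 0 ∧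
    (∀ i j, ∀ a ∈ Λ.gr Γ i, ∀ b ∈ Λ.gr Γ j, a * b ∈ Λ.gr Γ (i + j)) ∧
    DirectSum.IsInternal (Λ.gr Γ)

/-- ACT: composition with an isometry. -/
def S_ACT : Prop :=
  ∀ (n : ℕ) (Λ : HL n) (Γ Γ' : Subgroup (V n ≃ₗ[ℂ] V n)), ∀ g ∈ Λ.I,
    (∀ γ ∈ Γ', g * γ * g⁻¹ ∈ Γ) → ∀ f ∈ Λ.MS Γ, Λ.act g f ∈ Λ.MS Γ'

/-- INV: the invariants. -/
def S_INV : Prop :=
  ∀ (n : ℕ) (Λ : HL n) (Γ : Subgroup (V n ≃ₗ[ℂ] V n)), Γ ≤ Λ.I → ∀ f,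
    f ∈ Λ.MS Γ ↔ f ∈ Λ.MS ⊥ ∧ ∀ γ ∈ Γ, Λ.act γ f = f

/-- CDF: the derivative of a holomorphic function is continuous. -/
def S_CDF : Prop :=
  ∀ (n : ℕ) (Ω : Set (V n)) (f : V n → ℂ), IsOpen Ω → DifferentiableOn ℂ f Ω →
    ContinuousOn (fun z => fderiv ℂ f z) Ω

/-- IDT: the identity theorem on the intersection with a subspace. -/
def S_IDT : Prop :=
  ∀ (n : ℕ) (Λ : HL n) (E : Submodule ℂ (V n)) (k : ℕ) (f : Λ.A → ℂ), Λ.IsMF ⊥ k f →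
    ∀ z ∈ Λ.A, z ∈ E → (∀ v ∈ E, ∀ᶠ s : ℂ in nhds 0, Λ.ext f (z + s • v) = 0) →
    ∀ w : Λ.A, (w : V n) ∈ E → f w = 0

/-- DOM: the product of two functions which do not vanish on the intersection with a subspace. -/
def S_DOM : Prop :=
  ∀ (n : ℕ) (Λ : HL n) (E : Submodule ℂ (V n)) (f g : Λ.A → ℂ), f ∈ Λ.MS ⊥ → g ∈ Λ.MS ⊥ →
    (∀ z : Λ.A, (z : V n) ∈ E → f z * g z = 0) →
    (∀ z : Λ.A, (z : V n) ∈ E → f z = 0) ∨ (∀ z : Λ.A, (z : V n) ∈ E → g z = 0)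

/-- INT: modular forms for a subgroup of finite index are integral. -/
def S_INT : Prop :=
  ∀ (n : ℕ) (Λ : HL n) (Γ Γ' : Subgroup (V n ≃ₗ[ℂ] V n)), Γ ≤ Λ.I → Γ' ≤ Γ →
    (Γ'.subgroupOf Γ).index ≠ 0 → ∀ (k : ℕ) (f : Λ.A → ℂ), Λ.IsMF Γ' k f →
    ∃ (m : ℕ) (a : ℕ → (Λ.A → ℂ)), 0 < m ∧ (∀ i, Λ.IsMF Γ (i * k) (a i)) ∧ a 0 = 1 ∧
      ∑ i ∈ Finset.range (m + 1), a i * f ^ (m - i) = 0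

/-- COM: commensurability. -/
def S_COM : Prop :=
  ∀ (n : ℕ) (Λ : HL n) (Γ : Subgroup (V n ≃ₗ[ℂ] V n)), Γ ≤ Λ.U →
    (Γ.subgroupOf Λ.U).index ≠ 0 → ∀ g ∈ Λ.IF, ∃ Γ' : Subgroup (V n ≃ₗ[ℂ] V n), Γ' ≤ Γ ∧
      (Γ'.subgroupOf Γ).index ≠ 0 ∧ ∀ γ ∈ Γ', g * γ * g⁻¹ ∈ Γ

/-- DEN: the isometries with entries in the field are dense. -/
def S_DEN : Prop :=
  ∀ (n : ℕ) (Λ : HL n), ∀ g ∈ Λ.I, ∀ ε > 0, ∃ g' ∈ Λ.IF, ∀ i : Fin (n + 1),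
    ‖g' (Pi.single i 1) - g (Pi.single i 1)‖ < ε

/-- SPR: the differentials of the translates of a form have no common zero. -/
def S_SPR : Prop :=
  ∀ (n : ℕ) (Λ : HL n) (k : ℕ) (f : Λ.A → ℂ), 0 < k → Λ.IsMF ⊥ k f → f ≠ 0 → ∀ z ∈ Λ.A,
    ∀ v : V n, v ≠ 0 → ∃ g ∈ Λ.I, fderiv ℂ (Λ.ext f) (g z) (g v) ≠ 0

/-- SPN: the same for the isometries with entries in the field. -/
def S_SPN : Prop :=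
  ∀ (n : ℕ) (Λ : HL n) (k : ℕ) (f : Λ.A → ℂ), 0 < k → Λ.IsMF ⊥ k f → f ≠ 0 → ∀ z ∈ Λ.A,
    ∀ v : V n, v ≠ 0 → ∃ g ∈ Λ.IF, fderiv ℂ (Λ.ext f) (g z) (g v) ≠ 0

/-- IND: algebraically independent translates on a subspace. -/
def S_IND : Prop :=
  ∀ (n : ℕ) (Λ : HL n) (k : ℕ) (f : Λ.A → ℂ), 0 < k → Λ.IsMF ⊥ k f → f ≠ 0 →
    ∀ (E : Submodule ℂ (V n)), (∃ z ∈ Λ.A, z ∈ E) → ∀ m : ℕ, Module.finrank ℂ E = m →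
    ∃ g : Fin m → (V n ≃ₗ[ℂ] V n), (∀ i, g i ∈ Λ.IF) ∧
      AlgebraicIndependent ℂ (fun i => fun w : {w : Λ.A // (w : V n) ∈ E} => Λ.act (g i) f w)

/-- ZER: forms of weight zero are constant. -/
def S_ZER : Prop :=
  ∀ (n : ℕ) (Λ : HL n) (Γ Γ₀ : Subgroup (V n ≃ₗ[ℂ] V n)), Γ ≤ Λ.I → Λ.IsFree Γ → Γ₀ ≤ Γ →
    (Γ₀.subgroupOf Γ).index ≠ 0 → ∀ f : Λ.A → ℂ, Λ.IsMF Γ₀ 0 f →
    ∃ c : ℂ, f = algebraMap ℂ (Λ.A → ℂ) c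

/-- UFR: free algebras are factorial. -/
def S_UFR : Prop :=
  ∀ (n : ℕ) (Λ : HL n) (Γ : Subgroup (V n ≃ₗ[ℂ] V n)), Λ.IsFree Γ →
    UniqueFactorizationMonoid (Λ.MS Γ) ∧
      ∀ u : Λ.MS Γ, IsUnit u → ∃ c : ℂ, u = algebraMap ℂ (Λ.MS Γ) c

/-- CO0: relatively prime forms for a group with a free algebra do not both vanish on a mirror. -/
def S_CO0 : Prop :=
  ∀ (n : ℕ) (Λ : HL n) (Γ : Subgroup (V n ≃ₗ[ℂ] V n)), Γ ≤ Λ.U →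
    (Γ.subgroupOf Λ.U).index ≠ 0 → Λ.IsFree Γ → ∀ r : V n, 0 < (Λ.h r r).re →
    ∀ p q : Λ.MS Γ, IsRelPrime p q →
    ¬ ∀ z : Λ.A, Λ.h z r = 0 → (p : Λ.A → ℂ) z = 0 ∧ (q : Λ.A → ℂ) z = 0

/-- COP: relatively prime forms do not both vanish on a mirror. -/
def S_COP : Prop :=
  ∀ (n : ℕ) (Λ : HL n) (Γ Γ₀ : Subgroup (V n ≃ₗ[ℂ] V n)), Γ ≤ Λ.U →
    (Γ.subgroupOf Λ.U).index ≠ 0 → Λ.IsFree Γ → Γ₀ ≤ Γ → (Γ₀.subgroupOf Γ).index ≠ 0 →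
    UniqueFactorizationMonoid (Λ.MS Γ₀) → ∀ r : V n, 0 < (Λ.h r r).re →
    ∀ p q : Λ.MS Γ₀, IsRelPrime p q →
    ¬ ∀ z : Λ.A, Λ.h z r = 0 → (p : Λ.A → ℂ) z = 0 ∧ (q : Λ.A → ℂ) z = 0

/-- PRM: the forms which vanish on a mirror are contained in a principal ideal. -/
def S_PRM : Prop :=
  ∀ (n : ℕ) (Λ : HL n) (Γ Γ₀ : Subgroup (V n ≃ₗ[ℂ] V n)), Γ ≤ Λ.U →
    (Γ.subgroupOf Λ.U).index ≠ 0 → Λ.IsFree Γ → Γ₀ ≤ Γ → (Γ₀.subgroupOf Γ).index ≠ 0 →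
    UniqueFactorizationMonoid (Λ.MS Γ₀) → ∀ r : V n, 0 < (Λ.h r r).re →
    ∃ k, 0 < k ∧ ∃ p ∈ Λ.gr Γ₀ k, ∀ q : Λ.MS Γ₀,
      (∀ z : Λ.A, Λ.h z r = 0 → (q : Λ.A → ℂ) z = 0) → ∃ c, q = p * c

/-- RHO: the action on the modular forms for a normal subgroup. -/
def S_RHO : Prop :=
  ∀ (n : ℕ) (Λ : HL n) (Γ₀ Γ₁ : Subgroup (V n ≃ₗ[ℂ] V n)), Γ₁ ≤ Λ.I → Γ₀ ≤ Γ₁ →
    (∀ g ∈ Γ₁, ∀ γ ∈ Γ₀, g * γ * g⁻¹ ∈ Γ₀) →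
    ∃ ρ : Γ₁ →* (Λ.MS Γ₀ ≃ₐ[ℂ] Λ.MS Γ₀),
      (∀ g f, ((ρ g f : Λ.MS Γ₀) : Λ.A → ℂ) =
        Λ.act ((g⁻¹ : Γ₁) : V n ≃ₗ[ℂ] V n) (f : Λ.A → ℂ)) ∧
      ((Γ₀.subgroupOf Γ₁).index ≠ 0 → Finite ρ.range) ∧
      (∀ g k, ∀ b ∈ Λ.gr Γ₀ k, ρ g b ∈ Λ.gr Γ₀ k) ∧
      ∀ g : Γ₁, (g : V n ≃ₗ[ℂ] V n) ∈ Γ₀ → ρ g = 1

/-- RAD: a continuous function is holomorphic if it is so outside the zeros of a holomorphic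
function. -/
def S_RAD : Prop :=
  ∀ (n : ℕ) (Ω : Set (V n)) (w c : V n → ℂ), IsOpen Ω → ContinuousOn w Ω →
    DifferentiableOn ℂ c Ω → (∀ z ∈ Ω, c z ≠ 0 → DifferentiableAt ℂ w z) →
    (∀ z ∈ Ω, ∃ v : V n, ¬ ∀ᶠ s : ℂ in nhds 0, c (z + s • v) = 0) → DifferentiableOn ℂ w Ω

/-- RSG: division by the square root of a square. -/
def S_RSG : Prop :=
  ∀ (n : ℕ) (Λ : HL n) (Γ : Subgroup (V n ≃ₗ[ℂ] V n)) (k l m : ℕ) (f b c : Λ.A → ℂ), Γ ≤ Λ.I →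
    Λ.IsMF Γ k f → Λ.IsMF Γ l b → Λ.IsMF Γ m c → b ≠ 0 → c ≠ 0 → f * f = c * (b * b) →
    ∃ j, k = j + l ∧ ∃ w, Λ.IsMF Γ j w ∧ f = w * b

/-- SQR: the forms for a subgroup of index two. -/
def S_SQR : Prop :=
  ∀ (n : ℕ) (Λ : HL n) (Γ Γ₀ : Subgroup (V n ≃ₗ[ℂ] V n)), Γ ≤ Λ.I → Λ.IsFree Γ → Γ₀ ≤ Γ →
    (Γ₀.subgroupOf Γ).index = 2 → ∀ τ ∈ Γ, τ ∉ Γ₀ →
    ∃ k, 0 < k ∧ ∃ w ∈ Λ.Mk Γ₀ k, ∀ f ∈ Λ.MS Γ₀, ∃ c ∈ Λ.MS Γ₀, Λ.act τ f - f = w * c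

/-- THG: Chevalley's theorem for modular forms. -/
def S_THG : Prop :=
  ∀ (n : ℕ) (Λ : HL n) (Γ Γ₀ Γ₁ : Subgroup (V n ≃ₗ[ℂ] V n)) (T : Set (V n ≃ₗ[ℂ] V n)),
    Γ₁ ≤ Λ.I → Γ ≤ Γ₁ → Γ₀ ≤ Γ → (Γ₀.subgroupOf Γ₁).index ≠ 0 →
    (∀ g ∈ Γ₁, ∀ γ ∈ Γ₀, g * γ * g⁻¹ ∈ Γ₀) → Λ.IsFree Γ → T ⊆ Γ₁ →
    Γ₁ ≤ Subgroup.closure ((Γ₀ : Set (V n ≃ₗ[ℂ] V n)) ∪ T) →
    (∀ σ ∈ T, ∃ k, 0 < k ∧ ∃ p ∈ Λ.Mk Γ₀ k, ∀ f ∈ Λ.MS Γ₀, ∃ c ∈ Λ.MS Γ₀,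
      Λ.act σ f - f = p * c) → Λ.IsFree Γ₁

/-- TWO: the group generated by the conjugates of `Γ`. -/
def S_TWO : Prop :=
  ∀ (n : ℕ) (Λ : HL n) (Γ Γ₀ Γ₁ : Subgroup (V n ≃ₗ[ℂ] V n)), Γ₁ ≤ Λ.I → Γ ≤ Γ₁ → Γ₀ ≤ Γ →
    (Γ₀.subgroupOf Γ₁).index ≠ 0 → (∀ g ∈ Γ₁, ∀ γ ∈ Γ₀, g * γ * g⁻¹ ∈ Γ₀) → Λ.IsFree Γ →
    (Γ₀.subgroupOf Γ).index = 2 →
    Λ.IsFree (Subgroup.closure {g | ∃ a ∈ Γ₁, ∃ γ ∈ Γ, g = a * γ * a⁻¹})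

/-- THA: the case of a normal subgroup with factorial algebra. -/
def S_THA : Prop :=
  ∀ (n : ℕ) (Λ : HL n) (Γ Γ₀ Γ₁ : Subgroup (V n ≃ₗ[ℂ] V n)), Γ₁ ≤ Λ.U → Γ ≤ Γ₁ → Γ₀ ≤ Γ →
    (Γ₀.subgroupOf Λ.U).index ≠ 0 → (∀ g ∈ Γ₁, ∀ γ ∈ Γ₀, g * γ * g⁻¹ ∈ Γ₀) → Λ.IsFree Γ →
    UniqueFactorizationMonoid (Λ.MS Γ₀) →
    Γ₁ ≤ Subgroup.closure ((Γ₀ : Set (V n ≃ₗ[ℂ] V n)) ∪ {σ | σ ∈ Γ₁ ∧ Λ.IsRefl σ}) →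
    Λ.IsFree Γ₁

/-- THB: the case of a normal subgroup of index at most two. -/
def S_THB : Prop :=
  ∀ (n : ℕ) (Λ : HL n) (Γ Γ₀ Γ₁ : Subgroup (V n ≃ₗ[ℂ] V n)), Γ₁ ≤ Λ.U → Γ ≤ Γ₁ → Γ₀ ≤ Γ →
    (Γ.subgroupOf Λ.U).index ≠ 0 → (∀ g ∈ Γ₁, ∀ γ ∈ Γ₀, g * γ * g⁻¹ ∈ Γ₀) → Λ.IsFree Γ →
    (Γ₀.subgroupOf Γ).index ≠ 0 → (Γ₀.subgroupOf Γ).index ≤ 2 →
    Γ₁ ≤ Subgroup.closure ((Γ : Set (V n ≃ₗ[ℂ] V n)) ∪ {σ | σ ∈ Γ₁ ∧ Λ.IsRefl σ}) →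
    Λ.IsFree Γ₁

/-- TH1: factoriality. -/
def S_TH1 : Prop :=
  ∀ (n : ℕ) (Λ : HL n) (Γ Γ₁ : Subgroup (V n ≃ₗ[ℂ] V n)), Γ₁ ≤ Λ.U → Γ ≤ Γ₁ →
    (Γ.subgroupOf Λ.U).index ≠ 0 → Λ.IsFree Γ →
    Γ₁ ≤ Subgroup.closure ((Γ : Set (V n ≃ₗ[ℂ] V n)) ∪ {σ | σ ∈ Γ₁ ∧ Λ.IsRefl σ}) →
    IsDomain (Λ.MS Γ₁) ∧ UniqueFactorizationMonoid (Λ.MS Γ₁) ∧
      ∀ (f g : Λ.MS Γ₁) (f' g' : Λ.MS Γ), (f' : Λ.A → ℂ) = f → (g' : Λ.A → ℂ) = g →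
        IsRelPrime f g → IsRelPrime f' g'

/-- THU: factoriality, and the ideals of the mirrors are principal. -/
def S_THU : Prop :=
  ∀ (n : ℕ) (Λ : HL n) (Γ Γ₁ : Subgroup (V n ≃ₗ[ℂ] V n)), Γ₁ ≤ Λ.U → Γ ≤ Γ₁ →
    (Γ.subgroupOf Λ.U).index ≠ 0 → Λ.IsFree Γ →
    Γ₁ ≤ Subgroup.closure ((Γ : Set (V n ≃ₗ[ℂ] V n)) ∪ {σ | σ ∈ Γ₁ ∧ Λ.IsRefl σ}) →
    IsDomain (Λ.MS Γ₁) ∧ UniqueFactorizationMonoid (Λ.MS Γ₁) ∧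
      ∀ r : V n, 0 < (Λ.h r r).re → ∃ p : Λ.MS Γ₁, ∀ q : Λ.MS Γ₁,
        (∀ z : Λ.A, Λ.h z r = 0 → (q : Λ.A → ℂ) z = 0) ↔ p ∣ q

end Pool.Agent.MFB
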