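import Mathlib
import Pool.Agent.MFB.Stmts

/-!
# Chevalley's theorem for graded algebras (module ALG)
-/

namespace Pool.Agent.MFB

namespace ALG

/-- A ring is integral over the invariants of a finite group of automorphisms. -/
theorem integral_of_inv {B : Type} [CommRing B] [Algebra ℂ B] (S : Subalgebra ℂ B)
    (K : Subgroup (B ≃ₐ[ℂ] B)) [Finite K] (h : ∀ b, b ∈ S ↔ ∀ g ∈ K, g b = b) :
    Algebra.IsIntegral S B := by
  have hinv : Algebra.IsInvariant S B K :=
    ⟨fun b hb => ⟨⟨b, (h b).2 fun g hg => hb ⟨g, hg⟩⟩, rfl⟩⟩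
  have hcomm : SMulCommClass K S B := by
    refine ⟨fun g s b => ?_⟩
    have h1 : (g : B ≃ₐ[ℂ] B) (s : B) = s := (h s).1 s.2 g g.2
    show (g : B ≃ₐ[ℂ] B) ((s : B) * b) = (s : B) * (g : B ≃ₐ[ℂ] B) b
    rw [map_mul, h1]
  exact Algebra.IsInvariant.isIntegral S B K

/-- Algebraically independent generators of the invariants form a transcendence basis. -/
theorem basis_of_inv {B : Type} [CommRing B] [IsDomain B] [Algebra ℂ B] {G : Type} [Group G]
    (ρ : G →* (B ≃ₐ[ℂ] B)) [Finite ρ.range] (H : Subgroup G) {m : ℕ} (x : Fin m → B)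
    (hx : AlgebraicIndependent ℂ x)
    (h : ∀ b, b ∈ Algebra.adjoin ℂ (Set.range x) ↔ ∀ g ∈ H, ρ g b = b) :
    IsTranscendenceBasis ℂ x := by
  have hle : H.map ρ ≤ ρ.range := Subgroup.map_le_range ρ H
  have hfin : Finite (H.map ρ) := Finite.of_injective _ (Subgroup.inclusion_injective hle)
  have hint : Algebra.IsIntegral (Algebra.adjoin ℂ (Set.range x)) B := by
    refine integral_of_inv _ (H.map ρ) fun b => ?_
    rw [h]
    constructor
    · rintro h1 _ ⟨g, hg, rfl⟩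
      exact h1 g hg
    · intro h1 g hg
      exact h1 (ρ g) ⟨g, hg, rfl⟩
  exact hx.isTranscendenceBasis_iff_isAlgebraic.2 inferInstance

end ALG

theorem ALG_thm (hNOE : S_NOE) (hGEN : S_GEN) (hCH2 : S_CH2) : S_ALG := by
  intro B _ _ _ 𝒜 G _ ρ hG hR H m x hx hind hH
  obtain ⟨r, f, hf1, hf2, hf3, hf4⟩ := hNOE B 𝒜 G ρ hG H m x hH
  have hgen := hGEN B 𝒜 G ρ hG r f hf1 hf2 hf3
  have hindf := hCH2 B 𝒜 G ρ hG hR H m x hx hind hH r f hf1 hf2 hf3 hf4
  have := hG.fin
  have b1 := ALG.basis_of_inv ρ H x hind hH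
  have b2 := ALG.basis_of_inv ρ ⊤ f hindf (fun b => by rw [hgen]; simp)
  have h2 : r = m := by
    have h3 := b2.lift_cardinalMk_eq b1
    simpa using h3
  subst h2
  exact ⟨f, hf1, hindf, hgen⟩

end Pool.Agent.MFB
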