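import Mathlib
import Pool.Agent.MFB.Stmts

/-!
# The derivative of a holomorphic function is continuous
-/

namespace Pool.Agent.MFB

namespace CDF

open Metric

theorem hasDeriv {n : ℕ} {Ω : Set (V n)} {f : V n → ℂ} (hΩ : IsOpen Ω)
    (hf : DifferentiableOn ℂ f Ω) {z v : V n} {s : ℂ} (hz : z + s • v ∈ Ω) :
    HasDerivAt (fun s : ℂ => f (z + s • v)) (fderiv ℂ f (z + s • v) v) s := by
  have h1 : HasFDerivAt f (fderiv ℂ f (z + s • v)) (z + s • v) :=
    (hf.differentiableAt (hΩ.mem_nhds hz)).hasFDerivAt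
  have h2 : HasDerivAt (fun s : ℂ => z + s • v) v s := by
    have h3 := ((hasDerivAt_id s).smul_const v).const_add z
    simpa using h3
  exact h1.comp_hasDerivAt s h2

end CDF

open Metric CDF in
theorem CDF_thm : S_CDF := by
  intro n Ω f hΩ hf
  rw [Metric.continuousOn_iff]
  intro z0 hz0 ε hε
  obtain ⟨r, hr, hrΩ⟩ := Metric.isOpen_iff.1 hΩ z0 hz0
  obtain ⟨ρ, hρ, hρr⟩ : ∃ ρ : ℝ, 0 < ρ ∧ 2 * ρ < r := ⟨r / 3, by linarith, by linarith⟩
  have hK : closedBall z0 (2 * ρ) ⊆ Ω := (closedBall_subset_ball hρr).trans hrΩ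
  have huc := (isCompact_closedBall z0 (2 * ρ)).uniformContinuousOn_of_continuous
    (hf.continuousOn.mono hK)
  rw [Metric.uniformContinuousOn_iff_le] at huc
  obtain ⟨δ, hδ, h⟩ := huc (ε / 2 * ρ) (by positivity)
  refine ⟨min δ ρ, lt_min hδ hρ, fun z hz hzd => ?_⟩
  have hz1 : dist z z0 < δ := lt_of_lt_of_le hzd (min_le_left _ _)
  have hz2 : dist z z0 < ρ := lt_of_lt_of_le hzd (min_le_right _ _)
  rw [dist_eq_norm]
  refine lt_of_le_of_lt (ContinuousLinearMap.opNorm_le_bound _ (by positivity : 0 ≤ ε / 2)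
    fun v => ?_) (by linarith)
  rw [_root_.sub_apply]
  by_cases hv : v = 0
  · simp [hv]
  have hv0 : 0 < ‖v‖ := norm_pos_iff.2 hv
  set R : ℝ := ρ / ‖v‖ with hR
  have hR0 : 0 < R := by positivity
  have hsv : ∀ s ∈ closedBall (0 : ℂ) R, ‖s • v‖ ≤ ρ := by
    intro s hs
    rw [mem_closedBall, dist_zero_right] at hs
    rw [norm_smul]
    calc ‖s‖ * ‖v‖ ≤ R * ‖v‖ := by gcongr
      _ = ρ := by rw [hR]; field_simp
  have hmem : ∀ a : V n, dist a z0 ≤ ρ → ∀ s ∈ closedBall (0 : ℂ) R,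
      a + s • v ∈ closedBall z0 (2 * ρ) := by
    intro a ha s hs
    rw [mem_closedBall, dist_eq_norm]
    rw [dist_eq_norm] at ha
    have h1 : a + s • v - z0 = (a - z0) + s • v := by abel
    rw [h1]
    calc ‖(a - z0) + s • v‖ ≤ ‖a - z0‖ + ‖s • v‖ := norm_add_le _ _
      _ ≤ ρ + ρ := add_le_add ha (hsv s hs)
      _ = 2 * ρ := by ring
  have hz0' : dist z0 z0 ≤ ρ := by rw [dist_self]; exact hρ.le
  let g : ℂ → ℂ := fun s => f (z + s • v) - f (z0 + s • v)
  have hder : ∀ s ∈ closedBall (0 : ℂ) R,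
      HasDerivAt g (fderiv ℂ f (z + s • v) v - fderiv ℂ f (z0 + s • v) v) s := by
    intro s hs
    exact (hasDeriv hΩ hf (hK (hmem z hz2.le s hs))).sub
      (hasDeriv hΩ hf (hK (hmem z0 hz0' s hs)))
  have hdiff : DiffContOnCl ℂ g (ball 0 R) := by
    apply DifferentiableOn.diffContOnCl
    rw [closure_ball _ hR0.ne']
    exact fun s hs => (hder s hs).differentiableAt.differentiableWithinAt
  have hbd : ∀ s ∈ sphere (0 : ℂ) R, ‖g s‖ ≤ ε / 2 * ρ := by
    intro s hs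
    have hs' : s ∈ closedBall (0 : ℂ) R := sphere_subset_closedBall hs
    rw [← dist_eq_norm]
    apply h _ (hmem z hz2.le s hs') _ (hmem z0 hz0' s hs')
    rw [dist_add_right]
    exact hz1.le
  have hfin := Complex.norm_deriv_le_of_forall_mem_sphere_norm_le hR0 hdiff hbd
  have h0 := (hder 0 (mem_closedBall_self hR0.le)).deriv
  rw [h0, zero_smul, add_zero, add_zero] at hfin
  calc ‖(fderiv ℂ f z) v - (fderiv ℂ f z0) v‖ ≤ ε / 2 * ρ / R := hfin
    _ = ε / 2 * ‖v‖ := by rw [hR]; field_simp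

end Pool.Agent.MFB
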