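import Mathlib
import Pool.Agent.MFB.Stmts

/-!
# CH2: the generators of the invariants are algebraically independent
-/

namespace Pool.Agent.MFB

namespace CH2

open Finset MvPolynomial

variable {B : Type} [CommRing B] [Algebra ℂ B] {𝒜 : ℕ → Submodule ℂ B} {G : Type} [Group G]
  {ρ : G →* (B ≃ₐ[ℂ] B)}

/-- The projections to the homogeneous parts. -/
theorem exists_proj (hA : GrA 𝒜 ρ) : ∃ pr : ℕ → B →ₗ[ℂ] B, (∀ k b, pr k b ∈ 𝒜 k) ∧
    (∀ k, ∀ b ∈ 𝒜 k, pr k b = b) ∧ (∀ j k, ∀ b ∈ 𝒜 j, j ≠ k → pr k b = 0) ∧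
    (∀ i n a b, a ∈ 𝒜 i → pr n (a * b) = if i ≤ n then a * pr (n - i) b else 0) ∧
    (∀ k γ b, ρ γ (pr k b) = pr k (ρ γ b)) := by
  classical
  let g1 : SetLike.GradedMonoid 𝒜 :=
    { one_mem := hA.one
      mul_mem := fun i j a b ha hb => hA.mul i j a ha b hb }
  let dec : DirectSum.Decomposition 𝒜 := hA.int.chooseDecomposition
  let g2 : GradedRing 𝒜 := { g1, dec with }
  let pr : ℕ → B →ₗ[ℂ] B := fun k =>
    { toFun := fun b => ((DirectSum.decompose 𝒜 b k : 𝒜 k) : B)
      map_add' := fun a b => by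
        rw [DirectSum.decompose_add, DirectSum.add_apply, Submodule.coe_add]
      map_smul' := fun c b => by
        rw [DirectSum.decompose_smul, RingHom.id_apply]
        rfl }
  have hpr : ∀ k b, pr k b = ((DirectSum.decompose 𝒜 b k : 𝒜 k) : B) := fun k b => rfl
  have h1 : ∀ k b, pr k b ∈ 𝒜 k := fun k b => (DirectSum.decompose 𝒜 b k).2
  have h2 : ∀ k, ∀ b ∈ 𝒜 k, pr k b = b := by
    intro k b hb
    rw [hpr, DirectSum.decompose_of_mem_same 𝒜 hb]
  have h3 : ∀ j k, ∀ b ∈ 𝒜 j, j ≠ k → pr k b = 0 := by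
    intro j k b hb hjk
    rw [hpr, DirectSum.decompose_of_mem_ne 𝒜 hb hjk]
  refine ⟨pr, h1, h2, h3, ?_, ?_⟩
  · intro i n a b ha
    rw [hpr, DirectSum.coe_decompose_mul_of_left_mem 𝒜 n ha]
    rfl
  · intro k γ b
    have hsum : b = ∑ i ∈ (DirectSum.decompose 𝒜 b).support, pr i b :=
      (DirectSum.sum_support_decompose 𝒜 b).symm
    have h4 : ∀ i, pr k (ρ γ (pr i b)) = if i = k then ρ γ (pr i b) else 0 := by
      intro i
      split_ifs with hik
      · subst hik
        exact h2 _ _ (hA.gr _ _ _ (h1 _ _))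
      · exact h3 _ _ _ (hA.gr γ i _ (h1 i b)) hik
    conv_rhs => rw [hsum]
    rw [map_sum, map_sum, Finset.sum_congr rfl (fun i _ => h4 i), Finset.sum_ite_eq']
    split_ifs with hk
    · rfl
    · have : DirectSum.decompose 𝒜 b k = 0 := by
        simpa using hk
      rw [hpr, this, Submodule.coe_zero, map_zero]

/-- The averaging operator. -/
theorem exists_av (hA : GrA 𝒜 ρ) : ∃ av : B →ₗ[ℂ] B, (∀ b γ, ρ γ (av b) = av b) ∧
    ∀ a, (∀ γ, ρ γ a = a) → ∀ b, av (a * b) = a * av b ∧ av a = a := by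
  classical
  have := hA.fin
  have : Fintype ρ.range := Fintype.ofFinite _
  have hc : ((Fintype.card ρ.range : ℕ) : ℂ) ≠ 0 := by
    exact_mod_cast Fintype.card_ne_zero
  let av : B →ₗ[ℂ] B := ((Fintype.card ρ.range : ℕ) : ℂ)⁻¹ •
    ∑ σ : ρ.range, ((σ : B ≃ₐ[ℂ] B).toLinearEquiv : B →ₗ[ℂ] B)
  have hav : ∀ b, av b = ((Fintype.card ρ.range : ℕ) : ℂ)⁻¹ •
      ∑ σ : ρ.range, (σ : B ≃ₐ[ℂ] B) b := by
    intro b
    simp only [av, LinearMap.smul_apply, LinearMap.sum_apply]
    rfl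
  refine ⟨av, ?_, ?_⟩
  · intro b γ
    rw [hav, map_smul, map_sum]
    congr 1
    refine Fintype.sum_equiv (Equiv.mulLeft (⟨ρ γ, ⟨γ, rfl⟩⟩ : ρ.range)) _ _ fun σ => ?_
    rfl
  · intro a ha b
    have h1 : ∀ σ : ρ.range, (σ : B ≃ₐ[ℂ] B) a = a := by
      rintro ⟨_, γ, rfl⟩
      exact ha γ
    refine ⟨?_, ?_⟩
    · rw [hav, hav, mul_smul_comm, Finset.mul_sum]
      congr 1
      refine Finset.sum_congr rfl fun σ _ => ?_
      rw [map_mul, h1]
    · rw [hav, Finset.sum_congr rfl fun σ _ => h1 σ, Finset.sum_const, Finset.card_univ,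
        ← Nat.cast_smul_eq_nsmul ℂ, smul_smul, inv_mul_cancel₀ hc, one_smul]

/-- The chain rule. -/
theorem chain {C : Type} [CommRing C] [Algebra ℂ C] (D : Derivation ℂ C C) {r : ℕ}
    (F : Fin r → C) (p : MvPolynomial (Fin r) ℂ) :
    D (aeval F p) = ∑ i, aeval F (pderiv i p) * D (F i) := by
  classical
  induction p using MvPolynomial.induction_on with
  | C a =>
    simp
  | add p q hp hq =>
    simp only [map_add, hp, hq, add_mul, Finset.sum_add_distrib]
  | mul_X p j hp =>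
    rw [map_mul, aeval_X, Derivation.leibniz, smul_eq_mul, smul_eq_mul, hp]
    have h1 : ∀ i, aeval F (pderiv i (p * X j)) * D (F i) =
        (if i = j then aeval F p * D (F j) else 0) +
          F j * (aeval F (pderiv i p) * D (F i)) := by
      intro i
      rw [Derivation.leibniz, smul_eq_mul, smul_eq_mul, map_add, map_mul, map_mul, aeval_X,
        pderiv_X, Pi.single_apply]
      by_cases hij : i = j
      · subst hij
        simp
        ring
      · rw [if_neg hij, if_neg (Ne.symm hij)]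
        simp
        ring
    rw [Finset.sum_congr rfl fun i _ => h1 i, Finset.sum_add_distrib, Finset.sum_ite_eq',
      if_pos (Finset.mem_univ j), Finset.mul_sum]

/-- CH1 for a finite set of indices. -/
theorem ch1_finset (hCH1 : S_CH1) [IsDomain B] (hA : GrA 𝒜 ρ) (hR : RefG 𝒜 ρ) {ι : Type}
    [DecidableEq ι] (J : Finset ι) (i : ι) (hi : i ∈ J) (q g : ι → B) (d : ι → ℕ) (N : ℕ)
    (hq : ∀ j ∈ J, q j ∈ 𝒜 (d j)) (hinv : ∀ j γ, ρ γ (q j) = q j)
    (hg : ∀ j ∈ J, g j = 0 ∨ (d j ≤ N ∧ g j ∈ 𝒜 (N - d j))) (h0 : ∑ j ∈ J, q j * g j = 0)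
    (hno : ¬ ∃ c : ι → B, (∀ j γ, ρ γ (c j) = c j) ∧ q i = ∑ j ∈ J.erase i, q j * c j) :
    g i ∈ IA 𝒜 ρ := by
  set s := (J.erase i).card with hs
  let e : Fin s ≃ (J.erase i : Finset ι) := (J.erase i).equivFin.symm
  let τ : Fin (s + 1) → ι := Fin.cons i (fun a => (e a : ι))
  have hτ0 : τ 0 = i := rfl
  have hτs : ∀ a : Fin s, τ a.succ = e a := fun a => rfl
  have hτJ : ∀ a, τ a ∈ J := by
    intro a
    refine Fin.cases ?_ (fun a => ?_) a
    · exact hi
    · rw [hτs]
      exact Finset.mem_of_mem_erase (e a).2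
  have hsum : ∀ u : ι → B, ∑ a : Fin s, u (e a) = ∑ j ∈ J.erase i, u j := by
    intro u
    rw [Equiv.sum_comp e (fun y : (J.erase i : Finset ι) => u y)]
    exact Finset.sum_coe_sort (J.erase i) u
  refine hCH1 B 𝒜 G ρ hA hR s (fun a => q (τ a)) (fun a => g (τ a)) (fun a => d (τ a)) N
    (fun a => hq _ (hτJ a)) (fun a γ => hinv _ γ) (fun a => hg _ (hτJ a)) ?_ ?_
  · rw [Fin.sum_univ_succ]
    simp only [hτ0, hτs]
    rw [hsum (fun j => q j * g j), Finset.add_sum_erase J (fun j => q j * g j) hi, h0]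
  · rintro ⟨c, hc, hc'⟩
    apply hno
    refine ⟨fun j => if hj : j ∈ J.erase i then c (e.symm ⟨j, hj⟩) else 0, ?_, ?_⟩
    · intro j γ
      by_cases hj : j ∈ J.erase i
      · simp only [hj, dif_pos]
        exact hc _ γ
      · simp only [hj, dif_neg, not_false_iff, map_zero]
    · have h1 := hsum (fun j => q j * (if hj : j ∈ J.erase i then c (e.symm ⟨j, hj⟩) else 0))
      rw [← h1]
      have h2 : q i = ∑ a : Fin s, q (e a) * c a := hc'
      rw [h2]
      refine Finset.sum_congr rfl fun a _ => ?_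
      have h3 : ((e a : ι)) ∈ J.erase i := (e a).2
      rw [dif_pos h3]
      have h4 : e.symm ⟨(e a : ι), h3⟩ = a := by
        have : (⟨(e a : ι), h3⟩ : (J.erase i : Finset ι)) = e a := rfl
        rw [this, Equiv.symm_apply_apply]
      rw [h4]

/-- Homogeneous coefficients. -/
theorem hom_coef (hA : GrA 𝒜 ρ) {r : ℕ} (Q : Fin r → B) (d : Fin r → ℕ) (N : ℕ)
    (hQ : ∀ i, Q i = 0 ∨ (d i ≤ N ∧ Q i ∈ 𝒜 (N - d i))) (J : Finset (Fin r)) (l : Fin r)
    (c : Fin r → B) (hc1 : ∀ j γ, ρ γ (c j) = c j) (hc2 : ∀ j, j ∉ J → c j = 0)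
    (hc3 : Q l = ∑ j, Q j * c j) :
    ∃ c : Fin r → B, (∀ j γ, ρ γ (c j) = c j) ∧ (∀ j, j ∉ J → c j = 0) ∧
      Q l = ∑ j, Q j * c j ∧ ∀ j, c j = 0 ∨ (d l ≤ d j ∧ c j ∈ 𝒜 (d j - d l)) := by
  classical
  obtain ⟨pr, pr1, pr2, pr3, pr4, pr5⟩ := exists_proj hA
  by_cases hl : Q l = 0
  · refine ⟨fun _ => 0, fun j γ => map_zero _, fun j _ => rfl, ?_, fun j => Or.inl rfl⟩
    simp [hl]
  · obtain ⟨hlN, hlQ⟩ := (hQ l).resolve_left hl
    refine ⟨fun j => if Q j ≠ 0 ∧ d l ≤ d j then pr (d j - d l) (c j) else 0, ?_, ?_, ?_, ?_⟩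
    · intro j γ
      show ρ γ (if Q j ≠ 0 ∧ d l ≤ d j then pr (d j - d l) (c j) else 0) =
        if Q j ≠ 0 ∧ d l ≤ d j then pr (d j - d l) (c j) else 0
      split_ifs with h
      · rw [pr5, hc1]
      · rw [map_zero]
    · intro j hj
      show (if Q j ≠ 0 ∧ d l ≤ d j then pr (d j - d l) (c j) else 0) = 0
      rw [hc2 j hj, map_zero, ite_self]
    · have h1 := congrArg (pr (N - d l)) hc3
      rw [pr2 _ _ hlQ, map_sum] at h1
      rw [h1]
      refine Finset.sum_congr rfl fun j _ => ?_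
      by_cases hj : Q j = 0
      · simp [hj]
      · obtain ⟨hjN, hjQ⟩ := (hQ j).resolve_left hj
        rw [pr4 _ _ _ _ hjQ]
        by_cases hdj : d l ≤ d j
        · rw [if_pos (by omega)]
          show Q j * (pr (N - d l - (N - d j))) (c j) =
            Q j * (if Q j ≠ 0 ∧ d l ≤ d j then pr (d j - d l) (c j) else 0)
          have : N - d l - (N - d j) = d j - d l := by omega
          rw [if_pos ⟨hj, hdj⟩, this]
        · rw [if_neg (by omega)]
          show 0 = Q j * (if Q j ≠ 0 ∧ d l ≤ d j then pr (d j - d l) (c j) else 0)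
          rw [if_neg (fun h => hdj h.2), mul_zero]
    · intro j
      show (if Q j ≠ 0 ∧ d l ≤ d j then pr (d j - d l) (c j) else 0) = 0 ∨
        (d l ≤ d j ∧ (if Q j ≠ 0 ∧ d l ≤ d j then pr (d j - d l) (c j) else 0) ∈ 𝒜 (d j - d l))
      split_ifs with h
      · exact Or.inr ⟨h.2, pr1 _ _⟩
      · exact Or.inl rfl

/-- A minimal set of indices. -/
theorem exists_J (ρ : G →* (B ≃ₐ[ℂ] B)) {r : ℕ} (Q : Fin r → B) :
    ∃ J : Finset (Fin r), (∀ l, ∃ c : Fin r → B, (∀ j γ, ρ γ (c j) = c j) ∧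
      (∀ j, j ∉ J → c j = 0) ∧ Q l = ∑ j, Q j * c j) ∧
      ∀ i ∈ J, ¬ ∃ c : Fin r → B, (∀ j γ, ρ γ (c j) = c j) ∧
        Q i = ∑ j ∈ J.erase i, Q j * c j := by
  classical
  let good : Finset (Fin r) → Prop := fun J => ∀ l, ∃ c : Fin r → B,
    (∀ j γ, ρ γ (c j) = c j) ∧ (∀ j, j ∉ J → c j = 0) ∧ Q l = ∑ j, Q j * c j
  have huniv : good Finset.univ := by
    intro l
    refine ⟨Pi.single l 1, ?_, fun j hj => absurd (Finset.mem_univ j) hj, ?_⟩
    · intro j γ
      by_cases hj : j = l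
      · subst hj
        simp
      · rw [Pi.single_eq_of_ne hj, map_zero]
    · simp [Pi.single_apply]
  obtain ⟨J, hJ, hJmin⟩ := Finset.exists_min_image (Finset.univ.filter good) Finset.card
    ⟨Finset.univ, Finset.mem_filter.2 ⟨Finset.mem_univ _, huniv⟩⟩
  have hJg : good J := (Finset.mem_filter.1 hJ).2
  refine ⟨J, hJg, ?_⟩
  rintro i hi ⟨c, hc, hQc⟩
  have hgood : good (J.erase i) := by
    intro l
    obtain ⟨b, hb1, hb2, hb3⟩ := hJg l
    refine ⟨fun j => if j ∈ J.erase i then b j + c j * b i else 0, ?_, ?_, ?_⟩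
    · intro j γ
      show ρ γ (if j ∈ J.erase i then b j + c j * b i else 0) =
        if j ∈ J.erase i then b j + c j * b i else 0
      split_ifs with h
      · rw [map_add, map_mul, hb1, hb1, hc]
      · rw [map_zero]
    · intro j hj
      exact if_neg hj
    · have h1 : ∑ j, Q j * b j = ∑ j ∈ J, Q j * b j := by
        symm
        refine Finset.sum_subset (Finset.subset_univ J) fun j _ hj => ?_
        rw [hb2 j hj, mul_zero]
      have h2 : ∑ j, Q j * (if j ∈ J.erase i then b j + c j * b i else 0) =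
          ∑ j ∈ J.erase i, Q j * (b j + c j * b i) := by
        simp only [mul_ite, mul_zero]
        rw [Finset.sum_ite_mem, Finset.univ_inter]
      rw [h2, hb3, h1, ← Finset.add_sum_erase J (fun j => Q j * b j) hi]
      have h3 : Q i * b i = ∑ j ∈ J.erase i, Q j * (c j * b i) := by
        conv_lhs => rw [hQc, Finset.sum_mul]
        exact Finset.sum_congr rfl fun j _ => mul_assoc _ _ _
      rw [h3, ← Finset.sum_add_distrib]
      exact Finset.sum_congr rfl fun j _ => by ring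
  have h4 := hJmin (J.erase i) (Finset.mem_filter.2 ⟨Finset.mem_univ _, hgood⟩)
  have h5 := Finset.card_erase_lt_of_mem hi
  omega

/-- The ideal of the invariants of positive degree is generated by generators. -/
theorem mem_IA {r : ℕ} {f : Fin r → B} (hgen : ∀ a, (∀ γ, ρ γ a = a) → (∃ k, 0 < k ∧ a ∈ 𝒜 k) →
      ∃ c : Fin r → B, (∀ i γ, ρ γ (c i) = c i) ∧ a = ∑ i, f i * c i) {u : B}
    (hu : u ∈ IA 𝒜 ρ) : ∃ w : Fin r → B, u = ∑ l, f l * w l := by
  have h1 : IA 𝒜 ρ ≤ Ideal.span (Set.range f) := by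
    rw [IA, Ideal.span_le]
    rintro a ⟨ha, hk⟩
    obtain ⟨c, -, hc⟩ := hgen a ha hk
    rw [SetLike.mem_coe, hc]
    exact Ideal.sum_mem _ fun i _ => Ideal.mul_mem_right _ _ (Ideal.subset_span ⟨i, rfl⟩)
  obtain ⟨w, hw⟩ := (Ideal.mem_span_range_iff_exists_fun).1 (h1 hu)
  exact ⟨w, by rw [← hw]; exact Finset.sum_congr rfl fun l _ => mul_comm _ _⟩

end CH2

open Finset MvPolynomial in
theorem CH2_thm (hCH1 : S_CH1) (hDER : S_DER) (hMIN : S_MIN) : S_CH2 := by
  classical
  intro B _ _ _ 𝒜 G _ ρ hA hR H m x hx hxi hH r f hf hfi hgen hmin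
  by_contra hnot
  choose e he hxe using hx
  choose d hd hfd using hf
  obtain ⟨pr, pr1, pr2, pr3, pr4, pr5⟩ := CH2.exists_proj hA
  obtain ⟨av, av1, av2⟩ := CH2.exists_av hA
  obtain ⟨D, hD1, hD2⟩ := hDER B 𝒜 hA.one hA.mul hA.int m x e hxe hxi
  obtain ⟨N, P, hP0, ⟨i0, hi0⟩, hPd, hPn⟩ := hMIN B 𝒜 hA.one hA.mul hA.int r f d hfd hd hnot
  set Q : Fin r → B := fun i => aeval f (pderiv i P) with hQ
  have hQi : ∀ i γ, ρ γ (Q i) = Q i := by
    intro i γ
    have h1 := MvPolynomial.comp_aeval_apply (R := ℂ) (f := f)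
      (φ := ((ρ γ : B ≃ₐ[ℂ] B) : B →ₐ[ℂ] B)) (p := pderiv i P)
    have h2 : (fun i => ((ρ γ : B ≃ₐ[ℂ] B) : B →ₐ[ℂ] B) (f i)) = f := by
      funext j
      exact hfi j γ
    rw [h2] at h1
    exact h1
  obtain ⟨J, hJ, hno⟩ := CH2.exists_J ρ Q
  have hJne : J.Nonempty := by
    rw [Finset.nonempty_iff_ne_empty]
    rintro rfl
    obtain ⟨c, -, hc2, hc3⟩ := hJ i0
    apply hPn i0 hi0
    show Q i0 = 0
    rw [hc3]
    exact Finset.sum_eq_zero fun j _ => by rw [hc2 j (Finset.notMem_empty j), mul_zero]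
  obtain ⟨i, hi⟩ := hJne
  have hJN : ∀ j ∈ J, d j ≤ N := by
    intro j hj
    rcases hPd j with h0 | h0
    · exfalso
      apply hno j hj
      refine ⟨fun _ => 0, fun _ _ => map_zero _, ?_⟩
      simp only [mul_zero, Finset.sum_const_zero]
      exact h0
    · exact h0.1
  have hcoef : ∀ l, ∃ c : Fin r → B, (∀ j γ, ρ γ (c j) = c j) ∧ (∀ j, j ∉ J → c j = 0) ∧
      Q l = ∑ j, Q j * c j ∧ ∀ j, c j = 0 ∨ (d l ≤ d j ∧ c j ∈ 𝒜 (d j - d l)) := by
    intro l
    obtain ⟨c, hc1, hc2, hc3⟩ := hJ l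
    exact CH2.hom_coef hA Q d N hPd J l c hc1 hc2 hc3
  choose c hc1 hc2 hc3 hc4 using hcoef
  let F : Fin r → Algebra.adjoin ℂ (Set.range x) := fun l =>
    ⟨f l, (hH (f l)).2 fun g _ => hfi l g⟩
  have hF : ∀ l, ((F l : Algebra.adjoin ℂ (Set.range x)) : B) = f l := fun l => rfl
  have hFa : ∀ p : MvPolynomial (Fin r) ℂ,
      ((aeval F p : Algebra.adjoin ℂ (Set.range x)) : B) = aeval f p := by
    intro p
    exact MvPolynomial.comp_aeval_apply (R := ℂ) (f := F)
      (φ := (Algebra.adjoin ℂ (Set.range x)).val) (p := p)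
  -- the derivatives
  set E : Fin m → Fin r → B := fun k l => ((D k (F l) : Algebra.adjoin ℂ (Set.range x)) : B)
    with hE
  have hE1 : ∀ k l, E k l = 0 ∨ (e k ≤ d l ∧ E k l ∈ 𝒜 (d l - e k)) := by
    intro k l
    rcases hD1 k (d l) (F l) (hfd l) with h | h
    · left
      show ((D k (F l) : Algebra.adjoin ℂ (Set.range x)) : B) = 0
      rw [h]
      rfl
    · exact Or.inr h
  have hE2 : ∀ l, ∑ k, (e k : ℂ) • (x k * E k l) = (d l : ℂ) • f l := fun l =>
    hD2 (d l) (F l) (hfd l)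
  have hch : ∀ k, ∑ l, Q l * E k l = 0 := by
    intro k
    have h1 := CH2.chain (D k) F P
    have h2 : aeval F P = 0 := by
      apply Subtype.ext
      rw [hFa, hP0]
      rfl
    rw [h2, map_zero] at h1
    have h3 := congrArg (fun u : Algebra.adjoin ℂ (Set.range x) => (u : B)) h1
    have h4 : ((∑ l, aeval F (pderiv l P) * D k (F l) :
        Algebra.adjoin ℂ (Set.range x)) : B) = ∑ l, Q l * E k l := by
      rw [AddSubmonoidClass.coe_finset_sum]
      refine Finset.sum_congr rfl fun l _ => ?_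
      rw [MulMemClass.coe_mul, hFa]
    rw [← h4]
    exact h3.symm
  let g : Fin m → Fin r → B := fun k j => E k j + ∑ l ∈ Jᶜ, c l j * E k l
  have hg : ∀ k j, g k j = E k j + ∑ l ∈ Jᶜ, c l j * E k l := fun k j => rfl
  have hgQ : ∀ k, ∑ j ∈ J, Q j * g k j = 0 := by
    intro k
    have h1 : ∀ l, Q l = ∑ j ∈ J, Q j * c l j := by
      intro l
      rw [hc3 l]
      symm
      refine Finset.sum_subset (Finset.subset_univ J) fun j _ hj => ?_
      rw [hc2 l j hj, mul_zero]
    have h2 : ∑ j ∈ J, Q j * g k j = ∑ j ∈ J, Q j * E k j + ∑ l ∈ Jᶜ, Q l * E k l := by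
      have h3 : ∀ j ∈ J, Q j * g k j = Q j * E k j + ∑ l ∈ Jᶜ, Q j * c l j * E k l := by
        intro j _
        rw [hg, mul_add, Finset.mul_sum]
        congr 1
        exact Finset.sum_congr rfl fun l _ => (mul_assoc _ _ _).symm
      rw [Finset.sum_congr rfl h3, Finset.sum_add_distrib, Finset.sum_comm]
      congr 1
      refine Finset.sum_congr rfl fun l _ => ?_
      rw [← Finset.sum_mul, ← h1 l]
    rw [h2, Finset.sum_add_sum_compl, hch]
  have hgd : ∀ k, ∀ j ∈ J, g k j = 0 ∨ (N - d j ≤ N - e k ∧ g k j ∈ 𝒜 (N - e k - (N - d j))) := by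
    intro k j hj
    have hjN := hJN j hj
    by_cases hk : e k ≤ d j
    · right
      have h1 : N - e k - (N - d j) = d j - e k := by omega
      rw [h1]
      refine ⟨by omega, ?_⟩
      rw [hg]
      refine Submodule.add_mem _ ?_ (Submodule.sum_mem _ fun l _ => ?_)
      · rcases hE1 k j with h | h
        · rw [h]
          exact Submodule.zero_mem _
        · exact h.2
      · rcases hE1 k l with h | h
        · rw [h, mul_zero]
          exact Submodule.zero_mem _
        · rcases hc4 l j with h' | h'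
          · rw [h', zero_mul]
            exact Submodule.zero_mem _
          · have h2 := hA.mul _ _ _ h'.2 _ h.2
            have h3 : d j - d l + (d l - e k) = d j - e k := by
              have := h.1
              have := h'.1
              omega
            rwa [h3] at h2
    · left
      rw [hg]
      have h1 : E k j = 0 := by
        rcases hE1 k j with h | h
        · exact h
        · exact absurd h.1 hk
      rw [h1, zero_add]
      refine Finset.sum_eq_zero fun l _ => ?_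
      rcases hE1 k l with h | h
      · rw [h, mul_zero]
      · rcases hc4 l j with h' | h'
        · rw [h', zero_mul]
        · exact absurd (h.1.trans h'.1) hk
  have hgI : ∀ k, g k i ∈ IA 𝒜 ρ := by
    intro k
    refine CH2.ch1_finset hCH1 hA hR J i hi Q (g k) (fun j => N - d j) (N - e k) ?_ hQi
      (hgd k) (hgQ k) (hno i hi)
    intro j _
    rcases hPd j with h | h
    · show Q j ∈ 𝒜 (N - d j)
      have : Q j = 0 := h
      rw [this]
      exact Submodule.zero_mem _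
    · exact h.2
  choose w hw using fun k => CH2.mem_IA hgen (hgI k)
  set b : Fin r → B := fun l => ∑ k, (e k : ℂ) • (x k * w k l) with hb
  have hb0 : ∀ l, pr 0 (b l) = 0 := by
    intro l
    rw [hb, map_sum]
    refine Finset.sum_eq_zero fun k _ => ?_
    rw [map_smul, pr4 _ _ _ _ (hxe k), if_neg (by have := he k; omega), smul_zero]
  have heul : (d i : ℂ) • f i + ∑ l ∈ Jᶜ, c l i * ((d l : ℂ) • f l) = ∑ l, f l * b l := by
    have h1 : ∑ k, (e k : ℂ) • (x k * g k i) =
        (d i : ℂ) • f i + ∑ l ∈ Jᶜ, c l i * ((d l : ℂ) • f l) := by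
      have h2 : ∀ k, (e k : ℂ) • (x k * g k i) = (e k : ℂ) • (x k * E k i) +
          ∑ l ∈ Jᶜ, c l i * ((e k : ℂ) • (x k * E k l)) := by
        intro k
        rw [hg, mul_add, smul_add, Finset.mul_sum, Finset.smul_sum]
        congr 1
        refine Finset.sum_congr rfl fun l _ => ?_
        rw [mul_smul_comm]
        congr 1
        ring
      rw [Finset.sum_congr rfl fun k _ => h2 k, Finset.sum_add_distrib, hE2, Finset.sum_comm]
      congr 1
      refine Finset.sum_congr rfl fun l _ => ?_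
      rw [← Finset.mul_sum, hE2]
    have h3 : ∑ k, (e k : ℂ) • (x k * g k i) = ∑ l, f l * b l := by
      have h4 : ∀ k, (e k : ℂ) • (x k * g k i) =
          ∑ l, f l * ((e k : ℂ) • (x k * w k l)) := by
        intro k
        rw [hw k, Finset.mul_sum, Finset.smul_sum]
        refine Finset.sum_congr rfl fun l _ => ?_
        rw [mul_smul_comm]
        congr 1
        ring
      rw [Finset.sum_congr rfl fun k _ => h4 k, Finset.sum_comm]
      refine Finset.sum_congr rfl fun l _ => ?_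
      rw [← Finset.mul_sum]
    rw [← h1, h3]
  -- the components of degree `d i`
  have hcomp : (d i : ℂ) • f i + ∑ l ∈ Jᶜ, c l i * ((d l : ℂ) • f l) =
      ∑ l, f l * (if d l ≤ d i then pr (d i - d l) (b l) else 0) := by
    have hmem : (d i : ℂ) • f i + ∑ l ∈ Jᶜ, c l i * ((d l : ℂ) • f l) ∈ 𝒜 (d i) := by
      refine Submodule.add_mem _ (Submodule.smul_mem _ _ (hfd i))
        (Submodule.sum_mem _ fun l _ => ?_)
      rcases hc4 l i with h | h
      · rw [h, zero_mul]
        exact Submodule.zero_mem _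
      · have h2 := hA.mul _ _ _ h.2 _ (Submodule.smul_mem _ (d l : ℂ) (hfd l))
        have h3 : d i - d l + d l = d i := by
          have := h.1
          omega
        rwa [h3] at h2
    rw [← pr2 _ _ hmem, heul, map_sum]
    refine Finset.sum_congr rfl fun l _ => ?_
    rw [pr4 _ _ _ _ (hfd l)]
    split_ifs
    · rfl
    · rw [mul_zero]
  have hdi : (d i : ℂ) ≠ 0 := by
    have := hd i
    exact_mod_cast this.ne'
  let v : Fin r → B := fun l => (d i : ℂ)⁻¹ •
    ((if d l ≤ d i then pr (d i - d l) (b l) else 0) - (if l ∈ J then 0 else (d l : ℂ) • c l i))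
  have hv : ∀ l, v l = (d i : ℂ)⁻¹ • ((if d l ≤ d i then pr (d i - d l) (b l) else 0) -
    (if l ∈ J then 0 else (d l : ℂ) • c l i)) := fun l => rfl
  have hvi : v i = 0 := by
    rw [hv, if_pos le_rfl, if_pos hi, Nat.sub_self, hb0, sub_zero, smul_zero]
  have hfv : f i = ∑ l, f l * v l := by
    have h1 : ∑ l, f l * v l = (d i : ℂ)⁻¹ •
        (∑ l, f l * (if d l ≤ d i then pr (d i - d l) (b l) else 0) -
          ∑ l ∈ Jᶜ, c l i * ((d l : ℂ) • f l)) := by
      have h2 : ∑ l ∈ Jᶜ, c l i * ((d l : ℂ) • f l) =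
          ∑ l, f l * (if l ∈ J then 0 else (d l : ℂ) • c l i) := by
        have h3 : ∀ l, f l * (if l ∈ J then 0 else (d l : ℂ) • c l i) =
            if l ∈ Jᶜ then c l i * ((d l : ℂ) • f l) else 0 := by
          intro l
          by_cases hl : l ∈ J
          · rw [if_pos hl, if_neg (by simpa using hl), mul_zero]
          · rw [if_neg hl, if_pos (by simpa using hl), mul_smul_comm, mul_smul_comm, mul_comm]
        rw [Finset.sum_congr rfl fun l _ => h3 l, Finset.sum_ite_mem, Finset.univ_inter]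
      rw [h2, ← Finset.sum_sub_distrib, Finset.smul_sum]
      refine Finset.sum_congr rfl fun l _ => ?_
      rw [hv, mul_smul_comm, mul_sub]
    rw [h1, ← hcomp, add_sub_cancel_right, smul_smul, inv_mul_cancel₀ hdi, one_smul]
  apply hmin i
  refine ⟨fun l => av (v l), fun l γ => av1 _ γ, ?_, ?_⟩
  · show av (v i) = 0
    rw [hvi, map_zero]
  · have h1 := congrArg av hfv
    rw [(av2 (f i) (hfi i) 0).2, map_sum] at h1
    rw [h1]
    exact Finset.sum_congr rfl fun l _ => (av2 (f l) (hfi l) (v l)).1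

end Pool.Agent.MFB
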