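import Mathlib
import Pool.Agent.MFB.Stmts

/-!
# CO0: relatively prime forms do not both vanish on a mirror
-/

namespace Pool.Agent.MFB

open Complex

namespace CO0

variable {n : ℕ} (Λ : HL n)

/-- Restriction of functions to a subspace. -/
def res (E : Submodule ℂ (V n)) : (Λ.A → ℂ) →ₐ[ℂ] ({w : Λ.A // (w : V n) ∈ E} → ℂ) where
  toFun f w := f w.1
  map_one' := rfl
  map_mul' _ _ := rfl
  map_zero' := rfl
  map_add' _ _ := rfl
  commutes' _ := rfl

theorem res_apply (E : Submodule ℂ (V n)) (f : Λ.A → ℂ) (w : {w : Λ.A // (w : V n) ∈ E}) :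
    res Λ E f w = f w.1 := rfl

/-- The algebra of the restrictions. -/
def DD (E : Submodule ℂ (V n)) : Subalgebra ℂ ({w : Λ.A // (w : V n) ∈ E} → ℂ) :=
  (Λ.MS ⊥).map (res Λ E)

theorem isDomain_DD (hDOM : S_DOM) (E : Submodule ℂ (V n)) (hE : ∃ z ∈ Λ.A, z ∈ E) :
    IsDomain (DD Λ E) := by
  have h1 : NoZeroDivisors (DD Λ E) := by
    refine ⟨?_⟩
    rintro ⟨_, f, hf, rfl⟩ ⟨_, g, hg, rfl⟩ h
    have h2 : ∀ z : Λ.A, (z : V n) ∈ E → f z * g z = 0 := by
      intro z hz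
      exact congrFun (congrArg Subtype.val h) ⟨z, hz⟩
    rcases hDOM n Λ E f g hf hg h2 with h3 | h3
    · left
      exact Subtype.ext (funext fun w => h3 w.1 w.2)
    · right
      exact Subtype.ext (funext fun w => h3 w.1 w.2)
  have h2 : Nontrivial (DD Λ E) := by
    obtain ⟨z, hz, hzE⟩ := hE
    refine ⟨0, 1, fun h => ?_⟩
    have h3 := congrFun (congrArg Subtype.val h) (⟨⟨z, hz⟩, hzE⟩ : {w : Λ.A // (w : V n) ∈ E})
    exact zero_ne_one h3
  exact NoZeroDivisors.to_isDomain _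

/-- The hyperplane orthogonal to a positive vector meets the cone. -/
theorem exists_orth {r : V n} (hr : 0 < (Λ.h r r).re) : ∃ z ∈ Λ.A, Λ.h z r = 0 := by
  obtain ⟨z0, hz0⟩ := Λ.exists_mem_A
  have hr0 : Λ.h r r ≠ 0 := by
    intro h0
    rw [h0] at hr
    simp at hr
  set c : ℂ := Λ.h z0 r / Λ.h r r with hc
  set z : V n := z0 - c • r with hz
  have h1 : Λ.h z r = 0 := by
    rw [hz, Λ.h_sub_left, Λ.h_smul_left, hc]
    field_simp
    ring
  refine ⟨z, ?_, h1⟩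
  have h2 : z0 = c • r + z := by
    rw [hz]
    abel
  have h3 : Λ.h z0 z0 = ((‖c‖ ^ 2 : ℝ) : ℂ) * Λ.h r r + Λ.h z z := by
    conv_lhs => rw [h2]
    rw [Λ.h_add_left, Λ.h_add_right, Λ.h_add_right, Λ.h_smul_self, Λ.h_smul_left,
      Λ.h_smul_right, h1, Λ.h_swap_zero h1]
    ring
  have h4 : (Λ.h z0 z0).re = ‖c‖ ^ 2 * (Λ.h r r).re + (Λ.h z z).re := by
    rw [h3, Complex.add_re, Complex.re_ofReal_mul]
  rw [HL.mem_A] at hz0 ⊢
  have h5 : 0 ≤ ‖c‖ ^ 2 * (Λ.h r r).re := by positivity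
  linarith

theorem finrank_ker {r : V n} (hr : 0 < (Λ.h r r).re) :
    Module.finrank ℂ (LinearMap.ker (Λ.hl r)) = n := by
  have hr0 : Λ.h r r ≠ 0 := by
    intro h0
    rw [h0] at hr
    simp at hr
  have h1 : LinearMap.range (Λ.hl r) = ⊤ := by
    refine LinearMap.range_eq_top.mpr fun c => ⟨(c / Λ.h r r) • r, ?_⟩
    rw [HL.hl_apply, Λ.h_smul_left]
    field_simp
  have h2 := LinearMap.finrank_range_add_finrank_ker (Λ.hl r)
  rw [h1, finrank_top, Module.finrank_self, Module.finrank_fin_fun] at h2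
  omega

/-- A relation of integrality. -/
theorem integral_of {R D : Type} [CommRing R] [CommRing D] [Algebra R D] (y : D) (m : ℕ)
    (b : ℕ → R) (hb : b 0 = 1)
    (h : ∑ i ∈ Finset.range (m + 1), algebraMap R D (b i) * y ^ (m - i) = 0) :
    IsIntegral R y := by
  rcases subsingleton_or_nontrivial R with hR | hR
  · have h1 : Subsingleton D := by
      have h2 : (1 : D) = 0 := by
        rw [← map_one (algebraMap R D), ← map_zero (algebraMap R D), Subsingleton.elim (1 : R) 0]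
      exact subsingleton_of_zero_eq_one h2.symm
    rw [Subsingleton.elim y 0]
    exact isIntegral_zero
  refine ⟨Polynomial.X ^ m + ∑ i ∈ Finset.range m,
    Polynomial.C (b (i + 1)) * Polynomial.X ^ (m - (i + 1)), ?_, ?_⟩
  · apply Polynomial.monic_X_pow_add
    refine (Polynomial.degree_sum_le _ _).trans_lt ?_
    refine (Finset.sup_lt_iff (WithBot.bot_lt_coe m)).mpr fun i hi => ?_
    rw [Finset.mem_range] at hi
    refine (Polynomial.degree_C_mul_X_pow_le _ _).trans_lt ?_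
    exact WithBot.coe_lt_coe.mpr (by omega : m - (i + 1) < m)
  · rw [← h, Finset.sum_range_succ', hb, map_one, one_mul, Nat.sub_zero, Polynomial.eval₂_add,
      Polynomial.eval₂_pow, Polynomial.eval₂_X, Polynomial.eval₂_finsetSum, add_comm]
    congr 1
    refine Finset.sum_congr rfl fun i _ => ?_
    rw [Polynomial.eval₂_mul, Polynomial.eval₂_C, Polynomial.eval₂_pow, Polynomial.eval₂_X]

end CO0

open CO0 in
/-- **CO0** -/
theorem CO0_thm (hDOM : S_DOM) (hINT : S_INT) (hELI : S_ELI) (hIND : S_IND) (hCOM : S_COM) :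
    S_CO0 := by
  intro n Λ Γ hΓ hfin hfree r hr p q hpq hz
  obtain ⟨X, hX, hXi, hXg⟩ := hfree
  set E : Submodule ℂ (V n) := LinearMap.ker (Λ.hl r) with hE
  have hmemE : ∀ z, z ∈ E ↔ Λ.h z r = 0 := fun z => LinearMap.mem_ker
  have hEA : ∃ z ∈ Λ.A, z ∈ E := by
    obtain ⟨z, hz, hz'⟩ := exists_orth Λ hr
    exact ⟨z, hz, (hmemE z).mpr hz'⟩
  have hdom : IsDomain (DD Λ E) := isDomain_DD Λ hDOM E hEA
  have hΓI : Γ ≤ Λ.I := hΓ.trans Λ.U_le_I
  -- the homomorphism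
  have hXm : ∀ i, res Λ E (X i) ∈ DD Λ E := by
    intro i
    obtain ⟨k, _, hk⟩ := hX i
    exact ⟨X i, (hk.mono bot_le).mem_MS, rfl⟩
  let φ : MvPolynomial (Fin (n + 1)) ℂ →ₐ[ℂ] DD Λ E :=
    MvPolynomial.aeval fun i => (⟨res Λ E (X i), hXm i⟩ : DD Λ E)
  have hφ : ∀ P : MvPolynomial (Fin (n + 1)) ℂ, ((φ P : DD Λ E) : {w : Λ.A // (w : V n) ∈ E} → ℂ) =
      res Λ E (MvPolynomial.aeval X P) := by
    intro P
    have h1 : (DD Λ E).val.comp φ = (res Λ E).comp (MvPolynomial.aeval X) := by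
      apply MvPolynomial.algHom_ext
      intro i
      change ((φ (MvPolynomial.X i) : DD Λ E) : {w : Λ.A // (w : V n) ∈ E} → ℂ) =
        res Λ E (MvPolynomial.aeval X (MvPolynomial.X i))
      rw [MvPolynomial.aeval_X, MvPolynomial.aeval_X]
    exact DFunLike.congr_fun h1 P
  have hsurj : ∀ f ∈ Λ.MS Γ, ∃ P : MvPolynomial (Fin (n + 1)) ℂ, MvPolynomial.aeval X P = f := by
    intro f hf
    rw [← hXg, Algebra.adjoin_range_eq_range_aeval] at hf
    exact hf
  have hrange : ∀ f ∈ Λ.MS Γ, ∃ b : φ.range,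
      ((b : DD Λ E) : {w : Λ.A // (w : V n) ∈ E} → ℂ) = res Λ E f := by
    intro f hf
    obtain ⟨P, rfl⟩ := hsurj f hf
    exact ⟨⟨φ P, P, rfl⟩, hφ P⟩
  -- the relatively prime polynomials
  obtain ⟨p', hp'⟩ := hsurj p p.2
  obtain ⟨q', hq'⟩ := hsurj q q.2
  have hmem : ∀ P : MvPolynomial (Fin (n + 1)) ℂ, MvPolynomial.aeval X P ∈ Λ.MS Γ := by
    intro P
    rw [← hXg, Algebra.adjoin_range_eq_range_aeval]
    exact ⟨P, rfl⟩
  have hrel : IsRelPrime p' q' := by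
    rintro d ⟨a, ha⟩ ⟨b, hb⟩
    have h1 : IsUnit (⟨MvPolynomial.aeval X d, hmem d⟩ : Λ.MS Γ) := by
      refine hpq ⟨⟨MvPolynomial.aeval X a, hmem a⟩, ?_⟩ ⟨⟨MvPolynomial.aeval X b, hmem b⟩, ?_⟩
      · apply Subtype.ext
        change (p : Λ.A → ℂ) = MvPolynomial.aeval X d * MvPolynomial.aeval X a
        rw [← map_mul, ← ha, hp']
      · apply Subtype.ext
        change (q : Λ.A → ℂ) = MvPolynomial.aeval X d * MvPolynomial.aeval X b
        rw [← map_mul, ← hb, hq']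
    obtain ⟨⟨v, hv⟩, hv'⟩ := isUnit_iff_exists_inv.mp h1
    obtain ⟨P, rfl⟩ := hsurj v hv
    have h2 : MvPolynomial.aeval X (d * P) = MvPolynomial.aeval X (1 : MvPolynomial _ ℂ) := by
      rw [map_mul, map_one]
      exact congrArg Subtype.val hv'
    exact IsUnit.of_mul_eq_one _ (hXi h2)
  have hzero : ∀ P : MvPolynomial (Fin (n + 1)) ℂ, (∀ z : Λ.A, Λ.h z r = 0 → MvPolynomial.aeval X P z = 0) → φ P = 0 := by
    intro P hP
    apply Subtype.ext
    rw [hφ]
    funext w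
    exact hP w.1 ((hmemE _).mp w.2)
  have hp0 : φ p' = 0 := hzero p' fun z hz' => by
    rw [hp']
    exact (hz z hz').1
  have hq0 : φ q' = 0 := hzero q' fun z hz' => by
    rw [hq']
    exact (hz z hz').2
  -- the translates
  obtain ⟨k, hk, hXk⟩ := hX 0
  have hX0 : X 0 ≠ 0 := hXi.ne_zero 0
  obtain ⟨g, hg, hgi⟩ := hIND n Λ k (X 0) hk (hXk.mono bot_le) hX0 E hEA n (finrank_ker Λ hr)
  have hgI : ∀ i, g i ∈ Λ.I := fun i => (hg i).1
  have hym : ∀ i, res Λ E (Λ.act (g i) (X 0)) ∈ DD Λ E := by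
    intro i
    refine ⟨_, ((hXk.mono bot_le).act (Γ' := ⊥) (hgI i) ?_).mem_MS, rfl⟩
    intro γ hγ
    rw [Subgroup.mem_bot] at hγ ⊢
    rw [hγ, mul_one, mul_inv_cancel]
  refine hELI n (DD Λ E) φ p' q' hrel hp0 hq0 (fun i => ⟨_, hym i⟩) ?_ ?_
  · intro i
    obtain ⟨Γ', hΓ', hind, hconj⟩ := hCOM n Λ Γ hΓ hfin (g i) (hg i)
    obtain ⟨m, a, _, ha, ha0, hsum⟩ := hINT n Λ Γ Γ' hΓI hΓ' hind k (Λ.act (g i) (X 0))
      (hXk.act (hgI i) hconj)
    choose b hb using fun i => hrange (a i) (ha i).mem_MS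
    refine integral_of _ m b ?_ ?_
    · apply Subtype.ext
      apply Subtype.ext
      rw [hb, ha0, map_one]
      rfl
    · apply Subtype.ext
      have h1 := congrArg (res Λ E) hsum
      rw [map_sum, map_zero] at h1
      have h2 : ∀ j, (((algebraMap φ.range (DD Λ E) (b j) *
          (⟨res Λ E (Λ.act (g i) (X 0)), hym i⟩ : DD Λ E) ^ (m - j) : DD Λ E)) :
          {w : Λ.A // (w : V n) ∈ E} → ℂ) =
          res Λ E (a j * (Λ.act (g i) (X 0)) ^ (m - j)) := by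
        intro j
        rw [map_mul, map_pow, ← hb j]
        rfl
      rw [AddSubmonoidClass.coe_finsetSum, Finset.sum_congr rfl fun j _ => h2 j]
      exact h1
  · refine AlgebraicIndependent.of_comp (DD Λ E).val ?_
    exact hgi

end Pool.Agent.MFB
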