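import Mathlib
import Pool.Agent.MFB.Stmts

/-!
# COM: the isometries with entries in the field commensurate the arithmetic groups
-/

namespace Pool.Agent.MFB

open Complex

namespace COM

/-- The square root of `d`. -/
noncomputable def sq (d : ℤ) : ℂ := (Real.sqrt (-(d : ℝ)) : ℝ) * Complex.I

theorem sq_mul (d : ℤ) (hd : d < 0) : sq d * sq d = (d : ℂ) := by
  have h0 : (0 : ℝ) ≤ -(d : ℝ) := by
    have : (d : ℝ) < 0 := by exact_mod_cast hd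
    linarith
  have h1 : ((Real.sqrt (-(d : ℝ)) : ℝ) : ℂ) * ((Real.sqrt (-(d : ℝ)) : ℝ) : ℂ) = -(d : ℂ) := by
    rw [← Complex.ofReal_mul, Real.mul_self_sqrt h0]
    push_cast
    rfl
  unfold sq
  calc _ = ((Real.sqrt (-(d : ℝ)) : ℝ) : ℂ) * ((Real.sqrt (-(d : ℝ)) : ℝ) : ℂ) *
        (Complex.I * Complex.I) := by ring
    _ = (d : ℂ) := by rw [h1, Complex.I_mul_I]; ring

theorem mem_Fld {d : ℤ} {z : ℂ} : z ∈ Fld d ↔ ∃ a b : ℚ, z = (a : ℂ) + (b : ℂ) * sq d := Iff.rfl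

/-- The field as a subfield. -/
noncomputable def K (d : ℤ) (hd : d < 0) : Subfield ℂ where
  carrier := Fld d
  mul_mem' := by
    rintro _ _ ⟨a, b, rfl⟩ ⟨a', b', rfl⟩
    refine mem_Fld.2 ⟨a * a' + b * b' * d, a * b' + b * a', ?_⟩
    have := sq_mul d hd
    push_cast
    show ((a : ℂ) + b * sq d) * ((a' : ℂ) + b' * sq d) = _
    linear_combination (b : ℂ) * b' * this
  one_mem' := mem_Fld.2 ⟨1, 0, by simp⟩
  add_mem' := by
    rintro _ _ ⟨a, b, rfl⟩ ⟨a', b', rfl⟩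
    refine mem_Fld.2 ⟨a + a', b + b', ?_⟩
    push_cast
    unfold sq
    ring
  zero_mem' := mem_Fld.2 ⟨0, 0, by simp⟩
  neg_mem' := by
    rintro _ ⟨a, b, rfl⟩
    refine mem_Fld.2 ⟨-a, -b, ?_⟩
    push_cast
    unfold sq
    ring
  inv_mem' := by
    rintro _ ⟨a, b, rfl⟩
    show ((a : ℂ) + b * sq d)⁻¹ ∈ Fld d
    by_cases h0 : (a : ℂ) + b * sq d = 0
    · rw [h0, inv_zero]
      exact mem_Fld.2 ⟨0, 0, by simp⟩
    · have h1 := sq_mul d hd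
      have h2 : a ^ 2 - b ^ 2 * d ≠ 0 := by
        intro h3
        have hd' : (d : ℚ) < 0 := by exact_mod_cast hd
        have h4 : a ^ 2 = 0 := by nlinarith [sq_nonneg a, sq_nonneg b]
        have h5 : b ^ 2 * d = 0 := by linarith
        have h6 : b = 0 := by
          rcases mul_eq_zero.1 h5 with h | h
          · exact pow_eq_zero_iff (two_ne_zero) |>.1 h
          · exact absurd h hd'.ne
        have h7 : a = 0 := pow_eq_zero_iff (two_ne_zero) |>.1 h4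
        apply h0
        rw [h6, h7]
        simp
      have h3 : ((a : ℂ) ^ 2 - (b : ℂ) ^ 2 * d) ≠ 0 := by
        have : (((a ^ 2 - b ^ 2 * d : ℚ)) : ℂ) ≠ 0 := by exact_mod_cast h2
        simpa using this
      refine mem_Fld.2 ⟨a / (a ^ 2 - b ^ 2 * d), -b / (a ^ 2 - b ^ 2 * d), ?_⟩
      push_cast
      apply inv_eq_of_mul_eq_one_left
      field_simp
      linear_combination (-(b : ℂ) ^ 2) * h1

theorem mem_K {d : ℤ} {hd : d < 0} {z : ℂ} : z ∈ K d hd ↔ z ∈ Fld d := Iff.rfl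

theorem isIntegral_sq (d : ℤ) (hd : d < 0) : IsIntegral ℤ (sq d) := by
  refine IsIntegral.of_pow (n := 2) (by norm_num) ?_
  rw [pow_two, sq_mul d hd]
  exact_mod_cast isIntegral_algebraMap (R := ℤ) (A := ℂ) (x := d)

theorem exists_den {d : ℤ} (hd : d < 0) {a : ℂ} (ha : a ∈ Fld d) :
    ∃ N : ℕ, 0 < N ∧ (N : ℂ) * a ∈ OF d := by
  obtain ⟨p, q, rfl⟩ := ha
  refine ⟨p.den * q.den, Nat.mul_pos p.den_pos q.den_pos, ?_⟩
  have hp : (p.den : ℂ) * (p : ℂ) = (p.num : ℂ) := by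
    exact_mod_cast Rat.den_mul_eq_num p
  have hq : (q.den : ℂ) * (q : ℂ) = (q.num : ℂ) := by
    exact_mod_cast Rat.den_mul_eq_num q
  have e : ((p.den * q.den : ℕ) : ℂ) * ((p : ℂ) + q * sq d) =
      ((q.den * p.num : ℤ) : ℂ) + ((p.den * q.num : ℤ) : ℂ) * sq d := by
    push_cast
    rw [← hp, ← hq]
    ring
  show ((p.den * q.den : ℕ) : ℂ) * ((p : ℂ) + q * sq d) ∈ OF d
  rw [e]
  refine ⟨mem_Fld.2 ⟨((q.den * p.num : ℤ) : ℚ), ((p.den * q.num : ℤ) : ℚ), by push_cast; rfl⟩, ?_⟩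
  have h1 : ∀ z : ℤ, IsIntegral ℤ (z : ℂ) := fun z => by
    exact_mod_cast isIntegral_algebraMap (R := ℤ) (A := ℂ) (x := z)
  exact (h1 _).add ((h1 _).mul (isIntegral_sq d hd))

variable {n : ℕ} (Λ : HL n)

/-- Every vector with entries in the field has a multiple in the lattice. -/
theorem exists_mul (x : V n) (hx : ∀ i, x i ∈ Fld Λ.d) :
    ∃ m : ℕ, 0 < m ∧ (m : ℂ) • x ∈ Λ.L := by
  classical
  set k := K Λ.d Λ.neg with hk
  -- the embedding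
  let ι : (Fin (n + 1) → k) → V n := fun y i => (y i : ℂ)
  let S : Set (Fin (n + 1) → k) := {y | ι y ∈ Λ.L}
  have htop : Submodule.span k S = ⊤ := by
    by_contra hne
    obtain ⟨f, hf0, hf⟩ := Submodule.exists_le_ker_of_lt_top _ (lt_top_iff_ne_top.2 hne)
    apply hf0
    let F : V n →ₗ[ℂ] ℂ := ∑ i, ((f (Pi.single i 1) : k) : ℂ) • LinearMap.proj i
    have hF : ∀ v, F v = ∑ i, ((f (Pi.single i 1) : k) : ℂ) * v i := by
      intro v
      simp [F]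
    have hfF : ∀ y : Fin (n + 1) → k, ((f y : k) : ℂ) = F (ι y) := by
      intro y
      rw [hF]
      have h1 : y = ∑ i, y i • (Pi.single i (1 : k) : Fin (n + 1) → k) := by
        funext j
        simp [Finset.sum_apply, Pi.single_apply]
      conv_lhs => rw [h1]
      rw [map_sum]
      push_cast
      refine Finset.sum_congr rfl fun i _ => ?_
      rw [map_smul, smul_eq_mul]
      push_cast
      exact mul_comm _ _
    have hFL : ∀ v ∈ Λ.L, F v = 0 := by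
      intro v hv
      have h1 : ι (fun i => ⟨v i, Λ.coord v hv i⟩) = v := rfl
      have h2 : (fun i => ⟨v i, Λ.coord v hv i⟩ : Fin (n + 1) → k) ∈ S := by
        show ι (fun i => ⟨v i, Λ.coord v hv i⟩) ∈ Λ.L
        rw [h1]
        exact hv
      have h3 := hf (Submodule.subset_span h2)
      rw [LinearMap.mem_ker] at h3
      have h4 := hfF (fun i => ⟨v i, Λ.coord v hv i⟩)
      rw [h3, h1] at h4
      rw [← h4]
      simp
    have hF0 : F = 0 := by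
      have h1 : (⊤ : Submodule ℂ (V n)) ≤ LinearMap.ker F := by
        rw [← Λ.span, Submodule.span_le]
        intro v hv
        exact LinearMap.mem_ker.2 (hFL v hv)
      exact LinearMap.ker_eq_top.1 (top_le_iff.1 h1)
    refine LinearMap.ext fun y => ?_
    have h1 := hfF y
    rw [hF0] at h1
    simpa using h1
  have key : ∀ y : Fin (n + 1) → k, ∃ m : ℕ, 0 < m ∧ (m : ℂ) • ι y ∈ Λ.L := by
    intro y
    have hy : y ∈ Submodule.span k S := by rw [htop]; trivial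
    induction hy using Submodule.span_induction with
    | mem y hy =>
      refine ⟨1, one_pos, ?_⟩
      rw [Nat.cast_one, one_smul]
      exact hy
    | zero =>
      refine ⟨1, one_pos, ?_⟩
      have : ι 0 = 0 := by funext i; simp [ι]
      rw [this, smul_zero]
      exact Λ.L.zero_mem
    | add y z _ _ h1 h2 =>
      obtain ⟨m, hm, h1⟩ := h1
      obtain ⟨m', hm', h2⟩ := h2
      refine ⟨m * m', Nat.mul_pos hm hm', ?_⟩
      have h3 : ((m * m' : ℕ) : ℂ) • ι (y + z) =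
          m' • ((m : ℂ) • ι y) + m • ((m' : ℂ) • ι z) := by
        funext i
        simp [ι]
        ring
      rw [h3]
      exact Λ.L.add_mem (Λ.L.nsmul_mem h1 _) (Λ.L.nsmul_mem h2 _)
    | smul a y _ h1 =>
      obtain ⟨m, hm, h1⟩ := h1
      obtain ⟨N, hN, h2⟩ := exists_den Λ.neg (a := (a : ℂ)) a.2
      refine ⟨N * m, Nat.mul_pos hN hm, ?_⟩
      have h3 : ((N * m : ℕ) : ℂ) • ι (a • y) = ((N : ℂ) * (a : ℂ)) • ((m : ℂ) • ι y) := by
        funext i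
        simp [ι]
        ring
      rw [h3]
      exact Λ.smul _ h2 _ h1
  exact key (fun i => ⟨x i, hx i⟩)

/-- A linear map which preserves the vectors with entries in the field maps a multiple of the
lattice into the lattice. -/
theorem exists_mul_map (g : V n ≃ₗ[ℂ] V n)
    (hg : ∀ x : V n, (∀ i, x i ∈ Fld Λ.d) → ∀ i, g x i ∈ Fld Λ.d) :
    ∃ m : ℕ, 0 < m ∧ ∀ x ∈ Λ.L, (m : ℂ) • g x ∈ Λ.L := by
  classical
  obtain ⟨S, hS⟩ := Λ.fg
  have h1 : ∀ s ∈ Λ.L, ∃ m : ℕ, 0 < m ∧ (m : ℂ) • g s ∈ Λ.L := fun s hs =>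
    exists_mul Λ (g s) (hg s (Λ.coord s hs))
  choose! M hM0 hM using h1
  have hSL : ∀ s ∈ S, s ∈ Λ.L := by
    intro s hs
    rw [← hS]
    exact AddSubgroup.subset_closure hs
  refine ⟨∏ s ∈ S, M s, Finset.prod_pos fun s hs => hM0 s (hSL s hs), ?_⟩
  intro x hx
  rw [← hS] at hx
  induction hx using AddSubgroup.closure_induction with
  | mem x hx =>
    have hx' : x ∈ S := hx
    rw [← Finset.mul_prod_erase S M hx', mul_comm, Nat.cast_mul, mul_smul]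
    have := Λ.L.nsmul_mem (hM x (hSL x hx')) (∏ s ∈ S.erase x, M s)
    rwa [← Nat.cast_smul_eq_nsmul ℂ] at this
  | zero => simp
  | add x y _ _ h1 h2 =>
    rw [map_add, smul_add]
    exact Λ.L.add_mem h1 h2
  | neg x _ h1 =>
    rw [map_neg, smul_neg]
    exact Λ.L.neg_mem h1

/-- The congruence subgroup. -/
def U2 (N : ℕ) : Subgroup (V n ≃ₗ[ℂ] V n) where
  carrier := {γ | γ ∈ Λ.U ∧ ∀ x ∈ Λ.L, ∃ w ∈ Λ.L, γ x - x = (N : ℂ) • w}
  one_mem' := ⟨Λ.U.one_mem, fun x _ => ⟨0, Λ.L.zero_mem, by simp⟩⟩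
  mul_mem' := by
    rintro a b ⟨ha, ha'⟩ ⟨hb, hb'⟩
    refine ⟨Λ.U.mul_mem ha hb, fun x hx => ?_⟩
    obtain ⟨w, hw, h1⟩ := hb' x hx
    obtain ⟨w', hw', h2⟩ := ha' (b x) ((hb.1 x).2 hx)
    refine ⟨w' + w, Λ.L.add_mem hw' hw, ?_⟩
    rw [LinearEquiv.mul_apply, smul_add, ← h1, ← h2]
    abel
  inv_mem' := by
    rintro a ⟨ha, ha'⟩
    refine ⟨Λ.U.inv_mem ha, fun x hx => ?_⟩
    have hax : a⁻¹ x ∈ Λ.L := ((Λ.U.inv_mem ha).1 x).2 hx
    obtain ⟨w, hw, h1⟩ := ha' (a⁻¹ x) hax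
    have h2 : a (a⁻¹ x) = x := a.apply_symm_apply x
    rw [h2] at h1
    refine ⟨-w, Λ.L.neg_mem hw, ?_⟩
    rw [smul_neg, ← h1]
    abel

theorem mem_U2 {N : ℕ} {γ : V n ≃ₗ[ℂ] V n} :
    γ ∈ U2 Λ N ↔ γ ∈ Λ.U ∧ ∀ x ∈ Λ.L, ∃ w ∈ Λ.L, γ x - x = (N : ℂ) • w := Iff.rfl

theorem U2_index (N : ℕ) (hN : 0 < N) : (U2 Λ N).relIndex Λ.U ≠ 0 := by
  classical
  obtain ⟨S, hS⟩ := Λ.fg
  have hSL : ∀ s ∈ S, s ∈ Λ.L := by
    intro s hs
    rw [← hS]
    exact AddSubgroup.subset_closure hs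
  -- the finite quotient
  let NL : AddSubgroup Λ.L := (nsmulAddMonoidHom (α := Λ.L) N).range
  have hfin : Finite (Λ.L ⧸ NL) := by
    have : AddGroup.FG Λ.L := (AddGroup.fg_iff_addSubgroup_fg Λ.L).2 Λ.fg
    have : AddGroup.FG (Λ.L ⧸ NL) := inferInstance
    have : Module.Finite ℤ (Λ.L ⧸ NL) := Module.Finite.iff_addGroup_fg.2 inferInstance
    refine Module.finite_of_fg_torsion (Λ.L ⧸ NL) ?_
    intro q
    induction q using QuotientAddGroup.induction_on with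
    | H x =>
      refine ⟨⟨(N : ℤ), mem_nonZeroDivisors_of_ne_zero (by exact_mod_cast hN.ne')⟩, ?_⟩
      show (N : ℤ) • (x : Λ.L ⧸ NL) = 0
      rw [natCast_zsmul, ← QuotientAddGroup.mk_nsmul, QuotientAddGroup.eq_zero_iff]
      exact ⟨x, rfl⟩
  let F : Λ.U → (S → Λ.L ⧸ NL) := fun γ s =>
    QuotientAddGroup.mk ⟨(γ : V n ≃ₗ[ℂ] V n) s, (γ.2.1 s).2 (hSL s s.2)⟩
  have hF : ∀ γ γ' : Λ.U, F γ = F γ' → γ⁻¹ * γ' ∈ (U2 Λ N).subgroupOf Λ.U := by
    intro γ γ' h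
    rw [Subgroup.mem_subgroupOf]
    refine ⟨(γ⁻¹ * γ').2, ?_⟩
    intro x hx
    rw [← hS] at hx
    induction hx using AddSubgroup.closure_induction with
    | mem x hx =>
      have hx' : x ∈ S := hx
      have h1 := congrFun h ⟨x, hx'⟩
      rw [QuotientAddGroup.eq] at h1
      obtain ⟨w, hw⟩ := h1
      have hw' : (N : ℂ) • (w : V n) = (γ' : V n ≃ₗ[ℂ] V n) x - (γ : V n ≃ₗ[ℂ] V n) x := by
        have := congrArg (Subtype.val) hw
        simp only [nsmulAddMonoidHom_apply] at this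
        rw [AddSubgroup.coe_nsmul] at this
        rw [Nat.cast_smul_eq_nsmul ℂ, this, AddSubgroup.coe_add, AddSubgroup.coe_neg]
        abel
      refine ⟨(γ : V n ≃ₗ[ℂ] V n)⁻¹ (w : V n), ?_, ?_⟩
      · exact ((Λ.U.inv_mem γ.2).1 _).2 w.2
      · rw [← map_smul, hw', map_sub]
        have h2 : (γ : V n ≃ₗ[ℂ] V n)⁻¹ ((γ : V n ≃ₗ[ℂ] V n) x) = x :=
          LinearEquiv.symm_apply_apply _ x
        rw [h2]
        rfl
    | zero => exact ⟨0, Λ.L.zero_mem, by simp⟩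
    | add x y _ _ h1 h2 =>
      obtain ⟨w, hw, h1⟩ := h1
      obtain ⟨w', hw', h2⟩ := h2
      refine ⟨w + w', Λ.L.add_mem hw hw', ?_⟩
      rw [map_add, smul_add, ← h1, ← h2]
      abel
    | neg x _ h1 =>
      obtain ⟨w, hw, h1⟩ := h1
      refine ⟨-w, Λ.L.neg_mem hw, ?_⟩
      rw [map_neg, smul_neg, ← h1]
      abel
  have hq : Finite (Λ.U ⧸ (U2 Λ N).subgroupOf Λ.U) := by
    refine Finite.of_injective (fun q : Λ.U ⧸ (U2 Λ N).subgroupOf Λ.U => F q.out) ?_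
    intro a b hab
    have h1 := hF _ _ hab
    rw [← QuotientGroup.out_eq' a, ← QuotientGroup.out_eq' b]
    exact QuotientGroup.eq.2 h1
  exact Subgroup.index_ne_zero_of_finite

/-- Conjugates of elements of the congruence subgroup preserve the lattice. -/
theorem conj_mem {g : V n ≃ₗ[ℂ] V n} (hg : g ∈ Λ.I) {m : ℕ} (hm : 0 < m)
    (h1 : ∀ x ∈ Λ.L, (m : ℂ) • g x ∈ Λ.L) (h2 : ∀ x ∈ Λ.L, (m : ℂ) • g⁻¹ x ∈ Λ.L)
    {γ : V n ≃ₗ[ℂ] V n} (hγ : γ ∈ U2 Λ (m * m)) : g * γ * g⁻¹ ∈ Λ.U := by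
  have key : ∀ γ ∈ U2 Λ (m * m), ∀ x ∈ Λ.L, (g * γ * g⁻¹) x ∈ Λ.L := by
    intro γ hγ x hx
    obtain ⟨w, hw, h3⟩ := hγ.2 _ (h2 x hx)
    have hm' : (m : ℂ) ≠ 0 := by exact_mod_cast hm.ne'
    have h4 : γ (g⁻¹ x) - g⁻¹ x = (m : ℂ) • w := by
      have h5 : (m : ℂ) • (γ (g⁻¹ x) - g⁻¹ x) = (m : ℂ) • ((m : ℂ) • w) := by
        rw [smul_sub, ← map_smul, h3, smul_smul, Nat.cast_mul]
      exact smul_right_injective _ hm' h5
    have h5 : (g * γ * g⁻¹) x = (m : ℂ) • g w + x := by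
      have h6 : g (g⁻¹ x) = x := g.apply_symm_apply x
      have h7 : γ (g⁻¹ x) = (m : ℂ) • w + g⁻¹ x := by rw [← h4]; abel
      rw [LinearEquiv.mul_apply, LinearEquiv.mul_apply, h7, map_add, map_smul, h6]
    rw [h5]
    exact Λ.L.add_mem (h1 w hw) hx
  refine ⟨fun x => ⟨fun hx => ?_, key γ hγ x⟩, ?_⟩
  · have h3 := key γ⁻¹ ((U2 Λ (m * m)).inv_mem hγ) _ hx
    have h4 : (g * γ⁻¹ * g⁻¹) ((g * γ * g⁻¹) x) = x := by
      rw [← LinearEquiv.mul_apply]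
      have : g * γ⁻¹ * g⁻¹ * (g * γ * g⁻¹) = 1 := by group
      rw [this]
      rfl
    rwa [h4] at h3
  · have h3 : g * γ * g⁻¹ ∈ Λ.I :=
      Λ.I.mul_mem (Λ.I.mul_mem hg (Λ.U_le_I hγ.1)) (Λ.I.inv_mem hg)
    exact h3

end COM

open COM in
theorem COM_thm : S_COM := by
  intro n Λ Γ hΓU hΓ g hg
  obtain ⟨m1, hm1, h1⟩ := exists_mul_map Λ g fun x hx => (hg.2 x).1 hx
  obtain ⟨m2, hm2, h2⟩ := exists_mul_map Λ g⁻¹ fun x hx => ((Λ.IF.inv_mem hg).2 x).1 hx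
  have hm : 0 < m1 * m2 := Nat.mul_pos hm1 hm2
  have h1' : ∀ x ∈ Λ.L, ((m1 * m2 : ℕ) : ℂ) • g x ∈ Λ.L := by
    intro x hx
    have := Λ.L.nsmul_mem (h1 x hx) m2
    rw [← Nat.cast_smul_eq_nsmul ℂ, smul_smul] at this
    rwa [mul_comm, Nat.cast_mul]
  have h2' : ∀ x ∈ Λ.L, ((m1 * m2 : ℕ) : ℂ) • g⁻¹ x ∈ Λ.L := by
    intro x hx
    have := Λ.L.nsmul_mem (h2 x hx) m1
    rw [← Nat.cast_smul_eq_nsmul ℂ, smul_smul] at this
    rwa [Nat.cast_mul]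
  set N := (m1 * m2) * (m1 * m2) with hN
  have hNpos : 0 < N := Nat.mul_pos hm hm
  let c : (V n ≃ₗ[ℂ] V n) →* (V n ≃ₗ[ℂ] V n) := (MulAut.conj g).toMonoidHom
  have hc : ∀ γ, c γ = g * γ * g⁻¹ := fun γ => rfl
  have hU2 : U2 Λ N ≤ Λ.U := fun γ hγ => hγ.1
  have hmap : (U2 Λ N).map c ≤ Λ.U := by
    rintro _ ⟨γ, hγ, rfl⟩
    rw [hc]
    exact conj_mem Λ hg.1 hm h1' h2' hγ
  have hΓ' : Γ.relIndex Λ.U ≠ 0 := hΓ
  have h3 : (Γ.comap c).relIndex (U2 Λ N) ≠ 0 := by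
    rw [Subgroup.relIndex_comap]
    intro h0
    exact hΓ' (Subgroup.relIndex_eq_zero_of_le_right hmap h0)
  have h4 : (Γ.comap c ⊓ U2 Λ N).relIndex (U2 Λ N) ≠ 0 := by
    rw [Subgroup.inf_relIndex_right]
    exact h3
  have h5 : (Γ.comap c ⊓ U2 Λ N).relIndex Λ.U ≠ 0 :=
    Subgroup.relIndex_ne_zero_trans h4 (U2_index Λ N hNpos)
  have h6 : (Γ.comap c ⊓ U2 Λ N).relIndex Γ ≠ 0 := by
    intro h0
    exact h5 (Subgroup.relIndex_eq_zero_of_le_right hΓU h0)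
  refine ⟨(Γ.comap c ⊓ U2 Λ N) ⊓ Γ, inf_le_right, ?_, ?_⟩
  · have h7 : ((Γ.comap c ⊓ U2 Λ N) ⊓ Γ).relIndex Γ ≠ 0 := by
      rw [Subgroup.inf_relIndex_right]
      exact h6
    exact h7
  · intro γ hγ
    exact hγ.1.1

end Pool.Agent.MFB
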