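import Mathlib
import Pool.Agent.MFB.Stmts

/-!
# COP: relatively prime forms do not both vanish on a mirror
-/

namespace Pool.Agent.MFB

namespace COP

open Complex

variable {n : ℕ}

/-- The mirror meets the cone. -/
theorem exists_mirror (Λ : HL n) {r : V n} (hr : 0 < (Λ.h r r).re) :
    ∃ z : Λ.A, Λ.h z r = 0 := by
  obtain ⟨z0, hz0⟩ := Λ.exists_mem_A
  have hrr : Λ.h r r ≠ 0 := by
    intro h0
    rw [h0] at hr
    simp at hr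
  set c : ℂ := Λ.h z0 r / Λ.h r r with hc
  set z : V n := z0 - c • r with hz
  have h1 : Λ.h z r = 0 := by
    rw [hz, Λ.h_sub_left, Λ.h_smul_left, hc]
    field_simp
    ring
  have h2 : Λ.h z z = Λ.h z0 z0 - c * Λ.h r z0 := by
    have h3 : Λ.h z z = Λ.h z z0 := by
      conv_lhs => rw [hz, Λ.h_sub_right, ← hz, Λ.h_smul_right, h1]
      ring
    rw [h3, hz, Λ.h_sub_left, Λ.h_smul_left]
  have h4 : c * Λ.h r z0 = ((‖Λ.h z0 r‖ ^ 2 / (Λ.h r r).re : ℝ) : ℂ) := by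
    have h5 : Λ.h r z0 = (starRingEnd ℂ) (Λ.h z0 r) := (Λ.h_conj z0 r).symm
    have h6 : Λ.h r r = (((Λ.h r r).re : ℝ) : ℂ) := Λ.h_self r
    rw [hc, h5, div_mul_eq_mul_div, Complex.mul_conj, Complex.normSq_eq_norm_sq]
    conv_lhs => rw [h6]
    push_cast
    rfl
  have h7 : z ∈ Λ.A := by
    rw [Λ.mem_A, h2, h4, Complex.sub_re, Complex.ofReal_re]
    have h8 : (Λ.h z0 z0).re < 0 := hz0
    have h9 : 0 ≤ ‖Λ.h z0 r‖ ^ 2 / (Λ.h r r).re := by positivity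
    linarith
  exact ⟨⟨z, h7⟩, h1⟩

/-- The algebra of modular forms is a domain. -/
theorem dom (hDOM : S_DOM) (Λ : HL n) (Γ : Subgroup (V n ≃ₗ[ℂ] V n)) : IsDomain (Λ.MS Γ) := by
  have : Nontrivial (Λ.MS Γ) := by
    obtain ⟨z, hz⟩ := Λ.exists_mem_A
    refine ⟨⟨0, 1, fun h => ?_⟩⟩
    have h1 := congrArg (fun f : Λ.MS Γ => (f : Λ.A → ℂ) ⟨z, hz⟩) h
    simp at h1
  have : NoZeroDivisors (Λ.MS Γ) := by
    refine ⟨fun {a b} hab => ?_⟩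
    have h1 : ∀ z : Λ.A, (z : V n) ∈ (⊤ : Submodule ℂ (V n)) →
        (a : Λ.A → ℂ) z * (b : Λ.A → ℂ) z = 0 := by
      intro z _
      have h2 := congrArg (fun f : Λ.MS Γ => (f : Λ.A → ℂ) z) hab
      simpa using h2
    rcases hDOM n Λ ⊤ a b (HL.MS_mono bot_le a.2) (HL.MS_mono bot_le b.2) h1 with h3 | h3
    · left
      apply Subtype.ext
      funext z
      exact h3 z trivial
    · right
      apply Subtype.ext
      funext z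
      exact h3 z trivial
  exact NoZeroDivisors.to_isDomain _

/-- The smaller algebra inside the larger one. -/
def R (Λ : HL n) (Γ Γ₀ : Subgroup (V n ≃ₗ[ℂ] V n)) : Subalgebra ℂ (Λ.MS Γ₀) :=
  (Λ.MS Γ).comap (Λ.MS Γ₀).val

theorem mem_R {Λ : HL n} {Γ Γ₀ : Subgroup (V n ≃ₗ[ℂ] V n)} {b : Λ.MS Γ₀} :
    b ∈ R Λ Γ Γ₀ ↔ (b : Λ.A → ℂ) ∈ Λ.MS Γ := Iff.rfl

/-- The two copies of the smaller algebra. -/
def eR (Λ : HL n) {Γ Γ₀ : Subgroup (V n ≃ₗ[ℂ] V n)} (h : Γ₀ ≤ Γ) :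
    R Λ Γ Γ₀ ≃* Λ.MS Γ where
  toFun b := ⟨((b : Λ.MS Γ₀) : Λ.A → ℂ), b.2⟩
  invFun b := ⟨⟨(b : Λ.A → ℂ), HL.MS_mono h b.2⟩, b.2⟩
  left_inv _ := rfl
  right_inv _ := rfl
  map_mul' _ _ := rfl

theorem relPrime_map {X Y : Type} [CommMonoid X] [CommMonoid Y] (e : X ≃* Y) {a b : X}
    (h : IsRelPrime a b) : IsRelPrime (e a) (e b) := by
  intro d ha hb
  have h1 : e.symm d ∣ a := by
    have := map_dvd e.symm ha
    rwa [e.symm_apply_apply] at this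
  have h2 : e.symm d ∣ b := by
    have := map_dvd e.symm hb
    rwa [e.symm_apply_apply] at this
  have h3 := (h h1 h2).map e
  rwa [e.apply_symm_apply] at h3

/-- A form is integral. -/
theorem int_form (hINT : S_INT) (Λ : HL n) (Γ Γ₀ : Subgroup (V n ≃ₗ[ℂ] V n)) (hΓ : Γ ≤ Λ.I)
    (h : Γ₀ ≤ Γ) (hi : (Γ₀.subgroupOf Γ).index ≠ 0) (k : ℕ) (f : Λ.A → ℂ)
    (hf : Λ.IsMF Γ₀ k f) (b : Λ.MS Γ₀) (hb : (b : Λ.A → ℂ) = f) :
    IsIntegral (R Λ Γ Γ₀) b := by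
  obtain ⟨m, a, hm, ha, ha0, hsum⟩ := hINT n Λ Γ Γ₀ hΓ h hi k f hf
  have haR : ∀ i, (⟨a i, HL.MS_mono h (ha i).mem_MS⟩ : Λ.MS Γ₀) ∈ R Λ Γ Γ₀ :=
    fun i => (ha i).mem_MS
  let A : ℕ → R Λ Γ Γ₀ := fun i => ⟨⟨a i, HL.MS_mono h (ha i).mem_MS⟩, haR i⟩
  let p : Polynomial (R Λ Γ Γ₀) := Polynomial.X ^ m +
    ∑ i ∈ Finset.range m, Polynomial.C (A (i + 1)) * Polynomial.X ^ (m - (i + 1))
  refine ⟨p, ?_, ?_⟩
  · apply Polynomial.monic_X_pow_add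
    refine lt_of_le_of_lt (Polynomial.degree_sum_le _ _) ?_
    rw [Finset.sup_lt_iff (by exact_mod_cast WithBot.bot_lt_coe m)]
    intro i hi'
    refine lt_of_le_of_lt (Polynomial.degree_C_mul_X_pow_le _ _) ?_
    rw [Finset.mem_range] at hi'
    exact_mod_cast (by omega : m - (i + 1) < m)
  · rw [Polynomial.eval₂_add, Polynomial.eval₂_pow, Polynomial.eval₂_X,
      Polynomial.eval₂_finsetSum]
    simp only [Polynomial.eval₂_mul, Polynomial.eval₂_C, Polynomial.eval₂_pow,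
      Polynomial.eval₂_X]
    apply Subtype.ext
    rw [Finset.sum_range_succ', ha0] at hsum
    have h1 : ((b ^ m + ∑ i ∈ Finset.range m,
        algebraMap (R Λ Γ Γ₀) (Λ.MS Γ₀) (A (i + 1)) * b ^ (m - (i + 1)) : Λ.MS Γ₀) : Λ.A → ℂ) =
        f ^ m + ∑ i ∈ Finset.range m, a (i + 1) * f ^ (m - (i + 1)) := by
      rw [← hb]
      push_cast
      rfl
    rw [h1]
    rw [Nat.sub_zero, one_mul, add_comm] at hsum
    exact hsum

theorem int_all (hINT : S_INT) (Λ : HL n) (Γ Γ₀ : Subgroup (V n ≃ₗ[ℂ] V n)) (hΓ : Γ ≤ Λ.I)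
    (h : Γ₀ ≤ Γ) (hi : (Γ₀.subgroupOf Γ).index ≠ 0) (b : Λ.MS Γ₀) :
    IsIntegral (R Λ Γ Γ₀) b := by
  have key : ∀ f : Λ.A → ℂ, ∀ hf : f ∈ Λ.MS Γ₀, IsIntegral (R Λ Γ Γ₀) (⟨f, hf⟩ : Λ.MS Γ₀) := by
    intro f hf
    have hf' : f ∈ Algebra.adjoin ℂ {f | ∃ k : ℕ, Λ.IsMF Γ₀ k f} := hf
    induction hf' using Algebra.adjoin_induction with
    | mem f hf1 =>
      obtain ⟨k, hk⟩ := hf1
      exact int_form hINT Λ Γ Γ₀ hΓ h hi k f hk _ rfl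
    | algebraMap c =>
      have h1 : (⟨algebraMap ℂ (Λ.A → ℂ) c, hf⟩ : Λ.MS Γ₀) =
          algebraMap (R Λ Γ Γ₀) (Λ.MS Γ₀) (algebraMap ℂ (R Λ Γ Γ₀) c) := rfl
      rw [h1]
      exact isIntegral_algebraMap
    | add f g hf1 hg1 h1 h2 =>
      exact (h1 hf1).add (h2 hg1)
    | mul f g hf1 hg1 h1 h2 =>
      exact (h1 hf1).mul (h2 hg1)
  exact key b b.2

/-- The forms which vanish on the mirror. -/
def P (Λ : HL n) (Γ : Subgroup (V n ≃ₗ[ℂ] V n)) (r : V n) : Ideal (Λ.MS Γ) where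
  carrier := {f | ∀ z : Λ.A, Λ.h z r = 0 → (f : Λ.A → ℂ) z = 0}
  zero_mem' := fun _ _ => rfl
  add_mem' := by
    intro a b ha hb z hz
    show (a : Λ.A → ℂ) z + (b : Λ.A → ℂ) z = 0
    rw [ha z hz, hb z hz, add_zero]
  smul_mem' := by
    intro c a ha z hz
    show (c : Λ.A → ℂ) z * (a : Λ.A → ℂ) z = 0
    rw [ha z hz, mul_zero]

theorem mem_P {Λ : HL n} {Γ : Subgroup (V n ≃ₗ[ℂ] V n)} {r : V n} {f : Λ.MS Γ} :
    f ∈ P Λ Γ r ↔ ∀ z : Λ.A, Λ.h z r = 0 → (f : Λ.A → ℂ) z = 0 := Iff.rfl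

theorem prime_P (hDOM : S_DOM) (Λ : HL n) (Γ : Subgroup (V n ≃ₗ[ℂ] V n)) {r : V n}
    (hr : 0 < (Λ.h r r).re) : (P Λ Γ r).IsPrime := by
  refine ⟨?_, ?_⟩
  · rw [Ideal.ne_top_iff_one, mem_P]
    intro h1
    obtain ⟨z, hz⟩ := exists_mirror Λ hr
    have h2 := h1 z hz
    simp at h2
  · intro a b hab
    rw [mem_P] at hab
    have h1 : ∀ z : Λ.A, (z : V n) ∈ LinearMap.ker (Λ.hl r) →
        (a : Λ.A → ℂ) z * (b : Λ.A → ℂ) z = 0 := fun z hz => hab z hz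
    rcases hDOM n Λ _ a b (HL.MS_mono bot_le a.2) (HL.MS_mono bot_le b.2) h1 with h3 | h3
    · left
      exact fun z hz => h3 z hz
    · right
      exact fun z hz => h3 z hz

end COP

open COP in
theorem COP_thm (hCOQ : S_COQ) (hCO0 : S_CO0) (hDOM : S_DOM) (hINT : S_INT) (hUFR : S_UFR) :
    S_COP := by
  intro n Λ Γ Γ₀ hΓ hi hfree h0 hi0 hufm r hr p q hpq hvan
  have := COP.dom hDOM Λ Γ₀
  have : UniqueFactorizationMonoid (Λ.MS Γ) := (hUFR n Λ Γ hfree).1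
  have hR : UniqueFactorizationMonoid (COP.R Λ Γ Γ₀) :=
    (COP.eR Λ h0).symm.uniqueFactorizationMonoid inferInstance
  obtain ⟨p', q', hrel, hp', hq'⟩ := hCOQ (Λ.MS Γ₀) (COP.R Λ Γ Γ₀) hufm hR
    (COP.int_all hINT Λ Γ Γ₀ (hΓ.trans Λ.U_le_I) h0 hi0) (COP.P Λ Γ₀ r)
    (COP.prime_P hDOM Λ Γ₀ hr) p (fun z hz => (hvan z hz).1) q (fun z hz => (hvan z hz).2) hpq
  exact hCO0 n Λ Γ hΓ hi hfree r hr (COP.eR Λ h0 p') (COP.eR Λ h0 q')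
    (COP.relPrime_map _ hrel) fun z hz => ⟨hp' z hz, hq' z hz⟩

end Pool.Agent.MFB
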