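import Pool.Agent.MFB.Stmts

/-!
# COQ: relatively prime elements in a prime ideal of an integral extension
-/

namespace Pool.Agent.MFB

namespace COQ

/-- In a factorial domain every nonzero element of a prime ideal has a prime factor in the
ideal. -/
theorem exists_prime_mem {A : Type} [CommRing A] [IsDomain A] (h : UniqueFactorizationMonoid A)
    (P : Ideal A) (hP : P.IsPrime) (a : A) (ha : a ≠ 0) (haP : a ∈ P) :
    ∃ c : A, Prime c ∧ c ∣ a ∧ c ∈ P := by
  obtain ⟨f, hf, hfa⟩ := UniqueFactorizationMonoid.exists_prime_factors a ha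
  have h1 : f.prod ∈ P := by
    obtain ⟨u, hu⟩ := hfa.symm
    rw [← hu]
    exact P.mul_mem_right _ haP
  obtain ⟨c, hc, hcP⟩ := (hP.multiset_prod_mem_iff_exists_mem f).1 h1
  exact ⟨c, hf c hc, (Multiset.dvd_prod hc).trans hfa.dvd, hcP⟩

end COQ

theorem COQ_thm : S_COQ := by
  intro B _ _ _ R hB hR hint P hP p hp q hq hpq
  -- the element is nonzero
  have hp0 : p ≠ 0 := by
    intro h0
    rw [h0] at hpq
    have hu : IsUnit q := hpq (dvd_zero q) (dvd_refl q)
    exact hP.ne_top (P.eq_top_of_isUnit_mem hq hu)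
  obtain ⟨c, hc, hcp, hcP⟩ := COQ.exists_prime_mem hB P hP p hp0 hp
  have hcq : ¬ c ∣ q := fun h => hc.not_isUnit (hpq hcp h)
  -- the principal prime ideal
  let I : Ideal B := Ideal.span {c}
  have hI : I.IsPrime := (Ideal.span_singleton_prime hc.ne_zero).2 hc
  have hIP : I ≤ P := (Ideal.span_singleton_le_iff_mem P).2 hcP
  have hqI : q ∉ I := fun h => hcq (Ideal.mem_span_singleton.1 h)
  have hlt : I.comap (algebraMap R B) < P.comap (algebraMap R B) :=
    Ideal.comap_lt_comap_of_integral_mem_sdiff hIP ⟨hq, hqI⟩ (hint q)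
  have hne : I.comap (algebraMap R B) ≠ ⊥ :=
    Ideal.comap_ne_bot_of_integral_mem hc.ne_zero (Ideal.mem_span_singleton_self c) (hint c)
  obtain ⟨a, haI, ha0⟩ := Submodule.exists_mem_ne_zero_of_ne_bot hne
  obtain ⟨p', hp', -, hp'I⟩ := COQ.exists_prime_mem hR (I.comap (algebraMap R B))
    (hI.comap _) a ha0 haI
  obtain ⟨q', hq'P, hq'I⟩ := Set.exists_of_ssubset hlt
  refine ⟨p', q', ?_, hIP hp'I, hq'P⟩
  rw [hp'.irreducible.isRelPrime_iff_not_dvd]
  intro hdvd
  exact hq'I (Ideal.mem_of_dvd _ hdvd hp'I)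

end Pool.Agent.MFB
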