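import Mathlib
import Pool.Agent.MFB.Stmts

/-!
# CORE: invariants of a group generated by a subgroup with factorial invariants and reflections
-/

namespace Pool.Agent.MFB

namespace CORE

open Finset

variable {B : Type} [CommRing B] [IsDomain B] [Algebra ℂ B] {G : Type} [Group G]
  (ρ : G →* (B ≃ₐ[ℂ] B)) (K : Subgroup G)

/-- The norm. -/
noncomputable def Nm [Fintype (G ⧸ K)] (b : B) : B := ∏ q : G ⧸ K, ρ q.out b

theorem rho_mul (g h : G) (b : B) : ρ (g * h) b = ρ g (ρ h b) := by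
  rw [map_mul]; rfl

variable {ρ K}

theorem rho_out {b : B} (hb : ∀ g ∈ K, ρ g b = b) (g : G) :
    ρ (Quotient.out (g : G ⧸ K)) b = ρ g b := by
  obtain ⟨k, hk⟩ := QuotientGroup.mk_out_eq_mul K g
  rw [hk, rho_mul, hb k k.2]

theorem rho_Nm [Fintype (G ⧸ K)] {b : B} (hb : ∀ g ∈ K, ρ g b = b) (h : G) :
    ρ h (Nm ρ K b) = Nm ρ K b := by
  rw [Nm, map_prod]
  have h1 : ∀ q : G ⧸ K, ρ h (ρ q.out b) = ρ (h • q).out b := by
    intro q
    rw [← rho_mul, ← rho_out hb]
    congr 3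
    conv_rhs => rw [← q.out_eq']
    rfl
  rw [Finset.prod_congr rfl fun q _ => h1 q]
  exact Equiv.prod_comp (MulAction.toPerm h) (fun q : G ⧸ K => ρ q.out b)

theorem Nm_mul [Fintype (G ⧸ K)] (a b : B) : Nm ρ K (a * b) = Nm ρ K a * Nm ρ K b := by
  simp only [Nm, map_mul, Finset.prod_mul_distrib]

theorem Nm_inv [Fintype (G ⧸ K)] {b : B} (hb : ∀ g, ρ g b = b) :
    Nm ρ K b = b ^ Fintype.card (G ⧸ K) := by
  simp only [Nm, hb, Finset.prod_const, Finset.card_univ]

theorem Nm_ne_zero [Fintype (G ⧸ K)] {b : B} (hb : b ≠ 0) : Nm ρ K b ≠ 0 := by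
  rw [Nm, Finset.prod_ne_zero_iff]
  intro q _ h0
  exact hb ((map_eq_zero_iff _ (ρ q.out).injective).1 h0)

/-- Elements of norm one are invertible among the invariants of `K`. -/
theorem exists_inv [Fintype (G ⧸ K)] {u : B} (hu : ∀ g ∈ K, ρ g u = u)
    (h1 : Nm ρ K u = 1) : ∃ c : B, (∀ g ∈ K, ρ g c = c) ∧ u * c = 1 := by
  classical
  have h2 : ρ (Quotient.out ((1 : G) : G ⧸ K)) u = u := by
    rw [rho_out hu, map_one]; rfl
  refine ⟨∏ q ∈ (Finset.univ : Finset (G ⧸ K)).erase ((1 : G) : G ⧸ K), ρ q.out u, ?_, ?_⟩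
  · set c := ∏ q ∈ (Finset.univ : Finset (G ⧸ K)).erase ((1 : G) : G ⧸ K), ρ q.out u with hc
    have h3 : u * c = 1 := by
      have := Finset.mul_prod_erase (Finset.univ : Finset (G ⧸ K)) (fun q => ρ q.out u)
        (Finset.mem_univ ((1 : G) : G ⧸ K))
      rw [h2] at this
      rw [hc, this]
      exact h1
    intro g hg
    have h4 : u * ρ g c = 1 := by
      have := congrArg (ρ g) h3
      rw [map_mul, hu g hg, map_one] at this
      exact this
    calc ρ g c = (u * c) * ρ g c := by rw [h3, one_mul]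
      _ = (u * ρ g c) * c := by ring
      _ = c := by rw [h4, one_mul]
  · have := Finset.mul_prod_erase (Finset.univ : Finset (G ⧸ K)) (fun q => ρ q.out u)
        (Finset.mem_univ ((1 : G) : G ⧸ K))
    rw [h2] at this
    rw [this]
    exact h1

/-- Roots of unity. -/
theorem exists_root {m : ℕ} (hm : 0 < m) {x y : B} (hxy : x ^ m = y ^ m) :
    ∃ ζ : ℂ, x = ζ • y := by
  have hp : IsPrimitiveRoot (Complex.exp (2 * Real.pi * Complex.I / m)) m :=
    Complex.isPrimitiveRoot_exp m hm.ne'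
  have hq : IsPrimitiveRoot (algebraMap ℂ B (Complex.exp (2 * Real.pi * Complex.I / m))) m :=
    hp.map_of_injective (FaithfulSMul.algebraMap_injective ℂ B)
  have h1 := hq.pow_sub_pow_eq_prod_sub_mul x y hm
  rw [hxy, sub_self] at h1
  obtain ⟨ξ, hξ, h2⟩ := Finset.prod_eq_zero_iff.1 h1.symm
  rw [Polynomial.mem_nthRootsFinset hm] at hξ
  haveI : NeZero m := ⟨hm.ne'⟩
  obtain ⟨i, _, hi⟩ := hq.eq_pow_of_pow_eq_one hξ
  refine ⟨Complex.exp (2 * Real.pi * Complex.I / m) ^ i, ?_⟩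
  rw [Algebra.smul_def, map_pow, hi]
  exact sub_eq_zero.1 h2

variable {R S : Subalgebra ℂ B}

/-- The cofactors of invariants are invariant. -/
theorem key [K.FiniteIndex] (hR : ∀ b, b ∈ R ↔ ∀ g ∈ K, ρ g b = b)
    (hS : ∀ b, b ∈ S ↔ ∀ g, ρ g b = b) (hU : UniqueFactorizationMonoid R)
    (hc : ∀ u : R, IsUnit u → ∃ c : ℂ, u = algebraMap ℂ R c) (T : Set G)
    (hT : Subgroup.closure ((K : Set G) ∪ T) = ⊤)
    (hTT : ∀ t ∈ T, ∀ f g : R, IsRelPrime f g → ∀ ζ : ℂ, ζ ≠ 1 → ρ t f = ζ • (f : B) →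
      ρ t g = ζ • (g : B) → False) (d a b : R) (ha : a ≠ 0) (hb : b ≠ 0) (hd : d ≠ 0)
    (hda : (d : B) * a ∈ S) (hdb : (d : B) * b ∈ S) (hab : IsRelPrime a b) :
    (d : B) ∈ S ∧ (a : B) ∈ S ∧ (b : B) ∈ S := by
  classical
  letI : Fintype (G ⧸ K) := Subgroup.fintypeQuotientOfFiniteIndex
  letI : GCDMonoid R := UniqueFactorizationMonoid.toGCDMonoid R
  have haB : (a : B) ≠ 0 := fun h => ha (Subtype.ext h)
  have hbB : (b : B) ≠ 0 := fun h => hb (Subtype.ext h)
  have hdB : (d : B) ≠ 0 := fun h => hd (Subtype.ext h)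
  have hne : ∀ (g : G) (x : B), x ≠ 0 → ρ g x ≠ 0 := fun g x hx h0 =>
    hx ((map_eq_zero_iff _ (ρ g).injective).1 h0)
  have haK := (hR a).1 a.2
  have hbK := (hR b).1 b.2
  have hcross : ∀ g, ρ g a * b = a * ρ g b := by
    intro g
    have h1 := (hS _).1 hda g
    have h2 := (hS _).1 hdb g
    rw [map_mul] at h1 h2
    have h3 : (ρ g (d : B) * d) * (ρ g a * b) = (ρ g (d : B) * d) * (a * ρ g b) := by
      calc (ρ g (d : B) * d) * (ρ g a * b) = (ρ g (d : B) * ρ g a) * (d * b) := by ring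
        _ = (d * a) * (ρ g (d : B) * ρ g b) := by rw [h1, h2]
        _ = (ρ g (d : B) * d) * (a * ρ g b) := by ring
    exact mul_left_cancel₀ (mul_ne_zero (hne g _ hdB) hdB) h3
  set m := Fintype.card (G ⧸ K) with hm
  have hm0 : 0 < m := Fintype.card_pos
  have h4 : Nm ρ K (a : B) * (b : B) ^ m = (a : B) ^ m * Nm ρ K (b : B) := by
    have h5 := Finset.prod_congr (rfl : (Finset.univ : Finset (G ⧸ K)) = Finset.univ)
      (fun q _ => hcross q.out)
    rw [Finset.prod_mul_distrib, Finset.prod_mul_distrib, Finset.prod_const, Finset.prod_const,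
      Finset.card_univ] at h5
    exact h5
  have hNS : ∀ x : R, Nm ρ K (x : B) ∈ S := fun x =>
    (hS _).2 fun g => rho_Nm ((hR x).1 x.2) g
  have hSR : S ≤ R := fun x hx => (hR x).2 fun g _ => (hS x).1 hx g
  have h5 : a ^ m ∣ (⟨Nm ρ K (a : B), hSR (hNS a)⟩ : R) := by
    have h6 : IsRelPrime (a ^ m) (b ^ m) := IsRelPrime.pow hab
    apply h6.dvd_of_dvd_mul_right (y := (⟨Nm ρ K (a : B), hSR (hNS a)⟩ : R))
    refine ⟨⟨Nm ρ K (b : B), hSR (hNS b)⟩, ?_⟩
    apply Subtype.ext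
    exact h4
  obtain ⟨u, hu⟩ := h5
  have hu' : Nm ρ K (a : B) = (a : B) ^ m * u := congrArg Subtype.val hu
  have h7 : Nm ρ K (u : B) = 1 := by
    have h8 := congrArg (Nm ρ K) hu'
    rw [Nm_inv ((hS _).1 (hNS a)), Nm_mul] at h8
    have h9 : Nm ρ K ((a : B) ^ m) = Nm ρ K (a : B) ^ m := by
      simp only [Nm, map_pow, Finset.prod_pow]
    rw [h9, ← hm] at h8
    have h10 : Nm ρ K (a : B) ^ m ≠ 0 := pow_ne_zero _ (Nm_ne_zero haB)
    apply mul_left_cancel₀ h10
    rw [← h8, mul_one]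
  obtain ⟨c, hcK, hcu⟩ := exists_inv ((hR u).1 u.2) h7
  have huu : IsUnit u := IsUnit.of_mul_eq_one (⟨c, (hR c).2 hcK⟩ : R) (Subtype.ext hcu)
  obtain ⟨z, hz⟩ := hc u huu
  have hzu : (u : B) = algebraMap ℂ B z := by rw [hz]; rfl
  have hz0 : z ≠ 0 := by
    rintro rfl
    rw [hzu, map_zero, zero_mul] at hcu
    exact zero_ne_one hcu
  have h11 : ∀ g, (ρ g (a : B)) ^ m = (a : B) ^ m := by
    intro g
    have h12 := (hS _).1 (hNS a) g
    rw [hu', map_mul, map_pow, hzu, AlgEquiv.commutes] at h12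
    refine mul_right_cancel₀ ?_ h12
    rw [Ne, FaithfulSMul.algebraMap_eq_zero_iff]
    exact hz0
  have h13 : ∀ g, ρ g (a : B) = a ∧ ρ g (b : B) = b ∨ ∃ ζ : ℂ, ζ ≠ 1 ∧ ρ g (a : B) = ζ • (a : B) ∧
      ρ g (b : B) = ζ • (b : B) := by
    intro g
    obtain ⟨ζ, hζ⟩ := exists_root hm0 (h11 g)
    have h14 : ρ g (b : B) = ζ • (b : B) := by
      have := hcross g
      rw [hζ] at this
      apply mul_left_cancel₀ haB
      rw [← this, mul_smul_comm, smul_mul_assoc]
    by_cases h1 : ζ = 1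
    · left
      rw [h1, one_smul] at hζ h14
      exact ⟨hζ, h14⟩
    · exact Or.inr ⟨ζ, h1, hζ, h14⟩
  have h15 : ∀ g : G, ρ g (a : B) = a ∧ ρ g (b : B) = b := by
    intro g
    have hg : g ∈ Subgroup.closure ((K : Set G) ∪ T) := by rw [hT]; trivial
    induction hg using Subgroup.closure_induction with
    | mem x hx =>
      rcases hx with hx | hx
      · exact ⟨haK x hx, hbK x hx⟩
      · rcases h13 x with h | ⟨ζ, h1, h2, h3⟩
        · exact h
        · exact (hTT x hx a b hab ζ h1 h2 h3).elim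
    | one => exact ⟨by rw [map_one]; rfl, by rw [map_one]; rfl⟩
    | mul x y _ _ hx hy =>
      rw [rho_mul, rho_mul, hy.1, hy.2]
      exact hx
    | inv x _ hx =>
      constructor
      · apply (ρ x).injective
        rw [← rho_mul, mul_inv_cancel, map_one, hx.1]
        rfl
      · apply (ρ x).injective
        rw [← rho_mul, mul_inv_cancel, map_one, hx.2]
        rfl
  refine ⟨(hS _).2 fun g => ?_, (hS _).2 fun g => (h15 g).1, (hS _).2 fun g => (h15 g).2⟩
  have h1 := (hS _).1 hda g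
  rw [map_mul, (h15 g).1] at h1
  exact mul_right_cancel₀ haB h1

end CORE

/-- The invariants of a group which is generated by a subgroup with factorial invariants and
by reflections are factorial. -/
theorem CORE_thm : S_CORE := by
  classical
  intro B _ _ _ G _ ρ K _ R S hR hS hU hc T hT hTT
  have hSR : S ≤ R := fun x hx => (hR x).2 fun g _ => (hS x).1 hx g
  letI : GCDMonoid R := UniqueFactorizationMonoid.toGCDMonoid R
  let ι : S →+* R := (Subalgebra.inclusion hSR).toRingHom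
  have hιv : ∀ x : S, ((ι x : R) : B) = x := fun x => rfl
  have hιi : Function.Injective ι := fun x y hxy => by
    apply Subtype.ext
    rw [← hιv x, ← hιv y, hxy]
  have hι0 : ∀ x : S, ι x = 0 ↔ x = 0 := fun x => map_eq_zero_iff ι hιi
  have hunit : ∀ x : S, IsUnit (ι x) → IsUnit x := by
    intro x hx
    obtain ⟨c, hc'⟩ := hc _ hx
    have h1 : x = algebraMap ℂ S c := by
      apply Subtype.ext
      rw [← hιv x, hc']
      rfl
    have h2 : c ≠ 0 := by
      rintro rfl
      rw [map_zero] at hc'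
      exact not_isUnit_zero (hc' ▸ hx)
    rw [h1]
    exact (IsUnit.mk0 c h2).map (algebraMap ℂ S)
  -- the greatest common divisor in `R` of two nonzero elements of `S`
  have hgcd : ∀ x y : S, x ≠ 0 → y ≠ 0 → ∃ d a b : S, x = d * a ∧ y = d * b ∧
      IsRelPrime (ι a) (ι b) := by
    intro x y hx hy
    obtain ⟨a, b, ha, hb, hab⟩ := extract_gcd (ι x) (ι y)
    rw [gcd_isUnit_iff_isRelPrime] at hab
    set d := gcd (ι x) (ι y) with hd
    have hx' : ι x ≠ 0 := fun h => hx ((hι0 x).1 h)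
    have hy' : ι y ≠ 0 := fun h => hy ((hι0 y).1 h)
    have ha0 : a ≠ 0 := by rintro rfl; exact hx' (by rw [ha, mul_zero])
    have hb0 : b ≠ 0 := by rintro rfl; exact hy' (by rw [hb, mul_zero])
    have hd0 : d ≠ 0 := by intro h; exact hx' (by rw [ha, h, zero_mul])
    have h1 : (d : B) * a = x := by rw [← hιv x, ha]; rfl
    have h2 : (d : B) * b = y := by rw [← hιv y, hb]; rfl
    obtain ⟨k1, k2, k3⟩ := CORE.key hR hS hU hc T hT hTT d a b ha0 hb0 hd0
      (by rw [h1]; exact x.2) (by rw [h2]; exact y.2) hab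
    refine ⟨⟨d, k1⟩, ⟨a, k2⟩, ⟨b, k3⟩, Subtype.ext h1.symm, Subtype.ext h2.symm, ?_⟩
    exact hab
  have hrel : ∀ x y : S, IsRelPrime x y → IsRelPrime (ι x) (ι y) := by
    intro x y hxy
    by_cases hx : x = 0
    · subst hx
      rw [isRelPrime_zero_left] at hxy
      rw [map_zero, isRelPrime_zero_left]
      exact hxy.map ι
    by_cases hy : y = 0
    · subst hy
      rw [isRelPrime_zero_right] at hxy
      rw [map_zero, isRelPrime_zero_right]
      exact hxy.map ι
    obtain ⟨d, a, b, h1, h2, hab⟩ := hgcd x y hx hy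
    have hdu : IsUnit d := hxy (Dvd.intro a h1.symm) (Dvd.intro b h2.symm)
    have hdu' : IsUnit (ι d) := hdu.map ι
    rw [h1, h2, map_mul, map_mul]
    exact (isRelPrime_mul_unit_left hdu').2 hab
  refine ⟨?_, ?_⟩
  · have hwf : WellFounded (DvdNotUnit (α := S)) := by
      have h1 : WellFounded (fun x y : S => DvdNotUnit (ι x) (ι y)) :=
        InvImage.wf ι (IsWellFounded.wf (r := DvdNotUnit (α := R)))
      refine Subrelation.wf (r := fun x y : S => DvdNotUnit (ι x) (ι y)) ?_ h1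
      rintro x y ⟨hx, z, hz, hxy⟩
      refine ⟨fun h => hx ((hι0 x).1 h), ι z, fun h => hz (hunit z h), ?_⟩
      rw [hxy, map_mul]
    haveI : IsWellFounded S DvdNotUnit := ⟨hwf⟩
    haveI : IsCancelMulZero S := inferInstance
    refine { irreducible_iff_prime := ?_ }
    intro p
    refine ⟨fun hp => ⟨hp.ne_zero, hp.not_isUnit, fun a b hab => ?_⟩, fun hp => hp.irreducible⟩
    by_cases ha : a = 0
    · left; rw [ha]; exact dvd_zero p
    obtain ⟨d, x, y, h1, h2, hxy⟩ := hgcd p a hp.ne_zero ha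
    rcases hp.isUnit_or_isUnit h1 with hd | hx
    · right
      have h3 : IsRelPrime (ι p) (ι a) := by
        rw [h1, h2, map_mul, map_mul]
        exact (isRelPrime_mul_unit_left (hd.map ι)).2 hxy
      have h4 : ι p ∣ ι a * ι b := by
        rw [← map_mul]
        exact map_dvd ι hab
      obtain ⟨c, hc1⟩ := h3.dvd_of_dvd_mul_left h4
      have hc2 : (b : B) = p * c := by rw [← hιv b, hc1]; rfl
      have hpB : (p : B) ≠ 0 := fun h => hp.ne_zero (Subtype.ext h)
      have hcS : (c : B) ∈ S := by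
        rw [hS]
        intro g
        have h5 := (hS _).1 b.2 g
        rw [hc2, map_mul, (hS _).1 p.2 g] at h5
        exact mul_left_cancel₀ hpB h5
      exact ⟨⟨c, hcS⟩, Subtype.ext hc2⟩
    · left
      obtain ⟨x', hx'⟩ := hx.exists_right_inv
      refine ⟨x' * y, ?_⟩
      calc a = d * y := h2
        _ = d * (x * x') * y := by rw [hx', mul_one]
        _ = d * x * (x' * y) := by ring
        _ = p * (x' * y) := by rw [← h1]
  · intro f g f' g' hf hg hfg
    have h1 : f' = ι f := Subtype.ext hf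
    have h2 : g' = ι g := Subtype.ext hg
    rw [h1, h2]
    exact hrel f g hfg

end Pool.Agent.MFB
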