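import Pool.Agent.MFB.Stmts

/-!
The isometries with entries in the field are dense (Cayley transform).
-/

namespace Pool.Agent.MFB

namespace DEN

open Matrix

variable {n : ℕ}

/-! ### The field -/

/-- the square root of `d` -/
noncomputable def w (d : ℤ) : ℂ := ((Real.sqrt (-(d : ℝ)) : ℝ) : ℂ) * Complex.I

theorem w_sq (d : ℤ) (hd : d < 0) : w d * w d = (d : ℂ) := by
  unfold w
  have h1 : ((Real.sqrt (-(d : ℝ)) : ℝ) : ℂ) * ((Real.sqrt (-(d : ℝ)) : ℝ) : ℂ) = -(d : ℂ) := by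
    rw [← Complex.ofReal_mul, Real.mul_self_sqrt]
    · push_cast
      rfl
    · have : (d : ℝ) < 0 := by exact_mod_cast hd
      linarith
  have h2 := Complex.I_mul_I
  linear_combination (Complex.I * Complex.I) * h1 - (d : ℂ) * h2

theorem w_conj (d : ℤ) : (starRingEnd ℂ) (w d) = -w d := by
  unfold w
  rw [map_mul, Complex.conj_ofReal, Complex.conj_I]
  ring

theorem mem_Fld (d : ℤ) (z : ℂ) : z ∈ Fld d ↔ ∃ a b : ℚ, z = (a : ℂ) + (b : ℂ) * w d := Iff.rfl

theorem conj_mem {d : ℤ} {z : ℂ} (hz : z ∈ Fld d) : (starRingEnd ℂ) z ∈ Fld d := by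
  obtain ⟨a, b, rfl⟩ := (mem_Fld d z).1 hz
  refine (mem_Fld d _).2 ⟨a, -b, ?_⟩
  rw [map_add, map_mul, w_conj]
  have h1 : ∀ q : ℚ, (starRingEnd ℂ) (q : ℂ) = (q : ℂ) := fun q => by
    rw [← Complex.ofReal_ratCast, Complex.conj_ofReal]
  rw [h1, h1]
  push_cast
  ring

/-- The field as a subfield. -/
def KK (d : ℤ) (hd : d < 0) : Subfield ℂ where
  carrier := Fld d
  mul_mem' := by
    intro x y hx hy
    obtain ⟨a, b, rfl⟩ := (mem_Fld d x).1 hx
    obtain ⟨a', b', rfl⟩ := (mem_Fld d y).1 hy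
    refine (mem_Fld d _).2 ⟨a * a' + b * b' * d, a * b' + b * a', ?_⟩
    have h := w_sq d hd
    push_cast
    linear_combination ((b : ℂ) * (b' : ℂ)) * h
  one_mem' := (mem_Fld d _).2 ⟨1, 0, by simp⟩
  add_mem' := by
    intro x y hx hy
    obtain ⟨a, b, rfl⟩ := (mem_Fld d x).1 hx
    obtain ⟨a', b', rfl⟩ := (mem_Fld d y).1 hy
    refine (mem_Fld d _).2 ⟨a + a', b + b', ?_⟩
    push_cast
    ring
  zero_mem' := (mem_Fld d _).2 ⟨0, 0, by simp⟩
  neg_mem' := by
    intro x hx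
    obtain ⟨a, b, rfl⟩ := (mem_Fld d x).1 hx
    refine (mem_Fld d _).2 ⟨-a, -b, ?_⟩
    push_cast
    ring
  inv_mem' := by
    intro x hx
    obtain ⟨a, b, rfl⟩ := (mem_Fld d x).1 hx
    by_cases h0 : (a : ℂ) + (b : ℂ) * w d = 0
    · rw [h0, _root_.inv_zero]
      exact (mem_Fld d _).2 ⟨0, 0, by simp⟩
    · have h := w_sq d hd
      have hab : ((a : ℂ) + (b : ℂ) * w d) * ((a : ℂ) - (b : ℂ) * w d) =
          ((a ^ 2 - b ^ 2 * d : ℚ) : ℂ) := by
        push_cast
        linear_combination (-(b : ℂ) ^ 2) * h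
      have hne : (a ^ 2 - b ^ 2 * d : ℚ) ≠ 0 := by
        intro h1
        have hd' : (d : ℚ) < 0 := by exact_mod_cast hd
        have h2 : b ^ 2 * (d : ℚ) ≤ 0 := mul_nonpos_of_nonneg_of_nonpos (sq_nonneg b) hd'.le
        have h3 : a ^ 2 = 0 := by
          have := sq_nonneg a
          linarith
        have h4 : b ^ 2 * (d : ℚ) = 0 := by linarith
        have h5 : a = 0 := by simpa using h3
        have h6 : b = 0 := by
          rcases mul_eq_zero.1 h4 with h7 | h7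
          · simpa using h7
          · exact absurd h7 hd'.ne
        apply h0
        rw [h5, h6]
        simp
      have hne' : ((a ^ 2 - b ^ 2 * d : ℚ) : ℂ) ≠ 0 := by exact_mod_cast hne
      refine (mem_Fld d _).2 ⟨a / (a ^ 2 - b ^ 2 * d), -b / (a ^ 2 - b ^ 2 * d), ?_⟩
      have h8 : ((a / (a ^ 2 - b ^ 2 * d) : ℚ) : ℂ) + ((-b / (a ^ 2 - b ^ 2 * d) : ℚ) : ℂ) * w d =
          ((a : ℂ) - (b : ℂ) * w d) / ((a ^ 2 - b ^ 2 * d : ℚ) : ℂ) := by
        push_cast
        ring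
      rw [h8]
      apply inv_eq_of_mul_eq_one_right
      rw [div_eq_mul_inv, ← mul_assoc, hab]
      exact mul_inv_cancel₀ hne'

theorem mem_KK {d : ℤ} (hd : d < 0) {z : ℂ} : z ∈ KK d hd ↔ z ∈ Fld d := Iff.rfl

theorem dense_Fld (d : ℤ) (hd : d < 0) : Dense (Fld d) := by
  set r : ℝ := Real.sqrt (-(d : ℝ)) with hr
  have hr0 : 0 < r := Real.sqrt_pos.2 (by
    have : (d : ℝ) < 0 := by exact_mod_cast hd
    linarith)
  have hcont : Continuous (fun p : ℝ × ℝ => (p.1 : ℂ) + (p.2 : ℂ) * ((r : ℂ) * Complex.I)) := by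
    fun_prop
  have hsurj : Function.Surjective
      (fun p : ℝ × ℝ => (p.1 : ℂ) + (p.2 : ℂ) * ((r : ℂ) * Complex.I)) := by
    intro z
    refine ⟨(z.re, z.im / r), ?_⟩
    apply Complex.ext
    · simp
    · simp [hr0.ne']
  have hd1 : DenseRange (Prod.map (fun q : ℚ => (q : ℝ)) (fun q : ℚ => (q : ℝ))) :=
    Rat.denseRange_cast.prodMap Rat.denseRange_cast
  have hd2 := hsurj.denseRange.comp hd1 hcont
  apply hd2.mono
  rintro _ ⟨⟨a, b⟩, rfl⟩
  exact ⟨a, b, by simp [hr]⟩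

/-! ### Matrices over the field -/

theorem inv_entries {m : ℕ} {d : ℤ} (hd : d < 0) (A : Matrix (Fin m) (Fin m) ℂ)
    (hA : ∀ i j, A i j ∈ Fld d) : ∀ i j, A⁻¹ i j ∈ Fld d := by
  set B : Matrix (Fin m) (Fin m) (KK d hd) := fun i j => ⟨A i j, hA i j⟩ with hB
  have hAB : A = (KK d hd).subtype.mapMatrix B := rfl
  intro i j
  rw [Matrix.inv_def, Ring.inverse_eq_inv', Matrix.smul_apply, smul_eq_mul, ← mem_KK hd]
  apply (KK d hd).mul_mem
  · apply (KK d hd).inv_mem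
    rw [hAB, ← RingHom.map_det]
    exact (det B).2
  · rw [hAB, ← RingHom.map_adjugate]
    exact (adjugate B i j).2

theorem mul_entries {m : ℕ} {d : ℤ} (hd : d < 0) (A B : Matrix (Fin m) (Fin m) ℂ)
    (hA : ∀ i j, A i j ∈ Fld d) (hB : ∀ i j, B i j ∈ Fld d) : ∀ i j, (A * B) i j ∈ Fld d := by
  intro i j
  rw [Matrix.mul_apply, ← mem_KK hd]
  exact sum_mem fun k _ => (KK d hd).mul_mem (hA i k) (hB k j)

/-! ### Cayley transform -/

variable {m : ℕ}

theorem cayley (H Y : Matrix (Fin m) (Fin m) ℂ) (hY : Y * H + H * Yᴴ = 0)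
    (hdet : IsUnit (1 - Y).det) :
    ((1 - Y)⁻¹ * (1 + Y)) * H * ((1 - Y)⁻¹ * (1 + Y))ᴴ = H := by
  have h1 : (1 + Y) * H * (1 + Y)ᴴ = (1 - Y) * H * (1 - Y)ᴴ := by
    rw [conjTranspose_add, conjTranspose_sub, conjTranspose_one]
    have h2 : (1 + Y) * H * (1 + Yᴴ) = H + (Y * H + H * Yᴴ) + Y * H * Yᴴ := by noncomm_ring
    have h3 : (1 - Y) * H * (1 - Yᴴ) = H - (Y * H + H * Yᴴ) + Y * H * Yᴴ := by noncomm_ring
    rw [h2, h3, hY]
    simp
  rw [conjTranspose_mul]
  calc (1 - Y)⁻¹ * (1 + Y) * H * ((1 + Y)ᴴ * (1 - Y)⁻¹ᴴ) =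
        (1 - Y)⁻¹ * ((1 + Y) * H * (1 + Y)ᴴ) * (1 - Y)⁻¹ᴴ := by
        simp only [Matrix.mul_assoc]
    _ = ((1 - Y)⁻¹ * (1 - Y)) * H * ((1 - Y)⁻¹ * (1 - Y))ᴴ := by
        rw [h1, conjTranspose_mul]
        simp only [Matrix.mul_assoc]
    _ = H := by
        rw [nonsing_inv_mul _ hdet, conjTranspose_one, Matrix.one_mul, Matrix.mul_one]

theorem cayley_inv (H A : Matrix (Fin m) (Fin m) ℂ) (hA : A * H * Aᴴ = H)
    (hdet : IsUnit (A + 1).det) :
    ∃ Y : Matrix (Fin m) (Fin m) ℂ, Y * H + H * Yᴴ = 0 ∧ IsUnit (1 - Y).det ∧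
      (1 - Y)⁻¹ * (1 + Y) = A := by
  set B := A + 1 with hB
  have hBi : B⁻¹ * B = 1 := nonsing_inv_mul _ hdet
  have hBi' : B * B⁻¹ = 1 := mul_nonsing_inv _ hdet
  have h1' : 1 - B⁻¹ * (A - 1) = (2 : ℂ) • B⁻¹ := by
    calc 1 - B⁻¹ * (A - 1) = B⁻¹ * B - B⁻¹ * (A - 1) := by rw [hBi]
      _ = B⁻¹ * (B - (A - 1)) := (Matrix.mul_sub _ _ _).symm
      _ = B⁻¹ * ((2 : ℂ) • (1 : Matrix (Fin m) (Fin m) ℂ)) := by
          congr 1
          rw [hB, two_smul]
          abel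
      _ = (2 : ℂ) • B⁻¹ := by rw [Matrix.mul_smul, Matrix.mul_one]
  have h2' : 1 + B⁻¹ * (A - 1) = (2 : ℂ) • (B⁻¹ * A) := by
    calc 1 + B⁻¹ * (A - 1) = B⁻¹ * B + B⁻¹ * (A - 1) := by rw [hBi]
      _ = B⁻¹ * (B + (A - 1)) := (Matrix.mul_add _ _ _).symm
      _ = B⁻¹ * ((2 : ℂ) • A) := by
          congr 1
          rw [hB, two_smul]
          abel
      _ = (2 : ℂ) • (B⁻¹ * A) := by rw [Matrix.mul_smul]
  refine ⟨B⁻¹ * (A - 1), ?_, ?_, ?_⟩
  · have h1 : (A - 1) * H * Bᴴ + B * H * (A - 1)ᴴ = 0 := by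
      rw [hB, conjTranspose_add, conjTranspose_sub, conjTranspose_one]
      have h2 : (A - 1) * H * (Aᴴ + 1) + (A + 1) * H * (Aᴴ - 1) =
          2 • (A * H * Aᴴ - H) := by noncomm_ring
      rw [h2, hA, sub_self, smul_zero]
    have hBH : Bᴴ * B⁻¹ᴴ = 1 := by rw [← conjTranspose_mul, hBi, conjTranspose_one]
    have e1 : B⁻¹ * (A - 1) * H = B⁻¹ * ((A - 1) * H * Bᴴ) * B⁻¹ᴴ := by
      calc B⁻¹ * (A - 1) * H = B⁻¹ * (A - 1) * H * (Bᴴ * B⁻¹ᴴ) := by rw [hBH, Matrix.mul_one]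
        _ = B⁻¹ * ((A - 1) * H * Bᴴ) * B⁻¹ᴴ := by simp only [Matrix.mul_assoc]
    have e2 : H * (B⁻¹ * (A - 1))ᴴ = B⁻¹ * (B * H * (A - 1)ᴴ) * B⁻¹ᴴ := by
      calc H * (B⁻¹ * (A - 1))ᴴ = (B⁻¹ * B) * (H * ((A - 1)ᴴ * B⁻¹ᴴ)) := by
            rw [hBi, Matrix.one_mul, conjTranspose_mul]
        _ = B⁻¹ * (B * H * (A - 1)ᴴ) * B⁻¹ᴴ := by simp only [Matrix.mul_assoc]
    calc B⁻¹ * (A - 1) * H + H * (B⁻¹ * (A - 1))ᴴ =
          B⁻¹ * ((A - 1) * H * Bᴴ + B * H * (A - 1)ᴴ) * B⁻¹ᴴ := by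
          rw [e1, e2, ← Matrix.add_mul, ← Matrix.mul_add]
      _ = 0 := by rw [h1]; simp
  · rw [h1', det_smul]
    apply IsUnit.mul
    · exact (isUnit_iff_ne_zero.2 (by norm_num)).pow _
    · rw [isUnit_nonsing_inv_det_iff]
      exact hdet
  · have h3 : (1 - B⁻¹ * (A - 1)) * ((2 : ℂ)⁻¹ • B) = 1 := by
      rw [h1', Matrix.mul_smul, Matrix.smul_mul, hBi, smul_smul]
      norm_num
    rw [inv_eq_right_inv h3, h2', Matrix.mul_smul, Matrix.smul_mul, ← Matrix.mul_assoc, hBi',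
      Matrix.one_mul, smul_smul]
    norm_num

/-! ### Density -/

/-- skew-Hermitian matrices in coordinates -/
noncomputable def sk (d : ℤ) (p : (Fin m → Fin m → ℂ) × (Fin m → ℝ)) :
    Matrix (Fin m) (Fin m) ℂ := fun i j =>
  if i < j then p.1 i j else if j < i then -(starRingEnd ℂ) (p.1 j i) else (p.2 i : ℂ) * w d

theorem sk_conj (d : ℤ) (p : (Fin m → Fin m → ℂ) × (Fin m → ℝ)) : (sk d p)ᴴ = -sk d p := by
  ext i j
  rw [conjTranspose_apply, neg_apply]
  unfold sk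
  rcases lt_trichotomy i j with h | h | h
  · rw [if_neg (not_lt.2 h.le), if_pos h, if_pos h]
    simp
  · subst h
    simp only [lt_irrefl, if_false]
    rw [star_mul', Complex.star_def, Complex.conj_ofReal, w_conj]
    ring
  · rw [if_pos h, if_neg (not_lt.2 h.le), if_pos h]
    simp

theorem sk_surj (d : ℤ) (hd : d < 0) (S : Matrix (Fin m) (Fin m) ℂ) (hS : Sᴴ = -S) :
    ∃ p, sk d p = S := by
  have hr0 : 0 < Real.sqrt (-(d : ℝ)) := Real.sqrt_pos.2 (by
    have : (d : ℝ) < 0 := by exact_mod_cast hd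
    linarith)
  refine ⟨(fun i j => S i j, fun i => (S i i).im / Real.sqrt (-(d : ℝ))), ?_⟩
  ext i j
  have h1 : star (S j i) = -S i j := by
    have := congrFun (congrFun hS i) j
    rwa [conjTranspose_apply, neg_apply] at this
  unfold sk
  rcases lt_trichotomy i j with h | h | h
  · rw [if_pos h]
  · subst h
    simp only [lt_irrefl, if_false]
    have h2 : (S i i).re = 0 := by
      have := congrArg Complex.re h1
      rw [Complex.star_def, Complex.conj_re, Complex.neg_re] at this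
      linarith
    apply Complex.ext
    · rw [h2]
      simp [w]
    · simp only [w]
      rw [← mul_assoc, ← Complex.ofReal_mul]
      rw [Complex.im_ofReal_mul]
      simp only [Complex.I_im, mul_one]
      field_simp
  · rw [if_neg (not_lt.2 h.le), if_pos h]
    have h2 : star (S i j) = -S j i := by
      have := congrFun (congrFun hS j) i
      rwa [conjTranspose_apply, neg_apply] at this
    have h3 := h1
    rw [Complex.star_def] at h3
    simp only [h3, neg_neg]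

theorem sk_cont (d : ℤ) : Continuous (sk d : _ → Matrix (Fin m) (Fin m) ℂ) := by
  apply continuous_matrix
  intro i j
  unfold sk
  by_cases h : i < j
  · simp only [if_pos h]
    fun_prop
  · simp only [if_neg h]
    by_cases h' : j < i
    · simp only [if_pos h']
      have : Continuous fun p : (Fin m → Fin m → ℂ) × (Fin m → ℝ) => p.1 j i := by fun_prop
      exact (Complex.continuous_conj.comp this).neg
    · simp only [if_neg h']
      fun_prop

/-- the coordinates in the field -/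
def DD (m : ℕ) (d : ℤ) : Set ((Fin m → Fin m → ℂ) × (Fin m → ℝ)) :=
  (Set.univ.pi fun _ => Set.univ.pi fun _ => Fld d) ×ˢ
    (Set.univ.pi fun _ => Set.range (fun q : ℚ => (q : ℝ)))

theorem DD_dense (m : ℕ) (d : ℤ) (hd : d < 0) : Dense (DD m d) := by
  apply Dense.prod
  · exact dense_pi _ fun _ _ => dense_pi _ fun _ _ => dense_Fld d hd
  · exact dense_pi _ fun _ _ => Rat.denseRange_cast

theorem sk_mem {d : ℤ} (hd : d < 0) {p : (Fin m → Fin m → ℂ) × (Fin m → ℝ)} (hp : p ∈ DD m d) :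
    ∀ i j, sk d p i j ∈ Fld d := by
  intro i j
  obtain ⟨h1, h2⟩ := hp
  have h1' : ∀ i j, p.1 i j ∈ Fld d := fun i j => h1 i trivial j trivial
  obtain ⟨q, hq⟩ := h2 i trivial
  unfold sk
  split_ifs with h h'
  · exact h1' i j
  · exact (KK d hd).neg_mem (conj_mem (h1' j i))
  · refine (mem_Fld d _).2 ⟨0, q, ?_⟩
    have hq' : (q : ℝ) = p.2 i := hq
    rw [← hq']
    push_cast
    ring

theorem approx {d : ℤ} (hd : d < 0) (H A : Matrix (Fin m) (Fin m) ℂ)
    (hH : ∀ i j, H i j ∈ Fld d) (hHH : Hᴴ = H) (hHd : IsUnit H.det) (hA : A * H * Aᴴ = H)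
    (hdet : IsUnit (A + 1).det) (ε : ℝ) (hε : 0 < ε) :
    ∃ A' : Matrix (Fin m) (Fin m) ℂ, (∀ i j, A' i j ∈ Fld d) ∧ A' * H * A'ᴴ = H ∧
      ∀ i j, ‖A' i j - A i j‖ < ε := by
  obtain ⟨Y, hY1, hY2, hY3⟩ := cayley_inv H A hA hdet
  have hS : (Y * H)ᴴ = -(Y * H) := by
    rw [conjTranspose_mul, hHH]
    exact eq_neg_of_add_eq_zero_right hY1
  obtain ⟨p0, hp0⟩ := sk_surj d hd (Y * H) hS
  set M : (Fin m → Fin m → ℂ) × (Fin m → ℝ) → Matrix (Fin m) (Fin m) ℂ :=
    fun p => 1 - sk d p * H⁻¹ with hM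
  set N : (Fin m → Fin m → ℂ) × (Fin m → ℝ) → Matrix (Fin m) (Fin m) ℂ :=
    fun p => 1 + sk d p * H⁻¹ with hN
  have hMc : Continuous M := continuous_const.sub ((sk_cont d).mul continuous_const)
  have hNc : Continuous N := continuous_const.add ((sk_cont d).mul continuous_const)
  have hYp : sk d p0 * H⁻¹ = Y := by
    rw [hp0, Matrix.mul_assoc, mul_nonsing_inv _ hHd, Matrix.mul_one]
  have hM0 : M p0 = 1 - Y := by
    rw [hM]
    simp only
    rw [hYp]
  have hN0 : N p0 = 1 + Y := by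
    rw [hN]
    simp only
    rw [hYp]
  have hne : (M p0).det ≠ 0 := by
    rw [hM0]
    exact hY2.ne_zero
  have hcont : ContinuousAt (fun p => (M p)⁻¹ * N p) p0 := by
    have h1 : (fun p => (M p)⁻¹ * N p) = fun p => ((M p).det)⁻¹ • (M p).adjugate * N p := by
      funext p
      rw [Matrix.inv_def, Ring.inverse_eq_inv']
    rw [h1]
    exact ((hMc.matrix_det.continuousAt.inv₀ hne).smul hMc.matrix_adjugate.continuousAt).mul
      hNc.continuousAt
  have hval : (M p0)⁻¹ * N p0 = A := by rw [hM0, hN0, hY3]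
  have hE1 : ∀ᶠ p in nhds p0, (M p).det ≠ 0 := hMc.matrix_det.continuousAt.eventually_ne hne
  have hE2 : ∀ᶠ p in nhds p0, ∀ i j, ‖((M p)⁻¹ * N p) i j - A i j‖ < ε := by
    rw [Filter.eventually_all]
    intro i
    rw [Filter.eventually_all]
    intro j
    have h1 : ContinuousAt (fun p => ((M p)⁻¹ * N p) i j) p0 := by
      have h2 : Continuous fun B : Matrix (Fin m) (Fin m) ℂ => B i j := by fun_prop
      exact h2.continuousAt.comp hcont
    have h3 : ((M p0)⁻¹ * N p0) i j = A i j := by rw [hval]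
    have h4 := Metric.tendsto_nhds.1 h1 ε hε
    simp only [h3, dist_eq_norm] at h4
    exact h4
  obtain ⟨p, hp1, hp2, hp3⟩ := (DD_dense m d hd).inter_nhds_nonempty (hE1.and hE2)
  refine ⟨(M p)⁻¹ * N p, ?_, ?_, hp3⟩
  · have h1 : ∀ i j, (sk d p * H⁻¹) i j ∈ Fld d :=
      mul_entries hd _ _ (sk_mem hd hp1) (inv_entries hd H hH)
    have h0 : ∀ i j : Fin m, (1 : Matrix (Fin m) (Fin m) ℂ) i j ∈ Fld d := by
      intro i j
      rw [Matrix.one_apply]
      split_ifs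
      · exact (KK d hd).one_mem
      · exact (KK d hd).zero_mem
    apply mul_entries hd
    · apply inv_entries hd
      intro i j
      exact (KK d hd).sub_mem (h0 i j) (h1 i j)
    · intro i j
      exact (KK d hd).add_mem (h0 i j) (h1 i j)
  · apply cayley H (sk d p * H⁻¹)
    · have h1 : sk d p * H⁻¹ * H = sk d p := by
        rw [Matrix.mul_assoc, nonsing_inv_mul _ hHd, Matrix.mul_one]
      have h2 : H * (sk d p * H⁻¹)ᴴ = -sk d p := by
        have h3 : (sk d p * H⁻¹ * H)ᴴ = H * (sk d p * H⁻¹)ᴴ := by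
          rw [conjTranspose_mul, hHH]
        rw [← h3, h1, sk_conj]
      rw [h1, h2]
      simp
    · exact isUnit_iff_ne_zero.2 hp2

/-! ### A number on the unit circle -/

theorem exists_zeta (A : Matrix (Fin m) (Fin m) ℂ) (δ : ℝ) (hδ : 0 < δ) :
    ∃ ζ : ℂ, ‖ζ‖ = 1 ∧ ‖ζ - 1‖ < δ ∧ IsUnit (ζ • A + 1).det := by
  classical
  set P : Polynomial ℂ := Matrix.det ((Polynomial.X : Polynomial ℂ) • A.map Polynomial.C + 1)
    with hP
  have heval : ∀ z : ℂ, P.eval z = (z • A + 1).det := by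
    intro z
    have h1 : P.eval z = (Polynomial.evalRingHom z) P := rfl
    rw [h1, hP, RingHom.map_det]
    congr 1
    ext i j
    simp only [RingHom.mapMatrix_apply, Matrix.map_apply, Matrix.add_apply, Matrix.smul_apply,
      smul_eq_mul, map_add, Polynomial.coe_evalRingHom]
    congr 1
    · rw [Polynomial.eval_mul, Polynomial.eval_X, Polynomial.eval_C]
    · rw [Matrix.one_apply, Matrix.one_apply]
      split_ifs
      · simp
      · simp
  have hP0 : P ≠ 0 := by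
    intro h0
    have h1 := heval 0
    rw [h0] at h1
    simp at h1
  have hfin : {z : ℂ | P.eval z = 0}.Finite := by
    have := Polynomial.finite_setOfPred_isRoot hP0
    exact this
  set f : ℝ → ℂ := fun t => (1 + t * Complex.I) / (1 - t * Complex.I) with hf
  have hden : ∀ t : ℝ, (1 : ℂ) - t * Complex.I ≠ 0 := by
    intro t h
    have := congrArg Complex.re h
    simp at this
  have hinj : Function.Injective f := by
    intro s t h
    have h1 : (1 + s * Complex.I) / (1 - s * Complex.I) =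
      (1 + t * Complex.I) / (1 - t * Complex.I) := h
    rw [div_eq_div_iff (hden s) (hden t)] at h1
    have h2 : (s : ℂ) * Complex.I = t * Complex.I := by linear_combination h1 / 2
    have h3 := mul_right_cancel₀ Complex.I_ne_zero h2
    exact_mod_cast h3
  have hfin2 : (f ⁻¹' {z : ℂ | P.eval z = 0}).Finite := hfin.preimage hinj.injOn
  obtain ⟨t, ht1, ht2⟩ := (Set.Ioo_infinite (show (0 : ℝ) < δ / 2 by linarith)).exists_notMem_finite
    hfin2
  refine ⟨f t, ?_, ?_, ?_⟩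
  · rw [hf]
    simp only
    rw [norm_div]
    have h1 : (1 : ℂ) - t * Complex.I = (starRingEnd ℂ) (1 + t * Complex.I) := by
      simp [Complex.conj_ofReal]
      ring
    rw [h1, RCLike.norm_conj]
    apply div_self
    rw [← RCLike.norm_conj, ← h1]
    exact norm_ne_zero_iff.2 (hden t)
  · have h1 : f t - 1 = 2 * (t : ℂ) * Complex.I / (1 - t * Complex.I) := by
      rw [hf]
      simp only
      rw [div_sub_one (hden t)]
      congr 1
      ring
    rw [h1, norm_div, norm_mul, norm_mul, Complex.norm_I, mul_one, Complex.norm_real]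
    have h2 : 1 ≤ ‖(1 : ℂ) - t * Complex.I‖ := by
      have := Complex.abs_re_le_norm ((1 : ℂ) - t * Complex.I)
      simp at this
      exact this
    have h3 : ‖(2 : ℂ)‖ = 2 := by simp
    rw [h3, Real.norm_eq_abs, abs_of_pos ht1.1]
    calc 2 * t / ‖(1 : ℂ) - t * Complex.I‖ ≤ 2 * t := div_le_self (by linarith [ht1.1]) h2
      _ < δ := by linarith [ht1.2]
  · rw [← heval]
    exact isUnit_iff_ne_zero.2 ht2

/-! ### The form -/

theorem hf_single (C : Matrix (Fin (n + 1)) (Fin (n + 1)) ℂ) (i j : Fin (n + 1)) :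
    hf C (Pi.single i 1) (Pi.single j 1) = C i j := by
  rw [hf, Finset.sum_eq_single i, Finset.sum_eq_single j]
  · simp
  · intro b _ hb
    simp [hb]
  · simp
  · intro b _ hb
    simp [hb]
  · simp

theorem hf_eq (C : Matrix (Fin (n + 1)) (Fin (n + 1)) ℂ) (x y : V n) :
    hf C x y = x ⬝ᵥ C *ᵥ star y := by
  rw [hf, dotProduct]
  refine Finset.sum_congr rfl fun i _ => ?_
  rw [mulVec, dotProduct, Finset.mul_sum]
  refine Finset.sum_congr rfl fun j _ => ?_
  rw [mul_assoc]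
  rfl

theorem hf_vecMul (C B : Matrix (Fin (n + 1)) (Fin (n + 1)) ℂ) (x y : V n) :
    hf C (x ᵥ* B) (y ᵥ* B) = hf (B * C * Bᴴ) x y := by
  rw [hf_eq, hf_eq, star_vecMul, ← dotProduct_mulVec, mulVec_mulVec, mulVec_mulVec,
    Matrix.mul_assoc]

theorem H_herm (Λ : HL n) : Λ.Hᴴ = Λ.H := by
  ext i j
  rw [conjTranspose_apply, ← hf_single Λ.H, ← hf_single Λ.H]
  exact Λ.h_conj _ _

theorem H_det (Λ : HL n) : IsUnit Λ.H.det := by
  rw [isUnit_iff_ne_zero]
  intro h0
  obtain ⟨v, hv, hv2⟩ := exists_mulVec_eq_zero_iff.2 h0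
  obtain ⟨P, hP⟩ := Λ.sig
  have h1 : ∀ x, hf Λ.H x (star v) = 0 := by
    intro x
    rw [hf_eq, star_star, hv2]
    simp
  have h2 : ∀ y, std y (P (star v)) = 0 := by
    intro y
    have := h1 (P.symm y)
    rw [hP, P.apply_symm_apply] at this
    exact this
  have h3 : P (star v) = 0 := by
    funext i
    refine Fin.lastCases ?_ (fun i => ?_) i
    · have := h2 (Pi.single (Fin.last n) 1)
      simp [std, Fin.castSucc_ne_last] at this
      simpa using this
    · have := h2 (Pi.single i.castSucc 1)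
      simp [std, Pi.single_apply, (Fin.castSucc_ne_last i).symm, Fin.castSucc_inj] at this
      simpa using this
  have h4 : star v = 0 := by
    rw [← P.symm_apply_apply (star v), h3, map_zero]
  exact hv (by simpa using h4)

end DEN

open Matrix DEN in
theorem DEN_thm : S_DEN := by
  intro n Λ g hg ε hε
  have hd := Λ.neg
  set A : Matrix (Fin (n + 1)) (Fin (n + 1)) ℂ := fun i j => g (Pi.single i 1) j with hA
  have hAi : ∀ i, (Pi.single i (1 : ℂ) : V n) ᵥ* A = g (Pi.single i 1) := by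
    intro i
    rw [single_one_vecMul]
    rfl
  have hAH : A * Λ.H * Aᴴ = Λ.H := by
    ext i j
    rw [← hf_single (A * Λ.H * Aᴴ), ← hf_vecMul, hAi, hAi]
    have h1 := hg (Pi.single i 1) (Pi.single j 1)
    rw [HL.h, HL.h, hf_single] at h1
    exact h1
  set C : ℝ := 1 + ∑ i, ∑ j, ‖A i j‖ with hC
  have hC0 : 0 < C := by positivity
  have hAC : ∀ i j, ‖A i j‖ ≤ C := by
    intro i j
    have h1 : ‖A i j‖ ≤ ∑ j, ‖A i j‖ :=
      Finset.single_le_sum (f := fun j => ‖A i j‖) (fun _ _ => norm_nonneg _)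
        (Finset.mem_univ j)
    have h2 : ∑ j, ‖A i j‖ ≤ ∑ i, ∑ j, ‖A i j‖ :=
      Finset.single_le_sum (f := fun i => ∑ j, ‖A i j‖)
        (fun _ _ => Finset.sum_nonneg fun _ _ => norm_nonneg _) (Finset.mem_univ i)
    linarith
  obtain ⟨ζ, hζ1, hζ2, hζ3⟩ := exists_zeta A (ε / 2 / C) (by positivity)
  have hζA : (ζ • A) * Λ.H * (ζ • A)ᴴ = Λ.H := by
    rw [conjTranspose_smul, Matrix.smul_mul, Matrix.smul_mul, Matrix.mul_smul, smul_smul, hAH]
    have h1 : ζ * star ζ = 1 := by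
      rw [Complex.star_def, Complex.mul_conj, Complex.normSq_eq_norm_sq, hζ1]
      simp
    rw [h1, one_smul]
  obtain ⟨A', hA'1, hA'2, hA'3⟩ := approx hd Λ.H (ζ • A) Λ.ent (H_herm Λ) (H_det Λ) hζA hζ3
    (ε / 2) (by positivity)
  have hdet : IsUnit A'.det := by
    rw [isUnit_iff_ne_zero]
    intro h0
    have h1 := congrArg det hA'2
    rw [det_mul, det_mul, h0, zero_mul, zero_mul] at h1
    exact (H_det Λ).ne_zero h1.symm
  set g' : V n ≃ₗ[ℂ] V n :=
    { A'.vecMulLinear with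
      invFun := fun x => x ᵥ* A'⁻¹
      left_inv := fun x => by
        change (x ᵥ* A') ᵥ* A'⁻¹ = x
        rw [vecMul_vecMul, mul_nonsing_inv _ hdet, vecMul_one]
      right_inv := fun x => by
        change (x ᵥ* A'⁻¹) ᵥ* A' = x
        rw [vecMul_vecMul, nonsing_inv_mul _ hdet, vecMul_one] } with hg'
  have hg'x : ∀ x, g' x = x ᵥ* A' := fun x => rfl
  have hent : ∀ (B : Matrix (Fin (n + 1)) (Fin (n + 1)) ℂ), (∀ i j, B i j ∈ Fld Λ.d) →
      ∀ x : V n, (∀ i, x i ∈ Fld Λ.d) → ∀ i, (x ᵥ* B) i ∈ Fld Λ.d := by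
    intro B hB x hx i
    rw [vecMul, dotProduct, ← mem_KK hd]
    exact sum_mem fun k _ => (KK Λ.d hd).mul_mem (hx k) (hB k i)
  refine ⟨g', ⟨?_, ?_⟩, ?_⟩
  · intro x y
    rw [HL.h, hg'x, hg'x, hf_vecMul, hA'2]
    rfl
  · intro x
    refine ⟨fun hx => ?_, fun hx => ?_⟩
    · rw [hg'x]
      exact hent A' hA'1 x hx
    · have h1 : x = g' x ᵥ* A'⁻¹ := by
        rw [hg'x, vecMul_vecMul, mul_nonsing_inv _ hdet, vecMul_one]
      rw [h1]
      exact hent _ (inv_entries hd A' hA'1) _ hx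
  · intro i
    rw [pi_norm_lt_iff hε]
    intro j
    have h1 : g' (Pi.single i 1) j = A' i j := by
      rw [hg'x, single_one_vecMul]
      rfl
    have h2 : (g' (Pi.single i 1) - g (Pi.single i 1)) j = A' i j - A i j := by
      rw [Pi.sub_apply, h1]
    rw [h2]
    have h3 : A' i j - A i j = (A' i j - (ζ • A) i j) + (ζ - 1) * A i j := by
      rw [Matrix.smul_apply, smul_eq_mul]
      ring
    rw [h3]
    calc ‖(A' i j - (ζ • A) i j) + (ζ - 1) * A i j‖ ≤
          ‖A' i j - (ζ • A) i j‖ + ‖(ζ - 1) * A i j‖ := norm_add_le _ _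
      _ < ε / 2 + ε / 2 := by
          apply add_lt_add_of_lt_of_le (hA'3 i j)
          rw [norm_mul]
          calc ‖ζ - 1‖ * ‖A i j‖ ≤ ε / 2 / C * C :=
                mul_le_mul hζ2.le (hAC i j) (norm_nonneg _) (by positivity)
            _ = ε / 2 := by field_simp
      _ = ε := by ring

end Pool.Agent.MFB
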