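import Mathlib
import Pool.Agent.MFB.Stmts

/-!
# The derivations of a graded polynomial subalgebra
-/

namespace Pool.Agent.MFB

open MvPolynomial

namespace DER

variable {B : Type} [CommRing B] [Algebra ℂ B] {𝒜 : ℕ → Submodule ℂ B}

/-- The value of a monomial is homogeneous. -/
theorem mono_mem (h1 : (1 : B) ∈ 𝒜 0) (hm : ∀ i j, ∀ a ∈ 𝒜 i, ∀ b ∈ 𝒜 j, a * b ∈ 𝒜 (i + j))
    {m : ℕ} {x : Fin m → B} {e : Fin m → ℕ} (hx : ∀ j, x j ∈ 𝒜 (e j)) (d : Fin m →₀ ℕ) (a : ℂ) :
    aeval x (monomial d a) ∈ 𝒜 (Finsupp.weight e d) := by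
  have : SetLike.GradedMonoid 𝒜 := { one_mem := h1, mul_mem := fun i j a b ha hb => hm i j a ha b hb }
  rw [aeval_monomial, ← Algebra.smul_def]
  refine Submodule.smul_mem _ _ ?_
  have h2 := SetLike.prod_pow_mem_graded 𝒜 e x d (F := d.support) (fun k _ => hx k)
  have h3 : Finsupp.weight e d = ∑ k ∈ d.support, d k • e k := by
    rw [Finsupp.weight_apply, Finsupp.sum]
  rw [h3]
  exact h2

/-- The components of the value of a polynomial. -/
theorem comp (h1 : (1 : B) ∈ 𝒜 0) (hm : ∀ i j, ∀ a ∈ 𝒜 i, ∀ b ∈ 𝒜 j, a * b ∈ 𝒜 (i + j))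
    [DirectSum.Decomposition 𝒜]
    {m : ℕ} {x : Fin m → B} {e : Fin m → ℕ} (hx : ∀ j, x j ∈ 𝒜 (e j)) (l : ℕ)
    (P : MvPolynomial (Fin m) ℂ) :
    (DirectSum.decompose 𝒜 (aeval x P) l : B) =
      aeval x (weightedHomogeneousComponent e l P) := by
  induction P using MvPolynomial.induction_on' with
  | monomial d a =>
    have h2 := mono_mem h1 hm hx d a
    have h3 : IsWeightedHomogeneous e (monomial d a) (Finsupp.weight e d) :=
      isWeightedHomogeneous_monomial e d a rfl
    by_cases hl : Finsupp.weight e d = l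
    · subst hl
      rw [DirectSum.decompose_of_mem_same 𝒜 h2, h3.weightedHomogeneousComponent_same]
    · rw [DirectSum.decompose_of_mem_ne 𝒜 h2 hl,
        h3.weightedHomogeneousComponent_ne l (Ne.symm hl), map_zero]
  | add p q hp hq =>
    rw [map_add, DirectSum.decompose_add, map_add, map_add, DirectSum.add_apply,
      Submodule.coe_add, hp, hq]

/-- The value of a weighted homogeneous polynomial is homogeneous. -/
theorem val_mem (h1 : (1 : B) ∈ 𝒜 0) (hm : ∀ i j, ∀ a ∈ 𝒜 i, ∀ b ∈ 𝒜 j, a * b ∈ 𝒜 (i + j))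
    {m : ℕ} {x : Fin m → B} {e : Fin m → ℕ} (hx : ∀ j, x j ∈ 𝒜 (e j)) {l : ℕ}
    {P : MvPolynomial (Fin m) ℂ} (hP : IsWeightedHomogeneous e P l) : aeval x P ∈ 𝒜 l := by
  rw [P.as_sum, map_sum]
  refine Submodule.sum_mem _ fun d hd => ?_
  have h2 := mono_mem h1 hm hx d (coeff d P)
  rwa [hP (mem_support_iff.1 hd)] at h2

/-- A polynomial with homogeneous value is weighted homogeneous. -/
theorem isWH (h1 : (1 : B) ∈ 𝒜 0) (hm : ∀ i j, ∀ a ∈ 𝒜 i, ∀ b ∈ 𝒜 j, a * b ∈ 𝒜 (i + j))
    (hi : DirectSum.IsInternal 𝒜)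
    {m : ℕ} {x : Fin m → B} {e : Fin m → ℕ} (hx : ∀ j, x j ∈ 𝒜 (e j))
    (hA : AlgebraicIndependent ℂ x) {k : ℕ}
    {P : MvPolynomial (Fin m) ℂ} (hP : aeval x P ∈ 𝒜 k) : IsWeightedHomogeneous e P k := by
  classical
  let _ := hi.chooseDecomposition 𝒜
  intro d hd
  by_contra hne
  have h2 := comp h1 hm hx (Finsupp.weight e d) P
  rw [DirectSum.decompose_of_mem_ne 𝒜 hP (Ne.symm hne)] at h2
  have h3 : weightedHomogeneousComponent e (Finsupp.weight e d) P = 0 := by
    apply (algebraicIndependent_iff_injective_aeval.1 hA)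
    rw [map_zero]
    exact h2.symm
  have h4 := congrArg (coeff d) h3
  rw [coeff_weightedHomogeneousComponent, if_pos rfl, coeff_zero] at h4
  exact hd h4

/-- The transported derivation. -/
noncomputable def D {m : ℕ} {x : Fin m → B} (hA : AlgebraicIndependent ℂ x) (j : Fin m) :
    Derivation ℂ (Algebra.adjoin ℂ (Set.range x)) (Algebra.adjoin ℂ (Set.range x)) :=
  Derivation.mk' (hA.aevalEquiv.toLinearMap ∘ₗ (pderiv j).toLinearMap ∘ₗ
      hA.aevalEquiv.symm.toLinearMap) (by
    intro a b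
    show hA.aevalEquiv (pderiv j (hA.aevalEquiv.symm (a * b))) =
      a • hA.aevalEquiv (pderiv j (hA.aevalEquiv.symm b)) +
        b • hA.aevalEquiv (pderiv j (hA.aevalEquiv.symm a))
    rw [map_mul, Derivation.leibniz, map_add, smul_eq_mul, smul_eq_mul, map_mul, map_mul,
      AlgEquiv.apply_symm_apply, AlgEquiv.apply_symm_apply, smul_eq_mul, smul_eq_mul])

theorem D_apply {m : ℕ} {x : Fin m → B} (hA : AlgebraicIndependent ℂ x) (j : Fin m)
    (P : MvPolynomial (Fin m) ℂ) : ((D hA j (hA.aevalEquiv P) :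
      Algebra.adjoin ℂ (Set.range x)) : B) = aeval x (pderiv j P) := by
  show ((hA.aevalEquiv (pderiv j (hA.aevalEquiv.symm (hA.aevalEquiv P))) :
    Algebra.adjoin ℂ (Set.range x)) : B) = _
  rw [AlgEquiv.symm_apply_apply]
  exact hA.algebraMap_aevalEquiv _

end DER

/-- DER: the derivations of a graded polynomial subalgebra. -/
theorem DER_thm : S_DER := by
  intro B _ _ _ 𝒜 h1 hm hi m x e hx hA
  refine ⟨DER.D hA, ?_, ?_⟩
  · intro j k c hc
    obtain ⟨P, rfl⟩ := hA.aevalEquiv.surjective c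
    have hc' : aeval x P ∈ 𝒜 k := hc
    have hP := DER.isWH h1 hm hi hx hA hc'
    by_cases hk : e j ≤ k
    · right
      refine ⟨hk, ?_⟩
      rw [DER.D_apply]
      exact DER.val_mem h1 hm hx (hP.pderiv (Nat.sub_add_cancel hk))
    · left
      apply Subtype.ext
      rw [DER.D_apply]
      have h2 : pderiv j P = 0 := by
        ext d
        rw [coeff_zero]
        by_contra hne
        rw [P.as_sum, map_sum, coeff_sum] at hne
        obtain ⟨d', hd', hd''⟩ := Finset.exists_ne_zero_of_sum_ne_zero hne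
        rw [pderiv_monomial, coeff_monomial] at hd''
        have h3 : d' j ≠ 0 := by
          intro h0
          apply hd''
          rw [h0, Nat.cast_zero, mul_zero, ite_self]
        have h4 := hP (mem_support_iff.1 hd')
        rw [Finsupp.weight_apply, Finsupp.sum_fintype _ _ (by intro; exact zero_smul _ _)] at h4
        have h5 : d' j • e j ≤ ∑ i, d' i • e i :=
          Finset.single_le_sum (f := fun i => d' i • e i) (fun i _ => Nat.zero_le _)
            (Finset.mem_univ j)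
        rw [h4, smul_eq_mul] at h5
        have h6 : e j ≤ d' j * e j := Nat.le_mul_of_pos_left _ (Nat.pos_of_ne_zero h3)
        exact hk (h6.trans h5)
      rw [h2, map_zero]
      rfl
  · intro k c hc
    obtain ⟨P, rfl⟩ := hA.aevalEquiv.surjective c
    have hc' : aeval x P ∈ 𝒜 k := hc
    have hP := DER.isWH h1 hm hi hx hA hc'
    have h2 := congrArg (aeval x) hP.sum_weight_X_mul_pderiv
    rw [map_sum, map_nsmul] at h2
    rw [show ((hA.aevalEquiv P : Algebra.adjoin ℂ (Set.range x)) : B) = aeval x P from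
      hA.algebraMap_aevalEquiv P]
    rw [Nat.cast_smul_eq_nsmul, ← h2]
    refine Finset.sum_congr rfl fun j _ => ?_
    rw [DER.D_apply, Nat.cast_smul_eq_nsmul, map_nsmul, map_mul, aeval_X]

end Pool.Agent.MFB
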