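import Mathlib
import Pool.Agent.MFB.Stmts

/-!
# ELI: two relatively prime relations
-/

namespace Pool.Agent.MFB

namespace ELI

open Polynomial in
/-- Relatively prime polynomials over a factorial ring have a non-zero constant in the ideal which
they generate. -/
theorem elimPoly {R : Type*} [CommRing R] [IsDomain R] [UniqueFactorizationMonoid R]
    (p q : R[X]) (h : IsRelPrime p q) :
    ∃ c : R, c ≠ 0 ∧ ∃ a b : R[X], C c = a * p + b * q := by
  classical
  obtain ⟨inst⟩ : Nonempty (NormalizedGCDMonoid R) := inferInstance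
  let K := FractionRing R
  have hinj : Function.Injective (map (algebraMap R K)) :=
    map_injective _ (IsFractionRing.injective R K)
  -- the generator of the ideal over the fraction field
  have hcop : IsCoprime (p.map (algebraMap R K)) (q.map (algebraMap R K)) := by
    apply IsRelPrime.isCoprime
    intro g hgp hgq
    by_cases hg0 : g = 0
    · subst hg0
      rw [zero_dvd_iff] at hgp hgq
      have hp : p = 0 := hinj (by rw [hgp, Polynomial.map_zero])
      have hq : q = 0 := hinj (by rw [hgq, Polynomial.map_zero])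
      subst hp
      subst hq
      have := h (dvd_zero X) (dvd_zero X)
      exact absurd this (by simpa using (not_isUnit_X : ¬ IsUnit (X : R[X])))
    set g1 := IsLocalization.integerNormalization (nonZeroDivisors R) g with hg1
    refine isUnit_or_eq_zero_of_isUnit_integerNormalization_primPart (R := R) hg0 ?_
    rw [← hg1]
    obtain ⟨b, hb, hbg⟩ := IsLocalization.integerNormalization_spec (nonZeroDivisors R) g
    rw [← hg1] at hbg
    have hbK : (algebraMap R K b) ≠ 0 := by
      intro h0
      exact nonZeroDivisors.ne_zero hb ((IsFractionRing.injective R K) (by rw [h0, map_zero]))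
    have hdvd : g1.primPart.map (algebraMap R K) ∣ g := by
      have h1 : g1.map (algebraMap R K) ∣ g := by
        rw [hbg]
        refine ⟨C ((algebraMap R K b)⁻¹), ?_⟩
        rw [Algebra.smul_def, Polynomial.algebraMap_apply]
        rw [mul_right_comm, ← C_mul, mul_inv_cancel₀ hbK, C_1, one_mul]
      refine dvd_trans ?_ h1
      exact Polynomial.map_dvd _ (primPart_dvd g1)
    apply h
    · exact (isPrimitive_primPart g1).dvd_of_fraction_map_dvd_fraction_map (hdvd.trans hgp)
    · exact (isPrimitive_primPart g1).dvd_of_fraction_map_dvd_fraction_map (hdvd.trans hgq)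
  obtain ⟨a, b, hab⟩ := hcop
  obtain ⟨s, hs, has⟩ := IsLocalization.integerNormalization_spec (nonZeroDivisors R) a
  obtain ⟨t, ht, hbt⟩ := IsLocalization.integerNormalization_spec (nonZeroDivisors R) b
  refine ⟨s * t, mul_ne_zero (nonZeroDivisors.ne_zero hs) (nonZeroDivisors.ne_zero ht),
    C t * IsLocalization.integerNormalization (nonZeroDivisors R) a,
    C s * IsLocalization.integerNormalization (nonZeroDivisors R) b, ?_⟩
  apply hinj
  rw [Algebra.smul_def, Polynomial.algebraMap_apply] at has hbt
  rw [Polynomial.map_add, Polynomial.map_mul, Polynomial.map_mul, Polynomial.map_mul,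
    Polynomial.map_mul, has, hbt, map_C, map_C, map_C, map_mul, C_mul]
  linear_combination (-(C ((algebraMap R K) s) * C ((algebraMap R K) t))) * hab

/-- The polynomial ring in one distinguished variable. -/
noncomputable def eqv (n : ℕ) (j : Fin (n + 1)) :
    MvPolynomial (Fin (n + 1)) ℂ ≃ₐ[ℂ] Polynomial (MvPolynomial (Fin n) ℂ) :=
  (MvPolynomial.renameEquiv ℂ (_root_.finSuccEquiv' j)).trans
    (MvPolynomial.optionEquivLeft ℂ (Fin n))

theorem eqv_rename (n : ℕ) (j : Fin (n + 1)) (c : MvPolynomial (Fin n) ℂ) :
    eqv n j (MvPolynomial.rename j.succAbove c) = Polynomial.C c := by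
  have h : ((eqv n j : MvPolynomial (Fin (n + 1)) ℂ →ₐ[ℂ] Polynomial (MvPolynomial (Fin n) ℂ)).comp
      (MvPolynomial.rename j.succAbove)) =
      (IsScalarTower.toAlgHom ℂ (MvPolynomial (Fin n) ℂ)
        (Polynomial (MvPolynomial (Fin n) ℂ))) := by
    apply MvPolynomial.algHom_ext
    intro i
    simp [eqv, MvPolynomial.optionEquivLeft_X_some, Polynomial.algebraMap_eq]
  have := DFunLike.congr_fun h c
  simpa [Polynomial.algebraMap_eq] using this

theorem elim (n : ℕ) (p q : MvPolynomial (Fin (n + 1)) ℂ) (h : IsRelPrime p q) (j : Fin (n + 1)) :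
    ∃ c : MvPolynomial (Fin n) ℂ, c ≠ 0 ∧ ∃ a b, MvPolynomial.rename j.succAbove c =
      a * p + b * q := by
  have h' : IsRelPrime (eqv n j p) (eqv n j q) := by
    intro g hp hq
    have h1 : (eqv n j).symm g ∣ p := by
      have := map_dvd (eqv n j).symm hp
      simpa using this
    have h2 : (eqv n j).symm g ∣ q := by
      have := map_dvd (eqv n j).symm hq
      simpa using this
    have h3 := (h h1 h2).map (eqv n j)
    simpa using h3
  obtain ⟨c, hc, a, b, hab⟩ := elimPoly _ _ h'
  refine ⟨c, hc, (eqv n j).symm a, (eqv n j).symm b, ?_⟩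
  apply (eqv n j).injective
  rw [eqv_rename, hab]
  simp

end ELI

open AlgebraicIndependent in
theorem ELI_thm : S_ELI := by
  intro n D _ _ _ φ p q hpq hp hq y hy hind
  set f : Fin (n + 1) → D := fun i => φ (MvPolynomial.X i) with hf
  have hφ : φ = MvPolynomial.aeval f := by
    apply MvPolynomial.algHom_ext
    intro i
    simp [hf]
  have hinjC : Function.Injective (algebraMap ℂ D) := (algebraMap ℂ D).injective
  have : FaithfulSMul ℂ D := (faithfulSMul_iff_algebraMap_injective ℂ D).mpr hinjC
  have hrange : φ.range = Algebra.adjoin ℂ (Set.range f) := by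
    rw [hφ, Algebra.adjoin_range_eq_range_aeval]
  have hsub : Set.range y ⊆ (matroid ℂ D).closure (Set.range f) := by
    rw [matroid_closure_eq]
    rintro _ ⟨i, rfl⟩
    rw [SetLike.mem_coe, Subalgebra.mem_algebraicClosure, ← hrange]
    exact (hy i).isAlgebraic
  have h1 : ((n : ℕ) : ℕ∞) ≤ (matroid ℂ D).eRk (Set.range f) := by
    rw [← Matroid.eRk_closure_eq]
    have h2 : (matroid ℂ D).Indep (Set.range y) := by
      rw [matroid_indep_iff]
      exact hind.to_subtype_range
    have h3 := h2.encard_le_eRk_of_subset hsub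
    have h4 : (Set.range y).encard = n := by
      rw [← Set.image_univ, hind.injective.encard_image, Set.encard_univ]
      simp
    rwa [h4] at h3
  obtain ⟨u, hu, huI, hun⟩ := Matroid.le_eRk_iff.1 h1
  rw [matroid_indep_iff] at huI
  obtain ⟨t, ht, hbij⟩ : ∃ t ⊆ (Set.univ : Set (Fin (n + 1))), Set.BijOn f t u := by
    apply Set.SurjOn.exists_bijOn_subset
    rw [Set.SurjOn, Set.image_univ]
    exact hu
  have hcard : t.ncard = n := by
    have h9 : t.encard = u.encard := by
      rw [← hbij.image_eq, hbij.injOn.encard_image]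
    rw [hun] at h9
    rw [Set.ncard_def, h9]
    simp
  obtain ⟨j, hj⟩ : ∃ j, ∀ i, i ≠ j → i ∈ t := by
    have h5 : tᶜ.ncard = 1 := by
      have := Set.ncard_add_ncard_compl t
      rw [hcard, Nat.card_eq_fintype_card, Fintype.card_fin] at this
      omega
    obtain ⟨j, hj⟩ := Set.ncard_eq_one.1 h5
    refine ⟨j, fun i hi => ?_⟩
    by_contra hc
    have : i ∈ tᶜ := hc
    rw [hj] at this
    exact hi this
  obtain ⟨c, hc0, a, b, hab⟩ := ELI.elim n p q hpq j
  have hindj : AlgebraicIndependent ℂ (fun i : Fin n => f (j.succAbove i)) := by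
    have hmem : ∀ i : Fin n, f (j.succAbove i) ∈ u := fun i =>
      hbij.mapsTo (hj _ (Fin.succAbove_ne j i))
    have := AlgebraicIndependent.comp huI (fun i : Fin n => (⟨f (j.succAbove i), hmem i⟩ : u)) (by
      intro i i' hii
      have h6 : f (j.succAbove i) = f (j.succAbove i') := by
        simpa using congrArg Subtype.val hii
      have h7 := hbij.injOn (hj _ (Fin.succAbove_ne j i)) (hj _ (Fin.succAbove_ne j i')) h6
      exact Fin.succAbove_right_injective h7)
    exact this
  apply hc0
  rw [algebraicIndependent_iff] at hindj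
  apply hindj
  have h8 : MvPolynomial.aeval (fun i : Fin n => f (j.succAbove i)) c =
      φ (MvPolynomial.rename j.succAbove c) := by
    rw [hφ, MvPolynomial.aeval_rename]
    rfl
  rw [h8, hab, map_add, map_mul, map_mul, hp, hq, mul_zero, mul_zero, add_zero]

end Pool.Agent.MFB
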