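import Mathlib
import Pool.Agent.MFB.Stmts

/-!
# Generators of the ideal of the invariants of positive degree generate the algebra of invariants
-/

namespace Pool.Agent.MFB

namespace GEN

/-- The invariants as a subalgebra. -/
def inva {B : Type} [CommRing B] [Algebra ℂ B] {G : Type} [Group G]
    (ρ : G →* (B ≃ₐ[ℂ] B)) : Subalgebra ℂ B where
  carrier := {b | ∀ γ, ρ γ b = b}
  mul_mem' := by
    intro a b ha hb γ
    rw [map_mul, ha γ, hb γ]
  add_mem' := by
    intro a b ha hb γ
    rw [map_add, ha γ, hb γ]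
  algebraMap_mem' := fun c γ => (ρ γ).commutes c

theorem comp_rho {B : Type} [CommRing B] [Algebra ℂ B] (𝒜 : ℕ → Submodule ℂ B)
    [DirectSum.Decomposition 𝒜] (e : B ≃ₐ[ℂ] B) (he : ∀ k, ∀ b ∈ 𝒜 k, e b ∈ 𝒜 k) (k : ℕ) (b : B) :
    ((DirectSum.decompose 𝒜 (e b) k : 𝒜 k) : B) = e (DirectSum.decompose 𝒜 b k : 𝒜 k) := by
  induction b using DirectSum.Decomposition.inductionOn 𝒜 with
  | zero => simp
  | @homogeneous i m =>
    by_cases hik : i = k
    · subst hik
      rw [DirectSum.decompose_of_mem_same 𝒜 (he _ _ m.2), DirectSum.decompose_of_mem_same 𝒜 m.2]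
    · rw [DirectSum.decompose_of_mem_ne 𝒜 (he _ _ m.2) hik,
        DirectSum.decompose_of_mem_ne 𝒜 m.2 hik, map_zero]
  | add a b ha hb =>
    rw [map_add, DirectSum.decompose_add, DirectSum.add_apply, Submodule.coe_add, ha, hb,
      DirectSum.decompose_add, DirectSum.add_apply, Submodule.coe_add, map_add]

end GEN

theorem GEN_thm : S_GEN := by
  intro B _ _ _ 𝒜 G _ ρ hG r f hf hfi hid b
  constructor
  · intro hb
    have h1 : Algebra.adjoin ℂ (Set.range f) ≤ GEN.inva ρ := by
      refine Algebra.adjoin_le ?_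
      rintro _ ⟨i, rfl⟩
      exact hfi i
    exact h1 hb
  · classical
    letI : DirectSum.Decomposition 𝒜 := hG.int.chooseDecomposition
    letI : GradedAlgebra 𝒜 :=
      { one_mem := hG.one
        mul_mem := fun i j a b ha hb => hG.mul i j a ha b hb }
    have hinv : ∀ (k : ℕ) (c : B), (∀ γ, ρ γ c = c) →
        ∀ γ, ρ γ (DirectSum.decompose 𝒜 c k : 𝒜 k) = (DirectSum.decompose 𝒜 c k : 𝒜 k) := by
      intro k c hc γ
      rw [← GEN.comp_rho 𝒜 (ρ γ) (hG.gr γ) k c, hc γ]
    have hmain : ∀ k : ℕ, ∀ a ∈ 𝒜 k, (∀ γ, ρ γ a = a) → a ∈ Algebra.adjoin ℂ (Set.range f) := by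
      intro k
      induction k using Nat.strong_induction_on with
      | _ k ih =>
        intro a ha hai
        rcases Nat.eq_zero_or_pos k with rfl | hk
        · obtain ⟨c, rfl⟩ := hG.zer a ha
          exact Subalgebra.algebraMap_mem _ c
        · obtain ⟨c, hci, hac⟩ := hid a hai ⟨k, hk, ha⟩
          have h1 : a = ∑ i, ((DirectSum.decompose 𝒜 (f i * c i) k : 𝒜 k) : B) := by
            have h2 : a = ((DirectSum.decompose 𝒜 a k : 𝒜 k) : B) :=
              (DirectSum.decompose_of_mem_same 𝒜 ha).symm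
            conv_lhs => rw [h2, hac]
            rw [DirectSum.decompose_sum, DFinsupp.finsetSum_apply, AddSubmonoidClass.coe_finsetSum]
          rw [h1]
          refine Subalgebra.sum_mem _ fun i _ => ?_
          obtain ⟨d, hd, hfd⟩ := hf i
          by_cases hdk : d ≤ k
          · rw [DirectSum.coe_decompose_mul_of_left_mem_of_le 𝒜 hfd hdk]
            refine Subalgebra.mul_mem _ (Algebra.subset_adjoin ⟨i, rfl⟩) ?_
            exact ih (k - d) (by omega) _ (DirectSum.decompose 𝒜 (c i) (k - d)).2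
              (hinv _ _ (hci i))
          · rw [DirectSum.coe_decompose_mul_of_left_mem_of_not_le 𝒜 hfd hdk]
            exact Subalgebra.zero_mem _
    intro hb
    rw [← DirectSum.sum_support_decompose 𝒜 b]
    refine Subalgebra.sum_mem _ fun i _ => ?_
    exact hmain i _ (DirectSum.decompose 𝒜 b i).2 (hinv i b hb)

end Pool.Agent.MFB
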