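import Mathlib
import Pool.Agent.MFB.Stmts

/-!
# GR: the grading of the algebra of modular forms
-/

namespace Pool.Agent.MFB

namespace GR

open Polynomial

variable {n : ℕ} (Λ : HL n) (Γ : Subgroup (V n ≃ₗ[ℂ] V n))

/-- A finite sum of forms of different weights which is zero has zero terms. -/
theorem eq_zero_of_sum (s : Finset ℕ) (f : ℕ → (Λ.A → ℂ)) (hf : ∀ k ∈ s, Λ.IsMF Γ k (f k))
    (hs : ∑ k ∈ s, f k = 0) : ∀ k ∈ s, f k = 0 := by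
  intro k hk
  funext z
  set P : ℂ[X] := ∑ i ∈ s, C (f i z) * X ^ i with hP
  have h1 : ∀ t : ℂ, t ≠ 0 → P.eval t = 0 := by
    intro t ht
    have ht' : t⁻¹ ≠ 0 := inv_ne_zero ht
    have h2 : t⁻¹ • (z : V n) ∈ Λ.A := Λ.smul_mem_A ht' z.2
    have h3 : ∀ i ∈ s, f i ⟨t⁻¹ • (z : V n), h2⟩ = f i z * t ^ i := by
      intro i hi
      have h4 := (hf i hi).hom t⁻¹ z ⟨t⁻¹ • (z : V n), h2⟩ rfl
      rw [← h4, inv_pow]
      field_simp
    have h5 := congrFun hs ⟨t⁻¹ • (z : V n), h2⟩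
    rw [Finset.sum_apply] at h5
    rw [hP, eval_finsetSum]
    simp only [eval_mul, eval_C, eval_pow, eval_X]
    rw [← Finset.sum_congr rfl h3]
    exact h5
  have h6 : P = 0 := by
    refine Polynomial.eq_zero_of_infinite_isRoot P ?_
    refine Set.Infinite.mono (s := {0}ᶜ) (fun t ht => h1 t ht) ?_
    exact (Set.finite_singleton (0 : ℂ)).infinite_compl
  have h7 : P.coeff k = f k z := by
    rw [hP, finsetSum_coeff]
    simp only [coeff_C_mul, coeff_X_pow, mul_ite, mul_one, mul_zero]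
    rw [Finset.sum_ite_eq]
    simp [hk]
  rw [← h7, h6]
  rfl

theorem iSup_gr : (⨆ k, Λ.gr Γ k) = ⊤ := by
  rw [eq_top_iff]
  rintro ⟨f, hf⟩ -
  have h1 : f ∈ Subalgebra.toSubmodule (Λ.MS Γ) := hf
  rw [HL.MS_eq_iSup] at h1
  have h2 : ∃ hf : f ∈ Λ.MS Γ, (⟨f, hf⟩ : Λ.MS Γ) ∈ ⨆ k, Λ.gr Γ k := by
    refine Submodule.iSup_induction (fun k => Λ.Mk Γ k)
      (motive := fun f => ∃ hf : f ∈ Λ.MS Γ, (⟨f, hf⟩ : Λ.MS Γ) ∈ ⨆ k, Λ.gr Γ k) h1 ?_ ?_ ?_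
    · intro k g hg
      exact ⟨HL.IsMF.mem_MS hg, Submodule.mem_iSup_of_mem k hg⟩
    · exact ⟨Subalgebra.zero_mem _, Submodule.zero_mem _⟩
    · rintro g g' ⟨hg, hg1⟩ ⟨hg', hg1'⟩
      exact ⟨Subalgebra.add_mem _ hg hg', Submodule.add_mem _ hg1 hg1'⟩
  obtain ⟨_, h3⟩ := h2
  exact h3

theorem indep_gr : iSupIndep (Λ.gr Γ) := by
  classical
  rw [iSupIndep_iff_finsetSum_eq_zero_imp_eq_zero]
  intro s v hv hs i hi
  have h1 : ∑ k ∈ s, ((v k : Λ.MS Γ) : Λ.A → ℂ) = 0 := by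
    have h2 := congrArg (Λ.MS Γ).val hs
    rw [map_sum, map_zero] at h2
    exact h2
  exact Subtype.ext (eq_zero_of_sum Λ Γ s (fun k => ((v k : Λ.MS Γ) : Λ.A → ℂ)) hv h1 i hi)

end GR

theorem GR_thm : S_GR := by
  classical
  intro n Λ Γ
  refine ⟨HL.IsMF.one Λ Γ, fun i j a ha b hb => HL.IsMF.mul ha hb, ?_⟩
  rw [DirectSum.isInternal_submodule_iff_iSupIndep_and_iSup_eq_top]
  exact ⟨GR.indep_gr Λ Γ, GR.iSup_gr Λ Γ⟩

end Pool.Agent.MFB
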