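import Mathlib
import Pool.Agent.MFB.Stmts

/-!
# The factors of a homogeneous element are homogeneous
-/

namespace Pool.Agent.MFB

open Polynomial

namespace HFA

variable {B : Type} [CommRing B] [Algebra ℂ B] (𝒜 : ℕ → Submodule ℂ B)
  [DirectSum.Decomposition 𝒜]

/-- The polynomial with the homogeneous components as coefficients. -/
noncomputable def Φ : B →ₗ[ℂ] B[X] :=
  (DirectSum.toModule ℂ ℕ B[X] fun i =>
    ((Polynomial.monomial i : B →ₗ[B] B[X]).restrictScalars ℂ).comp (𝒜 i).subtype).comp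
    (DirectSum.decomposeLinearEquiv 𝒜).toLinearMap

theorem Φ_of_mem {i : ℕ} {a : B} (ha : a ∈ 𝒜 i) : Φ 𝒜 a = Polynomial.monomial i a := by
  have h1 : (DirectSum.decomposeLinearEquiv 𝒜) a = DirectSum.of (fun i => 𝒜 i) i ⟨a, ha⟩ :=
    DirectSum.decompose_of_mem 𝒜 ha
  rw [Φ, LinearMap.comp_apply, LinearEquiv.coe_coe, h1]
  exact DirectSum.toModule_lof (M := fun i => 𝒜 i) ℂ i ⟨a, ha⟩

theorem Φ_coeff (a : B) (i : ℕ) : (Φ 𝒜 a).coeff i ∈ 𝒜 i := by
  induction a using DirectSum.Decomposition.inductionOn 𝒜 with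
  | zero => simp
  | homogeneous m =>
    rename_i j
    rw [Φ_of_mem 𝒜 m.2, Polynomial.coeff_monomial]
    split_ifs with h
    · rw [← h]; exact m.2
    · exact Submodule.zero_mem _
  | add m m' h1 h2 =>
    rw [map_add, Polynomial.coeff_add]
    exact Submodule.add_mem _ h1 h2

theorem Φ_eval (a : B) : (Φ 𝒜 a).eval 1 = a := by
  induction a using DirectSum.Decomposition.inductionOn 𝒜 with
  | zero => simp
  | homogeneous m =>
    rw [Φ_of_mem 𝒜 m.2, Polynomial.eval_monomial, one_pow, mul_one]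
  | add m m' h1 h2 =>
    rw [map_add, Polynomial.eval_add, h1, h2]

theorem Φ_mul (hmul : ∀ i j, ∀ a ∈ 𝒜 i, ∀ b ∈ 𝒜 j, a * b ∈ 𝒜 (i + j)) (a b : B) :
    Φ 𝒜 (a * b) = Φ 𝒜 a * Φ 𝒜 b := by
  induction a using DirectSum.Decomposition.inductionOn 𝒜 with
  | zero => simp
  | homogeneous m =>
    rename_i i
    induction b using DirectSum.Decomposition.inductionOn 𝒜 with
    | zero => simp
    | homogeneous m' =>
      rename_i j
      rw [Φ_of_mem 𝒜 m.2, Φ_of_mem 𝒜 m'.2, Φ_of_mem 𝒜 (hmul i j _ m.2 _ m'.2),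
        Polynomial.monomial_mul_monomial]
    | add m1 m' h1 h2 =>
      rw [mul_add, map_add, map_add, mul_add, h1, h2]
  | add m m' h1 h2 =>
    rw [add_mul, map_add, map_add, add_mul, h1, h2]

theorem mem_of_deg {a : B} (ha : (Φ 𝒜 a).natTrailingDegree = (Φ 𝒜 a).natDegree) :
    a ∈ 𝒜 (Φ 𝒜 a).natDegree := by
  have h1 : Φ 𝒜 a = Polynomial.monomial (Φ 𝒜 a).natDegree ((Φ 𝒜 a).coeff (Φ 𝒜 a).natDegree) := by
    ext i
    rw [Polynomial.coeff_monomial]
    split_ifs with h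
    · rw [h]
    · rcases lt_or_gt_of_ne h with h2 | h2
      · exact Polynomial.coeff_eq_zero_of_natDegree_lt h2
      · exact Polynomial.coeff_eq_zero_of_lt_natTrailingDegree (by rw [ha]; exact h2)
  have h2 : a = (Φ 𝒜 a).coeff (Φ 𝒜 a).natDegree := by
    have h3 := Φ_eval 𝒜 a
    rw [h1, Polynomial.eval_monomial, one_pow, mul_one] at h3
    exact h3.symm
  have h4 := Φ_coeff 𝒜 a (Φ 𝒜 a).natDegree
  rw [← h2] at h4
  exact h4

end HFA

/-- The factors of a homogeneous element are homogeneous. -/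
theorem HFA_thm : S_HFA := by
  intro B _ _ _ 𝒜 hmul hI k a b hab hk
  let _ : DirectSum.Decomposition 𝒜 := hI.chooseDecomposition
  have h1 := HFA.Φ_mul 𝒜 hmul a b
  have h2 := HFA.Φ_of_mem 𝒜 hk
  rw [h2] at h1
  have h3 : HFA.Φ 𝒜 a * HFA.Φ 𝒜 b ≠ 0 := by
    rw [← h1]
    intro h
    exact hab ((Polynomial.monomial_eq_zero_iff _ _).1 h)
  have ha : HFA.Φ 𝒜 a ≠ 0 := left_ne_zero_of_mul h3
  have hb : HFA.Φ 𝒜 b ≠ 0 := right_ne_zero_of_mul h3
  have h4 := Polynomial.natDegree_mul ha hb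
  have h5 := Polynomial.natTrailingDegree_mul ha hb
  rw [← h1, Polynomial.natDegree_monomial_eq k hab] at h4
  rw [← h1, Polynomial.natTrailingDegree_monomial hab] at h5
  have h6 := Polynomial.natTrailingDegree_le_natDegree (HFA.Φ 𝒜 a)
  have h7 := Polynomial.natTrailingDegree_le_natDegree (HFA.Φ 𝒜 b)
  exact ⟨_, _, h4.symm, HFA.mem_of_deg 𝒜 (by omega), HFA.mem_of_deg 𝒜 (by omega)⟩

end Pool.Agent.MFB
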