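import Mathlib
import Pool.Agent.MFB.Stmts

/-!
# The identity theorem on the intersection with a subspace
-/

namespace Pool.Agent.MFB

namespace IDT

/-- The segment between two points of the cone with nonpositive real part of the product. -/
theorem seg {n : ℕ} (Λ : HL n) {z w : V n} (hz : z ∈ Λ.A) (hw : w ∈ Λ.A)
    (hzw : (Λ.h z w).re ≤ 0) (s : ℝ) (h0 : 0 ≤ s) (h1 : s ≤ 1) :
    z + (s : ℂ) • (w - z) ∈ Λ.A := by
  have e : z + (s : ℂ) • (w - z) = ((1 - s : ℝ) : ℂ) • z + (s : ℂ) • w := by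
    rw [smul_sub]
    push_cast
    rw [sub_smul, one_smul]
    abel
  have hwz : (Λ.h w z).re = (Λ.h z w).re := by
    rw [← Λ.h_conj z w, Complex.conj_re]
  rw [e, HL.mem_A]
  rw [Λ.h_add_left, Λ.h_add_right, Λ.h_add_right, Λ.h_smul_left, Λ.h_smul_left, Λ.h_smul_left,
    Λ.h_smul_left, Λ.h_smul_right, Λ.h_smul_right, Λ.h_smul_right, Λ.h_smul_right]
  simp only [Complex.conj_ofReal, Complex.add_re, Complex.re_ofReal_mul]
  rw [hwz]
  have a1 : (Λ.h z z).re < 0 := hz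
  have a2 : (Λ.h w w).re < 0 := hw
  rcases h0.lt_or_eq with h2 | h2
  · have b1 : (1 - s) * ((1 - s) * (Λ.h z z).re) ≤ 0 := by
      have : 0 ≤ (1 - s) * (1 - s) := mul_self_nonneg _
      nlinarith
    have b2 : s * (s * (Λ.h w w).re) < 0 := by
      have : 0 < s * s := by positivity
      nlinarith
    have b3 : (1 - s) * (s * (Λ.h z w).re) ≤ 0 := by
      have : 0 ≤ (1 - s) * s := mul_nonneg (by linarith) h0
      nlinarith
    have b4 : s * ((1 - s) * (Λ.h z w).re) ≤ 0 := by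
      have : 0 ≤ (1 - s) * s := mul_nonneg (by linarith) h0
      nlinarith
    linarith
  · rw [← h2]
    simp
    exact a1

/-- The case of nonpositive real part of the product. -/
theorem main {n : ℕ} (Λ : HL n) (E : Submodule ℂ (V n)) (k : ℕ) (f : Λ.A → ℂ)
    (hf : Λ.IsMF ⊥ k f) (z : V n) (hz : z ∈ Λ.A) (hzE : z ∈ E)
    (hv : ∀ v ∈ E, ∀ᶠ s : ℂ in nhds 0, Λ.ext f (z + s • v) = 0) (w : V n) (hw : w ∈ Λ.A)
    (hwE : w ∈ E) (hzw : (Λ.h z w).re ≤ 0) : Λ.ext f w = 0 := by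
  have hd : DifferentiableOn ℂ (fun s : ℂ => Λ.ext f (z + s • (w - z)))
      {s : ℂ | z + s • (w - z) ∈ Λ.A} := by
    refine hf.hol.comp ?_ fun s hs => hs
    exact (by fun_prop : Differentiable ℂ fun s : ℂ => z + s • (w - z)).differentiableOn
  have ho : IsOpen {s : ℂ | z + s • (w - z) ∈ Λ.A} :=
    Λ.isOpen_A.preimage (by fun_prop)
  have ha := hd.analyticOnNhd ho
  have hU : IsPreconnected ((fun s : ℝ => (s : ℂ)) '' Set.Icc (0 : ℝ) 1) :=
    isPreconnected_Icc.image _ Complex.continuous_ofReal.continuousOn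
  have hsub : (fun s : ℝ => (s : ℂ)) '' Set.Icc (0 : ℝ) 1 ⊆ {s : ℂ | z + s • (w - z) ∈ Λ.A} := by
    rintro _ ⟨s, hs, rfl⟩
    exact seg Λ hz hw hzw s hs.1 hs.2
  have h0 : (0 : ℂ) ∈ (fun s : ℝ => (s : ℂ)) '' Set.Icc (0 : ℝ) 1 :=
    ⟨0, ⟨le_refl _, zero_le_one⟩, by simp⟩
  have h1 : (1 : ℂ) ∈ (fun s : ℝ => (s : ℂ)) '' Set.Icc (0 : ℝ) 1 :=
    ⟨1, ⟨zero_le_one, le_refl _⟩, by simp⟩
  have he := (ha.mono hsub).eqOn_zero_of_preconnected_of_eventuallyEq_zero hU h0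
    (hv (w - z) (E.sub_mem hwE hzE))
  have := he h1
  simpa using this

end IDT

theorem IDT_thm : S_IDT := by
  intro n Λ E k f hf z hz hzE hv w hwE
  by_cases hc : (Λ.h z w).re ≤ 0
  · rw [← Λ.ext_coe f w]
    exact IDT.main Λ E k f hf z hz hzE hv w w.2 hwE hc
  · have hw' : (-1 : ℂ) • (w : V n) ∈ Λ.A := Λ.smul_mem_A (by norm_num) w.2
    have hc' : (Λ.h z ((-1 : ℂ) • (w : V n))).re ≤ 0 := by
      rw [neg_smul, one_smul, Λ.h_neg_right, Complex.neg_re]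
      linarith
    have h1 := IDT.main Λ E k f hf z hz hzE hv _ hw' (E.smul_mem _ hwE) hc'
    rw [Λ.ext_of_mem f hw'] at h1
    have h2 := hf.hom (-1) w ⟨_, hw'⟩ rfl
    rw [h1, mul_zero] at h2
    exact h2.symm

end Pool.Agent.MFB
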