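import Pool.Agent.MFB.Stmts

/-!
# IDX: small index subgroups contain a normal subgroup with index at most two
-/

namespace Pool.Agent.MFB

theorem IDX.core {G : Type} [Group G] (H : Subgroup G) (h0 : H.index ≠ 0) (h3 : H.index ≤ 3) :
    H.normalCore.relIndex H ≠ 0 ∧ H.normalCore.relIndex H ≤ 2 := by
  classical
  have : H.FiniteIndex := ⟨h0⟩
  have hmul : H.normalCore.relIndex H * H.index = H.normalCore.index :=
    Subgroup.relIndex_mul_index H.normalCore_le
  have hdvd : H.normalCore.index ∣ Nat.factorial H.index := by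
    rw [H.normalCore_eq_ker, Subgroup.index_ker]
    have h1 : Nat.card (MulAction.toPermHom G (G ⧸ H)).range ∣ Nat.card (Equiv.Perm (G ⧸ H)) :=
      Subgroup.card_subgroup_dvd_card _
    letI : Fintype (G ⧸ H) := Subgroup.fintypeQuotientOfFiniteIndex
    have h2 : Nat.card (Equiv.Perm (G ⧸ H)) = Nat.factorial H.index := by
      rw [Nat.card_eq_fintype_card, Fintype.card_perm, Subgroup.index, Nat.card_eq_fintype_card]
    rwa [h2] at h1
  rw [← hmul] at hdvd
  obtain ⟨m, hm⟩ : ∃ m, H.index = m := ⟨_, rfl⟩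
  rw [hm] at hdvd h0 h3
  have hne : H.normalCore.relIndex H ≠ 0 := by
    intro h
    rw [h, zero_mul] at hdvd
    exact (Nat.factorial_ne_zero m) (Nat.eq_zero_of_zero_dvd hdvd)
  refine ⟨hne, ?_⟩
  generalize H.normalCore.relIndex H = r at hdvd hne ⊢
  interval_cases m
  · exact absurd rfl h0
  · have := Nat.le_of_dvd (by decide) hdvd
    simp at this; omega
  · have := Nat.le_of_dvd (by decide) hdvd
    simp [Nat.factorial] at this; omega
  · have := Nat.le_of_dvd (by decide) hdvd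
    simp [Nat.factorial] at this; omega

theorem IDX_thm : S_IDX := by
  intro X _ Γ Γ₁ hle h0 h3
  obtain ⟨h1, h2⟩ := IDX.core (Γ.subgroupOf Γ₁) h0 h3
  have hΓ : (Γ.subgroupOf Γ₁).map Γ₁.subtype = Γ := by
    rw [Subgroup.subgroupOf_map_subtype]
    exact inf_eq_left.2 hle
  refine ⟨(Γ.subgroupOf Γ₁).normalCore.map Γ₁.subtype, ?_, ?_, ?_⟩
  · exact (Subgroup.map_mono (Subgroup.normalCore_le _)).trans hΓ.le
  · rintro g hg γ ⟨k, hk, rfl⟩
    refine ⟨⟨g, hg⟩ * k * ⟨g, hg⟩⁻¹, ?_, ?_⟩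
    · exact (Subgroup.normalCore_normal _).conj_mem k hk ⟨g, hg⟩
    · simp
  · have h4 := Subgroup.relIndex_map_map_of_injective (Γ.subgroupOf Γ₁).normalCore
      (Γ.subgroupOf Γ₁) Γ₁.subtype_injective
    rw [hΓ] at h4
    have h5 : (((Γ.subgroupOf Γ₁).normalCore.map Γ₁.subtype).subgroupOf Γ).index =
        (Γ.subgroupOf Γ₁).normalCore.relIndex (Γ.subgroupOf Γ₁) := h4
    rw [h5]
    exact ⟨h1, h2⟩

end Pool.Agent.MFB
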