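import Mathlib
import Pool.Agent.MFB.Stmts

/-!
# Algebraically independent translates of a form on a subspace
-/

namespace Pool.Agent.MFB

namespace IND

open Filter Topology

/-- A family of vectors of the dual space with no common zero contains a basis. -/
theorem exists_basis {E : Type} [AddCommGroup E] [Module ℂ E] [FiniteDimensional ℂ E] {m : ℕ}
    (hm : Module.finrank ℂ E = m) {ι : Type} (l : ι → Module.Dual ℂ E)
    (hl : ∀ v : E, v ≠ 0 → ∃ i, l i v ≠ 0) :
    ∃ s : Fin m → ι, ∀ v : E, (∀ j, l (s j) v = 0) → v = 0 := by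
  obtain ⟨b, hb1, hb2, hb3⟩ := exists_linearIndependent ℂ (Set.range l)
  have htop : Submodule.span ℂ (Set.range l) = ⊤ := by
    have h1 : (Submodule.span ℂ (Set.range l)).dualCoannihilator = ⊥ := by
      rw [eq_bot_iff]
      intro v hv
      rw [Submodule.mem_dualCoannihilator] at hv
      by_contra hne
      obtain ⟨i, hi⟩ := hl v (fun h => hne ((Submodule.mem_bot ℂ).2 h))
      exact hi (hv (l i) (Submodule.subset_span ⟨i, rfl⟩))
    have h2 : (Submodule.span ℂ (Set.range l)).dualCoannihilator.dualAnnihilator =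
        Submodule.span ℂ (Set.range l) := Subspace.dualCoannihilator_dualAnnihilator_eq
    rw [← h2, h1, Submodule.dualAnnihilator_bot]
  have hspan : ⊤ ≤ Submodule.span ℂ (Set.range ((↑) : b → Module.Dual ℂ E)) := by
    rw [Subtype.range_coe, hb2, htop]
  let B : Module.Basis b ℂ (Module.Dual ℂ E) := Module.Basis.mk hb3 hspan
  have : Fintype b := FiniteDimensional.fintypeBasisIndex B
  have hcard : Fintype.card b = m := by
    rw [← Module.finrank_eq_card_basis B, Subspace.dual_finrank_eq, hm]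
  let e : Fin m ≃ b := (Fintype.equivFinOfCardEq hcard).symm
  have hs : ∀ j : Fin m, ∃ i, l i = (e j : Module.Dual ℂ E) := fun j => hb1 (e j).2
  choose s hs using hs
  refine ⟨s, fun v hv => ?_⟩
  by_contra hne
  obtain ⟨i, hi⟩ := hl v hne
  apply hi
  have h3 : l i ∈ Submodule.span ℂ b := by
    rw [hb2]
    exact Submodule.subset_span ⟨i, rfl⟩
  refine Submodule.span_induction (p := fun x _ => x v = 0) ?_ ?_ ?_ ?_ h3
  · intro x hx
    have h4 := hv (e.symm ⟨x, hx⟩)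
    rw [hs, Equiv.apply_symm_apply] at h4
    exact h4
  · exact LinearMap.zero_apply v
  · intro x y _ _ hx hy
    rw [LinearMap.add_apply, hx, hy, add_zero]
  · intro a x _ hx
    rw [LinearMap.smul_apply, hx, smul_zero]

/-- The values of a polynomial in functions. -/
theorem aeval_fun {m : ℕ} {W : Type} (x : Fin m → (W → ℂ)) (p : MvPolynomial (Fin m) ℂ) (w : W) :
    MvPolynomial.aeval x p w = MvPolynomial.eval (fun i => x i w) p := by
  induction p using MvPolynomial.induction_on with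
  | C a =>
    rw [MvPolynomial.aeval_C, MvPolynomial.eval_C]
    rfl
  | add p q hp hq => rw [map_add, map_add, Pi.add_apply, hp, hq]
  | mul_X p i hp =>
    rw [map_mul, map_mul, MvPolynomial.aeval_X, MvPolynomial.eval_X, Pi.mul_apply, hp]

/-- A polynomial which vanishes on a neighbourhood of a point is zero. -/
theorem eq_zero_of_nhds {m : ℕ} (p : MvPolynomial (Fin m) ℂ) (y : Fin m → ℂ)
    (h : ∀ᶠ x in 𝓝 y, MvPolynomial.eval x p = 0) : p = 0 := by
  obtain ⟨ε, hε, hball⟩ := Metric.eventually_nhds_iff_ball.1 h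
  refine MvPolynomial.funext_set (fun i => Metric.ball (y i) ε) (fun i => ?_) fun x hx => ?_
  · exact infinite_of_mem_nhds (y i) (Metric.ball_mem_nhds (y i) hε)
  · rw [map_zero]
    refine hball x ?_
    rw [ball_pi y hε]
    exact hx

end IND

open Filter Topology IND in
theorem IND_thm (hSPN : S_SPN) (hCDF : S_CDF) : S_IND := by
  intro n Λ k f hk hf hf0 E hE m hm
  obtain ⟨z, hz, hzE⟩ := hE
  let l : Λ.IF → Module.Dual ℂ E := fun g =>
    ((fderiv ℂ (Λ.ext f) ((g : V n ≃ₗ[ℂ] V n) z) : V n →L[ℂ] ℂ) : V n →ₗ[ℂ] ℂ) ∘ₗ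
      ((g : V n ≃ₗ[ℂ] V n) : V n →ₗ[ℂ] V n) ∘ₗ E.subtype
  have hl : ∀ v : E, v ≠ 0 → ∃ g, l g v ≠ 0 := by
    intro v hv
    obtain ⟨g, hg, hne⟩ := hSPN n Λ k f hk hf hf0 z hz v (fun h => hv (Subtype.ext h))
    exact ⟨⟨g, hg⟩, hne⟩
  obtain ⟨s, hs⟩ := exists_basis hm l hl
  refine ⟨fun i => s i, fun i => (s i).2, ?_⟩
  have hI : ∀ i, ((s i : Λ.IF) : V n ≃ₗ[ℂ] V n) ∈ Λ.I := fun i => (s i).2.1
  rw [algebraicIndependent_iff]
  intro p hp
  -- the map to the affine space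
  let T : Fin m → (E →L[ℂ] V n) := fun i =>
    ((((s i : Λ.IF) : V n ≃ₗ[ℂ] V n) : V n →ₗ[ℂ] V n) ∘ₗ E.subtype).toContinuousLinearMap
  let D : E →L[ℂ] (Fin m → ℂ) := ContinuousLinearMap.pi fun i =>
    (fderiv ℂ (Λ.ext f) (((s i : Λ.IF) : V n ≃ₗ[ℂ] V n) z)).comp (T i)
  let Φ : E → (Fin m → ℂ) := fun w i => Λ.ext f (((s i : Λ.IF) : V n ≃ₗ[ℂ] V n) w)
  have hstrict : HasStrictFDerivAt Φ D (⟨z, hzE⟩ : E) := by
    rw [hasStrictFDerivAt_pi']
    intro i
    have h1 : HasStrictFDerivAt (Λ.ext f) (fderiv ℂ (Λ.ext f) (((s i : Λ.IF) : V n ≃ₗ[ℂ] V n) z))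
        (((s i : Λ.IF) : V n ≃ₗ[ℂ] V n) z) := by
      have h2 : (((s i : Λ.IF) : V n ≃ₗ[ℂ] V n) z) ∈ Λ.A := (Λ.apply_mem_A (hI i)).2 hz
      have h3 : Λ.A ∈ 𝓝 (((s i : Λ.IF) : V n ≃ₗ[ℂ] V n) z) := Λ.isOpen_A.mem_nhds h2
      refine hasStrictFDerivAt_of_hasFDerivAt_of_continuousAt
        (f' := fun y => fderiv ℂ (Λ.ext f) y) ?_ ?_
      · filter_upwards [h3] with y hy
        exact (hf.hol.differentiableAt (Λ.isOpen_A.mem_nhds hy)).hasFDerivAt
      · exact (hCDF n Λ.A (Λ.ext f) Λ.isOpen_A hf.hol).continuousAt h3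
    have h4 : HasStrictFDerivAt (fun w : E => T i w) (T i) (⟨z, hzE⟩ : E) :=
      (T i).hasStrictFDerivAt
    exact HasStrictFDerivAt.comp (⟨z, hzE⟩ : E) h1 h4
  have hsurj : D.range = ⊤ := by
    have hinj : Function.Injective D := by
      rw [injective_iff_map_eq_zero]
      intro v hv
      exact hs v fun j => congrFun hv j
    have h1 : Module.finrank ℂ E = Module.finrank ℂ (Fin m → ℂ) := by
      rw [hm, Module.finrank_fin_fun]
    exact LinearMap.range_eq_top.2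
      ((LinearMap.injective_iff_surjective_of_finrank_eq_finrank h1 (f := (D : E →ₗ[ℂ] (Fin m → ℂ)))).1 hinj)
  have hmap := hstrict.map_nhds_eq_of_surj hsurj
  refine eq_zero_of_nhds p (Φ ⟨z, hzE⟩) ?_
  rw [← hmap, eventually_map]
  have hopen : ∀ᶠ w : E in 𝓝 (⟨z, hzE⟩ : E), (w : V n) ∈ Λ.A :=
    (continuous_subtype_val.tendsto (⟨z, hzE⟩ : E)).eventually (Λ.isOpen_A.mem_nhds hz)
  filter_upwards [hopen] with w hw
  have h5 := congrFun hp ⟨⟨w, hw⟩, w.2⟩
  rw [aeval_fun] at h5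
  exact h5

end Pool.Agent.MFB
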