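import Mathlib
import Pool.Agent.MFB.Stmts

/-!
# Modular forms for a subgroup of finite index are integral
-/

namespace Pool.Agent.MFB

open Complex

namespace INT

open HL

variable {n : ℕ} {Λ : HL n}

theorem isMF_prod {ι : Type*} {Γ : Subgroup (V n ≃ₗ[ℂ] V n)} {k : ℕ} (g : ι → (Λ.A → ℂ))
    (hg : ∀ i, Λ.IsMF Γ k (g i)) (s : Finset ι) : Λ.IsMF Γ (s.card * k) (∏ i ∈ s, g i) := by
  classical
  induction s using Finset.induction_on with
  | empty =>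
    rw [Finset.card_empty, zero_mul, Finset.prod_empty]
    exact IsMF.one Λ Γ
  | insert a s ha ih =>
    rw [Finset.card_insert_of_notMem ha, Finset.prod_insert ha, add_mul, one_mul, add_comm]
    exact (hg a).mul ih

theorem isMF_sum {ι : Type*} {Γ : Subgroup (V n ≃ₗ[ℂ] V n)} {k : ℕ} (g : ι → (Λ.A → ℂ))
    (s : Finset ι) (hg : ∀ i ∈ s, Λ.IsMF Γ k (g i)) : Λ.IsMF Γ k (∑ i ∈ s, g i) := by
  classical
  induction s using Finset.induction_on with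
  | empty =>
    rw [Finset.sum_empty]
    exact IsMF.zero Λ Γ k
  | insert a s ha ih =>
    rw [Finset.sum_insert ha]
    exact (hg a (Finset.mem_insert_self a s)).add
      (ih fun i hi => hg i (Finset.mem_insert_of_mem hi))

/-- Invariance in terms of the composition. -/
theorem isMF_of_act {Γ : Subgroup (V n ≃ₗ[ℂ] V n)} (hΓ : Γ ≤ Λ.I) {k : ℕ} {f : Λ.A → ℂ}
    (h : Λ.IsMF ⊥ k f) (hf : ∀ γ ∈ Γ, Λ.act γ f = f) : Λ.IsMF Γ k f := by
  refine ⟨h.hol, h.hom, fun γ hγ z z' hz => ?_⟩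
  have h1 := congrFun (hf γ hγ) z
  rw [Λ.act_apply (hΓ hγ)] at h1
  rw [← h1]
  exact congrArg f (Subtype.ext hz)

theorem act_of_isMF {Γ : Subgroup (V n ≃ₗ[ℂ] V n)} (hΓ : Γ ≤ Λ.I) {k : ℕ} {f : Λ.A → ℂ}
    (h : Λ.IsMF Γ k f) (γ : V n ≃ₗ[ℂ] V n) (hγ : γ ∈ Γ) : Λ.act γ f = f := by
  funext z
  rw [Λ.act_apply (hΓ hγ)]
  exact h.inv γ hγ z _ rfl

/-- The elementary symmetric functions of a permuted family. -/
theorem esymm_perm {R ι : Type*} [CommRing R] [Fintype ι] [DecidableEq ι] (F : ι → R)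
    (e : ι ≃ ι) (j : ℕ) :
    ∑ t ∈ Finset.powersetCard j (Finset.univ : Finset ι), ∏ x ∈ t, F (e x) =
      ∑ t ∈ Finset.powersetCard j (Finset.univ : Finset ι), ∏ x ∈ t, F x := by
  refine Finset.sum_equiv (Equiv.finsetCongr e) (fun t => ?_) (fun t _ => ?_)
  · simp [Finset.mem_powersetCard]
  · rw [Equiv.finsetCongr_apply, Finset.prod_map]
    rfl

end INT

open INT HL in
theorem INT_thm : S_INT := by
  classical
  intro n Λ Γ Γ' hΓ hΓ' hind k f hf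
  have hΓ'I : Γ' ≤ Λ.I := hΓ'.trans hΓ
  set H : Subgroup Γ := Γ'.subgroupOf Γ with hH
  have : H.FiniteIndex := ⟨hind⟩
  have : Finite (Γ ⧸ H) := inferInstance
  let _ : Fintype (Γ ⧸ H) := Fintype.ofFinite _
  -- the translates of the form
  let φ : Γ → (Λ.A → ℂ) := fun γ => Λ.act ((γ⁻¹ : Γ) : V n ≃ₗ[ℂ] V n) f
  have hφ : ∀ a b : Γ, (QuotientGroup.leftRel H) a b → φ a = φ b := by
    intro a b hab
    rw [QuotientGroup.leftRel_apply] at hab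
    have hab' : ((a⁻¹ * b : Γ) : V n ≃ₗ[ℂ] V n) ∈ Γ' := hab
    have h1 : Λ.act (((a⁻¹ * b)⁻¹ : Γ) : V n ≃ₗ[ℂ] V n) f = f := by
      apply act_of_isMF hΓ'I hf
      rw [Subgroup.coe_inv]
      exact Γ'.inv_mem hab'
    have h2 : (b⁻¹ : Γ) = (a⁻¹ * b)⁻¹ * a⁻¹ := by group
    show Λ.act ((a⁻¹ : Γ) : V n ≃ₗ[ℂ] V n) f = Λ.act ((b⁻¹ : Γ) : V n ≃ₗ[ℂ] V n) f
    rw [h2, Subgroup.coe_mul, Λ.act_mul_left (hΓ ((a⁻¹ * b)⁻¹ : Γ).2), h1]
  let F : Γ ⧸ H → (Λ.A → ℂ) := fun q => Quotient.lift φ hφ q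
  have hF : ∀ γ : Γ, F (QuotientGroup.mk γ) = Λ.act ((γ⁻¹ : Γ) : V n ≃ₗ[ℂ] V n) f :=
    fun γ => rfl
  have hF1 : F (QuotientGroup.mk 1) = f := by
    rw [hF, inv_one, Subgroup.coe_one, act_one_left]
  have hFmf : ∀ q, Λ.IsMF ⊥ k (F q) := by
    intro q
    obtain ⟨γ, rfl⟩ := QuotientGroup.mk_surjective q
    rw [hF]
    refine hf.act (hΓ (γ⁻¹ : Γ).2) ?_
    intro δ hδ
    rw [Subgroup.mem_bot] at hδ
    rw [hδ, mul_one, mul_inv_cancel]
    exact Γ'.one_mem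
  have hFact : ∀ (δ : Γ) (q : Γ ⧸ H), Λ.act (δ : V n ≃ₗ[ℂ] V n) (F q) = F (δ⁻¹ • q) := by
    intro δ q
    obtain ⟨γ, rfl⟩ := QuotientGroup.mk_surjective q
    have h1 : (δ⁻¹ • (QuotientGroup.mk γ : Γ ⧸ H)) = QuotientGroup.mk (δ⁻¹ * γ) := rfl
    have h3 : (δ⁻¹ * γ : Γ)⁻¹ = γ⁻¹ * δ := by group
    rw [h1, hF, hF, ← Λ.act_mul_left (hΓ (γ⁻¹ : Γ).2), ← Subgroup.coe_mul, h3]
  -- the elementary symmetric functions
  let e : ℕ → (Λ.A → ℂ) := fun j =>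
    ∑ t ∈ Finset.powersetCard j (Finset.univ : Finset (Γ ⧸ H)), ∏ x ∈ t, F x
  have he : ∀ j, Λ.IsMF Γ (j * k) (e j) := by
    intro j
    apply isMF_of_act hΓ
    · apply isMF_sum
      intro t ht
      have h1 := isMF_prod F hFmf t
      rwa [(Finset.mem_powersetCard.1 ht).2] at h1
    · intro γ hγ
      have h1 : ∀ g : Λ.A → ℂ, Λ.act γ g = Λ.rho (⟨γ, hΓ hγ⟩⁻¹ : Λ.I) g := by
        intro g
        rw [rho_apply, inv_inv]
      rw [h1]
      show Λ.rho (⟨γ, hΓ hγ⟩⁻¹ : Λ.I) (∑ t ∈ Finset.powersetCard j Finset.univ, ∏ x ∈ t, F x) = _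
      rw [map_sum]
      have h2 : ∀ t : Finset (Γ ⧸ H), Λ.rho (⟨γ, hΓ hγ⟩⁻¹ : Λ.I) (∏ x ∈ t, F x) =
          ∏ x ∈ t, F ((MulAction.toPerm ((⟨γ, hγ⟩ : Γ)⁻¹)) x) := by
        intro t
        rw [map_prod]
        refine Finset.prod_congr rfl fun x _ => ?_
        rw [← h1]
        exact hFact ⟨γ, hγ⟩ x
      rw [Finset.sum_congr rfl fun t _ => h2 t]
      exact esymm_perm F (MulAction.toPerm ((⟨γ, hγ⟩ : Γ)⁻¹)) j
  have hpoly := Multiset.prod_X_sub_X_eq_sum_esymm ((Finset.univ : Finset (Γ ⧸ H)).val.map F)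
  have hm : Multiset.card ((Finset.univ : Finset (Γ ⧸ H)).val.map F) = Fintype.card (Γ ⧸ H) := by
    rw [Multiset.card_map]
    rfl
  have hes : ∀ j, ((Finset.univ : Finset (Γ ⧸ H)).val.map F).esymm j = e j := by
    intro j
    exact Finset.esymm_map_val F Finset.univ j
  refine ⟨Fintype.card (Γ ⧸ H), fun i => (-1) ^ i * e i, Fintype.card_pos, fun i => ?_, ?_, ?_⟩
  · have h1 : ((-1) ^ i * e i : Λ.A → ℂ) = ((-1 : ℂ) ^ i) • e i := by
      funext z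
      simp
    show Λ.IsMF Γ (i * k) ((-1) ^ i * e i)
    rw [h1]
    exact (he i).smul _
  · show (-1) ^ 0 * e 0 = 1
    simp [e]
  · have h1 := congrArg (Polynomial.eval f) hpoly
    rw [hm, Polynomial.eval_finsetSum, Polynomial.eval_multiset_prod, Multiset.map_map,
      Multiset.map_map] at h1
    have h2 : (Multiset.map ((Polynomial.eval f ∘ fun t => Polynomial.X - Polynomial.C t) ∘ F)
        (Finset.univ : Finset (Γ ⧸ H)).val).prod = 0 := by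
      show ∏ x ∈ (Finset.univ : Finset (Γ ⧸ H)), _ = _
      refine Finset.prod_eq_zero (Finset.mem_univ (QuotientGroup.mk 1)) ?_
      simp [hF1]
    rw [h2] at h1
    rw [h1]
    refine Finset.sum_congr rfl fun j _ => ?_
    rw [hes]
    simp [mul_assoc]

end Pool.Agent.MFB
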