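import Mathlib
import Pool.Agent.MFB.Stmts
import Pool.Agent.MFB.GR

/-!
# INV: the modular forms for a subgroup as invariants
-/

namespace Pool.Agent.MFB

open HL

theorem INV_thm : S_INV := by
  classical
  intro n Λ Γ hΓ f
  constructor
  · intro hf
    refine ⟨MS_mono bot_le hf, ?_⟩
    have hf' : f ∈ Algebra.adjoin ℂ {f | ∃ k : ℕ, Λ.IsMF Γ k f} := hf
    clear hf
    intro γ hγ
    induction hf' using Algebra.adjoin_induction with
    | mem f hf =>
      obtain ⟨k, hk⟩ := hf
      funext z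
      rw [Λ.act_apply (hΓ hγ)]
      exact hk.inv γ hγ _ _ rfl
    | algebraMap c => exact Λ.act_algebraMap (hΓ hγ) c
    | add f f' h1 h2 h3 h4 => rw [Λ.act_add, h3, h4]
    | mul f f' h1 h2 h3 h4 => rw [Λ.act_mul, h3, h4]
  · rintro ⟨hf, hinv⟩
    have h1 : f ∈ Subalgebra.toSubmodule (Λ.MS ⊥) := hf
    rw [MS_eq_iSup, Submodule.mem_iSup_iff_exists_finsupp] at h1
    obtain ⟨v, hv, hs⟩ := h1
    have hs' : ∑ k ∈ v.support, v k = f := hs
    rw [← hs']
    refine Subalgebra.sum_mem _ fun k hk => IsMF.mem_MS (k := k) ?_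
    have hfix : ∀ γ ∈ Γ, Λ.act γ (v k) = v k := by
      intro γ hγ
      have hact : ∀ s : Finset ℕ, Λ.act γ (∑ i ∈ s, v i) = ∑ i ∈ s, Λ.act γ (v i) := by
        intro s
        induction s using Finset.induction_on with
        | empty =>
          rw [Finset.sum_empty, Finset.sum_empty]
          have h0 := Λ.act_smul γ 0 (0 : Λ.A → ℂ)
          rwa [zero_smul, zero_smul] at h0
        | insert a s ha ih => rw [Finset.sum_insert ha, Finset.sum_insert ha, Λ.act_add, ih]
      have h2 : ∑ i ∈ v.support, (Λ.act γ (v i) - v i) = 0 := by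
        rw [Finset.sum_sub_distrib, ← hact, hs', hinv γ hγ, sub_self]
      have h3 := GR.eq_zero_of_sum Λ ⊥ v.support (fun i => Λ.act γ (v i) - v i) (fun i _ => by
        have h4 : Λ.IsMF ⊥ i (Λ.act γ (v i)) :=
          IsMF.act (Γ := ⊥) (hv i) (hΓ hγ) (by
            intro δ hδ
            rw [Subgroup.mem_bot] at hδ ⊢
            rw [hδ, mul_one, mul_inv_cancel])
        have h5 := h4.add (IsMF.smul (hv i) (-1))
        rwa [neg_one_smul, ← sub_eq_add_neg] at h5) h2 k hk
      exact sub_eq_zero.mp h3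
    have h6 : Λ.IsMF ⊥ k (v k) := hv k
    refine ⟨h6.hol, h6.hom, fun γ hγ z z' hz => ?_⟩
    have h7 := congrFun (hfix γ hγ) z
    rw [Λ.act_apply (hΓ hγ)] at h7
    rw [← h7]
    exact congrArg (v k) (Subtype.ext hz)

end Pool.Agent.MFB
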