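import Pool.Agent.MFB.Stmts

/-!
# MIN: a relation of minimal weighted degree
-/

namespace Pool.Agent.MFB

namespace MIN

open MvPolynomial

variable {B : Type} [CommRing B] [IsDomain B] [Algebra ℂ B] {𝒜 : ℕ → Submodule ℂ B}

omit [IsDomain B] in
theorem pow_mem (h1 : (1 : B) ∈ 𝒜 0) (hm : ∀ i j, ∀ a ∈ 𝒜 i, ∀ b ∈ 𝒜 j, a * b ∈ 𝒜 (i + j))
    {k : ℕ} {a : B} (ha : a ∈ 𝒜 k) (n : ℕ) : a ^ n ∈ 𝒜 (n * k) := by
  induction n with
  | zero => simpa using h1
  | succ n ih =>
    rw [pow_succ, Nat.succ_mul]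
    exact hm _ _ _ ih _ ha

omit [IsDomain B] in
theorem prod_mem (h1 : (1 : B) ∈ 𝒜 0) (hm : ∀ i j, ∀ a ∈ 𝒜 i, ∀ b ∈ 𝒜 j, a * b ∈ 𝒜 (i + j))
    {r : ℕ} (f : Fin r → B) (d : Fin r → ℕ) (hf : ∀ i, f i ∈ 𝒜 (d i)) (s : Fin r → ℕ)
    (t : Finset (Fin r)) : ∏ i ∈ t, f i ^ s i ∈ 𝒜 (∑ i ∈ t, s i * d i) := by
  classical
  induction t using Finset.induction_on with
  | empty => simpa using h1
  | insert a t ha ih =>
    rw [Finset.prod_insert ha, Finset.sum_insert ha]
    exact hm _ _ _ (pow_mem h1 hm (hf a) (s a)) _ ih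

omit [IsDomain B] in
theorem aeval_mem (h1 : (1 : B) ∈ 𝒜 0)
    (hm : ∀ i j, ∀ a ∈ 𝒜 i, ∀ b ∈ 𝒜 j, a * b ∈ 𝒜 (i + j))
    {r : ℕ} (f : Fin r → B) (d : Fin r → ℕ) (hf : ∀ i, f i ∈ 𝒜 (d i))
    {Q : MvPolynomial (Fin r) ℂ} {n : ℕ} (hQ : Q.IsWeightedHomogeneous d n) :
    aeval f Q ∈ 𝒜 n := by
  rw [aeval_def, eval₂_eq']
  refine Submodule.sum_mem _ fun s hs => ?_
  rw [← Algebra.smul_def]
  refine Submodule.smul_mem _ _ ?_
  have h2 := prod_mem h1 hm f d hf s Finset.univ
  have h3 : ∑ i, s i * d i = n := by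
    rw [← hQ (mem_support_iff.1 hs), Finsupp.weight_apply, Finsupp.sum_fintype]
    · simp
    · simp
  rwa [h3] at h2

omit [IsDomain B] in
theorem comp_zero (hi : DirectSum.IsInternal 𝒜) (S : Finset ℕ) (x : ℕ → B)
    (hx : ∀ n, x n ∈ 𝒜 n) (h0 : ∑ n ∈ S, x n = 0) : ∀ n ∈ S, x n = 0 := by
  classical
  intro n hn
  have h1 : DirectSum.coeAddMonoidHom 𝒜
      (∑ n ∈ S, DirectSum.of (fun i => 𝒜 i) n ⟨x n, hx n⟩) = 0 := by
    rw [map_sum, ← h0]
    refine Finset.sum_congr rfl fun m _ => ?_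
    rw [DirectSum.coeAddMonoidHom_of]
  have h2 : (∑ n ∈ S, DirectSum.of (fun i => 𝒜 i) n ⟨x n, hx n⟩) = 0 := by
    apply hi.injective
    rw [h1, map_zero]
  have h3 := congrArg (fun y : DirectSum ℕ (fun i => 𝒜 i) => ((y n : 𝒜 n) : B)) h2
  simp only [DirectSum.zero_apply, ZeroMemClass.coe_zero] at h3
  rw [DFinsupp.finsetSum_apply, AddSubmonoidClass.coe_finsetSum,
    Finset.sum_eq_single n] at h3
  · rw [DirectSum.of_eq_same] at h3
    exact h3
  · intro m _ hm
    rw [DirectSum.of_eq_of_ne _ _ _ hm.symm]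
    rfl
  · intro h
    exact absurd hn h

end MIN

open MvPolynomial in
theorem MIN_thm : S_MIN := by
  classical
  intro B _ _ _ 𝒜 h1 hm hi r f d hf hd hA
  -- a nonzero weighted homogeneous relation
  have hex : ∃ N : ℕ, ∃ P : MvPolynomial (Fin r) ℂ, P ≠ 0 ∧ P.IsWeightedHomogeneous d N ∧
      aeval f P = 0 := by
    rw [algebraicIndependent_iff] at hA
    push Not at hA
    obtain ⟨P, hP, hP0⟩ := hA
    have hfin := weightedHomogeneousComponent_finsupp (w := d) P
    have hsum := sum_weightedHomogeneousComponent d P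
    rw [finsum_eq_sum _ hfin] at hsum
    have h2 : ∃ n ∈ hfin.toFinset, weightedHomogeneousComponent d n P ≠ 0 := by
      by_contra hcon
      push Not at hcon
      apply hP0
      rw [← hsum]
      exact Finset.sum_eq_zero hcon
    obtain ⟨n, hn, hn0⟩ := h2
    refine ⟨n, _, hn0, weightedHomogeneousComponent_isWeightedHomogeneous n P, ?_⟩
    refine MIN.comp_zero hi hfin.toFinset
      (fun n => aeval f (weightedHomogeneousComponent d n P))
      (fun n => MIN.aeval_mem h1 hm f d hf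
        (weightedHomogeneousComponent_isWeightedHomogeneous n P)) ?_ n hn
    rw [← map_sum, hsum, hP]
  obtain ⟨P, hP0, hPh, hPr⟩ := Nat.find_spec hex
  set N := Nat.find hex with hN
  have hmin : ∀ Q : MvPolynomial (Fin r) ℂ, ∀ n, n < N → Q.IsWeightedHomogeneous d n → Q ≠ 0 →
      aeval f Q ≠ 0 := by
    intro Q n hn hQ hQ0 hQr
    exact Nat.find_min hex hn ⟨Q, hQ0, hQ, hQr⟩
  have hle : ∀ i, pderiv i P ≠ 0 → d i ≤ N := by
    intro i hi0
    by_contra hcon
    apply hi0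
    apply pderiv_eq_zero_of_notMem_vars
    intro hv
    rw [mem_vars_iff_mem_support] at hv
    obtain ⟨s, hs, hsi⟩ := hv
    have h3 : Finsupp.weight d s = N := hPh (mem_support_iff.1 hs)
    have h5 : s i ≠ 0 := Finsupp.mem_support_iff.1 hsi
    rw [Finsupp.weight_apply, Finsupp.sum_fintype _ _ (by simp)] at h3
    have h4 : s i • d i ≤ ∑ j, s j • d j :=
      Finset.single_le_sum (f := fun j => s j • d j) (fun j _ => Nat.zero_le _) (Finset.mem_univ i)
    rw [h3, smul_eq_mul] at h4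
    have h6 : d i ≤ s i * d i := Nat.le_mul_of_pos_left _ (Nat.pos_of_ne_zero h5)
    omega
  have hpd : ∀ i, pderiv i P ≠ 0 → (pderiv i P).IsWeightedHomogeneous d (N - d i) := by
    intro i hi0
    exact hPh.pderiv (Nat.sub_add_cancel (hle i hi0))
  have hNpos : N ≠ 0 := by
    intro hN0
    have h3 : P = C (coeff 0 P) := by
      ext s
      rw [coeff_C]
      split_ifs with h4
      · rw [← h4]
      · by_contra h5
        have h6 : Finsupp.weight d s = N := hPh h5
        rw [hN0, Finsupp.weight_apply, Finsupp.sum_fintype _ _ (by simp)] at h6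
        apply h4
        ext i
        have h7 := (Finset.sum_eq_zero_iff.1 h6) i (Finset.mem_univ i)
        rw [smul_eq_mul] at h7
        rcases mul_eq_zero.1 h7 with h8 | h8
        · exact h8.symm
        · exact absurd h8 (hd i).ne'
    rw [h3, aeval_C] at hPr
    have h4 : coeff 0 P = 0 := by
      by_contra h5
      have : algebraMap ℂ B (coeff 0 P) ≠ 0 := by
        intro h6
        exact h5 ((algebraMap ℂ B).injective (by rw [h6, map_zero]))
      exact this hPr
    apply hP0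
    rw [h3, h4, C_0]
  refine ⟨N, P, hPr, ?_, ?_, ?_⟩
  · by_contra hcon
    push Not at hcon
    have h3 := hPh.sum_weight_X_mul_pderiv
    simp only [hcon, mul_zero, smul_zero, Finset.sum_const_zero] at h3
    have h4 : (N : ℂ) • P = 0 := by
      rw [Nat.cast_smul_eq_nsmul]
      exact h3.symm
    rcases smul_eq_zero.1 h4 with h5 | h5
    · exact hNpos (by exact_mod_cast h5)
    · exact hP0 h5
  · intro i
    by_cases hi0 : pderiv i P = 0
    · left
      rw [hi0, map_zero]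
    · right
      exact ⟨hle i hi0, MIN.aeval_mem h1 hm f d hf (hpd i hi0)⟩
  · intro i hi0
    refine hmin _ (N - d i) ?_ (hpd i hi0) hi0
    have := hd i
    omega

end Pool.Agent.MFB
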