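import Mathlib
import Pool.Agent.MFB.Stmts

/-!
# A minimal finite set of homogeneous generators
-/

namespace Pool.Agent.MFB

namespace NOE

variable {B : Type} [CommRing B] [Algebra ℂ B] {G : Type} [Group G] (ρ : G →* (B ≃ₐ[ℂ] B))

/-- The mean value over the group. -/
noncomputable def avg [Fintype ρ.range] (b : B) : B :=
  ((Fintype.card ρ.range : ℕ) : ℂ)⁻¹ • ∑ e : ρ.range, (e : B ≃ₐ[ℂ] B) b

variable {ρ}

theorem card_ne [Fintype ρ.range] : ((Fintype.card ρ.range : ℕ) : ℂ) ≠ 0 :=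
  Nat.cast_ne_zero.2 Fintype.card_ne_zero

theorem apply_inv {b : B} (hb : ∀ γ, ρ γ b = b) (e : ρ.range) : (e : B ≃ₐ[ℂ] B) b = b := by
  obtain ⟨γ, hγ⟩ := e.2
  rw [← hγ]
  exact hb γ

theorem avg_inv [Fintype ρ.range] (b : B) (γ : G) : ρ γ (avg ρ b) = avg ρ b := by
  unfold avg
  rw [map_smul, map_sum]
  congr 1
  exact Fintype.sum_equiv (Equiv.mulLeft (⟨ρ γ, γ, rfl⟩ : ρ.range)) _ _ fun e => rfl

theorem avg_mul [Fintype ρ.range] {f : B} (hf : ∀ γ, ρ γ f = f) (b : B) :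
    avg ρ (f * b) = f * avg ρ b := by
  unfold avg
  rw [mul_smul_comm, Finset.mul_sum]
  congr 1
  refine Finset.sum_congr rfl fun e _ => ?_
  rw [map_mul, apply_inv hf e]

theorem avg_self [Fintype ρ.range] {b : B} (hb : ∀ γ, ρ γ b = b) : avg ρ b = b := by
  unfold avg
  rw [Finset.sum_congr rfl fun e _ => apply_inv hb e, Finset.sum_const, Finset.card_univ,
    ← Nat.cast_smul_eq_nsmul ℂ, inv_smul_smul₀ card_ne]

theorem avg_sum [Fintype ρ.range] {ι : Type} (s : Finset ι) (b : ι → B) :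
    avg ρ (∑ i ∈ s, b i) = ∑ i ∈ s, avg ρ (b i) := by
  unfold avg
  rw [← Finset.smul_sum, Finset.sum_comm]
  congr 1
  exact Finset.sum_congr rfl fun e _ => map_sum _ _ _

/-- A finite family of generators with `r` members. -/
def Fam (𝒜 : ℕ → Submodule ℂ B) (ρ : G →* (B ≃ₐ[ℂ] B)) (r : ℕ) (f : Fin r → B) : Prop :=
  (∀ i, ∃ k, 0 < k ∧ f i ∈ 𝒜 k) ∧ (∀ i γ, ρ γ (f i) = f i) ∧
    (∀ a, (∀ γ, ρ γ a = a) → (∃ k, 0 < k ∧ a ∈ 𝒜 k) →
      ∃ c : Fin r → B, (∀ i γ, ρ γ (c i) = c i) ∧ a = ∑ i, f i * c i)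

theorem exists_fam {𝒜 : ℕ → Submodule ℂ B} [Finite ρ.range] (H : Subgroup G) (m : ℕ)
    (x : Fin m → B) (hx : ∀ b, b ∈ Algebra.adjoin ℂ (Set.range x) ↔ ∀ g ∈ H, ρ g b = b) :
    ∃ r, ∃ f : Fin r → B, Fam 𝒜 ρ r f := by
  classical
  haveI : Fintype ρ.range := Fintype.ofFinite _
  set C : Subalgebra ℂ B := Algebra.adjoin ℂ (Set.range x) with hC
  have hfg : C.FG := Subalgebra.fg_def.2 ⟨Set.range x, Set.finite_range x, rfl⟩
  haveI : IsNoetherianRing C := isNoetherianRing_of_fg hfg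
  set S0 : Set C := {c | (∀ γ, ρ γ (c : B) = c) ∧ ∃ k, 0 < k ∧ (c : B) ∈ 𝒜 k} with hS0
  have hI : (Ideal.span S0).FG := IsNoetherian.noetherian _
  obtain ⟨s, hs, hss⟩ := Submodule.fg_span_iff_fg_span_finset_subset S0 |>.1 hI
  let f : Fin s.card → C := fun i => (s.equivFin.symm i : C)
  have hf : ∀ i, f i ∈ S0 := fun i => hs (s.equivFin.symm i).2
  have hrange : Set.range f = (s : Set C) := by
    ext c
    constructor
    · rintro ⟨i, rfl⟩
      exact (s.equivFin.symm i).2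
    · intro hc
      exact ⟨s.equivFin ⟨c, hc⟩, by simp [f]⟩
  refine ⟨s.card, fun i => (f i : B), fun i => (hf i).2, fun i γ => (hf i).1 γ, ?_⟩
  intro a ha hk
  have haC : a ∈ C := (hx a).2 fun g _ => ha g
  have haI : (⟨a, haC⟩ : C) ∈ Ideal.span (Set.range f) := by
    rw [hrange]
    have h1 : (⟨a, haC⟩ : C) ∈ Ideal.span S0 := Ideal.subset_span ⟨ha, hk⟩
    have h2 : Ideal.span S0 = Ideal.span (s : Set C) := hss
    rwa [h2] at h1
  obtain ⟨c, hc⟩ := Ideal.mem_span_range_iff_exists_fun.1 haI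
  refine ⟨fun i => avg ρ (c i : B), fun i γ => avg_inv _ γ, ?_⟩
  have h1 : a = ∑ i, (f i : B) * (c i : B) := by
    have h2 : ((∑ i, c i * f i : C) : B) = a := congrArg (fun z : C => (z : B)) hc
    have h3 : (∑ i, (c i : B) * (f i : B)) = a :=
      (map_sum C.val (fun i => c i * f i) Finset.univ).symm.trans h2
    rw [← h3]
    exact Finset.sum_congr rfl fun i _ => mul_comm _ _
  calc a = avg ρ a := (avg_self ha).symm
    _ = avg ρ (∑ i, (f i : B) * (c i : B)) := by rw [← h1]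
    _ = ∑ i, avg ρ ((f i : B) * (c i : B)) := avg_sum _ _
    _ = ∑ i, (f i : B) * avg ρ (c i : B) :=
      Finset.sum_congr rfl fun i _ => avg_mul (hf i).1 _

end NOE

/-- A minimal finite set of homogeneous generators of the ideal of the invariants of positive
degree. -/
theorem NOE_thm : S_NOE := by
  classical
  intro B _ _ _ 𝒜 G _ ρ hG H m x hx
  haveI : Finite ρ.range := hG.fin
  have hex := NOE.exists_fam (𝒜 := 𝒜) H m x hx
  obtain ⟨f, hf⟩ := Nat.find_spec hex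
  have hmin := @Nat.find_min _ _ hex
  generalize Nat.find hex = r at f hf hmin
  refine ⟨r, f, hf.1, hf.2.1, hf.2.2, ?_⟩
  rintro i ⟨c, hc, hci, hfi⟩
  cases r with
  | zero => exact i.elim0
  | succ r =>
    apply hmin (Nat.lt_succ_self r)
    refine ⟨fun j => f (i.succAbove j), fun j => hf.1 _, fun j γ => hf.2.1 _ γ, ?_⟩
    intro a ha hk
    obtain ⟨d, hd, had⟩ := hf.2.2 a ha hk
    refine ⟨fun j => c (i.succAbove j) * d i + d (i.succAbove j), fun j γ => ?_, ?_⟩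
    · rw [map_add, map_mul, hc, hd, hd]
    · rw [Fin.sum_univ_succAbove _ i] at had hfi
      rw [hci, mul_zero, zero_add] at hfi
      rw [had, hfi, Finset.sum_mul, ← Finset.sum_add_distrib]
      refine Finset.sum_congr rfl fun j _ => ?_
      ring

end Pool.Agent.MFB
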