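import Mathlib
import Pool.Agent.MFB.Stmts

/-!
# PRM: the forms which vanish on a mirror are contained in a principal ideal
-/

set_option autoImplicit false

namespace Pool.Agent.MFB

namespace PRM

variable {n : ℕ} (Λ : HL n)

/-- The mirror meets the cone. -/
theorem exists_mem_mirror {r : V n} (hr : 0 < (Λ.h r r).re) :
    ∃ z : Λ.A, Λ.h (z : V n) r = 0 := by
  obtain ⟨z0, hz0⟩ := Λ.exists_mem_A
  have hrr : Λ.h r r ≠ 0 := by
    intro h0
    rw [h0] at hr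
    simp at hr
  set α : ℂ := Λ.h z0 r / Λ.h r r with hα
  have h1 : Λ.h (z0 - α • r) r = 0 := by
    rw [Λ.h_sub_left, Λ.h_smul_left, hα]
    field_simp
    ring
  have h2 : Λ.h r (z0 - α • r) = 0 := Λ.h_swap_zero h1
  refine ⟨⟨z0 - α • r, ?_⟩, h1⟩
  set y := z0 - α • r with hy
  have h3 : z0 = y + α • r := by rw [hy]; abel
  have h4 : Λ.h z0 z0 = Λ.h y y + ((‖α‖ ^ 2 : ℝ) : ℂ) * Λ.h r r := by
    conv_lhs => rw [h3]
    rw [Λ.h_add_left, Λ.h_add_right, Λ.h_add_right, Λ.h_smul_self, Λ.h_smul_left,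
      Λ.h_smul_right, h1, h2]
    ring
  have h5 : (Λ.h z0 z0).re = (Λ.h y y).re + ‖α‖ ^ 2 * (Λ.h r r).re := by
    rw [h4, Complex.add_re, Complex.re_ofReal_mul]
  have h6 : (Λ.h z0 z0).re < 0 := hz0
  have h7 : 0 ≤ ‖α‖ ^ 2 * (Λ.h r r).re := by positivity
  show (Λ.h y y).re < 0
  linarith

/-- A finite sum `∑ s ^ k c k` which vanishes for all `s ≠ 0` has coefficients zero. -/
theorem coeff_zero (S : Finset ℕ) (c : ℕ → ℂ) (h : ∀ s : ℂ, s ≠ 0 → ∑ k ∈ S, s ^ k * c k = 0) :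
    ∀ k ∈ S, c k = 0 := by
  set P : Polynomial ℂ := ∑ k ∈ S, Polynomial.monomial k (c k) with hP
  have h1 : P = 0 := by
    apply Polynomial.eq_zero_of_infinite_isRoot
    have h2 : ({0}ᶜ : Set ℂ).Infinite := (Set.finite_singleton (0 : ℂ)).infinite_compl
    refine h2.mono fun s hs => ?_
    show P.eval s = 0
    rw [hP, Polynomial.eval_finsetSum]
    rw [← h s hs]
    refine Finset.sum_congr rfl fun k _ => ?_
    rw [Polynomial.eval_monomial, mul_comm]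
  intro k hk
  have h3 : P.coeff k = c k := by
    rw [hP, Polynomial.finsetSum_coeff, Finset.sum_eq_single k]
    · rw [Polynomial.coeff_monomial, if_pos rfl]
    · intro l _ hl
      rw [Polynomial.coeff_monomial, if_neg hl]
    · intro hk'
      exact absurd hk hk'
  rw [← h3, h1, Polynomial.coeff_zero]

/-- The homogeneous components of a form which vanishes on a mirror vanish there. -/
theorem comp (Γ : Subgroup (V n ≃ₗ[ℂ] V n)) (r : V n) (hint : DirectSum.IsInternal (Λ.gr Γ))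
    (q : Λ.MS Γ) (hq : ∀ z : Λ.A, Λ.h z r = 0 → (q : Λ.A → ℂ) z = 0) (hq0 : q ≠ 0) :
    ∃ k, ∃ q1 ∈ Λ.gr Γ k, q1 ≠ 0 ∧ ∀ z : Λ.A, Λ.h z r = 0 → (q1 : Λ.A → ℂ) z = 0 := by
  classical
  obtain ⟨f, hf⟩ := hint.surjective q
  have h1 : ∑ k ∈ f.support, (f k : Λ.MS Γ) = q := by
    rw [← hf]
    exact (DirectSum.coeAddMonoidHom_eq_dfinsuppSum (Λ.gr Γ) f).symm
  have h2 : ∃ k ∈ f.support, (f k : Λ.MS Γ) ≠ 0 := by
    by_contra hne
    push Not at hne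
    apply hq0
    rw [← h1]
    exact Finset.sum_eq_zero hne
  obtain ⟨k, hk, hk0⟩ := h2
  refine ⟨k, f k, (f k).2, hk0, ?_⟩
  intro z hz
  have h3 := coeff_zero f.support (fun k => ((f k : Λ.MS Γ) : Λ.A → ℂ) z) (by
    intro s hs
    have hs' : s⁻¹ ≠ 0 := inv_ne_zero hs
    have h4 := hq ⟨s⁻¹ • (z : V n), Λ.smul_mem_A hs' z.2⟩ (by
      show Λ.h (s⁻¹ • (z : V n)) r = 0
      rw [Λ.h_smul_left, hz, mul_zero])
    rw [← h1, AddSubmonoidClass.coe_finsetSum, Finset.sum_apply] at h4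
    rw [← h4]
    refine Finset.sum_congr rfl fun l _ => ?_
    have h5 : Λ.IsMF Γ l ((f l : Λ.MS Γ) : Λ.A → ℂ) := (f l).2
    have h6 := h5.hom s⁻¹ z ⟨s⁻¹ • (z : V n), Λ.smul_mem_A hs' z.2⟩ rfl
    rw [← h6, inv_pow, ← mul_assoc, mul_inv_cancel₀ (pow_ne_zero _ hs), one_mul])
  exact h3 k hk

end PRM

theorem PRM_thm (hCOP : S_COP) (hHFA : S_HFA) (hGR : S_GR) (hZER : S_ZER) (hDOM : S_DOM) :
    S_PRM := by
  intro n Λ Γ Γ₀ hU hfin hfree h0 h0fin hufm r hr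
  obtain ⟨X, hX, -, -⟩ := id hfree
  by_cases hz : ∀ q : Λ.MS Γ₀, (∀ z : Λ.A, Λ.h z r = 0 → (q : Λ.A → ℂ) z = 0) → q = 0
  · obtain ⟨k, hk, hXk⟩ := hX 0
    refine ⟨k, hk, ⟨X 0, (hXk.mono h0).mem_MS⟩, hXk.mono h0, fun q hq => ⟨0, ?_⟩⟩
    rw [hz q hq, mul_zero]
  · push Not at hz
    obtain ⟨q0, hq0, hq0'⟩ := hz
    obtain ⟨k, q1, hq1k, hq1ne, hq1⟩ := PRM.comp Λ Γ₀ r (hGR n Λ Γ₀).2.2 q0 hq0 hq0'
    have : NoZeroDivisors (Λ.MS Γ₀) := ⟨by
      intro a b hab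
      rcases hDOM n Λ ⊤ a b (HL.MS_mono bot_le a.2) (HL.MS_mono bot_le b.2) (by
        intro z _
        have : ((a * b : Λ.MS Γ₀) : Λ.A → ℂ) z = 0 := by rw [hab]; rfl
        exact this) with h | h
      · left
        apply Subtype.ext
        funext z
        exact h z trivial
      · right
        apply Subtype.ext
        funext z
        exact h z trivial⟩
    have : Nontrivial (Λ.MS Γ₀) := ⟨q1, 0, hq1ne⟩
    have hdom : IsDomain (Λ.MS Γ₀) := NoZeroDivisors.to_isDomain _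
    have hmul : ∀ a b : Λ.MS Γ₀, (∀ z : Λ.A, Λ.h z r = 0 → (a : Λ.A → ℂ) z = 0) →
        ∀ z : Λ.A, Λ.h z r = 0 → ((a * b : Λ.MS Γ₀) : Λ.A → ℂ) z = 0 := by
      intro a b ha z hz
      show (a : Λ.A → ℂ) z * (b : Λ.A → ℂ) z = 0
      rw [ha z hz, zero_mul]
    have hpr : ∀ a b : Λ.MS Γ₀,
        (∀ z : Λ.A, Λ.h z r = 0 → ((a * b : Λ.MS Γ₀) : Λ.A → ℂ) z = 0) →
        (∀ z : Λ.A, Λ.h z r = 0 → (a : Λ.A → ℂ) z = 0) ∨
          (∀ z : Λ.A, Λ.h z r = 0 → (b : Λ.A → ℂ) z = 0) := by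
      intro a b hab
      exact hDOM n Λ (LinearMap.ker (Λ.hl r)) a b (HL.MS_mono bot_le a.2)
        (HL.MS_mono bot_le b.2) hab
    have hex : ∀ q2 : Λ.MS Γ₀, q2 ≠ 0 → (∀ z : Λ.A, Λ.h z r = 0 → (q2 : Λ.A → ℂ) z = 0) →
        ∃ p : Λ.MS Γ₀, Prime p ∧ p ∣ q2 ∧ ∀ z : Λ.A, Λ.h z r = 0 → (p : Λ.A → ℂ) z = 0 := by
      intro q2
      induction q2 using UniqueFactorizationMonoid.induction_on_prime with
      | h₁ => exact fun h => absurd rfl h
      | h₂ x hx =>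
        intro _ hxv
        exfalso
        obtain ⟨z, hz⟩ := PRM.exists_mem_mirror Λ hr
        obtain ⟨y, hy⟩ := hx.exists_right_inv
        have h1 := hmul x y hxv z hz
        rw [hy] at h1
        exact one_ne_zero h1
      | h₃ a p ha hp ih =>
        intro _ hv
        rcases hpr p a hv with h | h
        · exact ⟨p, hp, Dvd.intro a rfl, h⟩
        · obtain ⟨p', hp', hd, hv'⟩ := ih ha h
          exact ⟨p', hp', hd.trans (Dvd.intro_left p rfl), hv'⟩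
    obtain ⟨p, hp, hpd, hpv⟩ := hex q1 hq1ne hq1
    obtain ⟨c, hc⟩ := hpd
    obtain ⟨i, j, -, hpi, -⟩ := hHFA (Λ.MS Γ₀) (Λ.gr Γ₀) (hGR n Λ Γ₀).2.1 (hGR n Λ Γ₀).2.2 k p c
      (by rwa [← hc]) (by rwa [← hc])
    refine ⟨i, ?_, p, hpi, fun q hq => ?_⟩
    · rcases Nat.eq_zero_or_pos i with h | h
      · exfalso
        subst h
        obtain ⟨c0, hc0⟩ := hZER n Λ Γ Γ₀ (hU.trans Λ.U_le_I) hfree h0 h0fin p hpi
        obtain ⟨z, hz⟩ := PRM.exists_mem_mirror Λ hr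
        have h1 := hpv z hz
        rw [hc0] at h1
        have h2 : c0 = 0 := h1
        apply hp.ne_zero
        apply Subtype.ext
        rw [hc0, h2, map_zero]
        rfl
      · exact h
    · by_contra hpq
      have hpq' : ¬ p ∣ q := hpq
      have h1 : IsRelPrime p q := (hp.irreducible.isRelPrime_iff_not_dvd).2 hpq'
      exact hCOP n Λ Γ Γ₀ hU hfin hfree h0 h0fin hufm r hr p q h1 fun z hz => ⟨hpv z hz, hq z hz⟩

end Pool.Agent.MFB
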