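import Pool.Agent.MFB.Stmts

/-!
# A continuous function which is holomorphic outside the zeros of a holomorphic function
-/

open Metric Set Filter Topology MeasureTheory

namespace Pool.Agent.MFB.RAD

/-- The zeros of a nonzero analytic function on a connected set are countable. -/
theorem countable_zeros {U : Set ℂ} {g : ℂ → ℂ} (hg : AnalyticOnNhd ℂ g U) (hU : IsPreconnected U)
    (hne : ∃ s ∈ U, g s ≠ 0) : {s | s ∈ U ∧ g s = 0}.Countable := by
  refine (HereditarilyLindelofSpace.isLindelof _).countable ?_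
  rw [discreteTopology_subtype_iff]
  rintro x ⟨hx, hx0⟩
  rw [← _root_.disjoint_iff, Filter.disjoint_principal_right]
  by_contra hcon
  have h1 : ∃ᶠ z in 𝓝[≠] x, g z = 0 := by
    intro h2
    apply hcon
    filter_upwards [h2] with z hz hz'
    exact hz hz'.2
  have h3 := hg.eqOn_zero_of_preconnected_of_frequently_eq_zero hU hx h1
  obtain ⟨s, hs, hs'⟩ := hne
  exact hs' (h3 hs)

variable {n : ℕ}

/-- The map `s ↦ z + s v`. -/
theorem hasDerivAt_line (z v : V n) (s : ℂ) : HasDerivAt (fun s : ℂ => z + s • v) v s := by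
  have h1 : HasDerivAt (fun s : ℂ => s • v) ((1 : ℂ) • v) s := (hasDerivAt_id s).smul_const v
  rw [one_smul] at h1
  exact h1.const_add z

theorem differentiableAt_line (z v : V n) (s : ℂ) :
    DifferentiableAt ℂ (fun s : ℂ => z + s • v) s := (hasDerivAt_line z v s).differentiableAt

theorem continuous_line (z v : V n) : Continuous fun s : ℂ => z + s • v := by fun_prop

/-- The mean value property on the lines. -/
theorem mean_value {Ω : Set (V n)} {w c : V n → ℂ} (hΩ : IsOpen Ω) (hw : ContinuousOn w Ω)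
    (hc : DifferentiableOn ℂ c Ω) (hd : ∀ z ∈ Ω, c z ≠ 0 → DifferentiableAt ℂ w z) {ρ : ℝ}
    (hρ : 0 < ρ) (z v : V n) (h1 : ∀ s ∈ closedBall (0 : ℂ) ρ, z + s • v ∈ Ω)
    (h2 : ∀ s ∈ sphere (0 : ℂ) ρ, c (z + s • v) ≠ 0) :
    w z = (2 * Real.pi)⁻¹ • ∫ θ in 0..2 * Real.pi, w (z + circleMap 0 ρ θ • v) := by
  set g : ℂ → ℂ := fun s => c (z + s • v) with hgdef
  have hga : AnalyticOnNhd ℂ g (ball 0 ρ) := by
    refine DifferentiableOn.analyticOnNhd ?_ isOpen_ball
    intro s hs
    have h3 : DifferentiableAt ℂ c (z + s • v) :=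
      hc.differentiableAt (hΩ.mem_nhds (h1 s (ball_subset_closedBall hs)))
    exact (DifferentiableAt.comp s h3 (differentiableAt_line z v s)).differentiableWithinAt
  have hgc : ContinuousOn g (closedBall 0 ρ) := by
    refine hc.continuousOn.comp (continuous_line z v).continuousOn ?_
    intro s hs
    exact h1 s hs
  have hne : ∃ s ∈ ball (0 : ℂ) ρ, g s ≠ 0 := by
    by_contra hcon
    push Not at hcon
    have h4 : EqOn g (fun _ => 0) (closure (ball 0 ρ)) := by
      refine EqOn.of_subset_closure (s := ball 0 ρ) hcon ?_ continuousOn_const ?_ ?_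
      · rw [closure_ball _ hρ.ne']
        exact hgc
      · exact subset_closure
      · exact subset_rfl
    rw [closure_ball _ hρ.ne'] at h4
    have h5 : (ρ : ℂ) ∈ sphere (0 : ℂ) ρ := by
      simp [abs_of_pos hρ]
    exact h2 _ h5 (h4 (sphere_subset_closedBall h5))
  have hcount := countable_zeros hga (convex_ball _ _).isPreconnected hne
  have hav := circleAverage_of_differentiable_on_off_countable (R := ρ) (c := 0)
    (f := fun s : ℂ => w (z + s • v)) hcount (by
      rw [abs_of_pos hρ]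
      exact hw.comp (continuous_line z v).continuousOn fun s hs => h1 s hs) (by
      rw [abs_of_pos hρ]
      intro s hs
      have h6 : c (z + s • v) ≠ 0 := fun h7 => hs.2 ⟨hs.1, h7⟩
      exact DifferentiableAt.comp s (hd _ (h1 s (ball_subset_closedBall hs.1)) h6)
        (differentiableAt_line z v s))
  rw [Real.circleAverage_def] at hav
  rw [hav, zero_smul, add_zero]

end Pool.Agent.MFB.RAD

namespace Pool.Agent.MFB

open RAD

/-- RAD: a continuous function which is holomorphic outside the zeros of a holomorphic function. -/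
theorem RAD_thm (hCDF : S_CDF) : S_RAD := by
  intro n Ω w c hΩ hw hc hd hne z₀ hz₀
  obtain ⟨v, hv⟩ := hne z₀ hz₀
  -- the open set of the points at which `w` is known to be differentiable
  set Ω' : Set (V n) := {z | z ∈ Ω ∧ c z ≠ 0} with hΩ'
  have hΩ'o : IsOpen Ω' := by
    have h1 := hc.continuousOn.isOpen_inter_preimage hΩ (isOpen_ne (x := (0 : ℂ)))
    exact h1
  have hwd : DifferentiableOn ℂ w Ω' := fun z hz => (hd z hz.1 hz.2).differentiableWithinAt
  have hwd' : ContinuousOn (fun z => fderiv ℂ w z) Ω' := hCDF n Ω' w hΩ'o hwd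
  -- the radius
  have hev : ∀ᶠ s : ℂ in 𝓝 0, z₀ + s • v ∈ Ω := by
    have h1 : Tendsto (fun s : ℂ => z₀ + s • v) (𝓝 0) (𝓝 z₀) := by
      have h2 := (continuous_line z₀ v).tendsto 0
      simpa using h2
    exact h1.eventually (hΩ.mem_nhds hz₀)
  have hga : AnalyticAt ℂ (fun s : ℂ => c (z₀ + s • v)) 0 := by
    rw [Complex.analyticAt_iff_eventually_differentiableAt]
    filter_upwards [hev] with s hs
    exact DifferentiableAt.comp s (hc.differentiableAt (hΩ.mem_nhds hs))
      (differentiableAt_line z₀ v s)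
  have hne' : ∀ᶠ s in 𝓝[≠] (0 : ℂ), c (z₀ + s • v) ≠ 0 := by
    rcases hga.eventually_eq_zero_or_eventually_ne_zero with h1 | h1
    · exact absurd h1 hv
    · exact h1
  obtain ⟨ρ, hρ, h1, h2⟩ : ∃ ρ : ℝ, 0 < ρ ∧ (∀ s ∈ closedBall (0 : ℂ) ρ, z₀ + s • v ∈ Ω) ∧
      ∀ s ∈ sphere (0 : ℂ) ρ, c (z₀ + s • v) ≠ 0 := by
    rw [eventually_nhdsWithin_iff] at hne'
    obtain ⟨r, hr, hr'⟩ := Metric.eventually_nhds_iff.1 (hev.and hne')
    refine ⟨r / 2, by positivity, fun s hs => ?_, fun s hs => ?_⟩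
    · rw [mem_closedBall] at hs
      exact (hr' (lt_of_le_of_lt hs (by linarith))).1
    · rw [mem_sphere] at hs
      refine (hr' (lt_of_le_of_lt hs.le (by linarith))).2 ?_
      intro h3
      rw [mem_singleton_iff] at h3
      rw [h3, dist_self] at hs
      linarith
  -- compact sets
  have hK : IsCompact ((fun s : ℂ => z₀ + s • v) '' closedBall 0 ρ) :=
    (isCompact_closedBall 0 ρ).image (continuous_line z₀ v)
  have hK' : IsCompact ((fun s : ℂ => z₀ + s • v) '' sphere 0 ρ) :=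
    (isCompact_sphere 0 ρ).image (continuous_line z₀ v)
  obtain ⟨δ₁, hδ₁, hδ₁'⟩ := hK.exists_cthickening_subset_open hΩ (by
    rintro _ ⟨s, hs, rfl⟩
    exact h1 s hs)
  obtain ⟨δ₂, hδ₂, hδ₂'⟩ := hK'.exists_cthickening_subset_open hΩ'o (by
    rintro _ ⟨s, hs, rfl⟩
    exact ⟨h1 s (sphere_subset_closedBall hs), h2 s hs⟩)
  set δ := min δ₁ δ₂ with hδdef
  have hδ : 0 < δ := lt_min hδ₁ hδ₂
  have hm1 : ∀ z ∈ ball z₀ δ, ∀ s ∈ closedBall (0 : ℂ) ρ, z + s • v ∈ Ω := by
    intro z hz s hs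
    apply hδ₁'
    refine mem_cthickening_of_dist_le _ (z₀ + s • v) _ _ ⟨s, hs, rfl⟩ ?_
    rw [dist_add_right]
    exact (le_of_lt hz).trans (min_le_left _ _)
  have hm2' : ∀ z ∈ ball z₀ δ, ∀ s ∈ sphere (0 : ℂ) ρ,
      z + s • v ∈ cthickening δ₂ ((fun s : ℂ => z₀ + s • v) '' sphere 0 ρ) := by
    intro z hz s hs
    refine mem_cthickening_of_dist_le _ (z₀ + s • v) _ _ ⟨s, hs, rfl⟩ ?_
    rw [dist_add_right]
    exact (le_of_lt hz).trans (min_le_right _ _)
  have hm2 : ∀ z ∈ ball z₀ δ, ∀ s ∈ sphere (0 : ℂ) ρ, z + s • v ∈ Ω' :=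
    fun z hz s hs => hδ₂' (hm2' z hz s hs)
  have hcirc : ∀ θ : ℝ, circleMap 0 ρ θ ∈ sphere (0 : ℂ) ρ := fun θ =>
    circleMap_mem_sphere 0 hρ.le θ
  have hz₀b : z₀ ∈ ball z₀ δ := mem_ball_self hδ
  -- the bound
  have hcomp : IsCompact (cthickening δ₂ ((fun s : ℂ => z₀ + s • v) '' sphere 0 ρ)) :=
    hK'.cthickening
  obtain ⟨B, hB⟩ := hcomp.exists_bound_of_continuousOn (hwd'.mono hδ₂')
  -- continuity in `θ`
  have hcontw : ∀ z ∈ ball z₀ δ, Continuous fun θ : ℝ => w (z + circleMap 0 ρ θ • v) := by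
    intro z hz
    have h3 : Continuous fun θ : ℝ => z + circleMap 0 ρ θ • v :=
      (continuous_line z v).comp (continuous_circleMap 0 ρ)
    rw [← continuousOn_univ] at h3 ⊢
    exact hw.comp h3 fun θ _ => (hm2 z hz _ (hcirc θ)).1
  have hcontd : ∀ z ∈ ball z₀ δ, Continuous fun θ : ℝ => fderiv ℂ w (z + circleMap 0 ρ θ • v) := by
    intro z hz
    have h3 : Continuous fun θ : ℝ => z + circleMap 0 ρ θ • v :=
      (continuous_line z v).comp (continuous_circleMap 0 ρ)
    rw [← continuousOn_univ] at h3 ⊢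
    exact hwd'.comp h3 fun θ _ => hm2 z hz _ (hcirc θ)
  have hder : HasFDerivAt (fun z : V n => ∫ θ in 0..2 * Real.pi, w (z + circleMap 0 ρ θ • v))
      (∫ θ in 0..2 * Real.pi, fderiv ℂ w (z₀ + circleMap 0 ρ θ • v)) z₀ := by
    refine (intervalIntegral.hasFDerivAt_integral_of_dominated_of_fderiv_le
      (F := fun (z : V n) (θ : ℝ) => w (z + circleMap 0 ρ θ • v))
      (F' := fun (z : V n) (θ : ℝ) => fderiv ℂ w (z + circleMap 0 ρ θ • v))
      (s := ball z₀ δ) (bound := fun _ => B)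
      (ball_mem_nhds _ hδ) ?_ ?_ ?_ ?_ ?_ ?_)
    · filter_upwards [ball_mem_nhds z₀ hδ] with z hz
      exact (hcontw z hz).aestronglyMeasurable
    · exact (hcontw z₀ hz₀b).intervalIntegrable _ _
    · exact (hcontd z₀ hz₀b).aestronglyMeasurable
    · exact Eventually.of_forall fun θ _ z hz => hB _ (hm2' z hz _ (hcirc θ))
    · exact intervalIntegrable_const
    · refine Eventually.of_forall fun θ _ z hz => ?_
      have h3 : HasFDerivAt w (fderiv ℂ w (z + circleMap 0 ρ θ • v)) (z + circleMap 0 ρ θ • v) := by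
        have h4 := hm2 z hz _ (hcirc θ)
        exact (hd _ h4.1 h4.2).hasFDerivAt
      have h5 : HasFDerivAt (fun z : V n => z + circleMap 0 ρ θ • v)
          (ContinuousLinearMap.id ℂ (V n)) z := (hasFDerivAt_id z).add_const _
      have h6 := h3.comp z h5
      rw [ContinuousLinearMap.comp_id] at h6
      exact h6
  have heq : w =ᶠ[𝓝 z₀] fun z : V n =>
      (2 * Real.pi)⁻¹ • ∫ θ in 0..2 * Real.pi, w (z + circleMap 0 ρ θ • v) := by
    filter_upwards [ball_mem_nhds z₀ hδ] with z hz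
    exact mean_value hΩ hw hc hd hρ z v (hm1 z hz) fun s hs => (hm2 z hz s hs).2
  have hfin : DifferentiableAt ℂ (fun z : V n =>
      (2 * Real.pi)⁻¹ • ∫ θ in 0..2 * Real.pi, w (z + circleMap 0 ρ θ • v)) z₀ :=
    hder.differentiableAt.const_smul ((2 * Real.pi)⁻¹ : ℝ)
  exact (hfin.congr_of_eventuallyEq heq).differentiableWithinAt

end Pool.Agent.MFB
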