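import Mathlib
import Pool.Agent.MFB.Stmts

/-!
# RHO: the action on the modular forms for a normal subgroup (helper68)
-/

namespace Pool.Agent.MFB

namespace RHO

variable {n : ℕ} (Λ : HL n)

/-- The elements of the algebra of modular forms are invariant. -/
theorem act_fixed {Γ : Subgroup (V n ≃ₗ[ℂ] V n)} (hΓ : Γ ≤ Λ.I) {γ : V n ≃ₗ[ℂ] V n}
    (hγ : γ ∈ Γ) {f : Λ.A → ℂ} (hf : f ∈ Λ.MS Γ) : Λ.act γ f = f := by
  have hf' : f ∈ Algebra.adjoin ℂ {f | ∃ k : ℕ, Λ.IsMF Γ k f} := hf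
  clear hf
  induction hf' using Algebra.adjoin_induction with
  | mem f hf =>
    obtain ⟨k, hk⟩ := hf
    funext z
    rw [Λ.act_apply (hΓ hγ)]
    exact hk.inv γ hγ z _ rfl
  | algebraMap c => exact Λ.act_algebraMap (hΓ hγ) c
  | add f g _ _ h1 h2 => rw [Λ.act_add, h1, h2]
  | mul f g _ _ h1 h2 => rw [Λ.act_mul, h1, h2]

end RHO

theorem RHO_thm (hACT : S_ACT) : S_RHO := by
  intro n Λ Γ₀ Γ₁ h1 h01 hN
  have hI : ∀ g : Γ₁, (g : V n ≃ₗ[ℂ] V n) ∈ Λ.I := fun g => h1 g.2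
  have hmem : ∀ (g : Γ₁) (f : Λ.MS Γ₀),
      Λ.act (g : V n ≃ₗ[ℂ] V n) (f : Λ.A → ℂ) ∈ Λ.MS Γ₀ := fun g f =>
    hACT n Λ Γ₀ Γ₀ g (hI g) (fun γ hγ => hN g g.2 γ hγ) f f.2
  let ρ : Γ₁ →* (Λ.MS Γ₀ ≃ₐ[ℂ] Λ.MS Γ₀) :=
    { toFun := fun g =>
        { toFun := fun f => ⟨Λ.act ((g⁻¹ : Γ₁) : V n ≃ₗ[ℂ] V n) (f : Λ.A → ℂ), hmem g⁻¹ f⟩
          invFun := fun f => ⟨Λ.act (g : V n ≃ₗ[ℂ] V n) (f : Λ.A → ℂ), hmem g f⟩
          left_inv := fun f => by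
            apply Subtype.ext
            show Λ.act (g : V n ≃ₗ[ℂ] V n) (Λ.act ((g⁻¹ : Γ₁) : V n ≃ₗ[ℂ] V n) (f : Λ.A → ℂ)) = f
            rw [← Λ.act_mul_left (hI g⁻¹), ← Subgroup.coe_mul, inv_mul_cancel, Subgroup.coe_one,
              Λ.act_one_left]
          right_inv := fun f => by
            apply Subtype.ext
            show Λ.act ((g⁻¹ : Γ₁) : V n ≃ₗ[ℂ] V n) (Λ.act (g : V n ≃ₗ[ℂ] V n) (f : Λ.A → ℂ)) = f
            rw [← Λ.act_mul_left (hI g), ← Subgroup.coe_mul, mul_inv_cancel, Subgroup.coe_one,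
              Λ.act_one_left]
          map_mul' := fun f f' => by
            apply Subtype.ext
            exact Λ.act_mul _ _ _
          map_add' := fun f f' => by
            apply Subtype.ext
            exact Λ.act_add _ _ _
          commutes' := fun c => by
            apply Subtype.ext
            exact Λ.act_algebraMap (hI g⁻¹) c }
      map_one' := by
        apply AlgEquiv.ext
        intro f
        apply Subtype.ext
        show Λ.act ((1⁻¹ : Γ₁) : V n ≃ₗ[ℂ] V n) (f : Λ.A → ℂ) = f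
        rw [inv_one, Subgroup.coe_one, Λ.act_one_left]
      map_mul' := fun g g' => by
        apply AlgEquiv.ext
        intro f
        apply Subtype.ext
        show Λ.act (((g * g')⁻¹ : Γ₁) : V n ≃ₗ[ℂ] V n) (f : Λ.A → ℂ) =
          Λ.act ((g⁻¹ : Γ₁) : V n ≃ₗ[ℂ] V n) (Λ.act ((g'⁻¹ : Γ₁) : V n ≃ₗ[ℂ] V n) (f : Λ.A → ℂ))
        rw [mul_inv_rev, Subgroup.coe_mul, Λ.act_mul_left (hI g'⁻¹)] }
  have hρ : ∀ g f, ((ρ g f : Λ.MS Γ₀) : Λ.A → ℂ) =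
      Λ.act ((g⁻¹ : Γ₁) : V n ≃ₗ[ℂ] V n) (f : Λ.A → ℂ) := fun _ _ => rfl
  have hone : ∀ g : Γ₁, (g : V n ≃ₗ[ℂ] V n) ∈ Γ₀ → ρ g = 1 := by
    intro g hg
    apply AlgEquiv.ext
    intro f
    apply Subtype.ext
    rw [hρ]
    have h2 : ((g⁻¹ : Γ₁) : V n ≃ₗ[ℂ] V n) ∈ Γ₀ := by
      rw [Subgroup.coe_inv]
      exact Γ₀.inv_mem hg
    exact RHO.act_fixed Λ (h01.trans h1) h2 f.2
  refine ⟨ρ, hρ, ?_, ?_, hone⟩
  · intro hidx
    have hle : Γ₀.subgroupOf Γ₁ ≤ ρ.ker := by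
      intro g hg
      rw [MonoidHom.mem_ker]
      exact hone g (Subgroup.mem_subgroupOf.1 hg)
    have h3 : ρ.ker.index ≠ 0 := by
      intro h0
      have h4 := Subgroup.index_dvd_of_le hle
      rw [h0, zero_dvd_iff] at h4
      exact hidx h4
    rw [Subgroup.index_ker] at h3
    exact Nat.finite_of_card_ne_zero h3
  · intro g k b hb
    have hb' : Λ.IsMF Γ₀ k (b : Λ.A → ℂ) := hb
    show Λ.IsMF Γ₀ k ((ρ g b : Λ.MS Γ₀) : Λ.A → ℂ)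
    rw [hρ]
    exact hb'.act (hI g⁻¹) (fun γ hγ => hN (g⁻¹ : Γ₁) (g⁻¹ : Γ₁).2 γ hγ)

end Pool.Agent.MFB
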