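import Mathlib
import Pool.Agent.MFB.Stmts

/-!
# The differentials of the translates by isometries with entries in the field
-/

namespace Pool.Agent.MFB

namespace SPN

open Filter Topology

theorem apply_sum {n : ℕ} (g : V n ≃ₗ[ℂ] V n) (w : V n) :
    g w = ∑ i, w i • g (Pi.single i 1) := by
  have h1 : w = ∑ i, w i • (Pi.single i 1 : V n) := by
    funext j
    rw [Finset.sum_apply, Finset.sum_eq_single j]
    · simp
    · intro i _ hij
      simp [Pi.single_eq_of_ne (Ne.symm hij)]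
    · intro hj
      exact absurd (Finset.mem_univ j) hj
  conv_lhs => rw [h1]
  rw [map_sum]
  exact Finset.sum_congr rfl fun i _ => g.map_smul _ _

end SPN

open Filter Topology SPN in
theorem SPN_thm (hDEN : S_DEN) (hSPR : S_SPR) (hCDF : S_CDF) : S_SPN := by
  intro n Λ k f hk hf hf0 z hz v hv
  obtain ⟨g, hg, hne⟩ := hSPR n Λ k f hk hf hf0 z hz v hv
  have hex : ∀ m : ℕ, ∃ g' ∈ Λ.IF, ∀ i : Fin (n + 1),
      ‖g' (Pi.single i 1) - g (Pi.single i 1)‖ < 1 / ((m : ℝ) + 1) :=
    fun m => hDEN n Λ g hg _ (by positivity)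
  choose G hG1 hG2 using hex
  have hbas : ∀ i, Tendsto (fun m => G m (Pi.single i 1)) atTop (𝓝 (g (Pi.single i 1))) := by
    intro i
    rw [tendsto_iff_norm_sub_tendsto_zero]
    exact squeeze_zero (fun m => norm_nonneg _) (fun m => (hG2 m i).le)
      tendsto_one_div_add_atTop_nhds_zero_nat
  have hall : ∀ w : V n, Tendsto (fun m => G m w) atTop (𝓝 (g w)) := by
    intro w
    rw [apply_sum g w]
    have h1 : (fun m => G m w) = fun m => ∑ i, w i • G m (Pi.single i 1) := by
      funext m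
      exact apply_sum (G m) w
    rw [h1]
    exact tendsto_finsetSum _ fun i _ => (hbas i).const_smul (w i)
  have hcont : ContinuousAt (fun z => fderiv ℂ (Λ.ext f) z) (g z) :=
    (hCDF n Λ.A (Λ.ext f) Λ.isOpen_A hf.hol).continuousAt
      (Λ.isOpen_A.mem_nhds ((Λ.apply_mem_A hg).2 hz))
  have hlim1 : Tendsto (fun m => fderiv ℂ (Λ.ext f) (G m z)) atTop
      (𝓝 (fderiv ℂ (Λ.ext f) (g z))) := Tendsto.comp hcont.tendsto (hall z)
  have hlim : Tendsto (fun m => fderiv ℂ (Λ.ext f) (G m z) (G m v)) atTop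
      (𝓝 (fderiv ℂ (Λ.ext f) (g z) (g v))) :=
    (isBoundedBilinearMap_apply.continuous.tendsto
      ((fderiv ℂ (Λ.ext f) (g z), g v) : (V n →L[ℂ] ℂ) × V n)).comp
      (hlim1.prodMk_nhds (hall v))
  obtain ⟨m, hm⟩ := (hlim.eventually_ne hne).exists
  exact ⟨G m, hG1 m, hm⟩

end Pool.Agent.MFB
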