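import Mathlib
import Pool.Agent.MFB.Stmts

/-!
# The differentials of the translates of a form have no common zero
-/

set_option autoImplicit false

namespace Pool.Agent.MFB

namespace SPR

open Complex Filter

/-! ### One complex variable -/

theorem conj_mul {G : ℂ → ℂ} {D : ℂ} (hG : ContinuousAt G 0)
    (h : HasDerivAt (fun s => (starRingEnd ℂ) s * G s) D 0) : G 0 = 0 := by
  rw [hasDerivAt_iff_tendsto_slope_zero] at h
  have key : ∀ c : ℂ, c ≠ 0 → c⁻¹ * ((starRingEnd ℂ) c * G 0) = D := by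
    intro c hc
    have h1 : Tendsto (fun x : ℝ => c * (x : ℂ)) (nhdsWithin 0 {0}ᶜ) (nhdsWithin 0 {0}ᶜ) := by
      refine tendsto_nhdsWithin_of_tendsto_nhds_of_eventually_within _ ?_ ?_
      · refine Tendsto.mono_left ?_ nhdsWithin_le_nhds
        have : Continuous fun x : ℝ => c * (x : ℂ) := by fun_prop
        simpa using this.tendsto 0
      · filter_upwards [self_mem_nhdsWithin] with x hx
        have hx' : x ≠ 0 := hx
        have : c * (x : ℂ) ≠ 0 := mul_ne_zero hc (by exact_mod_cast hx')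
        exact this
    have h2 := h.comp h1
    have h3 : Tendsto (fun x : ℝ => c⁻¹ * ((starRingEnd ℂ) c * G (c * (x : ℂ))))
        (nhdsWithin 0 {0}ᶜ) (nhds D) := by
      refine h2.congr' ?_
      filter_upwards [self_mem_nhdsWithin] with x hx
      have hx' : (x : ℂ) ≠ 0 := by
        have : x ≠ 0 := hx
        exact_mod_cast this
      simp only [Function.comp_apply, zero_add, map_zero, zero_mul, sub_zero, smul_eq_mul,
        map_mul, Complex.conj_ofReal]
      field_simp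
    have h4 : Tendsto (fun x : ℝ => c⁻¹ * ((starRingEnd ℂ) c * G (c * (x : ℂ))))
        (nhdsWithin 0 {0}ᶜ) (nhds (c⁻¹ * ((starRingEnd ℂ) c * G 0))) := by
      refine Tendsto.const_mul _ (Tendsto.const_mul _ ?_)
      have h5 : Tendsto G (nhdsWithin 0 {0}ᶜ) (nhds (G 0)) := hG.tendsto.mono_left nhdsWithin_le_nhds
      exact h5.comp h1
    exact tendsto_nhds_unique h4 h3
  have h1 := key 1 one_ne_zero
  have h2 := key I I_ne_zero
  simp only [inv_one, map_one, one_mul] at h1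
  rw [Complex.conj_I, Complex.inv_I, ← h1] at h2
  have h3 : -I * (-I * G 0) = -G 0 := by
    linear_combination (G 0) * Complex.I_mul_I
  rw [h3] at h2
  have h4 : (2 : ℂ) * G 0 = 0 := by linear_combination -h2
  simpa using h4

variable {n : ℕ} (Λ : HL n) {k : ℕ} {f : Λ.A → ℂ}

theorem ext_pt (hf : Λ.IsMF ⊥ k f) {t : ℂ} (ht : t ≠ 0) {z : V n} (hz : z ∈ Λ.A) :
    t ^ k * Λ.ext f (t • z) = Λ.ext f z := by
  rw [Λ.ext_of_mem f hz, Λ.ext_of_mem f (Λ.smul_mem_A ht hz)]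
  exact hf.hom t ⟨z, hz⟩ ⟨t • z, _⟩ rfl

theorem line (hf : Λ.IsMF ⊥ k f) {z v : V n} {s : ℂ} (hz : z + s • v ∈ Λ.A) :
    HasDerivAt (fun s : ℂ => Λ.ext f (z + s • v)) (fderiv ℂ (Λ.ext f) (z + s • v) v) s := by
  have h1 : HasFDerivAt (Λ.ext f) (fderiv ℂ (Λ.ext f) (z + s • v)) (z + s • v) :=
    (hf.hol.differentiableAt (Λ.isOpen_A.mem_nhds hz)).hasFDerivAt
  have h2 : HasDerivAt (fun s : ℂ => z + s • v) v s := by
    have h3 := ((hasDerivAt_id s).smul_const v).const_add z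
    simpa using h3
  exact h1.comp_hasDerivAt s h2

/-- Euler's identity. -/
theorem euler (hf : Λ.IsMF ⊥ k f) {z : V n} (hz : z ∈ Λ.A) :
    fderiv ℂ (Λ.ext f) z z = -(k : ℂ) * Λ.ext f z := by
  have h0 : (0 : V n) + (1 : ℂ) • z ∈ Λ.A := by rw [zero_add, one_smul]; exact hz
  have h2 := line Λ hf h0
  simp only [zero_add, one_smul] at h2
  have h3 : HasDerivAt (fun t : ℂ => t ^ k * Λ.ext f (t • z))
      (k * Λ.ext f z + fderiv ℂ (Λ.ext f) z z) 1 := by
    refine HasDerivAt.congr_deriv ((hasDerivAt_pow k (1 : ℂ)).mul h2) ?_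
    simp
  have h4 : (fun t : ℂ => t ^ k * Λ.ext f (t • z)) =ᶠ[nhds 1] fun _ => Λ.ext f z := by
    filter_upwards [isOpen_ne.mem_nhds (one_ne_zero (α := ℂ))] with t ht
    exact ext_pt Λ hf ht hz
  have h5 : HasDerivAt (fun t : ℂ => t ^ k * Λ.ext f (t • z)) 0 1 :=
    (hasDerivAt_const _ _).congr_of_eventuallyEq h4
  have h6 := h3.unique h5
  linear_combination h6

theorem mem_near {z v : V n} (hz : z ∈ Λ.A) : ∀ᶠ s : ℂ in nhds 0, z + s • v ∈ Λ.A := by
  have hc : Continuous fun s : ℂ => z + s • v := by fun_prop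
  refine hc.continuousAt.eventually (Λ.isOpen_A.mem_nhds ?_)
  simpa using hz

theorem fderiv_pt (hf : Λ.IsMF ⊥ k f) {t : ℂ} (ht : t ≠ 0) {z : V n} (hz : z ∈ Λ.A) (v : V n) :
    t ^ (k + 1) * fderiv ℂ (Λ.ext f) (t • z) v = fderiv ℂ (Λ.ext f) z v := by
  have h0 : t • z + (0 : ℂ) • (t • v) ∈ Λ.A := by
    rw [zero_smul, add_zero]
    exact Λ.smul_mem_A ht hz
  have h1 := (line Λ hf h0).const_mul (t ^ k)
  have h0' : z + (0 : ℂ) • v ∈ Λ.A := by
    rw [zero_smul, add_zero]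
    exact hz
  have h2 := line Λ hf h0'
  have h3 : (fun s : ℂ => Λ.ext f (z + s • v)) =ᶠ[nhds 0]
      fun s => t ^ k * Λ.ext f (t • z + s • (t • v)) := by
    filter_upwards [mem_near Λ (v := v) hz] with s hs
    have e : t • z + s • (t • v) = t • (z + s • v) := by
      rw [smul_add, smul_comm]
    rw [e, ext_pt Λ hf ht hs]
  have h4 := h2.unique (h1.congr_of_eventuallyEq h3)
  rw [zero_smul, zero_smul, add_zero, add_zero, map_smul] at h4
  rw [h4, smul_eq_mul]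
  ring

/-! ### Reflections and transitivity -/

theorem rm_mem {r : V n} (hr : Λ.h r r ≠ 0) : Λ.rf r (-1) hr (by norm_num) ∈ Λ.I :=
  Λ.rf_mem_I hr (by norm_num) (by simp)

theorem rm_apply {r : V n} (hr : Λ.h r r ≠ 0) (x : V n) :
    Λ.rf r (-1) hr (by norm_num) x = x - (2 * (Λ.h x r / Λ.h r r)) • r := by
  rw [Λ.rf_apply]
  norm_num

theorem trans0 {z z' : V n} (hz : z ∈ Λ.A) (hz' : z' ∈ Λ.A)
    (he : (Λ.h z' z').re = (Λ.h z z).re) : ∃ g ∈ Λ.I, ∃ t : ℂ, t ≠ 0 ∧ g z = t • z' := by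
  by_cases hs : ∃ s : ℂ, z' = s • z
  · obtain ⟨s, hs⟩ := hs
    have hs0 : s ≠ 0 := by
      rintro rfl
      rw [zero_smul] at hs
      exact Λ.ne_zero_of_mem_A hz' hs
    refine ⟨1, Λ.I.one_mem, s⁻¹, inv_ne_zero hs0, ?_⟩
    rw [hs, smul_smul, inv_mul_cancel₀ hs0, one_smul]
    rfl
  · push Not at hs
    have h0 : Λ.h z z' ≠ 0 := Λ.h_ne_zero hz' hz
    have h1 := Λ.rcs_lt hz hs
    have hn0 : 0 < ‖Λ.h z z'‖ := norm_pos_iff.2 h0
    have h2 : ‖Λ.h z' z‖ = ‖Λ.h z z'‖ := by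
      rw [← Λ.h_conj z z', RCLike.norm_conj]
    rw [h2, he] at h1
    have hneg : (Λ.h z z).re < 0 := hz
    have h3 : -(Λ.h z z).re < ‖Λ.h z z'‖ := by
      by_contra hc
      push Not at hc
      nlinarith
    set N : ℝ := ‖Λ.h z z'‖ with hN
    have hNC : (N : ℂ) ≠ 0 := by exact_mod_cast hn0.ne'
    set t : ℂ := -(Λ.h z z' / N) with ht
    have ht0 : t ≠ 0 := neg_ne_zero.2 (div_ne_zero h0 hNC)
    have hhc : (starRingEnd ℂ) (Λ.h z z') * Λ.h z z' = (N : ℂ) ^ 2 := by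
      rw [mul_comm, Complex.mul_conj, Complex.normSq_eq_norm_sq, hN]
      push_cast
      rfl
    have h4 : Λ.h z (t • z') = -(N : ℂ) := by
      rw [Λ.h_smul_right, ht, map_neg, map_div₀, Complex.conj_ofReal]
      field_simp
      linear_combination -hhc
    have h5 : Λ.h (t • z') z = -(N : ℂ) := by
      rw [← Λ.h_conj, h4, map_neg, Complex.conj_ofReal]
    have h6 : Λ.h (t • z') (t • z') = Λ.h z z := by
      have h7 : ‖t‖ = 1 := by
        rw [ht, norm_neg, norm_div, Complex.norm_real, ← hN, Real.norm_of_nonneg hn0.le,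
          div_self hn0.ne']
      rw [Λ.h_smul_self, h7, Λ.h_self z', he, ← Λ.h_self z]
      norm_num
    have h8 : Λ.h (z - t • z') (z - t • z') = 2 * Λ.h z z + 2 * N := by
      rw [Λ.h_sub_left, Λ.h_sub_right, Λ.h_sub_right, h4, h5, h6]
      ring
    have h9 : Λ.h (z - t • z') (z - t • z') ≠ 0 := by
      intro hc
      have h10 := congrArg Complex.re (h8.symm.trans hc)
      rw [Λ.h_self z] at h10
      norm_num at h10
      linarith
    refine ⟨_, rm_mem Λ h9, t, ht0, ?_⟩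
    rw [rm_apply]
    have h11 : Λ.h z (z - t • z') = Λ.h z z + N := by
      rw [Λ.h_sub_right, h4]
      ring
    have h12 : 2 * (Λ.h z (z - t • z') / Λ.h (z - t • z') (z - t • z')) = 1 := by
      rw [h11, ← mul_div_assoc, div_eq_one_iff_eq h9, h8]
      ring
    rw [h12, one_smul]
    abel

theorem trans {z z' : V n} (hz : z ∈ Λ.A) (hz' : z' ∈ Λ.A) :
    ∃ g ∈ Λ.I, ∃ t : ℂ, t ≠ 0 ∧ g z = t • z' := by
  have h1 : (Λ.h z z).re < 0 := hz
  have h2 : (Λ.h z' z').re < 0 := hz'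
  set c : ℝ := Real.sqrt ((Λ.h z z).re / (Λ.h z' z').re) with hc
  have h3 : 0 < (Λ.h z z).re / (Λ.h z' z').re := div_pos_of_neg_of_neg h1 h2
  have hc0 : 0 < c := Real.sqrt_pos.2 h3
  have hcC : (c : ℂ) ≠ 0 := by exact_mod_cast hc0.ne'
  have h4 : (Λ.h ((c : ℂ) • z') ((c : ℂ) • z')).re = (Λ.h z z).re := by
    rw [Λ.h_smul_self, Complex.re_ofReal_mul, Complex.norm_real, Real.norm_of_nonneg hc0.le, hc,
      Real.sq_sqrt h3.le]
    exact div_mul_cancel₀ _ h2.ne
  obtain ⟨g, hg, t, ht, h5⟩ := trans0 Λ hz (Λ.smul_mem_A hcC hz') h4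
  refine ⟨g, hg, t * c, mul_ne_zero ht hcC, ?_⟩
  rw [h5, smul_smul]

/-! ### The common zeros of the differentials -/

/-- The common zeros of the differentials of the translates at `z`. -/
noncomputable def K (f : Λ.A → ℂ) (z : V n) : Submodule ℂ (V n) where
  carrier := {v | ∀ g ∈ Λ.I, fderiv ℂ (Λ.ext f) (g z) (g v) = 0}
  add_mem' := by
    intro a b ha hb g hg
    rw [map_add, map_add, ha g hg, hb g hg, add_zero]
  zero_mem' := by
    intro g _
    rw [map_zero, map_zero]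
  smul_mem' := by
    intro c v hv g hg
    rw [map_smul, map_smul, hv g hg, smul_zero]

theorem K_stab {z v : V n} (hv : v ∈ K Λ f z) {g : V n ≃ₗ[ℂ] V n} (hg : g ∈ Λ.I)
    (hgz : g z = z) : g v ∈ K Λ f z := by
  intro γ hγ
  have := hv (γ * g) (Λ.I.mul_mem hγ hg)
  rw [LinearEquiv.mul_apply, LinearEquiv.mul_apply, hgz] at this
  exact this

theorem refl_mem {z x r : V n} (hx : x ∈ K Λ f z) (hr : Λ.h r r ≠ 0) (hzr : Λ.h z r = 0)
    (hxr : Λ.h x r ≠ 0) : r ∈ K Λ f z := by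
  have h1 : Λ.rf r (-1) hr (by norm_num) x ∈ K Λ f z := by
    refine K_stab Λ hx (rm_mem Λ hr) ?_
    rw [rm_apply, hzr, zero_div, mul_zero, zero_smul, sub_zero]
  have h2 := (K Λ f z).sub_mem hx h1
  rw [rm_apply, sub_sub_cancel] at h2
  have h3 : 2 * (Λ.h x r / Λ.h r r) ≠ 0 := mul_ne_zero (by norm_num) (div_ne_zero hxr hr)
  exact ((K Λ f z).smul_mem_iff h3).1 h2

theorem self_ne_zero {z u : V n} (hz : z ∈ Λ.A) (hu : u ≠ 0) (huz : Λ.h u z = 0) :
    Λ.h u u ≠ 0 := by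
  intro hc
  have := Λ.pos_of_orth hz hu huz
  rw [hc] at this
  simp at this

theorem perp_le {z u : V n} (hz : z ∈ Λ.A) (hu : u ≠ 0) (huz : Λ.h u z = 0)
    (huK : u ∈ K Λ f z) {x : V n} (hx : Λ.h x z = 0) : x ∈ K Λ f z := by
  by_cases hx0 : x = 0
  · rw [hx0]
    exact (K Λ f z).zero_mem
  have huu := self_ne_zero Λ hz hu huz
  by_cases h1 : Λ.h u x = 0
  · have h2 : u + x ∈ K Λ f z := by
      have h3 : Λ.h (u + x) z = 0 := by rw [Λ.h_add_left, huz, hx, add_zero]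
      have h4 : u + x ≠ 0 := by
        intro hc
        have h5 : Λ.h u (u + x) = 0 := by rw [hc, Λ.h_zero_right]
        rw [Λ.h_add_right, h1, add_zero] at h5
        exact huu h5
      refine refl_mem Λ huK (self_ne_zero Λ hz h4 h3) (Λ.h_swap_zero h3) ?_
      rw [Λ.h_add_right, h1, add_zero]
      exact huu
    have h6 := (K Λ f z).sub_mem h2 huK
    rwa [add_sub_cancel_left] at h6
  · exact refl_mem Λ huK (self_ne_zero Λ hz hx0 hx) (Λ.h_swap_zero hx) h1

/-- The differentials vanish on the orthogonal complements. -/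
theorem all_perp (hf : Λ.IsMF ⊥ k f) {z : V n} (hz : z ∈ Λ.A)
    (hK : ∀ x, Λ.h x z = 0 → x ∈ K Λ f z) {w : V n} (hw : w ∈ Λ.A) {x : V n}
    (hx : Λ.h x w = 0) : fderiv ℂ (Λ.ext f) w x = 0 := by
  obtain ⟨g, hg, t, ht, hgz⟩ := trans Λ hz hw
  have h0 : g (g⁻¹ x) = x := g.apply_symm_apply x
  have h1 : Λ.h (g⁻¹ x) z = 0 := by
    rw [← hg (g⁻¹ x) z, h0, hgz, Λ.h_smul_right, hx, mul_zero]
  have h2 := hK _ h1 g hg
  rw [h0, hgz] at h2
  rw [← fderiv_pt Λ hf ht hw x, h2, mul_zero]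

theorem final (hf : Λ.IsMF ⊥ k f) (hk : 0 < k) {z u : V n} (hz : z ∈ Λ.A) (hu : u ≠ 0)
    (huz : Λ.h u z = 0)
    (hD : ∀ w ∈ Λ.A, ∀ x, Λ.h x w = 0 → fderiv ℂ (Λ.ext f) w x = 0) : Λ.ext f z = 0 := by
  have huu := self_ne_zero Λ hz hu huz
  have hzu := Λ.h_swap_zero huz
  set W : Set ℂ := {s | z + s • u ∈ Λ.A} with hW
  have hWo : IsOpen W := Λ.isOpen_A.preimage (by fun_prop)
  have hW0 : (0 : ℂ) ∈ W := by
    change z + (0 : ℂ) • u ∈ Λ.A
    rw [zero_smul, add_zero]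
    exact hz
  set φ : ℂ → ℂ := fun s => Λ.ext f (z + s • u) with hφ
  have hφd : ∀ s ∈ W, HasDerivAt φ (fderiv ℂ (Λ.ext f) (z + s • u) u) s :=
    fun s hs => line Λ hf hs
  have hdiff : DifferentiableOn ℂ φ W :=
    fun s hs => (hφd s hs).differentiableAt.differentiableWithinAt
  have hd2 := (hdiff.deriv hWo).differentiableAt (hWo.mem_nhds hW0)
  set q : ℂ → ℂ := fun s => Λ.h (z + s • u) (z + s • u) with hq
  set G : ℂ → ℂ := fun s => -(k : ℂ) * (Λ.h u u / q s) * φ s with hG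
  have hqc : Continuous q := Λ.continuous_h_self.comp (by fun_prop)
  have hq0 : q 0 ≠ 0 := Λ.h_self_ne_zero hW0
  have hGc : ContinuousAt G 0 := by
    refine ContinuousAt.mul (ContinuousAt.mul continuousAt_const
      (ContinuousAt.div continuousAt_const hqc.continuousAt hq0)) ?_
    exact (hφd 0 hW0).continuousAt
  have hval : ∀ s ∈ W, deriv φ s = (starRingEnd ℂ) s * G s := by
    intro s hs
    rw [(hφd s hs).deriv]
    have hs' : z + s • u ∈ Λ.A := hs
    have h1 : Λ.h u (z + s • u) = (starRingEnd ℂ) s * Λ.h u u := by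
      rw [Λ.h_add_right, huz, zero_add, Λ.h_smul_right]
    have h2 := Λ.orth_add (z + s • u) u
    have h3 := hD _ hs' _ (Λ.orth_h hs' u)
    have h4 := euler Λ hf hs'
    have h5 : fderiv ℂ (Λ.ext f) (z + s • u) u =
        (Λ.h u (z + s • u) / Λ.h (z + s • u) (z + s • u)) *
          fderiv ℂ (Λ.ext f) (z + s • u) (z + s • u) +
        fderiv ℂ (Λ.ext f) (z + s • u) (Λ.orth (z + s • u) u) := by
      refine (congrArg (fderiv ℂ (Λ.ext f) (z + s • u)) h2).trans ?_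
      rw [map_add, map_smul, smul_eq_mul]
    rw [h5, h3, h4, h1, add_zero]
    change (starRingEnd ℂ) s * Λ.h u u / q s * (-(k : ℂ) * φ s) =
      (starRingEnd ℂ) s * (-(k : ℂ) * (Λ.h u u / q s) * φ s)
    ring
  have hev : (fun s => (starRingEnd ℂ) s * G s) =ᶠ[nhds 0] deriv φ := by
    filter_upwards [hWo.mem_nhds hW0] with s hs
    exact (hval s hs).symm
  have h6 := conj_mul hGc (hd2.hasDerivAt.congr_of_eventuallyEq hev)
  have h7 : -(k : ℂ) * (Λ.h u u / q 0) * φ 0 = 0 := h6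
  have h8 : -(k : ℂ) * (Λ.h u u / q 0) ≠ 0 :=
    mul_ne_zero (neg_ne_zero.2 (by exact_mod_cast hk.ne')) (div_ne_zero huu hq0)
  have h9 : φ 0 = 0 := (mul_eq_zero.1 h7).resolve_left h8
  have h10 : φ 0 = Λ.ext f z := by
    change Λ.ext f (z + (0 : ℂ) • u) = _
    rw [zero_smul, add_zero]
  rw [← h10, h9]

end SPR

open SPR in
theorem SPR_thm : S_SPR := by
  intro n Λ k f hk hf hf0 z hz v hv
  by_contra hcon
  push Not at hcon
  have hvK : v ∈ K Λ f z := fun g hg => hcon g hg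
  -- a point where the form does not vanish
  obtain ⟨z0, hz0⟩ : ∃ z0, f z0 ≠ 0 := by
    by_contra hc
    push Not at hc
    exact hf0 (funext hc)
  obtain ⟨g, hg, t, ht, hgz⟩ := SPR.trans Λ hz z0.2
  have hne : Λ.ext f (g z) ≠ 0 := by
    intro hc
    rw [hgz] at hc
    have h1 := ext_pt Λ hf ht z0.2
    rw [hc, mul_zero, Λ.ext_coe] at h1
    exact hz0 h1.symm
  have hgA : g z ∈ Λ.A := (Λ.apply_mem_A hg).2 hz
  set u := Λ.orth z v with hu
  have huz : Λ.h u z = 0 := Λ.orth_h hz v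
  have hzu := Λ.h_swap_zero huz
  have hdec := Λ.orth_add z v
  rw [← hu] at hdec
  by_cases hu0 : u = 0
  · rw [hu0, add_zero] at hdec
    have hα : Λ.h v z / Λ.h z z ≠ 0 := by
      intro hc
      rw [hc, zero_smul] at hdec
      exact hv hdec
    have hzK : z ∈ K Λ f z := by
      have h1 : (Λ.h v z / Λ.h z z) • z ∈ K Λ f z := by
        rw [← hdec]
        exact hvK
      exact ((K Λ f z).smul_mem_iff hα).1 h1
    have h2 := hzK g hg
    rw [euler Λ hf hgA] at h2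
    have h3 : (k : ℂ) ≠ 0 := by exact_mod_cast hk.ne'
    exact (mul_ne_zero (neg_ne_zero.2 h3) hne) h2
  · have huu := self_ne_zero Λ hz hu0 huz
    have h1 : Λ.h v u ≠ 0 := by
      rw [hdec, Λ.h_add_left, Λ.h_smul_left, hzu, mul_zero, zero_add]
      exact huu
    have huK : u ∈ K Λ f z := refl_mem Λ hvK huu hzu h1
    have h2 : ∀ w ∈ Λ.A, ∀ x, Λ.h x w = 0 → fderiv ℂ (Λ.ext f) w x = 0 := fun w hw x hx =>
      all_perp Λ hf hz (fun x hx => perp_le Λ hz hu0 huz huK hx) hw hx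
    have hgu : g u ≠ 0 := fun hc => hu0 (by simpa using hc)
    exact hne (final Λ hf hk hgA hgu (by rw [hg u z]; exact huz) h2)

end Pool.Agent.MFB
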