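import Mathlib
import Pool.Agent.MFB.Stmts

/-!
# TH1: factoriality
-/

namespace Pool.Agent.MFB

namespace TH1

variable {n : ℕ} (Λ : HL n)

/-- The forms for `Γ` inside the algebra of all forms. -/
def sub (Γ : Subgroup (V n ≃ₗ[ℂ] V n)) : Subalgebra ℂ (Λ.MS ⊥) :=
  (Λ.MS Γ).comap (Λ.MS ⊥).val

theorem mem_sub (Γ : Subgroup (V n ≃ₗ[ℂ] V n)) (b : Λ.MS ⊥) :
    b ∈ sub Λ Γ ↔ (b : Λ.A → ℂ) ∈ Λ.MS Γ := Iff.rfl

/-- The identification of the two versions. -/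
def eqv (Γ : Subgroup (V n ≃ₗ[ℂ] V n)) : sub Λ Γ ≃ₐ[ℂ] Λ.MS Γ where
  toFun b := ⟨((b : Λ.MS ⊥) : Λ.A → ℂ), b.2⟩
  invFun f := ⟨⟨(f : Λ.A → ℂ), HL.MS_mono bot_le f.2⟩, f.2⟩
  left_inv _ := rfl
  right_inv _ := rfl
  map_mul' _ _ := rfl
  map_add' _ _ := rfl
  commutes' _ := rfl

theorem relprime_equiv {M N : Type} [CommMonoid M] [CommMonoid N] (e : M ≃* N) {a b : M}
    (h : IsRelPrime a b) : IsRelPrime (e a) (e b) := by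
  intro d h1 h2
  have h3 : e.symm d ∣ a := by
    have := map_dvd e.symm h1
    rwa [e.symm_apply_apply] at this
  have h4 : e.symm d ∣ b := by
    have := map_dvd e.symm h2
    rwa [e.symm_apply_apply] at this
  have h5 := h h3 h4
  have h6 := h5.map e
  rwa [e.apply_symm_apply] at h6

theorem domain (hDOM : S_DOM) (Γ : Subgroup (V n ≃ₗ[ℂ] V n)) : IsDomain (Λ.MS Γ) := by
  have hnt : Nontrivial (Λ.MS Γ) := by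
    refine ⟨⟨0, 1, fun h => ?_⟩⟩
    obtain ⟨z, hz⟩ := Λ.exists_mem_A
    have h1 := congrArg (fun f : Λ.MS Γ => (f : Λ.A → ℂ) ⟨z, hz⟩) h
    have h2 : (0 : ℂ) = 1 := h1
    exact zero_ne_one h2
  have hnz : NoZeroDivisors (Λ.MS Γ) := by
    refine ⟨fun {a b} hab => ?_⟩
    have h1 := hDOM n Λ ⊤ (a : Λ.A → ℂ) (b : Λ.A → ℂ) (HL.MS_mono bot_le a.2)
      (HL.MS_mono bot_le b.2) (fun z _ => by
        have h2 := congrArg (fun f : Λ.MS Γ => (f : Λ.A → ℂ) z) hab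
        exact h2)
    rcases h1 with h1 | h1
    · left
      apply Subtype.ext
      funext z
      exact h1 z Submodule.mem_top
    · right
      apply Subtype.ext
      funext z
      exact h1 z Submodule.mem_top
  exact NoZeroDivisors.to_isDomain _

theorem finIdx {G : Type} [Group G] {Γ Γ₁ U : Subgroup G} (h1 : Γ ≤ Γ₁) (h2 : Γ₁ ≤ U)
    (h : (Γ.subgroupOf U).index ≠ 0) : (Γ.subgroupOf Γ₁).FiniteIndex := by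
  constructor
  have h3 := Subgroup.relIndex_mul_relIndex Γ Γ₁ U h1 h2
  have h4 : Γ.relIndex U ≠ 0 := h
  rw [← h3] at h4
  exact left_ne_zero_of_mul h4

theorem closure_top (Γ Γ₁ : Subgroup (V n ≃ₗ[ℂ] V n)) (hΓ : Γ ≤ Γ₁)
    (h : Γ₁ ≤ Subgroup.closure ((Γ : Set (V n ≃ₗ[ℂ] V n)) ∪ {σ | σ ∈ Γ₁ ∧ Λ.IsRefl σ})) :
    Subgroup.closure ((Γ.subgroupOf Γ₁ : Set Γ₁) ∪
      {t : Γ₁ | Λ.IsRefl ((t⁻¹ : Γ₁) : V n ≃ₗ[ℂ] V n)}) = ⊤ := by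
  set C := Subgroup.closure ((Γ.subgroupOf Γ₁ : Set Γ₁) ∪
      {t : Γ₁ | Λ.IsRefl ((t⁻¹ : Γ₁) : V n ≃ₗ[ℂ] V n)}) with hC
  have key : ∀ x ∈ Subgroup.closure ((Γ : Set (V n ≃ₗ[ℂ] V n)) ∪ {σ | σ ∈ Γ₁ ∧ Λ.IsRefl σ}),
      ∃ hx : x ∈ Γ₁, (⟨x, hx⟩ : Γ₁) ∈ C := by
    intro x hx
    induction hx using Subgroup.closure_induction with
    | mem x hx =>
      rcases hx with hx | ⟨hx, hr⟩
      · refine ⟨hΓ hx, Subgroup.subset_closure (Or.inl ?_)⟩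
        exact hx
      · refine ⟨hx, ?_⟩
        have h1 : (⟨x, hx⟩ : Γ₁)⁻¹ ∈ C := by
          refine Subgroup.subset_closure (Or.inr ?_)
          show Λ.IsRefl (((⟨x, hx⟩ : Γ₁)⁻¹⁻¹ : Γ₁) : V n ≃ₗ[ℂ] V n)
          rw [inv_inv]
          exact hr
        exact inv_mem_iff.1 h1
    | one => exact ⟨Γ₁.one_mem, C.one_mem⟩
    | mul x y _ _ h1 h2 =>
      obtain ⟨hx, hx'⟩ := h1
      obtain ⟨hy, hy'⟩ := h2
      exact ⟨Γ₁.mul_mem hx hy, C.mul_mem hx' hy'⟩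
    | inv x _ h1 =>
      obtain ⟨hx, hx'⟩ := h1
      exact ⟨Γ₁.inv_mem hx, C.inv_mem hx'⟩
  rw [eq_top_iff]
  intro x _
  obtain ⟨hx, hx'⟩ := key x (h x.2)
  exact hx'

theorem vanish {σ : V n ≃ₗ[ℂ] V n} {r : V n} {ε : ℂ}
    (hσI : σ ∈ Λ.I) (hσ : ∀ x, σ x = x - ((1 - ε) * (Λ.h x r / Λ.h r r)) • r) {ζ : ℂ} (hζ : ζ ≠ 1)
    {f : Λ.A → ℂ} (hf : Λ.act σ f = ζ • f) {z : Λ.A} (hz : Λ.h z r = 0) : f z = 0 := by
  have h1 : σ (z : V n) = z := by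
    rw [hσ, hz]
    simp
  have h2 : Λ.act σ f z = f z := by
    rw [Λ.act_apply hσI]
    congr 1
    exact Subtype.ext h1
  rw [hf, Pi.smul_apply, smul_eq_mul] at h2
  have h3 : (ζ - 1) * f z = 0 := by
    rw [sub_mul, h2, one_mul, sub_self]
  rcases mul_eq_zero.1 h3 with h4 | h4
  · exact absurd (sub_eq_zero.1 h4) hζ
  · exact h4

end TH1

open TH1 in
theorem TH1_thm (hCORE : S_CORE) (hCO0 : S_CO0) (hUFR : S_UFR) (hINV : S_INV) (hDOM : S_DOM)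
    (hRHO : S_RHO) : S_TH1 := by
  intro n Λ Γ Γ₁ hU hΓ hidx hfree hcl
  have hI : Γ₁ ≤ Λ.I := hU.trans Λ.U_le_I
  obtain ⟨ρ, hρ, -, -, -⟩ := hRHO n Λ ⊥ Γ₁ hI bot_le (by
    intro g _ γ hγ
    rw [Subgroup.mem_bot] at hγ ⊢
    rw [hγ, mul_one, mul_inv_cancel])
  have hdom : IsDomain (Λ.MS ⊥) := domain Λ hDOM ⊥
  have hfin : (Γ.subgroupOf Γ₁).FiniteIndex := finIdx hΓ hU hidx
  obtain ⟨hufm, hunit⟩ := hUFR n Λ Γ hfree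
  have hRmem : ∀ b, b ∈ sub Λ Γ ↔ ∀ g ∈ Γ.subgroupOf Γ₁, ρ g b = b := by
    intro b
    rw [mem_sub, hINV n Λ Γ (hΓ.trans hI)]
    constructor
    · rintro ⟨-, h1⟩ g hg
      apply Subtype.ext
      rw [hρ]
      refine h1 _ ?_
      rw [Subgroup.coe_inv]
      exact Γ.inv_mem (Subgroup.mem_subgroupOf.1 hg)
    · intro h1
      refine ⟨b.2, fun γ hγ => ?_⟩
      have h2 : (⟨γ, hΓ hγ⟩ : Γ₁)⁻¹ ∈ Γ.subgroupOf Γ₁ :=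
        (Γ.subgroupOf Γ₁).inv_mem (Subgroup.mem_subgroupOf.2 hγ)
      have h3 := congrArg (Subtype.val) (h1 _ h2)
      rw [hρ, inv_inv] at h3
      exact h3
  have hSmem : ∀ b, b ∈ sub Λ Γ₁ ↔ ∀ g, ρ g b = b := by
    intro b
    rw [mem_sub, hINV n Λ Γ₁ hI]
    constructor
    · rintro ⟨-, h1⟩ g
      apply Subtype.ext
      rw [hρ]
      exact h1 _ (g⁻¹).2
    · intro h1
      refine ⟨b.2, fun γ hγ => ?_⟩
      have h3 := congrArg (Subtype.val) (h1 (⟨γ, hγ⟩ : Γ₁)⁻¹)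
      rw [hρ, inv_inv] at h3
      exact h3
  have hRufm : UniqueFactorizationMonoid (sub Λ Γ) :=
    ((eqv Λ Γ).symm : Λ.MS Γ ≃* sub Λ Γ).uniqueFactorizationMonoid hufm
  have hRunit : ∀ u : sub Λ Γ, IsUnit u → ∃ c : ℂ, u = algebraMap ℂ (sub Λ Γ) c := by
    intro u hu
    obtain ⟨c, hc⟩ := hunit (eqv Λ Γ u) (hu.map (eqv Λ Γ))
    refine ⟨c, ?_⟩
    apply (eqv Λ Γ).injective
    rw [hc]
    exact ((eqv Λ Γ).commutes c).symm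
  obtain ⟨hSufm, hrel⟩ := hCORE (Λ.MS ⊥) Γ₁ ρ (Γ.subgroupOf Γ₁) (sub Λ Γ) (sub Λ Γ₁) hRmem hSmem
    hRufm hRunit {t : Γ₁ | Λ.IsRefl ((t⁻¹ : Γ₁) : V n ≃ₗ[ℂ] V n)} (closure_top Λ Γ Γ₁ hΓ hcl) (by
      intro t ht f g hfg ζ hζ hf hg
      obtain ⟨-, r, ε, hr, -, -, hσ⟩ := ht
      have hrel := relprime_equiv ((eqv Λ Γ : sub Λ Γ ≃ₐ[ℂ] Λ.MS Γ) : sub Λ Γ ≃* Λ.MS Γ) hfg
      refine hCO0 n Λ Γ (hΓ.trans hU) hidx hfree r hr _ _ hrel fun z hz => ?_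
      have hσI : ((t⁻¹ : Γ₁) : V n ≃ₗ[ℂ] V n) ∈ Λ.I := hI (t⁻¹).2
      have hf' := congrArg (Subtype.val) hf
      have hg' := congrArg (Subtype.val) hg
      rw [hρ] at hf' hg'
      exact ⟨vanish Λ hσI hσ hζ hf' hz, vanish Λ hσI hσ hζ hg' hz⟩)
  refine ⟨domain Λ hDOM Γ₁, ?_, ?_⟩
  · exact ((eqv Λ Γ₁ : sub Λ Γ₁ ≃ₐ[ℂ] Λ.MS Γ₁) : sub Λ Γ₁ ≃* Λ.MS Γ₁).uniqueFactorizationMonoid
      hSufm
  · intro f g f' g' hf hg hfg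
    have h1 := relprime_equiv ((eqv Λ Γ₁).symm : Λ.MS Γ₁ ≃* sub Λ Γ₁) hfg
    have h2 := hrel ((eqv Λ Γ₁).symm f) ((eqv Λ Γ₁).symm g) ((eqv Λ Γ).symm f') ((eqv Λ Γ).symm g')
      (Subtype.ext hf) (Subtype.ext hg) h1
    have h3 := relprime_equiv ((eqv Λ Γ : sub Λ Γ ≃ₐ[ℂ] Λ.MS Γ) : sub Λ Γ ≃* Λ.MS Γ) h2
    exact h3

end Pool.Agent.MFB
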