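import Mathlib
import Pool.Agent.MFB.Stmts

/-!
# THA: the case of a normal subgroup with factorial algebra
-/

namespace Pool.Agent.MFB

namespace THA

theorem index_left {X : Type} [Group X] {A B C : Subgroup X} (hAB : A ≤ B) (hBC : B ≤ C)
    (h : (A.subgroupOf C).index ≠ 0) : (A.subgroupOf B).index ≠ 0 := by
  intro h0
  apply h
  have h1 := Subgroup.relIndex_mul_relIndex A B C hAB hBC
  have h2 : A.relIndex B = 0 := h0
  rw [h2, zero_mul] at h1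
  exact h1.symm

theorem index_right {X : Type} [Group X] {A B C : Subgroup X} (hAB : A ≤ B) (hBC : B ≤ C)
    (h : (A.subgroupOf C).index ≠ 0) : (B.subgroupOf C).index ≠ 0 := by
  intro h0
  apply h
  have h1 := Subgroup.relIndex_mul_relIndex A B C hAB hBC
  have h2 : B.relIndex C = 0 := h0
  rw [h2, mul_zero] at h1
  exact h1.symm

end THA

theorem THA_thm (hTHG : S_THG) (hPRM : S_PRM) (hACT : S_ACT) : S_THA := by
  intro n Λ Γ Γ₀ Γ₁ hU h1 h0 hidx hn hfree hufd hgen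
  have hI : Γ₁ ≤ Λ.I := hU.trans Λ.U_le_I
  refine hTHG n Λ Γ Γ₀ Γ₁ {σ | σ ∈ Γ₁ ∧ Λ.IsRefl σ} hI h1 h0
    (THA.index_left (h0.trans h1) hU hidx) hn hfree (fun σ hσ => hσ.1) hgen ?_
  rintro σ ⟨hσ1, hσ2⟩
  obtain ⟨-, r, ε, hr, -, -, hform⟩ := hσ2
  obtain ⟨k, hk, p, hp, hP⟩ := hPRM n Λ Γ Γ₀ (h1.trans hU)
    (THA.index_right h0 (h1.trans hU) hidx) hfree h0 (THA.index_left h0 (h1.trans hU) hidx)
    hufd r hr
  refine ⟨k, hk, p, hp, fun f hf => ?_⟩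
  have hact : Λ.act σ f ∈ Λ.MS Γ₀ := hACT n Λ Γ₀ Γ₀ σ (hI hσ1) (hn σ hσ1) f hf
  obtain ⟨c, hc⟩ := hP ⟨Λ.act σ f - f, sub_mem hact hf⟩ (by
    intro z hz
    show Λ.act σ f z - f z = 0
    have h2 : σ (z : V n) = z := by
      rw [hform, hz, zero_div, mul_zero, zero_smul, sub_zero]
    rw [Λ.act_apply (hI hσ1), sub_eq_zero]
    congr 1
    exact Subtype.ext h2)
  exact ⟨c, c.2, congrArg Subtype.val hc⟩

end Pool.Agent.MFB
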