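import Pool.Agent.MFB.Stmts

/-!
# THG: Chevalley's theorem for modular forms
-/

namespace Pool.Agent.MFB

namespace THG

variable {n : ℕ} (Λ : HL n)

theorem isDomain (hDOM : S_DOM) (Γ : Subgroup (V n ≃ₗ[ℂ] V n)) : IsDomain (Λ.MS Γ) := by
  have hnz : NoZeroDivisors (Λ.MS Γ) := by
    refine ⟨fun {a b} hab => ?_⟩
    have h1 : ∀ z : Λ.A, (z : V n) ∈ (⊤ : Submodule ℂ (V n)) →
        (a : Λ.A → ℂ) z * (b : Λ.A → ℂ) z = 0 := by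
      intro z _
      have h2 := congrArg (fun f : Λ.MS Γ => (f : Λ.A → ℂ) z) hab
      exact h2
    rcases hDOM n Λ ⊤ a b (HL.MS_mono bot_le a.2) (HL.MS_mono bot_le b.2) h1 with h3 | h3
    · left
      apply Subtype.ext
      funext z
      exact h3 z trivial
    · right
      apply Subtype.ext
      funext z
      exact h3 z trivial
  have hnt : Nontrivial (Λ.MS Γ) := by
    refine ⟨⟨1, 0, fun h => ?_⟩⟩
    obtain ⟨z, hz⟩ := Λ.exists_mem_A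
    have h2 := congrArg (fun f : Λ.MS Γ => (f : Λ.A → ℂ) ⟨z, hz⟩) h
    exact one_ne_zero h2
  exact NoZeroDivisors.to_isDomain _

theorem mem_adjoin {R : Subalgebra ℂ (Λ.A → ℂ)} {m : ℕ} (x : Fin m → R) (b : R) :
    b ∈ Algebra.adjoin ℂ (Set.range x) ↔
      (b : Λ.A → ℂ) ∈ Algebra.adjoin ℂ (Set.range fun i => (x i : Λ.A → ℂ)) := by
  have h1 : (Algebra.adjoin ℂ (Set.range x)).map R.val =
      Algebra.adjoin ℂ (Set.range fun i => (x i : Λ.A → ℂ)) := by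
    rw [AlgHom.map_adjoin, ← Set.range_comp]
    rfl
  rw [← h1]
  constructor
  · intro h
    exact ⟨b, h, rfl⟩
  · rintro ⟨c, hc, hcb⟩
    have h2 : c = b := Subtype.ext hcb
    rw [← h2]
    exact hc

theorem inv_iff {Γ₀ Γ₁ : Subgroup (V n ≃ₗ[ℂ] V n)} (ρ : Γ₁ →* (Λ.MS Γ₀ ≃ₐ[ℂ] Λ.MS Γ₀))
    (hact : ∀ g f, ((ρ g f : Λ.MS Γ₀) : Λ.A → ℂ) =
      Λ.act ((g⁻¹ : Γ₁) : V n ≃ₗ[ℂ] V n) (f : Λ.A → ℂ))
    (b : Λ.MS Γ₀) (γ : V n ≃ₗ[ℂ] V n) (hγ : γ ∈ Γ₁) :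
    ρ (⟨γ, hγ⟩ : Γ₁)⁻¹ b = b ↔ Λ.act γ b = b := by
  constructor
  · intro h
    have h1 := hact (⟨γ, hγ⟩ : Γ₁)⁻¹ b
    rw [h, inv_inv] at h1
    exact h1.symm
  · intro h
    apply Subtype.ext
    rw [hact, inv_inv]
    exact h

end THG

open THG in
/-- THG -/
theorem THG_thm (hALG : S_ALG) (hRHO : S_RHO) (hZER : S_ZER) (hGR : S_GR) (hINV : S_INV)
    (hDOM : S_DOM) : S_THG := by
  intro n Λ Γ Γ₀ Γ₁ T h1I hΓ h0 hidx hnorm hfree hT hcl hdiv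
  have h01 : Γ₀ ≤ Γ₁ := h0.trans hΓ
  obtain ⟨ρ, hact, hfin, hgr, htriv⟩ := hRHO n Λ Γ₀ Γ₁ h1I h01 hnorm
  obtain ⟨g1, g2, g3⟩ := hGR n Λ Γ₀
  have hdom : IsDomain (Λ.MS Γ₀) := isDomain Λ hDOM Γ₀
  have hidx0 : (Γ₀.subgroupOf Γ).index ≠ 0 := by
    have h2 := Subgroup.relIndex_mul_relIndex Γ₀ Γ Γ₁ h0 hΓ
    intro h3
    apply hidx
    change Γ₀.relIndex Γ₁ = 0
    change Γ₀.relIndex Γ = 0 at h3
    rw [← h2, h3, zero_mul]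
  have hGrA : GrA (Λ.gr Γ₀) ρ := by
    refine ⟨g1, g2, g3, ?_, hfin hidx, hgr⟩
    intro b hb
    obtain ⟨c, hc⟩ := hZER n Λ Γ Γ₀ (hΓ.trans h1I) hfree h0 hidx0 b hb
    exact ⟨c, Subtype.ext hc⟩
  have hRefG : RefG (Λ.gr Γ₀) ρ := by
    refine ⟨{g : Γ₁ | ((g⁻¹ : Γ₁) : V n ≃ₗ[ℂ] V n) ∈ T}, ?_, ?_⟩
    · rw [eq_top_iff]
      intro g _
      have hS : Subgroup.closure ((Γ₀ : Set (V n ≃ₗ[ℂ] V n)) ∪ T) ≤
          (Subgroup.closure {g : Γ₁ | ((g⁻¹ : Γ₁) : V n ≃ₗ[ℂ] V n) ∈ T} ⊔ ρ.ker).map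
            Γ₁.subtype := by
        rw [Subgroup.closure_le]
        rintro x (hx | hx)
        · refine ⟨⟨x, h01 hx⟩, ?_, rfl⟩
          apply Subgroup.mem_sup_right
          rw [MonoidHom.mem_ker]
          exact htriv _ hx
        · refine ⟨⟨x, hT hx⟩, ?_, rfl⟩
          apply Subgroup.mem_sup_left
          rw [← inv_inv (⟨x, hT hx⟩ : Γ₁)]
          apply Subgroup.inv_mem
          apply Subgroup.subset_closure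
          change (((⟨x, hT hx⟩ : Γ₁)⁻¹⁻¹ : Γ₁) : V n ≃ₗ[ℂ] V n) ∈ T
          rw [inv_inv]
          exact hx
      obtain ⟨g', hg', he⟩ := hS (hcl g.2)
      have h2 : g' = g := Subtype.ext he
      rw [← h2]
      exact hg'
    · intro σ hσ
      obtain ⟨k, hk, p, hp, hc⟩ := hdiv _ hσ
      refine ⟨k, hk, ⟨p, HL.IsMF.mem_MS hp⟩, hp, ?_⟩
      intro b
      obtain ⟨c, hc1, hc2⟩ := hc b b.2
      refine ⟨⟨c, hc1⟩, ?_⟩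
      apply Subtype.ext
      change ((ρ σ b : Λ.MS Γ₀) : Λ.A → ℂ) - (b : Λ.A → ℂ) = p * c
      rw [hact]
      exact hc2
  obtain ⟨X, hX1, hX2, hX3⟩ := hfree
  have hXm : ∀ i, X i ∈ Λ.MS Γ₀ := by
    intro i
    obtain ⟨k, _, hk⟩ := hX1 i
    exact HL.MS_mono h0 (HL.IsMF.mem_MS hk)
  obtain ⟨y, hy1, hy2, hy3⟩ := hALG (Λ.MS Γ₀) (Λ.gr Γ₀) Γ₁ ρ hGrA hRefG (Γ.subgroupOf Γ₁) (n + 1)
    (fun i => ⟨X i, hXm i⟩) (by
      intro i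
      obtain ⟨k, hk0, hk⟩ := hX1 i
      exact ⟨k, hk0, hk.mono h0⟩) (by
      apply AlgebraicIndependent.of_comp (Λ.MS Γ₀).val
      exact hX2) (by
      intro b
      rw [mem_adjoin]
      change (b : Λ.A → ℂ) ∈ Algebra.adjoin ℂ (Set.range X) ↔ _
      rw [hX3, hINV n Λ Γ (hΓ.trans h1I)]
      constructor
      · rintro ⟨_, h3⟩ g hg
        have h4 := (inv_iff Λ ρ hact b ((g⁻¹ : Γ₁) : V n ≃ₗ[ℂ] V n) (g⁻¹).2).mpr
          (h3 _ (Subgroup.mem_subgroupOf.mp ((Γ.subgroupOf Γ₁).inv_mem hg)))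
        have h5 : (⟨((g⁻¹ : Γ₁) : V n ≃ₗ[ℂ] V n), (g⁻¹).2⟩ : Γ₁)⁻¹ = g := inv_inv g
        rw [h5] at h4
        exact h4
      · intro h3
        refine ⟨HL.MS_mono bot_le b.2, ?_⟩
        intro γ hγ
        apply (inv_iff Λ ρ hact b γ (hΓ hγ)).mp
        apply h3
        apply (Γ.subgroupOf Γ₁).inv_mem
        exact Subgroup.mem_subgroupOf.mpr hγ)
  have hyinv : ∀ i, ∀ γ ∈ Γ₁, Λ.act γ (y i : Λ.A → ℂ) = y i := by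
    intro i γ hγ
    apply (inv_iff Λ ρ hact (y i) γ hγ).mp
    exact (hy3 (y i)).mp (Algebra.subset_adjoin ⟨i, rfl⟩) _
  have hyMF : ∀ i, ∃ k : ℕ, 0 < k ∧ Λ.IsMF Γ₁ k (y i : Λ.A → ℂ) := by
    intro i
    obtain ⟨k, hk0, hk⟩ := hy1 i
    have hk' : Λ.IsMF Γ₀ k (y i : Λ.A → ℂ) := hk
    refine ⟨k, hk0, hk'.hol, hk'.hom, ?_⟩
    intro γ hγ z z' hz
    have h2 := congrFun (hyinv i γ hγ) z
    rw [Λ.act_apply (h1I hγ)] at h2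
    have hz' : z' = ⟨γ z, (Λ.apply_mem_A (h1I hγ)).2 z.2⟩ := Subtype.ext hz
    rw [hz']
    exact h2
  refine ⟨fun i => (y i : Λ.A → ℂ), hyMF, ?_, ?_⟩
  · exact hy2.map' (f := (Λ.MS Γ₀).val) Subtype.val_injective
  · apply le_antisymm
    · rw [Algebra.adjoin_le_iff]
      rintro _ ⟨i, rfl⟩
      obtain ⟨k, _, hk⟩ := hyMF i
      exact HL.IsMF.mem_MS hk
    · intro f hf
      have hf0 : f ∈ Λ.MS Γ₀ := HL.MS_mono h01 hf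
      have h3 := ((hINV n Λ Γ₁ h1I f).mp hf).2
      have h4 : (⟨f, hf0⟩ : Λ.MS Γ₀) ∈ Algebra.adjoin ℂ (Set.range y) := by
        rw [hy3]
        intro g
        have h5 := (inv_iff Λ ρ hact ⟨f, hf0⟩ ((g⁻¹ : Γ₁) : V n ≃ₗ[ℂ] V n) (g⁻¹).2).mpr
          (h3 _ (g⁻¹).2)
        have h6 : (⟨((g⁻¹ : Γ₁) : V n ≃ₗ[ℂ] V n), (g⁻¹).2⟩ : Γ₁)⁻¹ = g := inv_inv g
        rw [h6] at h5
        exact h5
      exact (mem_adjoin Λ y ⟨f, hf0⟩).mp h4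

end Pool.Agent.MFB
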