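import Mathlib
import Pool.Agent.MFB.Stmts

/-!
# THU: factoriality, and the ideals of the mirrors are principal
-/

namespace Pool.Agent.MFB

namespace THU

variable {n : ℕ} (Λ : HL n)

/-- The mirror meets the cone. -/
theorem exists_mem_mirror {r : V n} (hr : 0 < (Λ.h r r).re) :
    ∃ z : Λ.A, Λ.h (z : V n) r = 0 := by
  obtain ⟨z0, hz0⟩ := Λ.exists_mem_A
  have hrr : Λ.h r r ≠ 0 := by
    intro h0
    rw [h0] at hr
    simp at hr
  set α : ℂ := Λ.h z0 r / Λ.h r r with hα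
  have h1 : Λ.h (z0 - α • r) r = 0 := by
    rw [Λ.h_sub_left, Λ.h_smul_left, hα]
    field_simp
    ring
  have h2 : Λ.h r (z0 - α • r) = 0 := Λ.h_swap_zero h1
  refine ⟨⟨z0 - α • r, ?_⟩, h1⟩
  set y := z0 - α • r with hy
  have h3 : z0 = y + α • r := by rw [hy]; abel
  have h4 : Λ.h z0 z0 = Λ.h y y + ((‖α‖ ^ 2 : ℝ) : ℂ) * Λ.h r r := by
    conv_lhs => rw [h3]
    rw [Λ.h_add_left, Λ.h_add_right, Λ.h_add_right, Λ.h_smul_self, Λ.h_smul_left,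
      Λ.h_smul_right, h1, h2]
    ring
  have h5 : (Λ.h z0 z0).re = (Λ.h y y).re + ‖α‖ ^ 2 * (Λ.h r r).re := by
    rw [h4, Complex.add_re, Complex.re_ofReal_mul]
  have h6 : (Λ.h z0 z0).re < 0 := hz0
  have h7 : 0 ≤ ‖α‖ ^ 2 * (Λ.h r r).re := by positivity
  show (Λ.h y y).re < 0
  linarith

end THU

theorem THU_thm (hTH1 : S_TH1) (hCO0 : S_CO0) (hDOM : S_DOM) : S_THU := by
  intro n Λ Γ Γ₁ hU hΓ hind hfree hcl
  obtain ⟨hdom, hufm, hrel⟩ := hTH1 n Λ Γ Γ₁ hU hΓ hind hfree hcl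
  refine ⟨hdom, hufm, fun r hr => ?_⟩
  by_cases hz : ∀ q : Λ.MS Γ₁, (∀ z : Λ.A, Λ.h z r = 0 → (q : Λ.A → ℂ) z = 0) → q = 0
  · refine ⟨0, fun q => ⟨fun h => ?_, fun h => ?_⟩⟩
    · rw [hz q h]
    · rw [zero_dvd_iff.1 h]
      intro z _
      rfl
  · push Not at hz
    obtain ⟨q0, hq0, hq0'⟩ := hz
    have hmul : ∀ a b : Λ.MS Γ₁, (∀ z : Λ.A, Λ.h z r = 0 → (a : Λ.A → ℂ) z = 0) →
        ∀ z : Λ.A, Λ.h z r = 0 → ((a * b : Λ.MS Γ₁) : Λ.A → ℂ) z = 0 := by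
      intro a b ha z hz
      show (a : Λ.A → ℂ) z * (b : Λ.A → ℂ) z = 0
      rw [ha z hz, zero_mul]
    have hpr : ∀ a b : Λ.MS Γ₁,
        (∀ z : Λ.A, Λ.h z r = 0 → ((a * b : Λ.MS Γ₁) : Λ.A → ℂ) z = 0) →
        (∀ z : Λ.A, Λ.h z r = 0 → (a : Λ.A → ℂ) z = 0) ∨
          (∀ z : Λ.A, Λ.h z r = 0 → (b : Λ.A → ℂ) z = 0) := by
      intro a b hab
      exact hDOM n Λ (LinearMap.ker (Λ.hl r)) a b (HL.MS_mono bot_le a.2)
        (HL.MS_mono bot_le b.2) hab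
    have hex : ∃ p : Λ.MS Γ₁, Prime p ∧ ∀ z : Λ.A, Λ.h z r = 0 → (p : Λ.A → ℂ) z = 0 := by
      induction q0 using UniqueFactorizationMonoid.induction_on_prime with
      | h₁ => exact absurd rfl hq0'
      | h₂ x hx =>
        exfalso
        obtain ⟨z, hz⟩ := THU.exists_mem_mirror Λ hr
        obtain ⟨y, hy⟩ := hx.exists_right_inv
        have h1 := hmul x y hq0 z hz
        rw [hy] at h1
        exact one_ne_zero h1
      | h₃ a p ha hp ih =>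
        rcases hpr p a hq0 with h | h
        · exact ⟨p, hp, h⟩
        · exact ih h ha
    obtain ⟨p, hp, hpv⟩ := hex
    refine ⟨p, fun q => ⟨fun h => ?_, ?_⟩⟩
    · by_contra hpq
      have h1 : IsRelPrime p q := (hp.irreducible.isRelPrime_iff_not_dvd).2 hpq
      have h2 := hrel p q ⟨p, HL.MS_mono hΓ p.2⟩ ⟨q, HL.MS_mono hΓ q.2⟩ rfl rfl h1
      exact hCO0 n Λ Γ (hΓ.trans hU) hind hfree r hr _ _ h2 fun z hz => ⟨hpv z hz, h z hz⟩
    · rintro ⟨c, rfl⟩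
      exact hmul p c hpv

end Pool.Agent.MFB
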