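import Pool.Agent.MFB.Stmts

namespace Pool.Agent.MFB

namespace UFR

variable {n : ℕ} {Λ : HL n}

/-- The isomorphism of a polynomial algebra with a free algebra of modular forms. -/
theorem exists_equiv {Γ : Subgroup (V n ≃ₗ[ℂ] V n)} (h : Λ.IsFree Γ) :
    Nonempty (MvPolynomial (Fin (n + 1)) ℂ ≃ₐ[ℂ] Λ.MS Γ) := by
  obtain ⟨X, -, hX, hS⟩ := h
  exact ⟨hX.aevalEquiv.trans (Subalgebra.equivOfEq _ _ hS)⟩

end UFR

theorem UFR_thm : S_UFR := by
  intro n Λ Γ h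
  obtain ⟨e⟩ := UFR.exists_equiv h
  refine ⟨e.toMulEquiv.uniqueFactorizationMonoid inferInstance, ?_⟩
  intro u hu
  have h1 : IsUnit (e.symm u) := hu.map e.symm
  obtain ⟨c, -, hc⟩ := MvPolynomial.isUnit_iff_eq_C_of_isReduced.mp h1
  refine ⟨c, ?_⟩
  have h2 : u = e (MvPolynomial.C c) := by rw [← hc]; exact (e.apply_symm_apply u).symm
  rw [h2]
  exact e.commutes c

end Pool.Agent.MFB
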