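import Mathlib
import Pool.Agent.MFB.Stmts

/-!
# Forms of weight zero are constant
-/

namespace Pool.Agent.MFB

namespace ZER

variable {n : ℕ} {Λ : HL n} {Γ : Subgroup (V n ≃ₗ[ℂ] V n)}

theorem aeval_eval (X : Fin (n + 1) → (Λ.A → ℂ)) (P : MvPolynomial (Fin (n + 1)) ℂ) (z : Λ.A) :
    MvPolynomial.aeval X P z = MvPolynomial.eval (fun i => X i z) P := by
  have h := MvPolynomial.comp_aeval_apply X (Pi.evalAlgHom ℂ (fun _ : Λ.A => ℂ) z) P
  have h2 : (Pi.evalAlgHom ℂ (fun _ : Λ.A => ℂ) z) (MvPolynomial.aeval X P) =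
      MvPolynomial.aeval X P z := rfl
  rw [h2] at h
  rw [h]
  rfl

theorem weight_zero (hF : Λ.IsFree Γ) {g : Λ.A → ℂ} (hg : Λ.IsMF Γ 0 g) :
    ∃ c : ℂ, g = algebraMap ℂ (Λ.A → ℂ) c := by
  obtain ⟨X, hX, _, hXa⟩ := hF
  choose k hk hkX using hX
  have h1 : g ∈ Algebra.adjoin ℂ (Set.range X) := by
    rw [hXa]
    exact hg.mem_MS
  rw [Algebra.adjoin_range_eq_range_aeval] at h1
  obtain ⟨P, hP⟩ := h1
  refine ⟨MvPolynomial.constantCoeff P, ?_⟩
  funext z
  have h2 : ∀ s : ℂ, s ≠ 0 →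
      MvPolynomial.eval (fun i => s ^ k i * X i z) P = g z := by
    intro s hs
    have hz : s⁻¹ • (z : V n) ∈ Λ.A := Λ.smul_mem_A (inv_ne_zero hs) z.2
    have h3 : ∀ i, X i ⟨s⁻¹ • (z : V n), hz⟩ = s ^ k i * X i z := by
      intro i
      have h4 := (hkX i).hom s⁻¹ z ⟨s⁻¹ • (z : V n), hz⟩ rfl
      rw [← h4, ← mul_assoc, ← mul_pow, mul_inv_cancel₀ hs, one_pow, one_mul]
    have h5 := hg.hom s⁻¹ z ⟨s⁻¹ • (z : V n), hz⟩ rfl
    rw [pow_zero, one_mul] at h5
    rw [← h5, ← hP]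
    show _ = MvPolynomial.aeval X P ⟨s⁻¹ • (z : V n), hz⟩
    rw [aeval_eval]
    congr 1
    congr 1
    funext i
    exact (h3 i).symm
  have h3 : Continuous fun s : ℂ => MvPolynomial.eval (fun i => s ^ k i * X i z) P := by
    have h4 : Continuous fun s : ℂ => fun i => s ^ k i * X i z := by fun_prop
    exact (MvPolynomial.continuous_eval P).comp h4
  have h4 : (fun s : ℂ => MvPolynomial.eval (fun i => s ^ k i * X i z) P) = fun _ => g z :=
    Continuous.ext_on (dense_compl_singleton (0 : ℂ)) h3 continuous_const fun s hs => h2 s hs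
  have h5 := congrFun h4 0
  have h6 : (fun i => (0 : ℂ) ^ k i * X i z) = 0 := by
    funext i
    rw [zero_pow (hk i).ne', zero_mul]
    rfl
  simp only [h6] at h5
  rw [← h5, MvPolynomial.eval_zero]
  rfl

theorem root (hDOM : S_DOM) {f : Λ.A → ℂ} (hf : f ∈ Λ.MS ⊥) :
    ∀ (m : ℕ) (q : Polynomial ℂ), q.natDegree = m → q ≠ 0 → Polynomial.aeval f q = 0 →
      ∃ c : ℂ, f = algebraMap ℂ (Λ.A → ℂ) c := by
  intro m
  induction m with
  | zero =>
    intro q hq hq0 ha
    exfalso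
    obtain ⟨z, hz⟩ := Λ.exists_mem_A
    rw [Polynomial.eq_C_of_natDegree_eq_zero hq, Polynomial.aeval_C] at ha
    have h1 := congrFun ha ⟨z, hz⟩
    have h2 : q.coeff 0 = 0 := h1
    apply hq0
    rw [Polynomial.eq_C_of_natDegree_eq_zero hq, h2, Polynomial.C_0]
  | succ m ih =>
    intro q hq hq0 ha
    have hdeg : q.degree ≠ 0 := by
      intro h
      have h0 : q.natDegree = 0 := Polynomial.natDegree_eq_of_degree_eq_some h
      rw [h0] at hq
      exact absurd hq (Nat.succ_ne_zero m).symm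
    obtain ⟨r, hr⟩ := IsAlgClosed.exists_root q hdeg
    obtain ⟨q', hq'⟩ := Polynomial.dvd_iff_isRoot.2 hr
    have hq'0 : q' ≠ 0 := by
      rintro rfl
      rw [mul_zero] at hq'
      exact hq0 hq'
    have hd : q'.natDegree = m := by
      have := congrArg Polynomial.natDegree hq'
      rw [Polynomial.natDegree_mul (Polynomial.X_sub_C_ne_zero r) hq'0,
        Polynomial.natDegree_X_sub_C] at this
      omega
    have h1 : Polynomial.aeval f q = (f - algebraMap ℂ (Λ.A → ℂ) r) * Polynomial.aeval f q' := by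
      rw [hq', map_mul, map_sub, Polynomial.aeval_X, Polynomial.aeval_C]
    have h2 : Polynomial.aeval f q' ∈ Λ.MS ⊥ := by
      have h3 : Algebra.adjoin ℂ {f} ≤ Λ.MS ⊥ := by
        rw [Algebra.adjoin_le_iff]
        rintro _ rfl
        exact hf
      exact h3 (Polynomial.aeval_mem_adjoin_singleton ℂ f)
    have h3 : f - algebraMap ℂ (Λ.A → ℂ) r ∈ Λ.MS ⊥ :=
      Subalgebra.sub_mem _ hf (Subalgebra.algebraMap_mem _ r)
    have h4 := hDOM n Λ ⊤ _ _ h3 h2 (fun z _ => by
      have := congrFun ha z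
      rw [h1] at this
      exact this)
    rcases h4 with h5 | h5
    · refine ⟨r, ?_⟩
      funext z
      have := h5 z trivial
      exact sub_eq_zero.1 this
    · exact ih q' hd hq'0 (funext fun z => h5 z trivial)

end ZER

set_option linter.unusedVariables false in
theorem ZER_thm (hGR : S_GR) (hINT : S_INT) (hDOM : S_DOM) : S_ZER := by
  intro n Λ Γ Γ₀ hΓ hF h0 hi f hf
  obtain ⟨m, a, _, ha, ha0, hs⟩ := hINT n Λ Γ Γ₀ hΓ h0 hi 0 f hf
  have h1 : ∀ i, ∃ c : ℂ, a i = algebraMap ℂ (Λ.A → ℂ) c := by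
    intro i
    have h2 := ha i
    rw [mul_zero] at h2
    exact ZER.weight_zero hF h2
  choose c hc using h1
  have hfm : f ∈ Λ.MS ⊥ := HL.MS_mono bot_le hf.mem_MS
  obtain ⟨z, hz⟩ := Λ.exists_mem_A
  have hc0 : c 0 = 1 := by
    have h2 := congrFun ((hc 0).symm.trans ha0) ⟨z, hz⟩
    exact h2
  refine ZER.root hDOM hfm _
    (∑ i ∈ Finset.range (m + 1), Polynomial.C (c i) * Polynomial.X ^ (m - i)) rfl ?_ ?_
  · intro h2
    have h3 := congrArg (fun p => Polynomial.coeff p m) h2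
    simp only [Polynomial.finsetSum_coeff, Polynomial.coeff_C_mul, Polynomial.coeff_X_pow,
      Polynomial.coeff_zero] at h3
    rw [Finset.sum_eq_single 0] at h3
    · simp [hc0] at h3
    · intro i hi hi0
      rw [Finset.mem_range] at hi
      rw [if_neg (by omega), mul_zero]
    · intro h4
      exact absurd (Finset.mem_range.2 (Nat.succ_pos m)) h4
  · rw [map_sum, ← hs]
    refine Finset.sum_congr rfl fun i _ => ?_
    rw [map_mul, map_pow, Polynomial.aeval_X, Polynomial.aeval_C, hc i]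

end Pool.Agent.MFB
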