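import Pool.Agent.MFB.CH1
import Pool.Agent.MFB.DER
import Pool.Agent.MFB.MIN
import Pool.Agent.MFB.CH2
import Pool.Agent.MFB.NOE
import Pool.Agent.MFB.GEN
import Pool.Agent.MFB.ALG
import Pool.Agent.MFB.HFA
import Pool.Agent.MFB.ELI
import Pool.Agent.MFB.COQ
import Pool.Agent.MFB.CORE
import Pool.Agent.MFB.IDX
import Pool.Agent.MFB.GR
import Pool.Agent.MFB.ACT
import Pool.Agent.MFB.INV
import Pool.Agent.MFB.CDF
import Pool.Agent.MFB.IDT
import Pool.Agent.MFB.DOM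
import Pool.Agent.MFB.INT
import Pool.Agent.MFB.COM
import Pool.Agent.MFB.DEN
import Pool.Agent.MFB.SPR
import Pool.Agent.MFB.SPN
import Pool.Agent.MFB.IND
import Pool.Agent.MFB.ZER
import Pool.Agent.MFB.UFR
import Pool.Agent.MFB.CO0
import Pool.Agent.MFB.COP
import Pool.Agent.MFB.PRM
import Pool.Agent.MFB.RHO
import Pool.Agent.MFB.RAD
import Pool.Agent.MFB.THG
import Pool.Agent.MFB.THA
import Pool.Agent.MFB.TH1
import Pool.Agent.MFB.THU

/-!
# Assembly of the modules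
-/

namespace Pool.Agent.MFB

theorem f_CH2 : S_CH2 := CH2_thm CH1_thm DER_thm MIN_thm
theorem f_ALG : S_ALG := ALG_thm NOE_thm GEN_thm f_CH2
theorem f_INV : S_INV := INV_thm
theorem f_DOM : S_DOM := DOM_thm IDT_thm GR_thm
theorem f_SPN : S_SPN := SPN_thm DEN_thm SPR_thm CDF_thm
theorem f_IND : S_IND := IND_thm f_SPN CDF_thm
theorem f_ZER : S_ZER := ZER_thm GR_thm INT_thm f_DOM
theorem f_CO0 : S_CO0 := CO0_thm f_DOM INT_thm ELI_thm f_IND COM_thm
theorem f_COP : S_COP := COP_thm COQ_thm f_CO0 f_DOM INT_thm UFR_thm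
theorem f_PRM : S_PRM := PRM_thm f_COP HFA_thm GR_thm f_ZER f_DOM
theorem f_RHO : S_RHO := RHO_thm ACT_thm
theorem f_RAD : S_RAD := RAD_thm CDF_thm
theorem f_THG : S_THG := THG_thm f_ALG f_RHO f_ZER GR_thm f_INV f_DOM
theorem f_THA : S_THA := THA_thm f_THG f_PRM ACT_thm
theorem f_TH1 : S_TH1 := TH1_thm CORE_thm f_CO0 UFR_thm f_INV f_DOM f_RHO
theorem f_THU : S_THU := THU_thm f_TH1 f_CO0 f_DOM

end Pool.Agent.MFB
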