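import Pool.Agent.MFB.Stmts

/-!
# Division by the square root of a square
-/

namespace Pool.Agent.MFB

open Complex Filter Topology

namespace RSG

variable {n : ℕ}

/-- The product of two holomorphic functions on a convex open set is zero only if one of them is. -/
theorem ball_zero {U : Set (V n)} (hU : IsOpen U) (hc : Convex ℝ U) {f g : V n → ℂ}
    (hf : DifferentiableOn ℂ f U) (hg : DifferentiableOn ℂ g U) (h : ∀ z ∈ U, f z * g z = 0) :
    (∀ z ∈ U, f z = 0) ∨ (∀ z ∈ U, g z = 0) := by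
  by_contra hcon
  push Not at hcon
  obtain ⟨⟨z1, hz1, hf1⟩, ⟨z2, hz2, hg2⟩⟩ := hcon
  let φ : ℂ → V n := fun t => z1 + t • (z2 - z1)
  have hφd : Differentiable ℂ φ := by
    intro t
    exact (differentiableAt_id.smul_const (z2 - z1)).const_add z1
  let T : Set ℂ := φ ⁻¹' U
  have hTo : IsOpen T := hU.preimage hφd.continuous
  have hTc : Convex ℝ T := by
    intro s hs t ht a b ha hb hab
    have h1 : φ (a • s + b • t) = a • φ s + b • φ t := by
      have h2 : (a : ℂ) + (b : ℂ) = 1 := by exact_mod_cast hab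
      funext i
      simp only [φ, Pi.add_apply, Pi.smul_apply, Pi.sub_apply, smul_eq_mul, Complex.real_smul]
      linear_combination (-(z1 i)) * h2
    show φ (a • s + b • t) ∈ U
    rw [h1]
    exact hc hs ht ha hb hab
  have h0 : (0 : ℂ) ∈ T := by
    show φ 0 ∈ U
    simpa [φ] using hz1
  have h1 : (1 : ℂ) ∈ T := by
    show φ 1 ∈ U
    simpa [φ] using hz2
  have hG : AnalyticOnNhd ℂ (fun t => g (φ t)) T :=
    DifferentiableOn.analyticOnNhd
      (hg.comp hφd.differentiableOn (fun t ht => ht)) hTo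
  have hFc : ContinuousAt (fun t => f (φ t)) 0 :=
    ((hf.comp hφd.differentiableOn (fun t ht => ht)).differentiableAt
      (hTo.mem_nhds h0)).continuousAt
  have hF0 : f (φ 0) ≠ 0 := by simpa [φ] using hf1
  have hev : (fun t => g (φ t)) =ᶠ[𝓝 (0 : ℂ)] 0 := by
    filter_upwards [hFc.eventually_ne hF0, hTo.mem_nhds h0] with t ht htT
    have := h (φ t) htT
    rcases mul_eq_zero.1 this with h' | h'
    · exact absurd h' ht
    · exact h'
  have := hG.eqOn_zero_of_preconnected_of_eventuallyEq_zero hTc.isPreconnected h0 hev h1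
  apply hg2
  simpa [φ] using this

/-- A local holomorphic square root. -/
theorem exists_sqrt {U : Set (V n)} (hU : IsOpen U) {c : V n → ℂ} (hc : DifferentiableOn ℂ c U)
    {z0 : V n} (hz0 : z0 ∈ U) (h0 : c z0 ≠ 0) :
    ∃ r > 0, Metric.ball z0 r ⊆ U ∧ ∃ s : V n → ℂ,
      DifferentiableOn ℂ s (Metric.ball z0 r) ∧ ∀ z ∈ Metric.ball z0 r, s z * s z = c z := by
  obtain ⟨a, ha⟩ := IsAlgClosed.exists_pow_nat_eq (c z0) (n := 2) two_pos
  have hcc : ContinuousAt (fun z => c z / c z0) z0 :=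
    ((hc.differentiableAt (hU.mem_nhds hz0)).continuousAt).div_const _
  have hsl : ∀ᶠ z in 𝓝 z0, c z / c z0 ∈ slitPlane := by
    apply hcc.eventually_mem
    apply isOpen_slitPlane.mem_nhds
    rw [div_self h0]
    exact one_mem_slitPlane
  obtain ⟨r, hr, hr2⟩ := Metric.eventually_nhds_iff_ball.1 (hsl.and (hU.mem_nhds hz0))
  refine ⟨r, hr, fun z hz => (hr2 z hz).2, fun z => a * exp (log (c z / c z0) / 2), ?_, ?_⟩
  · intro z hz
    have hd : DifferentiableAt ℂ c z := hc.differentiableAt (hU.mem_nhds (hr2 z hz).2)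
    have hd1 : DifferentiableAt ℂ (fun z => c z / c z0) z := by
      simp only [div_eq_mul_inv]
      exact hd.mul_const _
    have hd2 : DifferentiableAt ℂ (fun z => log (c z / c z0) / 2) z := by
      simp only [div_eq_mul_inv (log _)]
      exact (hd1.clog (hr2 z hz).1).mul_const _
    have : DifferentiableAt ℂ (fun z => a * exp (log (c z / c z0) / 2)) z :=
      hd2.cexp.const_mul a
    exact this.differentiableWithinAt
  · intro z hz
    have hne : c z / c z0 ≠ 0 := slitPlane_ne_zero (hr2 z hz).1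
    have h1 : exp (log (c z / c z0) / 2) * exp (log (c z / c z0) / 2) = c z / c z0 := by
      rw [← exp_add, add_halves, exp_log hne]
    have h2 : a * exp (log (c z / c z0) / 2) * (a * exp (log (c z / c z0) / 2)) =
        a ^ 2 * (exp (log (c z / c z0) / 2) * exp (log (c z / c z0) / 2)) := by ring
    show a * exp (log (c z / c z0) / 2) * (a * exp (log (c z / c z0) / 2)) = c z
    rw [h2, h1, ha, mul_div_cancel₀ _ h0]

section

variable (Λ : HL n)

/-- At a point of the cone, a nonzero form does not vanish identically on all lines. -/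
theorem exists_line (hIDT : S_IDT) {k : ℕ} {b : Λ.A → ℂ} (hb : Λ.IsMF ⊥ k b) (hb0 : b ≠ 0)
    {z : V n} (hz : z ∈ Λ.A) : ∃ v : V n, ¬ ∀ᶠ s : ℂ in 𝓝 0, Λ.ext b (z + s • v) = 0 := by
  by_contra hcon
  push Not at hcon
  apply hb0
  funext w
  exact hIDT n Λ ⊤ k b hb z hz trivial (fun v _ => hcon v) w trivial

/-- The set where a nonzero form does not vanish is dense in the cone. -/
theorem neBot (hIDT : S_IDT) {k : ℕ} {b : Λ.A → ℂ} (hb : Λ.IsMF ⊥ k b) (hb0 : b ≠ 0)
    {z : V n} (hz : z ∈ Λ.A) : (𝓝[{y | Λ.ext b y ≠ 0}] z).NeBot := by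
  obtain ⟨v, hv⟩ := exists_line Λ hIDT hb hb0 hz
  rw [← mem_closure_iff_nhdsWithin_neBot, mem_closure_iff_frequently]
  have h1 : ∃ᶠ s : ℂ in 𝓝 0, Λ.ext b (z + s • v) ≠ 0 := by
    rw [Filter.not_eventually] at hv
    exact hv
  have h2 : Tendsto (fun s : ℂ => z + s • v) (𝓝 0) (𝓝 z) := by
    have : Continuous (fun s : ℂ => z + s • v) :=
      continuous_const.add (continuous_id.smul continuous_const)
    have h3 := this.tendsto 0
    simpa using h3
  exact h2.frequently h1

/-- Continuous functions on the cone which are zero where the form is not zero. -/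
theorem zero_of_mul (hIDT : S_IDT) {k : ℕ} {b : Λ.A → ℂ} (hb : Λ.IsMF ⊥ k b) (hb0 : b ≠ 0)
    {g : V n → ℂ} (hg : ContinuousOn g Λ.A) (h : ∀ z ∈ Λ.A, g z * Λ.ext b z = 0) :
    ∀ z ∈ Λ.A, g z = 0 := by
  intro z hz
  have hnb := neBot Λ hIDT hb hb0 hz
  have h1 : Tendsto g (𝓝[{y | Λ.ext b y ≠ 0}] z) (𝓝 (g z)) :=
    (hg.continuousAt (Λ.isOpen_A.mem_nhds hz)).tendsto.mono_left nhdsWithin_le_nhds
  have h2 : Tendsto g (𝓝[{y | Λ.ext b y ≠ 0}] z) (𝓝 0) := by
    apply tendsto_const_nhds.congr'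
    filter_upwards [self_mem_nhdsWithin,
      nhdsWithin_le_nhds (Λ.isOpen_A.mem_nhds hz)] with y hy hyA
    rcases mul_eq_zero.1 (h y hyA) with h' | h'
    · exact h'.symm
    · exact absurd h' hy
  exact tendsto_nhds_unique h1 h2

/-- The quotient, as a limit. -/
noncomputable def quo (f b : Λ.A → ℂ) (z : V n) : ℂ :=
  limUnder (𝓝[{y | Λ.ext b y ≠ 0}] z) (fun y => Λ.ext f y / Λ.ext b y)

theorem norm_tendsto_zero {F : Filter (V n)} {g c : V n → ℂ} (hc : Tendsto c F (𝓝 0))
    (h : ∀ᶠ y in F, g y * g y = c y) : Tendsto g F (𝓝 0) := by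
  rw [tendsto_zero_iff_norm_tendsto_zero]
  have h1 : Tendsto (fun y => Real.sqrt ‖c y‖) F (𝓝 0) := by
    have := (Real.continuous_sqrt.tendsto 0).comp (tendsto_zero_iff_norm_tendsto_zero.1 hc)
    rw [Real.sqrt_zero] at this
    exact this
  apply h1.congr'
  filter_upwards [h] with y hy
  rw [← hy, norm_mul, Real.sqrt_mul_self (norm_nonneg _)]

end

end RSG

theorem RSG_thm (hRAD : S_RAD) (hIDT : S_IDT) (hDOM : S_DOM) : S_RSG := by
  intro n Λ Γ k l m f b c hΓ hf hb hc hb0 hc0 hfbc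
  have hfB : Λ.IsMF ⊥ k f := hf.mono bot_le
  have hbB : Λ.IsMF ⊥ l b := hb.mono bot_le
  have hcB : Λ.IsMF ⊥ m c := hc.mono bot_le
  set F := Λ.ext f with hF
  set B := Λ.ext b with hB
  set C := Λ.ext c with hC
  have hFd : DifferentiableOn ℂ F Λ.A := hf.hol
  have hBd : DifferentiableOn ℂ B Λ.A := hb.hol
  have hCd : DifferentiableOn ℂ C Λ.A := hc.hol
  have hsq : ∀ z, F z * F z = C z * (B z * B z) := by
    intro z
    have := congrFun (congrArg Λ.ext hfbc) z
    rw [Λ.ext_mul, Λ.ext_mul, Λ.ext_mul] at this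
    simpa using this
  have hnb : ∀ z ∈ Λ.A, (𝓝[{y | B y ≠ 0}] z).NeBot := fun z hz =>
    RSG.neBot Λ hIDT hbB hb0 hz
  -- local structure
  have hloc : ∀ z0 ∈ Λ.A, C z0 ≠ 0 → ∃ r > 0, Metric.ball z0 r ⊆ Λ.A ∧ ∃ s : V n → ℂ,
      DifferentiableOn ℂ s (Metric.ball z0 r) ∧
      (∀ z ∈ Metric.ball z0 r, F z = s z * B z) := by
    intro z0 hz0 hc1
    obtain ⟨r, hr, hrA, s, hs, hs2⟩ := RSG.exists_sqrt Λ.isOpen_A hCd hz0 hc1
    have hFr := hFd.mono hrA
    have hBr := hBd.mono hrA
    have hsB : DifferentiableOn ℂ (fun z => s z * B z) (Metric.ball z0 r) := hs.mul hBr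
    rcases RSG.ball_zero Metric.isOpen_ball (convex_ball z0 r)
      (f := fun z => F z - s z * B z) (g := fun z => F z + s z * B z)
      (hFr.sub hsB) (hFr.add hsB) (by
        intro z hz
        have h1 := hsq z
        have h2 := hs2 z hz
        show (F z - s z * B z) * (F z + s z * B z) = 0
        have : (F z - s z * B z) * (F z + s z * B z) = F z * F z - (s z * s z) * (B z * B z) := by
          ring
        rw [this, h1, h2, sub_self]) with h | h
    · refine ⟨r, hr, hrA, s, hs, fun z hz => ?_⟩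
      exact sub_eq_zero.1 (h z hz)
    · refine ⟨r, hr, hrA, fun z => - s z, hs.neg, fun z hz => ?_⟩
      have := h z hz
      show F z = - s z * B z
      linear_combination this
  set w := RSG.quo Λ f b with hw
  have hwlim : ∀ z ∈ Λ.A, ∀ a, Tendsto (fun y => F y / B y) (𝓝[{y | B y ≠ 0}] z) (𝓝 a) →
      w z = a := by
    intro z hz a ha
    have := hnb z hz
    exact ha.limUnder_eq
  have hCc : ContinuousOn C Λ.A := hCd.continuousOn
  have hlim1 : ∀ z0 ∈ Λ.A, C z0 ≠ 0 → ∃ r > 0, Metric.ball z0 r ⊆ Λ.A ∧ ∃ s : V n → ℂ,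
      DifferentiableOn ℂ s (Metric.ball z0 r) ∧
      (∀ z ∈ Metric.ball z0 r, Tendsto (fun y => F y / B y) (𝓝[{y | B y ≠ 0}] z)
        (𝓝 (s z))) := by
    intro z0 hz0 hc1
    obtain ⟨r, hr, hrA, s, hs, hs2⟩ := hloc z0 hz0 hc1
    refine ⟨r, hr, hrA, s, hs, fun z hz => ?_⟩
    have hsc : Tendsto s (𝓝[{y | B y ≠ 0}] z) (𝓝 (s z)) :=
      ((hs.differentiableAt (Metric.isOpen_ball.mem_nhds hz)).continuousAt).tendsto.mono_left
        nhdsWithin_le_nhds
    apply hsc.congr'
    filter_upwards [self_mem_nhdsWithin,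
      nhdsWithin_le_nhds (Metric.isOpen_ball.mem_nhds hz)] with y hy hyB
    rw [hs2 y hyB, mul_div_cancel_right₀ _ hy]
  have hquo : ∀ z, B z ≠ 0 → F z / B z * (F z / B z) = C z := by
    intro z hz
    rw [div_mul_div_comm, hsq z, mul_div_assoc, div_self (mul_ne_zero hz hz), mul_one]
  have hlim0 : ∀ z ∈ Λ.A, C z = 0 → Tendsto (fun y => F y / B y) (𝓝[{y | B y ≠ 0}] z)
      (𝓝 0) := by
    intro z hz hc1
    apply RSG.norm_tendsto_zero (c := C)
    · have := (hCc.continuousAt (Λ.isOpen_A.mem_nhds hz)).tendsto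
      rw [hc1] at this
      exact this.mono_left nhdsWithin_le_nhds
    · filter_upwards [self_mem_nhdsWithin] with y hy
      exact hquo y hy
  have hT : ∀ z ∈ Λ.A, Tendsto (fun y => F y / B y) (𝓝[{y | B y ≠ 0}] z) (𝓝 (w z)) := by
    intro z hz
    by_cases hc1 : C z = 0
    · have := hlim0 z hz hc1
      rw [hwlim z hz 0 this]
      exact this
    · obtain ⟨r, hr, hrA, s, hs, hs2⟩ := hlim1 z hz hc1
      have := hs2 z (Metric.mem_ball_self hr)
      rw [hwlim z hz _ this]
      exact this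
  have hwsq : ∀ z ∈ Λ.A, w z * w z = C z := by
    intro z hz
    have := hnb z hz
    have h1 := (hT z hz).mul (hT z hz)
    have h2 : Tendsto C (𝓝[{y | B y ≠ 0}] z) (𝓝 (C z)) :=
      (hCc.continuousAt (Λ.isOpen_A.mem_nhds hz)).tendsto.mono_left nhdsWithin_le_nhds
    refine tendsto_nhds_unique h1 (h2.congr' ?_)
    filter_upwards [self_mem_nhdsWithin] with y hy
    exact (hquo y hy).symm
  have hwd : ∀ z ∈ Λ.A, C z ≠ 0 → DifferentiableAt ℂ w z := by
    intro z hz hc1
    obtain ⟨r, hr, hrA, s, hs, hs2⟩ := hlim1 z hz hc1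
    have h1 : w =ᶠ[𝓝 z] s := by
      filter_upwards [Metric.ball_mem_nhds z hr] with y hy
      exact hwlim y (hrA hy) _ (hs2 y hy)
    exact (hs.differentiableAt (Metric.ball_mem_nhds z hr)).congr_of_eventuallyEq h1
  have hwc : ContinuousOn w Λ.A := by
    intro z hz
    by_cases hc1 : C z = 0
    · have h0 : w z = 0 := by
        have := hwsq z hz
        rw [hc1] at this
        exact mul_self_eq_zero.1 this
      show Tendsto w (𝓝[Λ.A] z) (𝓝 (w z))
      rw [h0]
      apply RSG.norm_tendsto_zero (c := C)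
      · have := hCc z hz
        unfold ContinuousWithinAt at this
        rwa [hc1] at this
      · filter_upwards [self_mem_nhdsWithin] with y hy
        exact hwsq y hy
    · exact (hwd z hz hc1).continuousAt.continuousWithinAt
  have hwdiff : DifferentiableOn ℂ w Λ.A := by
    apply hRAD n Λ.A w C Λ.isOpen_A hwc hCd hwd
    intro z hz
    exact RSG.exists_line Λ hIDT hcB hc0 hz
  have hfwb : ∀ z ∈ Λ.A, F z = w z * B z := by
    intro z hz
    by_cases hbz : B z = 0
    · have h1 := hsq z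
      rw [hbz, mul_zero, mul_zero] at h1
      rw [hbz, mul_zero]
      exact mul_self_eq_zero.1 h1
    · have h1 : Tendsto (fun y => F y / B y) (𝓝[{y | B y ≠ 0}] z) (𝓝 (F z / B z)) := by
        have h2 : ContinuousAt (fun y => F y / B y) z :=
          ((hFd.differentiableAt (Λ.isOpen_A.mem_nhds hz)).continuousAt).div
            ((hBd.differentiableAt (Λ.isOpen_A.mem_nhds hz)).continuousAt) hbz
        exact h2.tendsto.mono_left nhdsWithin_le_nhds
      rw [hwlim z hz _ h1, div_mul_cancel₀ _ hbz]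
  -- a point where f does not vanish
  have hbb0 : ∃ z : Λ.A, c z * (b z * b z) ≠ 0 := by
    by_contra hcon
    push Not at hcon
    have hcMS : c ∈ Λ.MS ⊥ := hcB.mem_MS
    have hbMS : b ∈ Λ.MS ⊥ := hbB.mem_MS
    have hbbMS : b * b ∈ Λ.MS ⊥ := mul_mem hbMS hbMS
    rcases hDOM n Λ ⊤ c (b * b) hcMS hbbMS (fun z _ => by simpa using hcon z) with h | h
    · apply hc0
      funext z
      exact h z trivial
    · apply hb0
      funext z
      have := h z trivial
      simpa using this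
  obtain ⟨z1, hz1⟩ := hbb0
  have hwt : 2 * k = m + 2 * l := by
    have h2A : (2 : ℂ) • (z1 : V n) ∈ Λ.A := Λ.smul_mem_A two_ne_zero z1.2
    have e1 := hf.hom 2 z1 ⟨_, h2A⟩ rfl
    have e2 := hb.hom 2 z1 ⟨_, h2A⟩ rfl
    have e3 := hc.hom 2 z1 ⟨_, h2A⟩ rfl
    set z2 : Λ.A := ⟨(2 : ℂ) • (z1 : V n), h2A⟩ with hz2
    have e4 : f z1 * f z1 = c z1 * (b z1 * b z1) := congrFun hfbc z1
    have e5 : f z2 * f z2 = c z2 * (b z2 * b z2) := congrFun hfbc z2
    have hne : c z2 * (b z2 * b z2) ≠ 0 := by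
      intro h0
      apply hz1
      rw [← e3, ← e2]
      have : (2 : ℂ) ^ m * c z2 * (2 ^ l * b z2 * (2 ^ l * b z2)) =
        2 ^ m * 2 ^ l * 2 ^ l * (c z2 * (b z2 * b z2)) := by ring
      rw [this, h0, mul_zero]
    have e6 : (2 : ℂ) ^ (2 * k) = 2 ^ (m + 2 * l) := by
      apply mul_right_cancel₀ hne
      have : (2 : ℂ) ^ (2 * k) * (c z2 * (b z2 * b z2)) =
        (2 ^ k * f z2) * (2 ^ k * f z2) := by
        rw [← e5]; ring
      rw [this, e1, e4, ← e3, ← e2]
      ring
    have e7 : (2 : ℕ) ^ (2 * k) = 2 ^ (m + 2 * l) := by exact_mod_cast e6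
    exact Nat.pow_right_injective (le_refl 2) e7
  refine ⟨k - l, by omega, fun z => w z, ?_, ?_⟩
  · have hext : ∀ z ∈ Λ.A, Λ.ext (fun z : Λ.A => w z) z = w z := by
      intro z hz
      rw [Λ.ext_of_mem _ hz]
    refine ⟨hwdiff.congr hext, ?_, ?_⟩
    · intro t z z' hzz
      have ht : t ≠ 0 := by
        rintro rfl
        apply Λ.ne_zero_of_mem_A z'.2
        rw [hzz, zero_smul]
      have h1 : ∀ y ∈ Λ.A, (t ^ (k - l) * w (t • y) - w y) * B y = 0 := by
        intro y hy
        have hty : t • y ∈ Λ.A := Λ.smul_mem_A ht hy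
        have e1 := hf.hom t ⟨y, hy⟩ ⟨_, hty⟩ rfl
        have e2 := hb.hom t ⟨y, hy⟩ ⟨_, hty⟩ rfl
        have e3 := hfwb y hy
        have e4 := hfwb _ hty
        rw [hF, hB, Λ.ext_of_mem _ hy, Λ.ext_of_mem _ hy] at e3
        rw [hF, hB, Λ.ext_of_mem _ hty, Λ.ext_of_mem _ hty] at e4
        rw [hB, Λ.ext_of_mem _ hy]
        have hkl : k = (k - l) + l := by omega
        have e5 : t ^ k = t ^ (k - l) * t ^ l := by
          rw [← pow_add, ← hkl]
        rw [e5, e4] at e1
        rw [← e2]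
        have e6 : w y * b ⟨y, hy⟩ = w y * (t ^ l * b ⟨t • y, hty⟩) := by rw [e2]
        rw [e3, e6] at e1
        linear_combination e1
      have hcont : ContinuousOn (fun y => t ^ (k - l) * w (t • y) - w y) Λ.A := by
        apply ContinuousOn.sub _ hwc
        apply ContinuousOn.mul continuousOn_const
        exact hwc.comp (continuous_const_smul t).continuousOn
          (fun y hy => Λ.smul_mem_A ht hy)
      have h2 := RSG.zero_of_mul Λ hIDT hbB hb0 hcont h1 z z.2
      show t ^ (k - l) * w z' = w z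
      rw [hzz]
      exact sub_eq_zero.1 h2
    · intro γ hγ z z' hzz
      have hγI := hΓ hγ
      have h1 : ∀ y ∈ Λ.A, (w (γ y) - w y) * B y = 0 := by
        intro y hy
        have hty : γ y ∈ Λ.A := (Λ.apply_mem_A hγI).2 hy
        have e1 := hf.inv γ hγ ⟨y, hy⟩ ⟨_, hty⟩ rfl
        have e2 := hb.inv γ hγ ⟨y, hy⟩ ⟨_, hty⟩ rfl
        have e3 := hfwb y hy
        have e4 := hfwb _ hty
        rw [hF, hB, Λ.ext_of_mem _ hy, Λ.ext_of_mem _ hy] at e3
        rw [hF, hB, Λ.ext_of_mem _ hty, Λ.ext_of_mem _ hty] at e4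
        rw [hB, Λ.ext_of_mem _ hy]
        rw [e4, e3, e2] at e1
        linear_combination e1
      have hcont : ContinuousOn (fun y => w (γ y) - w y) Λ.A := by
        apply ContinuousOn.sub _ hwc
        exact hwc.comp (LinearMap.continuous_of_finiteDimensional
          (γ : V n →ₗ[ℂ] V n)).continuousOn
          (fun y hy => (Λ.apply_mem_A hγI).2 hy)
      have h2 := RSG.zero_of_mul Λ hIDT hbB hb0 hcont h1 z z.2
      show w z' = w z
      rw [hzz]
      exact sub_eq_zero.1 h2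
  · funext z
    have := hfwb z z.2
    rw [hF, hB, Λ.ext_coe, Λ.ext_coe] at this
    exact this

end Pool.Agent.MFB
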