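import Mathlib
import Pool.Agent.MFB.Stmts

/-!
# The forms for a subgroup of index two
-/

namespace Pool.Agent.MFB

namespace SQR

/-- Every nonzero element is a squarefree element times a square. -/
theorem exists_sqf {R : Type} [CommRing R] [IsDomain R] [WfDvdMonoid R] (F : R) (hF : F ≠ 0) :
    ∃ b c : R, F = c * (b * b) ∧ Squarefree c := by
  induction F using (wellFounded_dvdNotUnit (α := R)).induction with
  | _ F ih =>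
    by_cases hs : Squarefree F
    · exact ⟨1, F, by ring, hs⟩
    · unfold Squarefree at hs
      push Not at hs
      obtain ⟨x, ⟨G, hG⟩, hx⟩ := hs
      have hG0 : G ≠ 0 := by
        rintro rfl
        exact hF (by rw [hG, mul_zero])
      obtain ⟨b, c, hbc, hc⟩ := ih G ⟨hG0, x * x, fun h => hx (isUnit_of_mul_isUnit_left h),
        by rw [hG]; ring⟩ hG0
      exact ⟨x * b, c, by rw [hG, hbc]; ring, hc⟩

variable {n : ℕ} {Λ : HL n} {Γ Γ₀ : Subgroup (V n ≃ₗ[ℂ] V n)}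

theorem dom (hDOM : S_DOM) {f g : Λ.A → ℂ} (hf : f ∈ Λ.MS ⊥) (hg : g ∈ Λ.MS ⊥)
    (h : f * g = 0) : f = 0 ∨ g = 0 := by
  have h1 := hDOM n Λ ⊤ f g hf hg (fun z _ => congrFun h z)
  rcases h1 with h1 | h1
  · left
    funext z
    exact h1 z trivial
  · right
    funext z
    exact h1 z trivial

theorem isMF_of_mem (hINV : S_INV) (hΓ : Γ ≤ Λ.I) {k : ℕ} {f : Λ.A → ℂ}
    (h : Λ.IsMF Γ₀ k f) (hf : f ∈ Λ.MS Γ) : Λ.IsMF Γ k f := by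
  refine ⟨h.hol, h.hom, fun γ hγ z z' hz => ?_⟩
  have h1 := congrFun (((hINV n Λ Γ hΓ f).1 hf).2 γ hγ) z
  rw [Λ.act_apply (hΓ hγ)] at h1
  rw [← h1]
  congr 1
  exact Subtype.ext hz

theorem isDom (hDOM : S_DOM) : IsDomain (Λ.MS Γ) := by
  have hmono : Λ.MS Γ ≤ Λ.MS ⊥ := HL.MS_mono bot_le
  have : Nonempty Λ.A := by
    obtain ⟨z, hz⟩ := Λ.exists_mem_A
    exact ⟨⟨z, hz⟩⟩
  have : Nontrivial (Λ.MS Γ) := by
    refine ⟨⟨0, 1, fun h => ?_⟩⟩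
    have h1 : (0 : Λ.A → ℂ) = 1 := congrArg Subtype.val h
    exact zero_ne_one (congrFun h1 (Classical.arbitrary _))
  have : NoZeroDivisors (Λ.MS Γ) := by
    refine ⟨fun {a b} hab => ?_⟩
    have h1 : (a : Λ.A → ℂ) * b = 0 := congrArg Subtype.val hab
    rcases dom hDOM (hmono a.2) (hmono b.2) h1 with h2 | h2
    · exact Or.inl (Subtype.ext h2)
    · exact Or.inr (Subtype.ext h2)
  exact NoZeroDivisors.to_isDomain _

end SQR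

theorem SQR_thm (hRSG : S_RSG) (hZER : S_ZER) (hUFR : S_UFR) (hINV : S_INV) (hGR : S_GR)
    (hACT : S_ACT) (hDOM : S_DOM) (hHFA : S_HFA) : S_SQR := by
  intro n Λ Γ Γ₀ hΓ hfree hle hidx τ hτ hτ0
  have hΓ0 : Γ₀ ≤ Λ.I := hle.trans hΓ
  have hτI : τ ∈ Λ.I := hΓ hτ
  -- index two
  have hmul : ∀ a ∈ Γ, ∀ b ∈ Γ, a * b ∈ Γ₀ ↔ (a ∈ Γ₀ ↔ b ∈ Γ₀) := by
    intro a ha b hb
    have h1 := Subgroup.mul_mem_iff_of_index_two hidx (a := ⟨a, ha⟩) (b := ⟨b, hb⟩)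
    simpa [Subgroup.mem_subgroupOf] using h1
  have hττ : τ * τ ∈ Γ₀ := (hmul τ hτ τ hτ).2 Iff.rfl
  have hconj : ∀ γ ∈ Γ₀, τ * γ * τ⁻¹ ∈ Γ₀ := by
    intro γ hγ
    have hinv : τ⁻¹ ∉ Γ₀ := fun h => hτ0 (by simpa using Γ₀.inv_mem h)
    have h1 : τ * γ ∉ Γ₀ := fun h => hτ0 (((hmul τ hτ γ (hle hγ)).1 h).2 hγ)
    exact (hmul (τ * γ) (Γ.mul_mem hτ (hle hγ)) τ⁻¹ (Γ.inv_mem hτ)).2
      ⟨fun h => absurd h h1, fun h => absurd h hinv⟩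
  have hB : Λ.MS Γ₀ ≤ Λ.MS ⊥ := HL.MS_mono bot_le
  have hR : Λ.MS Γ ≤ Λ.MS Γ₀ := HL.MS_mono hle
  -- the action of `τ`
  have hact : ∀ f ∈ Λ.MS Γ₀, Λ.act τ f ∈ Λ.MS Γ₀ := fun f hf => hACT n Λ Γ₀ Γ₀ τ hτI hconj f hf
  have hact2 : ∀ f ∈ Λ.MS Γ₀, Λ.act τ (Λ.act τ f) = f := by
    intro f hf
    rw [← Λ.act_mul_left hτI]
    exact ((hINV n Λ Γ₀ hΓ0 f).1 hf).2 _ hττ
  have heven : ∀ f ∈ Λ.MS Γ₀, Λ.act τ f = f → f ∈ Λ.MS Γ := by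
    intro f hf hf1
    refine (hINV n Λ Γ hΓ f).2 ⟨hB hf, fun γ hγ => ?_⟩
    by_cases hγ0 : γ ∈ Γ₀
    · exact ((hINV n Λ Γ₀ hΓ0 f).1 hf).2 γ hγ0
    · have h1 : τ⁻¹ * γ ∈ Γ₀ := by
        refine (hmul τ⁻¹ (Γ.inv_mem hτ) γ hγ).2 ⟨fun h => ?_, fun h => absurd h hγ0⟩
        exact absurd (by simpa using Γ₀.inv_mem h) hτ0
      have h2 : γ = τ * (τ⁻¹ * γ) := by group
      rw [h2, Λ.act_mul_left hτI, hf1]
      exact ((hINV n Λ Γ₀ hΓ0 f).1 hf).2 _ h1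
  have hfix : ∀ f ∈ Λ.MS Γ, Λ.act τ f = f := fun f hf => ((hINV n Λ Γ hΓ f).1 hf).2 τ hτ
  by_cases hall : ∀ f ∈ Λ.MS Γ₀, Λ.act τ f = f
  · obtain ⟨X, hX, -, -⟩ := hfree
    obtain ⟨k, hk, hXk⟩ := hX 0
    refine ⟨k, hk, X 0, hXk.mono hle, fun f hf => ⟨0, (Λ.MS Γ₀).zero_mem, ?_⟩⟩
    rw [hall f hf, sub_self, mul_zero]
  have hsub : ∀ f f' : Λ.A → ℂ, Λ.act τ (f - f') = Λ.act τ f - Λ.act τ f' := by
    intro f f'
    have h1 : f - f' = f + (-1 : ℂ) • f' := by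
      rw [neg_one_smul, sub_eq_add_neg]
    rw [h1, Λ.act_add, Λ.act_smul, neg_one_smul, sub_eq_add_neg]
  -- a form which is not fixed
  obtain ⟨k0, f1, hf1, hf1τ⟩ : ∃ k0 f1, Λ.IsMF Γ₀ k0 f1 ∧ Λ.act τ f1 ≠ f1 := by
    by_contra hcon
    push Not at hcon
    apply hall
    let S : Submodule ℂ (Λ.A → ℂ) :=
      { carrier := {f | Λ.act τ f = f}
        add_mem' := fun {a b} ha hb => by
          show Λ.act τ (a + b) = a + b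
          rw [Λ.act_add, ha, hb]
        zero_mem' := by
          show Λ.act τ 0 = 0
          have := Λ.act_smul τ 0 0
          simpa using this
        smul_mem' := fun c a ha => by
          show Λ.act τ (c • a) = c • a
          rw [Λ.act_smul, ha] }
    have hS : Subalgebra.toSubmodule (Λ.MS Γ₀) ≤ S := by
      rw [HL.MS_eq_iSup]
      exact iSup_le fun k f hf => hcon k f hf
    exact fun f hf => hS hf
  set f0 : Λ.A → ℂ := Λ.act τ f1 - f1 with hf0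
  have hf0MF : Λ.IsMF Γ₀ k0 f0 := by
    have h1 : f0 = Λ.act τ f1 + (-1 : ℂ) • f1 := by
      rw [hf0, neg_one_smul, sub_eq_add_neg]
    rw [h1]
    exact (hf1.act hτI hconj).add (hf1.smul _)
  have hf00 : f0 ≠ 0 := sub_ne_zero.2 hf1τ
  have hf0τ : Λ.act τ f0 = -f0 := by
    rw [hf0, hsub, hact2 f1 hf1.mem_MS]
    ring
  have hsqMF0 : Λ.IsMF Γ₀ (k0 + k0) (f0 * f0) := hf0MF.mul hf0MF
  have hsq : f0 * f0 ∈ Λ.MS Γ := by
    refine heven _ hsqMF0.mem_MS ?_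
    rw [Λ.act_mul, hf0τ]
    ring
  have hsqMF : Λ.IsMF Γ (k0 + k0) (f0 * f0) := SQR.isMF_of_mem hINV hΓ hsqMF0 hsq
  -- the algebra `R`
  have hdR : IsDomain (Λ.MS Γ) := SQR.isDom hDOM
  obtain ⟨hufm, -⟩ := hUFR n Λ Γ hfree
  obtain ⟨-, hgr2, hgr3⟩ := hGR n Λ Γ
  have hdom : ∀ f g : Λ.A → ℂ, f ∈ Λ.MS Γ₀ → g ∈ Λ.MS Γ₀ → f * g = 0 → f = 0 ∨ g = 0 :=
    fun f g hf hg h => SQR.dom hDOM (hB hf) (hB hg) h
  have hF0 : (⟨f0 * f0, hsq⟩ : Λ.MS Γ) ≠ 0 := by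
    intro h
    have h1 : f0 * f0 = 0 := congrArg Subtype.val h
    rcases hdom _ _ hf0MF.mem_MS hf0MF.mem_MS h1 with h2 | h2 <;> exact hf00 h2
  obtain ⟨b, c, hbc, hcs⟩ := SQR.exists_sqf (⟨f0 * f0, hsq⟩ : Λ.MS Γ) hF0
  have hcbb : c * (b * b) ≠ 0 := hbc ▸ hF0
  have hcbbk : c * (b * b) ∈ Λ.gr Γ (k0 + k0) := hbc ▸ hsqMF
  obtain ⟨i, j, -, hci, hbj⟩ := hHFA (Λ.MS Γ) (Λ.gr Γ) hgr2 hgr3 (k0 + k0) c (b * b) hcbb hcbbk
  have hbb : b * b ≠ 0 := right_ne_zero_of_mul hcbb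
  obtain ⟨l, l', -, hbl, -⟩ := hHFA (Λ.MS Γ) (Λ.gr Γ) hgr2 hgr3 j b b hbb hbj
  have hbMF : Λ.IsMF Γ l (b : Λ.A → ℂ) := hbl
  have hcMF : Λ.IsMF Γ i (c : Λ.A → ℂ) := hci
  have hb0 : (b : Λ.A → ℂ) ≠ 0 := fun h => hbb (by
    have : b = 0 := Subtype.ext h
    rw [this, mul_zero])
  have hc0 : (c : Λ.A → ℂ) ≠ 0 := fun h => hcbb (by
    have : c = 0 := Subtype.ext h
    rw [this, zero_mul])
  have hfbc : f0 * f0 = (c : Λ.A → ℂ) * ((b : Λ.A → ℂ) * b) := congrArg Subtype.val hbc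
  obtain ⟨m, hkm, w, hwMF, hfw⟩ := hRSG n Λ Γ₀ k0 l i f0 b c hΓ0 hf0MF (hbMF.mono hle)
    (hcMF.mono hle) hb0 hc0 hfbc
  have hwB : w ∈ Λ.MS Γ₀ := hwMF.mem_MS
  have hbB : (b : Λ.A → ℂ) ∈ Λ.MS Γ₀ := hR b.2
  have hcB : (c : Λ.A → ℂ) ∈ Λ.MS Γ₀ := hR c.2
  have hw0 : w ≠ 0 := by
    rintro rfl
    exact hf00 (by rw [hfw, zero_mul])
  have hww : w * w = c := by
    have h1 : (w * w - c) * ((b : Λ.A → ℂ) * b) = 0 := by
      have h2 : w * w * ((b : Λ.A → ℂ) * b) = c * ((b : Λ.A → ℂ) * b) := by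
        rw [← hfbc, hfw]
        ring
      rw [sub_mul, h2, sub_self]
    rcases hdom _ _ ((Λ.MS Γ₀).sub_mem ((Λ.MS Γ₀).mul_mem hwB hwB) hcB)
      ((Λ.MS Γ₀).mul_mem hbB hbB) h1 with h2 | h2
    · exact sub_eq_zero.1 h2
    · rcases hdom _ _ hbB hbB h2 with h3 | h3 <;> exact absurd h3 hb0
  have hwτ : Λ.act τ w = -w := by
    have h1 : (Λ.act τ w + w) * (b : Λ.A → ℂ) = 0 := by
      have h2 : Λ.act τ w * (b : Λ.A → ℂ) = -(w * b) := by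
        rw [← hfw, ← hf0τ]
        conv_rhs => rw [hfw]
        rw [Λ.act_mul, hfix _ b.2]
      rw [add_mul, h2]
      ring
    rcases hdom _ _ ((Λ.MS Γ₀).add_mem (hact _ hwB) hwB) hbB h1 with h2 | h2
    · exact eq_neg_of_add_eq_zero_left h2
    · exact absurd h2 hb0
  have hm : 0 < m := by
    rcases Nat.eq_zero_or_pos m with h | h
    · exfalso
      subst h
      obtain ⟨e, he⟩ := hZER n Λ Γ Γ₀ hΓ hfree hle (by rw [hidx]; norm_num) w hwMF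
      have h1 : Λ.act τ w = w := by
        rw [he, Λ.act_algebraMap hτI]
      apply hw0
      funext z
      have h2 := congrFun (hwτ.symm.trans h1) z
      have h3 : -(w z) = w z := h2
      have h4 : (2 : ℂ) * w z = 0 := by linear_combination -h3
      simpa using h4
    · exact h
  refine ⟨m, hm, w, hwMF, fun f hf => ?_⟩
  set g : Λ.A → ℂ := Λ.act τ f - f with hg
  have hgB : g ∈ Λ.MS Γ₀ := (Λ.MS Γ₀).sub_mem (hact f hf) hf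
  have hgτ : Λ.act τ g = -g := by
    rw [hg, hsub, hact2 f hf]
    ring
  have hgw : g * w ∈ Λ.MS Γ := by
    refine heven _ ((Λ.MS Γ₀).mul_mem hgB hwB) ?_
    rw [Λ.act_mul, hgτ, hwτ]
    ring
  have hgg : g * g ∈ Λ.MS Γ := by
    refine heven _ ((Λ.MS Γ₀).mul_mem hgB hgB) ?_
    rw [Λ.act_mul, hgτ]
    ring
  have hdvd : c ∣ (⟨g * w, hgw⟩ : Λ.MS Γ) ^ 2 := by
    refine ⟨⟨g * g, hgg⟩, Subtype.ext ?_⟩
    show (g * w) ^ 2 = (c : Λ.A → ℂ) * (g * g)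
    rw [← hww]
    ring
  have hdvd2 : c ∣ (⟨g * w, hgw⟩ : Λ.MS Γ) :=
    (hcs.dvd_pow_iff_dvd (by norm_num)).1 hdvd
  obtain ⟨G, hG⟩ := hdvd2
  refine ⟨(G : Λ.A → ℂ), hR G.2, ?_⟩
  have hG1 : g * w = (c : Λ.A → ℂ) * G := congrArg Subtype.val hG
  have h1 : w * (g - w * G) = 0 := by
    rw [mul_sub, mul_comm w g, hG1, ← hww]
    ring
  rcases hdom _ _ hwB ((Λ.MS Γ₀).sub_mem hgB ((Λ.MS Γ₀).mul_mem hwB (hR G.2))) h1 with h2 | h2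
  · exact absurd h2 hw0
  · exact sub_eq_zero.1 h2

end Pool.Agent.MFB
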