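import Mathlib
import Pool.Agent.MFB.Stmts

/-!
# Module THB: the case of a normal subgroup of index at most two
-/

set_option autoImplicit false

namespace Pool.Agent.MFB

namespace THB

variable {X : Type} [Group X]

/-- the subgroup generated by the conjugates -/
theorem conj_mem (Γ Γ₁ : Subgroup X) (g : X) (hg : g ∈ Γ₁) (γ : X)
    (hγ : γ ∈ Subgroup.closure {g | ∃ a ∈ Γ₁, ∃ γ ∈ Γ, g = a * γ * a⁻¹}) :
    g * γ * g⁻¹ ∈ Subgroup.closure {g | ∃ a ∈ Γ₁, ∃ γ ∈ Γ, g = a * γ * a⁻¹} := by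
  induction hγ using Subgroup.closure_induction with
  | mem x hx =>
    obtain ⟨a, ha, γ, hγ, rfl⟩ := hx
    refine Subgroup.subset_closure ⟨g * a, Γ₁.mul_mem hg ha, γ, hγ, ?_⟩
    group
  | one =>
    rw [mul_one, mul_inv_cancel]
    exact Subgroup.one_mem _
  | mul x y _ _ hx hy =>
    have h : g * (x * y) * g⁻¹ = (g * x * g⁻¹) * (g * y * g⁻¹) := by group
    rw [h]
    exact Subgroup.mul_mem _ hx hy
  | inv x _ hx =>
    have h : g * x⁻¹ * g⁻¹ = (g * x * g⁻¹)⁻¹ := by group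
    rw [h]
    exact Subgroup.inv_mem _ hx

theorem le_conj (Γ Γ₁ : Subgroup X) :
    Γ ≤ Subgroup.closure {g | ∃ a ∈ Γ₁, ∃ γ ∈ Γ, g = a * γ * a⁻¹} := by
  intro γ hγ
  refine Subgroup.subset_closure ⟨1, Γ₁.one_mem, γ, hγ, ?_⟩
  group

theorem conj_le (Γ Γ₁ : Subgroup X) (h : Γ ≤ Γ₁) :
    Subgroup.closure {g | ∃ a ∈ Γ₁, ∃ γ ∈ Γ, g = a * γ * a⁻¹} ≤ Γ₁ := by
  rw [Subgroup.closure_le]
  rintro _ ⟨a, ha, γ, hγ, rfl⟩
  exact Γ₁.mul_mem (Γ₁.mul_mem ha (h hγ)) (Γ₁.inv_mem ha)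

end THB

open THB in
theorem THB_thm (hTWO : S_TWO) (hTHA : S_THA) (hUFR : S_UFR) : S_THB := by
  intro n Λ Γ Γ₀ Γ₁ h1U hΓ h0 hfin hnorm hfree hi0 hi2 hgen
  have hU0 : Γ₀.relIndex Λ.U ≠ 0 := Subgroup.relIndex_ne_zero_trans hi0 hfin
  have h12 : (Γ₀.subgroupOf Γ).index = 1 ∨ (Γ₀.subgroupOf Γ).index = 2 := by omega
  rcases h12 with h | h
  · have h2 : Γ ≤ Γ₀ := by
      rw [Subgroup.index_eq_one] at h
      exact Subgroup.subgroupOf_eq_top.1 h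
    have h3 : Γ₀ = Γ := le_antisymm h0 h2
    subst h3
    exact hTHA n Λ Γ₀ Γ₀ Γ₁ h1U hΓ le_rfl hfin hnorm hfree (hUFR n Λ Γ₀ hfree).1 hgen
  · have h10 : (Γ₀.subgroupOf Γ₁).index ≠ 0 := by
      have h3 : Γ₀.relIndex Γ₁ ≠ 0 := by
        intro h4
        exact hU0 (Subgroup.relIndex_eq_zero_of_le_right h1U h4)
      exact h3
    have hf2 := hTWO n Λ Γ Γ₀ Γ₁ (h1U.trans Λ.U_le_I) hΓ h0 h10 hnorm hfree h
    have hle := le_conj Γ Γ₁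
    have hfin2 : ((Subgroup.closure {g | ∃ a ∈ Γ₁, ∃ γ ∈ Γ, g = a * γ * a⁻¹}).subgroupOf
        Λ.U).index ≠ 0 := by
      intro h4
      exact hfin (Subgroup.relIndex_eq_zero_of_le_left hle h4)
    refine hTHA n Λ _ _ Γ₁ h1U (conj_le Γ Γ₁ hΓ) le_rfl hfin2
      (fun g hg γ hγ => conj_mem Γ Γ₁ g hg γ hγ) hf2 (hUFR n Λ _ hf2).1 ?_
    refine hgen.trans (Subgroup.closure_mono ?_)
    exact Set.union_subset_union_left _ hle

end Pool.Agent.MFB
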