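import Mathlib
import Pool.Agent.MFB.Stmts

/-!
# The group generated by the conjugates of `Γ`
-/

namespace Pool.Agent.MFB

namespace TWO

variable {n : ℕ} (Λ : HL n)

theorem conj_inv {X : Type*} [Group X] {Γ₀ Γ₁ : Subgroup X}
    (hn : ∀ g ∈ Γ₁, ∀ γ ∈ Γ₀, g * γ * g⁻¹ ∈ Γ₀) {a : X} (ha : a ∈ Γ₁) :
    ∀ γ ∈ Γ₀, a⁻¹ * γ * a⁻¹⁻¹ ∈ Γ₀ := fun γ hγ => hn a⁻¹ (Γ₁.inv_mem ha) γ hγ

theorem mem_of_index {X : Type*} [Group X] {Γ Γ₀ : Subgroup X}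
    (hi : (Γ₀.subgroupOf Γ).index = 2) {τ γ : X} (hτ : τ ∈ Γ) (hτ₀ : τ ∉ Γ₀) (hγ : γ ∈ Γ)
    (hγ₀ : γ ∉ Γ₀) : τ⁻¹ * γ ∈ Γ₀ := by
  have h1 := Subgroup.mul_mem_iff_of_index_two hi (a := (⟨τ, hτ⟩ : Γ)⁻¹) (b := ⟨γ, hγ⟩)
  have h2 : (⟨τ, hτ⟩ : Γ)⁻¹ * ⟨γ, hγ⟩ ∈ Γ₀.subgroupOf Γ := by
    rw [h1, inv_mem_iff, Subgroup.mem_subgroupOf, Subgroup.mem_subgroupOf]
    exact iff_of_false hτ₀ hγ₀
  exact h2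

theorem exists_not_mem {X : Type*} [Group X] {Γ Γ₀ : Subgroup X}
    (hi : (Γ₀.subgroupOf Γ).index = 2) : ∃ τ ∈ Γ, τ ∉ Γ₀ := by
  by_contra hcon
  push Not at hcon
  have h1 : Γ₀.subgroupOf Γ = ⊤ := by
    rw [Subgroup.subgroupOf_eq_top]
    exact hcon
  rw [h1, Subgroup.index_top] at hi
  norm_num at hi

end TWO

open TWO

theorem TWO_thm (hTHG : S_THG) (hSQR : S_SQR) (hACT : S_ACT) : S_TWO := by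
  intro n Λ Γ Γ₀ Γ₁ h1I hΓ1 h0Γ hi hn hF h2
  obtain ⟨τ, hτ, hτ0⟩ := exists_not_mem h2
  have hΓI : Γ ≤ Λ.I := hΓ1.trans h1I
  obtain ⟨k, hk, w, hw, hdiv⟩ := hSQR n Λ Γ Γ₀ hΓI hF h0Γ h2 τ hτ hτ0
  set S : Set (V n ≃ₗ[ℂ] V n) := {g | ∃ a ∈ Γ₁, ∃ γ ∈ Γ, g = a * γ * a⁻¹} with hS
  have hΓS : Γ ≤ Subgroup.closure S := by
    intro γ hγ
    refine Subgroup.subset_closure ⟨1, Γ₁.one_mem, γ, hγ, ?_⟩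
    simp
  have hS1 : Subgroup.closure S ≤ Γ₁ := by
    rw [Subgroup.closure_le]
    rintro g ⟨a, ha, γ, hγ, rfl⟩
    exact Γ₁.mul_mem (Γ₁.mul_mem ha (hΓ1 hγ)) (Γ₁.inv_mem ha)
  refine hTHG n Λ Γ Γ₀ (Subgroup.closure S) {g | ∃ a ∈ Γ₁, g = a * τ * a⁻¹} (hS1.trans h1I) hΓS
    h0Γ ?_ (fun g hg => hn g (hS1 hg)) hF ?_ ?_ ?_
  · have h3 := Subgroup.relIndex_mul_relIndex Γ₀ (Subgroup.closure S) Γ₁ (h0Γ.trans hΓS) hS1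
    have h4 : Γ₀.relIndex Γ₁ ≠ 0 := hi
    rw [← h3] at h4
    exact left_ne_zero_of_mul h4
  · rintro g ⟨a, ha, rfl⟩
    exact Subgroup.subset_closure ⟨a, ha, τ, hτ, rfl⟩
  · rw [Subgroup.closure_le]
    rintro g ⟨a, ha, γ, hγ, rfl⟩
    by_cases hγ0 : γ ∈ Γ₀
    · exact Subgroup.subset_closure (Or.inl (hn a ha γ hγ0))
    · have h3 : a * γ * a⁻¹ = (a * τ * a⁻¹) * (a * (τ⁻¹ * γ) * a⁻¹) := by group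
      rw [h3]
      refine Subgroup.mul_mem _ (Subgroup.subset_closure (Or.inr ⟨a, ha, rfl⟩))
        (Subgroup.subset_closure (Or.inl ?_))
      exact hn a ha _ (mem_of_index h2 hτ hτ0 hγ hγ0)
  · rintro σ ⟨a, ha, rfl⟩
    have haI : a ∈ Λ.I := h1I ha
    have haI' : a⁻¹ ∈ Λ.I := Λ.I.inv_mem haI
    refine ⟨k, hk, Λ.act a⁻¹ w, HL.IsMF.act hw haI' (conj_inv hn ha), fun f hf => ?_⟩
    have h3 : Λ.act a f ∈ Λ.MS Γ₀ := hACT n Λ Γ₀ Γ₀ a haI (hn a ha) f hf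
    obtain ⟨c, hc, hcw⟩ := hdiv _ h3
    refine ⟨Λ.act a⁻¹ c, hACT n Λ Γ₀ Γ₀ a⁻¹ haI' (conj_inv hn ha) c hc, ?_⟩
    have h4 : Λ.act τ (Λ.act a f) = Λ.act a f + w * c := by
      rw [← hcw]
      abel
    have h5 : Λ.act a⁻¹ (Λ.act a f) = f := by
      rw [← Λ.act_mul_left haI, mul_inv_cancel, HL.act_one_left]
    rw [Λ.act_mul_left (Λ.I.mul_mem haI (hΓI hτ)), Λ.act_mul_left haI, h4, HL.act_add, HL.act_mul,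
      h5]
    abel

end Pool.Agent.MFB
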