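import Pool.Agent.MFB.All
import Pool.Agent.MFB.RSG
import Pool.Agent.MFB.SQR
import Pool.Agent.MFB.TWO
import Pool.Agent.MFB.THB

/-!
# Assembly of the modules, second part
-/

namespace Pool.Agent.MFB

theorem f_RSG : S_RSG := RSG_thm f_RAD IDT_thm f_DOM
theorem f_SQR : S_SQR := SQR_thm f_RSG f_ZER UFR_thm f_INV GR_thm ACT_thm f_DOM HFA_thm
theorem f_TWO : S_TWO := TWO_thm f_THG f_SQR ACT_thm
theorem f_THB : S_THB := THB_thm f_TWO f_THA UFR_thm

end Pool.Agent.MFB
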