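import Mathlib
import Pool.Agent.MFB.Stmts

/-!
# CH1: Chevalley's lemma
-/

set_option autoImplicit false

namespace Pool.Agent.MFB

namespace CH1

section

variable {B : Type} [CommRing B] [Algebra ℂ B] {𝒜 : ℕ → Submodule ℂ B} {G : Type} [Group G]
  {ρ : G →* (B ≃ₐ[ℂ] B)}

/-- A quotient of a homogeneous element by a nonzero homogeneous element is homogeneous. -/
theorem quot_hom [IsDomain B] (h1 : (1 : B) ∈ 𝒜 0)
    (hmul : ∀ i j, ∀ a ∈ 𝒜 i, ∀ b ∈ 𝒜 j, a * b ∈ 𝒜 (i + j)) (hint : DirectSum.IsInternal 𝒜)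
    {p c : B} {d k : ℕ} (hp : p ∈ 𝒜 d) (hp0 : p ≠ 0) (hpc : p * c ∈ 𝒜 k) :
    c = 0 ∨ (d ≤ k ∧ c ∈ 𝒜 (k - d)) := by
  classical
  let _ : SetLike.GradedMonoid 𝒜 :=
    { one_mem := h1
      mul_mem := fun {i j} {a b} ha hb => hmul i j a ha b hb }
  let _ : DirectSum.Decomposition 𝒜 := hint.chooseDecomposition
  let _ : GradedRing 𝒜 := { }
  have key : ∀ j, d + j ≠ k → ((DirectSum.decompose 𝒜 c j : 𝒜 j) : B) = 0 := by
    intro j hj
    have h2 := DirectSum.coe_decompose_mul_add_of_left_mem (𝒜 := 𝒜) (i := d) (j := j)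
      (a := p) (b := c) hp
    rw [DirectSum.decompose_of_mem_ne 𝒜 hpc (Ne.symm hj)] at h2
    exact (mul_eq_zero.1 h2.symm).resolve_left hp0
  have hsum := DirectSum.sum_support_decompose 𝒜 c
  by_cases hdk : d ≤ k
  · right
    refine ⟨hdk, ?_⟩
    rw [← hsum]
    refine Submodule.sum_mem _ fun i _ => ?_
    by_cases hi : d + i = k
    · have : i = k - d := by omega
      rw [← this]
      exact (DirectSum.decompose 𝒜 c i).2
    · rw [key i hi]
      exact zero_mem _
  · left
    rw [← hsum]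
    refine Finset.sum_eq_zero fun i _ => ?_
    exact key i (by omega)

theorem stable (g : G) (x : B) (hx : x ∈ IA 𝒜 ρ) : ρ g x ∈ IA 𝒜 ρ := by
  unfold IA at hx ⊢
  induction hx using Submodule.span_induction with
  | mem x hx =>
    rw [hx.1 g]
    exact Ideal.subset_span hx
  | zero =>
    rw [map_zero]
    exact zero_mem _
  | add x y _ _ hx hy =>
    rw [map_add]
    exact add_mem hx hy
  | smul a x _ hx =>
    rw [smul_eq_mul, map_mul]
    exact Ideal.mul_mem_left _ _ hx

theorem diff_mem (T : Set G) (hT : Subgroup.closure T ⊔ ρ.ker = ⊤) (x : B)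
    (h : ∀ σ ∈ T, ρ σ x - x ∈ IA 𝒜 ρ) (g : G) : ρ g x - x ∈ IA 𝒜 ρ := by
  let S : Subgroup G :=
    { carrier := {γ | ρ γ x - x ∈ IA 𝒜 ρ}
      one_mem' := by
        show ρ 1 x - x ∈ IA 𝒜 ρ
        rw [map_one, AlgEquiv.one_apply, sub_self]
        exact zero_mem _
      mul_mem' := by
        intro a b ha hb
        show ρ (a * b) x - x ∈ IA 𝒜 ρ
        have h1 : ρ (a * b) x - x = ρ a (ρ b x - x) + (ρ a x - x) := by
          rw [map_mul, AlgEquiv.mul_apply, map_sub]
          ring
        rw [h1]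
        exact add_mem (stable a _ hb) ha
      inv_mem' := by
        intro a ha
        show ρ a⁻¹ x - x ∈ IA 𝒜 ρ
        have h0 : ρ a⁻¹ (ρ a x) = x := by
          rw [← AlgEquiv.mul_apply, ← map_mul, inv_mul_cancel, map_one, AlgEquiv.one_apply]
        have h1 : ρ a⁻¹ x - x = -(ρ a⁻¹ (ρ a x - x)) := by
          rw [map_sub, h0]
          ring
        rw [h1]
        exact neg_mem (stable a⁻¹ _ ha) }
  have h2 : Subgroup.closure T ⊔ ρ.ker ≤ S := by
    refine sup_le ((Subgroup.closure_le S).2 fun σ hσ => h σ hσ) fun a ha => ?_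
    show ρ a x - x ∈ IA 𝒜 ρ
    rw [MonoidHom.mem_ker.1 ha, AlgEquiv.one_apply, sub_self]
    exact zero_mem _
  have h3 : g ∈ S := h2 (by rw [hT]; exact Subgroup.mem_top g)
  exact h3

theorem csmul_mem (c : ℂ) (x : B) (hx : x ∈ IA 𝒜 ρ) : c • x ∈ IA 𝒜 ρ := by
  rw [Algebra.smul_def]
  exact Ideal.mul_mem_left _ _ hx

end

end CH1

theorem CH1_thm : S_CH1 := by
  classical
  intro B _ _ _ 𝒜 G _ ρ hGr hRef s f g d N hf hfx hg hsum hN
  obtain ⟨T, hT, hTd⟩ := hRef
  have _ : Finite ρ.range := hGr.fin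
  have _ : Fintype ρ.range := Fintype.ofFinite _
  induction N using Nat.strong_induction_on generalizing g with
  | _ N ih =>
    by_cases hg0 : g 0 = 0
    · rw [hg0]
      exact zero_mem _
    obtain ⟨hd0, hgm⟩ := (hg 0).resolve_left hg0
    -- differences
    have h1 : ∀ σ ∈ T, ρ σ (g 0) - g 0 ∈ IA 𝒜 ρ := by
      intro σ hσ
      obtain ⟨e, he, p, hp, hdd⟩ := hTd σ hσ
      choose y hy using fun i => hdd (g i)
      by_cases hp0 : p = 0
      · rw [hy 0, hp0, zero_mul]
        exact zero_mem _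
      have h2 : ∑ i, f i * y i = 0 := by
        have h3 : p * ∑ i, f i * y i = 0 := by
          have h4 : p * ∑ i, f i * y i = ρ σ (∑ i, f i * g i) - ∑ i, f i * g i := by
            rw [Finset.mul_sum, map_sum, ← Finset.sum_sub_distrib]
            refine Finset.sum_congr rfl fun i _ => ?_
            rw [map_mul, hfx i σ, ← mul_sub, hy i]
            ring
          rw [h4, hsum, map_zero, sub_zero]
        exact (mul_eq_zero.1 h3).resolve_left hp0
      have h5 : ∀ i, y i = 0 ∨ (e + d i ≤ N ∧ y i ∈ 𝒜 (N - d i - e)) := by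
        intro i
        rcases hg i with h6 | ⟨h6, h7⟩
        · left
          have h8 := hy i
          rw [h6, map_zero, sub_zero] at h8
          exact (mul_eq_zero.1 h8.symm).resolve_left hp0
        · have h8 : p * y i ∈ 𝒜 (N - d i) := by
            rw [← hy i]
            exact Submodule.sub_mem _ (hGr.gr σ _ _ h7) h7
          rcases CH1.quot_hom hGr.one hGr.mul hGr.int hp hp0 h8 with h9 | ⟨h9, h10⟩
          · exact Or.inl h9
          · exact Or.inr ⟨by omega, h10⟩
      rcases h5 0 with h6 | ⟨h6, -⟩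
      · rw [hy 0, h6, mul_zero]
        exact zero_mem _
      · have h7 := ih (N - e) (by omega) y (fun i => by
          rcases h5 i with h8 | ⟨h8, h9⟩
          · exact Or.inl h8
          · refine Or.inr ⟨by omega, ?_⟩
            have : N - e - d i = N - d i - e := by omega
            rw [this]
            exact h9) h2
        rw [hy 0]
        exact Ideal.mul_mem_left _ _ h7
    have h6 := CH1.diff_mem T hT (g 0) h1
    -- the averages
    set c : ℂ := ((Fintype.card ρ.range : ℕ) : ℂ)⁻¹ with hc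
    have hcard : ((Fintype.card ρ.range : ℕ) : ℂ) ≠ 0 := by
      exact_mod_cast Fintype.card_ne_zero
    set F : Fin (s + 1) → B := fun i => c • ∑ γ : ρ.range, (γ : B ≃ₐ[ℂ] B) (g i) with hF
    have hFinv : ∀ i (a : G), ρ a (F i) = F i := by
      intro i a
      simp only [hF]
      rw [map_smul, map_sum]
      congr 1
      refine Fintype.sum_equiv (Equiv.mulLeft (⟨ρ a, ⟨a, rfl⟩⟩ : ρ.range)) _ _ fun k => ?_
      rfl
    have hFhom : F 0 ∈ 𝒜 (N - d 0) := by
      refine Submodule.smul_mem _ _ (Submodule.sum_mem _ fun γ _ => ?_)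
      obtain ⟨γ, a, rfl⟩ := γ
      exact hGr.gr a _ _ hgm
    have hFsum : ∑ i, f i * F i = 0 := by
      have h7 : ∑ i, f i * F i = c • ∑ γ : ρ.range, (γ : B ≃ₐ[ℂ] B) (∑ i, f i * g i) := by
        simp only [hF]
        simp_rw [mul_smul_comm, Finset.mul_sum]
        rw [← Finset.smul_sum, Finset.sum_comm]
        congr 1
        refine Finset.sum_congr rfl fun γ _ => ?_
        rw [map_sum]
        refine Finset.sum_congr rfl fun i _ => ?_
        obtain ⟨γ, a, rfl⟩ := γ
        rw [map_mul]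
        show _ = ρ a (f i) * _
        rw [hfx i a]
      rw [h7, hsum]
      simp
    have hdec : g 0 = F 0 - c • ∑ γ : ρ.range, ((γ : B ≃ₐ[ℂ] B) (g 0) - g 0) := by
      simp only [hF]
      rw [← smul_sub, ← Finset.sum_sub_distrib]
      simp only [sub_sub_cancel]
      rw [Finset.sum_const, Finset.card_univ, ← Nat.cast_smul_eq_nsmul ℂ, smul_smul, hc,
        inv_mul_cancel₀ hcard, one_smul]
    have hFJ : F 0 ∈ IA 𝒜 ρ := by
      rcases Nat.eq_zero_or_pos (N - d 0) with hb1 | hb1
      · have h8 := hFhom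
        rw [hb1] at h8
        obtain ⟨a, ha⟩ := hGr.zer (F 0) h8
        by_cases ha0 : a = 0
        · rw [ha, ha0, map_zero]
          exact zero_mem _
        · exfalso
          apply hN
          refine ⟨fun i => (-a⁻¹) • F i.succ, fun i γ => ?_, ?_⟩
          · rw [map_smul, hFinv]
          · rw [Fin.sum_univ_succ, ha] at hFsum
            have h9 : f 0 * algebraMap ℂ B a = - ∑ i : Fin s, f i.succ * F i.succ :=
              eq_neg_of_add_eq_zero_left hFsum
            have h10 : f 0 = a⁻¹ • (f 0 * algebraMap ℂ B a) := by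
              rw [← mul_smul_comm, Algebra.algebraMap_eq_smul_one, smul_smul,
                inv_mul_cancel₀ ha0, one_smul, mul_one]
            rw [h10, h9, smul_neg, ← neg_smul, Finset.smul_sum]
            refine Finset.sum_congr rfl fun i _ => ?_
            exact (mul_smul_comm (-a⁻¹) (f i.succ) (F i.succ)).symm
      · exact Ideal.subset_span ⟨hFinv 0, N - d 0, hb1, hFhom⟩
    rw [hdec]
    refine sub_mem hFJ (CH1.csmul_mem _ _ (Submodule.sum_mem _ fun γ _ => ?_))
    obtain ⟨γ, a, rfl⟩ := γ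
    exact h6 a

end Pool.Agent.MFB
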