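import Mathlib
import Pool.Agent.MFB.Stmts

/-!
# The product of two functions which do not vanish on the intersection with a subspace
-/

namespace Pool.Agent.MFB

open Filter Topology

/-- The homogeneous case. -/
theorem DOM.homog (hIDT : S_IDT) {n : ℕ} (Λ : HL n) (E : Submodule ℂ (V n)) {k l : ℕ}
    {f g : Λ.A → ℂ} (hf : Λ.IsMF ⊥ k f) (hg : Λ.IsMF ⊥ l g)
    (h : ∀ z : Λ.A, (z : V n) ∈ E → f z * g z = 0) (z₁ : Λ.A) (hz₁ : (z₁ : V n) ∈ E)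
    (hne : f z₁ ≠ 0) : ∀ w : Λ.A, (w : V n) ∈ E → g w = 0 := by
  refine hIDT n Λ E l g hg z₁ z₁.2 hz₁ fun v hv => ?_
  have hA : Λ.A ∈ 𝓝 (z₁ : V n) := Λ.isOpen_A.mem_nhds z₁.2
  have hcont : ContinuousAt (Λ.ext f) (z₁ : V n) := (hf.hol.differentiableAt hA).continuousAt
  have h1 : ∀ᶠ z in 𝓝 (z₁ : V n), Λ.ext f z ≠ 0 := by
    refine hcont.eventually_ne ?_
    rw [Λ.ext_coe]
    exact hne
  have h2 : ∀ᶠ z in 𝓝 (z₁ : V n), z ∈ Λ.A := hA
  have h3 : Tendsto (fun s : ℂ => (z₁ : V n) + s • v) (𝓝 0) (𝓝 (z₁ : V n)) := by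
    have h4 : Continuous (fun s : ℂ => (z₁ : V n) + s • v) :=
      continuous_const.add (continuous_id.smul continuous_const)
    have h5 := h4.tendsto 0
    rwa [zero_smul, add_zero] at h5
  filter_upwards [h3.eventually h1, h3.eventually h2] with s hs1 hs2
  have h6 := h ⟨(z₁ : V n) + s • v, hs2⟩ (E.add_mem hz₁ (E.smul_mem s hv))
  rw [Λ.ext_of_mem _ hs2] at hs1 ⊢
  exact (mul_eq_zero.1 h6).resolve_left hs1

/-- A sum of modular forms along a complex line through the origin. -/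
theorem DOM.eval_line {n : ℕ} (Λ : HL n) (F : ℕ →₀ (Λ.A → ℂ)) (hF : ∀ i, F i ∈ Λ.Mk ⊥ i)
    (z : Λ.A) (t : ℂ) (ht : t ≠ 0) (z' : Λ.A) (hz' : (z' : V n) = t • (z : V n)) :
    (F.sum fun _ x => x) z' =
      (∑ i ∈ F.support, Polynomial.monomial i (F i z)).eval t⁻¹ := by
  rw [Finsupp.sum, Finset.sum_apply, Polynomial.eval_finsetSum]
  refine Finset.sum_congr rfl fun i _ => ?_
  rw [Polynomial.eval_monomial]
  have h1 := (hF i : Λ.IsMF ⊥ i (F i)).hom t z z' hz'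
  rw [← h1, inv_pow]
  field_simp

theorem DOM.coeff_line {n : ℕ} (Λ : HL n) (F : ℕ →₀ (Λ.A → ℂ)) (z : Λ.A) (k : ℕ) :
    (∑ i ∈ F.support, Polynomial.monomial i (F i z)).coeff k = F k z := by
  rw [Polynomial.finsetSum_coeff]
  simp only [Polynomial.coeff_monomial]
  rw [Finset.sum_ite_eq']
  split_ifs with hk
  · rfl
  · rw [Finsupp.notMem_support_iff.1 hk]
    rfl

theorem DOM.exists_sum {n : ℕ} (Λ : HL n) {f : Λ.A → ℂ} (hf : f ∈ Λ.MS ⊥) :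
    ∃ F : ℕ →₀ (Λ.A → ℂ), (∀ i, F i ∈ Λ.Mk ⊥ i) ∧ (F.sum fun _ x => x) = f := by
  have h1 : f ∈ ⨆ k, Λ.Mk ⊥ k := by
    rw [← HL.MS_eq_iSup]
    exact hf
  exact (Submodule.mem_iSup_iff_exists_finsupp _ _).1 h1

theorem DOM.exists_ne {n : ℕ} (Λ : HL n) (F : ℕ →₀ (Λ.A → ℂ)) (z : Λ.A)
    (h : (F.sum fun _ x => x) z ≠ 0) : ∃ k, F k z ≠ 0 := by
  by_contra hcon
  push Not at hcon
  apply h
  rw [Finsupp.sum, Finset.sum_apply]
  exact Finset.sum_eq_zero fun i _ => hcon i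

theorem DOM_thm (hIDT : S_IDT) (hGR : S_GR) : S_DOM := by
  intro n Λ E f g hf hg hfg
  obtain ⟨F, hF, rfl⟩ := DOM.exists_sum Λ hf
  obtain ⟨G, hG, rfl⟩ := DOM.exists_sum Λ hg
  -- at every point one of the two systems of components vanishes
  have key : ∀ z : Λ.A, (z : V n) ∈ E → ∀ k l, F k z * G l z = 0 := by
    intro z hz k l
    set P : Polynomial ℂ := ∑ i ∈ F.support, Polynomial.monomial i (F i z) with hP
    set Q : Polynomial ℂ := ∑ i ∈ G.support, Polynomial.monomial i (G i z) with hQ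
    have h1 : ∀ u : ℂ, u ≠ 0 → (P * Q).eval u = 0 := by
      intro u hu
      have hu' : u⁻¹ ≠ 0 := inv_ne_zero hu
      have h2 := hfg ⟨u⁻¹ • (z : V n), Λ.smul_mem_A hu' z.2⟩ (E.smul_mem _ hz)
      rw [DOM.eval_line Λ F hF z u⁻¹ hu' _ rfl, DOM.eval_line Λ G hG z u⁻¹ hu' _ rfl,
        inv_inv] at h2
      rw [Polynomial.eval_mul]
      exact h2
    have h3 : P * Q = 0 := by
      apply Polynomial.eq_zero_of_infinite_isRoot
      refine Set.Infinite.mono (s := {u : ℂ | u ≠ 0}) (fun u hu => h1 u hu) ?_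
      exact (Set.finite_singleton (0 : ℂ)).infinite_compl
    rcases mul_eq_zero.1 h3 with h4 | h4
    · rw [← DOM.coeff_line Λ F z k, ← hP, h4, Polynomial.coeff_zero, zero_mul]
    · rw [← DOM.coeff_line Λ G z l, ← hQ, h4, Polynomial.coeff_zero, mul_zero]
  by_contra hcon
  rw [not_or] at hcon
  obtain ⟨hc1, hc2⟩ := hcon
  push Not at hc1 hc2
  obtain ⟨z₁, hz₁, h1⟩ := hc1
  obtain ⟨z₂, hz₂, h2⟩ := hc2
  obtain ⟨k, hk⟩ := DOM.exists_ne Λ F z₁ h1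
  obtain ⟨l, hl⟩ := DOM.exists_ne Λ G z₂ h2
  exact hl (DOM.homog hIDT Λ E (hF k) (hG l) (fun z hz => key z hz k l) z₁ hz₁ hk z₂ hz₂)

end Pool.Agent.MFB
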