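import Pool.Agent.MFB.UDefs
import Pool.Agent.MFB.Defs

/-!
# Comparison of the two sets of definitions
-/

namespace Pool.Agent.MFB.UMF

open HLat

variable {n : ℕ}

/-- The lattice in the sense of `Pool.Agent.MFB.HL`. -/
def old (Λ : HLat n) : HL n where
  d := Λ.d
  neg := Λ.neg
  sqf := Λ.sqf
  H := Λ.H
  ent := Λ.herm.1
  sig := Λ.herm.2
  L := Λ.L
  fg := Λ.mod.1
  smul := Λ.mod.2
  coord := Λ.rat.1
  span := Λ.rat.2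

/-- The group as a group of linear automorphisms of `V n`. -/
def toG (Γ : Subgroup (Gp n)) : Subgroup (V n ≃ₗ[ℂ] V n) := Γ

theorem U_eq (Λ : HLat n) : toG Λ.U = (old Λ).U := by
  apply le_antisymm
  · have h : Λ.U ≤ (show Subgroup (Gp n) from (old Λ).U) := by
      rw [HLat.U, Subgroup.closure_le]
      intro g hg
      exact hg
    exact h
  · intro g hg
    exact Subgroup.subset_closure (k := {g : Gp n | Λ.InU g}) hg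

theorem isRefl_iff (Λ : HLat n) (g : Gp n) : Λ.IsRefl g ↔ (old Λ).IsRefl g := Iff.rfl

theorem isMF_iff (Λ : HLat n) (Γ : Subgroup (Gp n)) (k : ℕ) (f : Λ.Fn) :
    Λ.IsMF Γ k f ↔ (old Λ).IsMF (toG Γ) k f :=
  ⟨fun h => ⟨h.hol, h.hom, h.inv⟩, fun h => ⟨h.hol, h.hom, h.inv⟩⟩

theorem MS_eq (Λ : HLat n) (Γ : Subgroup (Gp n)) :
    (show Subalgebra ℂ ((old Λ).A → ℂ) from Λ.MS Γ) = (old Λ).MS (toG Γ) := by
  have h : {f : Λ.Fn | ∃ k : ℕ, Λ.IsMF Γ k f} = {f | ∃ k : ℕ, (old Λ).IsMF (toG Γ) k f} := by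
    ext f
    exact exists_congr fun k => isMF_iff Λ Γ k f
  show Algebra.adjoin ℂ {f : Λ.Fn | ∃ k : ℕ, Λ.IsMF Γ k f} = _
  rw [h]
  rfl

theorem isFree_iff (Λ : HLat n) (Γ : Subgroup (Gp n)) :
    Λ.IsFree Γ ↔ (old Λ).IsFree (toG Γ) := by
  have h := MS_eq Λ Γ
  constructor
  · rintro ⟨X, h1, h2, h3⟩
    refine ⟨X, fun i => ?_, h2, ?_⟩
    · obtain ⟨k, hk, hX⟩ := h1 i
      exact ⟨k, hk, (isMF_iff Λ Γ k (X i)).1 hX⟩
    · rw [← h]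
      exact h3
  · rintro ⟨X, h1, h2, h3⟩
    refine ⟨X, fun i => ?_, h2, ?_⟩
    · obtain ⟨k, hk, hX⟩ := h1 i
      exact ⟨k, hk, (isMF_iff Λ Γ k (X i)).2 hX⟩
    · rw [← h] at h3
      exact h3

theorem isFact_of (Λ : HLat n) (Γ : Subgroup (Gp n)) (h1 : IsDomain ((old Λ).MS (toG Γ)))
    (h2 : UniqueFactorizationMonoid ((old Λ).MS (toG Γ))) : Λ.IsFact Γ := by
  rw [← MS_eq Λ Γ] at h1 h2
  exact ⟨h1, h2⟩

theorem ufm_of (Λ : HLat n) (Γ : Subgroup (Gp n)) (h : Λ.IsFact Γ) :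
    UniqueFactorizationMonoid ((old Λ).MS (toG Γ)) := by
  rw [← MS_eq Λ Γ]
  exact h.2

theorem finInd (Λ : HLat n) (Γ : Subgroup (Gp n)) (h : Λ.FinInd Γ) :
    ((toG Γ).subgroupOf (old Λ).U).index ≠ 0 := by
  rw [← U_eq Λ]
  exact h.2

theorem leU (Λ : HLat n) (Γ : Subgroup (Gp n)) (h : Γ ≤ Λ.U) : toG Γ ≤ (old Λ).U := by
  rw [← U_eq Λ]
  exact h

theorem gen (Λ : HLat n) (Γ Γ₁ : Subgroup (Gp n)) (h : Λ.GenBy Γ Γ₁) :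
    toG Γ₁ ≤ Subgroup.closure ((toG Γ : Set (V n ≃ₗ[ℂ] V n)) ∪
      {σ | σ ∈ toG Γ₁ ∧ (old Λ).IsRefl σ}) := by
  have h1 : Γ₁ ≤ Subgroup.closure {σ | σ ∈ Γ ∨ σ ∈ Γ₁ ∧ Λ.IsRefl σ} := le_of_eq h.2.2
  exact h1

end Pool.Agent.MFB.UMF
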