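import Pool.Agent.MFB.All2
import Pool.Agent.MFB.UBr

/-!
# Freeness passes to reflection overgroups if the core has index at most two

Let `L` be a Hermitian lattice of signature `(n, 1)` over an imaginary quadratic field, `Γ` a
subgroup of finite index of `U(L)` such that `M_*(Γ)` is free, and `Γ₁ ≥ Γ` a subgroup of `U(L)`
which is generated by `Γ` and by reflections. If `Γ` has a subgroup of index at most two which is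
normalized by `Γ₁` (for instance if `Γ` is normal in `Γ₁` or if `Γ` has index at most three in
`Γ₁`), then `M_*(Γ₁)` is free.
-/

namespace Pool.Agent.MFB.IndexTwo

open Pool.Agent.MFB Pool.Agent.MFB.UMF

/-- The index of `Γ` in `Γ₁` is at most three, or `Γ` has a subgroup of index at most two which is
normalized by `Γ₁`. -/
def Two {n : ℕ} (Γ Γ₁ : Subgroup (Gp n)) : Prop :=
  (Γ.subgroupOf Γ₁).index ≤ 3 ∨ ∃ Γ₀ : Subgroup (Gp n), Γ₀ ≤ Γ ∧ HLat.Nrm Γ₀ Γ₁ ∧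
    (Γ₀.subgroupOf Γ).index ≠ 0 ∧ (Γ₀.subgroupOf Γ).index ≤ 2

theorem result : ∀ (n : ℕ) (Λ : HLat n), Λ.NC → ∀ Γ Γ₁ : Subgroup (Gp n), Λ.FinInd Γ →
    Λ.GenBy Γ Γ₁ → Two Γ Γ₁ → Λ.IsFree Γ → Λ.IsFree Γ₁ := by
  intro n Λ _ Γ Γ₁ h1 h2 h3 h4
  have h7 : ((toG Γ).subgroupOf (toG Γ₁)).index ≠ 0 := by
    intro h8
    exact finInd Λ Γ h1 (Subgroup.relIndex_eq_zero_of_le_right (leU Λ Γ₁ h2.2.1) h8)
  have h8 : ∃ Γ₀ : Subgroup (V n ≃ₗ[ℂ] V n), Γ₀ ≤ toG Γ ∧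
      (∀ g ∈ toG Γ₁, ∀ γ ∈ Γ₀, g * γ * g⁻¹ ∈ Γ₀) ∧ (Γ₀.subgroupOf (toG Γ)).index ≠ 0 ∧
      (Γ₀.subgroupOf (toG Γ)).index ≤ 2 := by
    rcases h3 with h5 | ⟨Γ₀, h5, h6, h9, h10⟩
    · exact IDX_thm _ (toG Γ) (toG Γ₁) h2.1 h7 h5
    · exact ⟨toG Γ₀, h5, h6.2, h9, h10⟩
  obtain ⟨Γ₀, ha, hb, hc, hd⟩ := h8
  exact (isFree_iff Λ Γ₁).2 (f_THB n (old Λ) (toG Γ) Γ₀ (toG Γ₁) (leU Λ Γ₁ h2.2.1) h2.1 ha
    (finInd Λ Γ h1) hb ((isFree_iff Λ Γ).1 h4) hc hd (gen Λ Γ Γ₁ h2))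

end Pool.Agent.MFB.IndexTwo
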