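import Mathlib

/-!
# Modular forms on the complex ball for Hermitian lattices: the definitions of the final theorems
-/

namespace Pool.Agent.MFB.UMF

/-- The space `ℂ^(n+1)`. -/
def Sp (n : ℕ) : Type := Fin (n + 1) → ℂ

/-- The norm of `ℂ^(n+1)`. -/
noncomputable instance instSp (n : ℕ) : NormedAddCommGroup (Sp n) :=
  @Pi.normedAddCommGroup (Fin (n + 1)) (fun _ => ℂ) _ _

/-- The scalar multiplication of `ℂ^(n+1)`. -/
noncomputable instance instSpC (n : ℕ) : NormedSpace ℂ (Sp n) :=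
  @Pi.normedSpace ℂ _ (Fin (n + 1)) (fun _ => ℂ) _ _ _

/-- The coordinates of a vector. -/
def co {n : ℕ} (x : Sp n) : Fin (n + 1) → ℂ := x

/-- The linear automorphisms of `ℂ^(n+1)`. -/
def Gp (n : ℕ) : Type := Sp n ≃ₗ[ℂ] Sp n

/-- The composition of automorphisms. -/
noncomputable instance instGp (n : ℕ) : Group (Gp n) :=
  @LinearEquiv.automorphismGroup ℂ (Sp n) _ _ _

/-- The image of a vector under an automorphism. -/
noncomputable def ap {n : ℕ} (g : Gp n) (x : Sp n) : Sp n := (show Sp n ≃ₗ[ℂ] Sp n from g) x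

/-- The imaginary quadratic field `ℚ(√d)` (for `d < 0`) in `ℂ`. -/
def Fld (d : ℤ) : Set ℂ :=
  {z | ∃ a b : ℚ, z = (a : ℂ) + (b : ℂ) * ((Real.sqrt (-(d : ℝ)) : ℝ) * Complex.I)}

/-- The ring of integers of `ℚ(√d)`. -/
def OF (d : ℤ) : Set ℂ := {z | z ∈ Fld d ∧ IsIntegral ℤ z}

/-- The Hermitian form with matrix `H`, linear in the first variable. -/
def hf {n : ℕ} (H : Matrix (Fin (n + 1)) (Fin (n + 1)) ℂ) (x y : Sp n) : ℂ :=
  ∑ i, ∑ j, co x i * H i j * (starRingEnd ℂ) (co y j)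

/-- The standard Hermitian form of signature `(n, 1)`. -/
def st {n : ℕ} (x y : Sp n) : ℂ :=
  ∑ i : Fin n, co x i.castSucc * (starRingEnd ℂ) (co y i.castSucc) -
    co x (Fin.last n) * (starRingEnd ℂ) (co y (Fin.last n))

/-- `H` is the matrix of a Hermitian form over `ℚ(√d)` of signature `(n, 1)`. -/
def IsHerm (d : ℤ) {n : ℕ} (H : Matrix (Fin (n + 1)) (Fin (n + 1)) ℂ) : Prop :=
  (∀ i j, H i j ∈ Fld d) ∧ ∃ P : Gp n, ∀ x y, hf H x y = st (ap P x) (ap P y)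

/-- `L` is a finitely generated module over the ring of integers of `ℚ(√d)`. -/
def IsMod (d : ℤ) {n : ℕ} (L : AddSubgroup (Sp n)) : Prop :=
  L.FG ∧ ∀ a ∈ OF d, ∀ x ∈ L, a • x ∈ L

/-- The elements of `L` have coordinates in `ℚ(√d)`, and `L` spans the space. -/
def IsRat (d : ℤ) {n : ℕ} (L : AddSubgroup (Sp n)) : Prop :=
  (∀ x ∈ L, ∀ i, co x i ∈ Fld d) ∧ Submodule.span ℂ (L : Set (Sp n)) = ⊤

/-- A Hermitian lattice of signature `(n, 1)` over the ring of integers of `ℚ(√d)`, in the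
coordinates of a basis over `ℚ(√d)`. -/
structure HLat (n : ℕ) where
  d : ℤ
  neg : d < 0
  sqf : Squarefree d
  H : Matrix (Fin (n + 1)) (Fin (n + 1)) ℂ
  herm : IsHerm d H
  L : AddSubgroup (Sp n)
  mod : IsMod d L
  rat : IsRat d L

namespace HLat

variable {n : ℕ} (Λ : HLat n)

/-- The Hermitian form. -/
def h (x y : Sp n) : ℂ := hf Λ.H x y

/-- `g` preserves the lattice and the form. -/
def InU (g : Gp n) : Prop :=
  (∀ x, ap g x ∈ Λ.L ↔ x ∈ Λ.L) ∧ ∀ x y, Λ.h (ap g x) (ap g y) = Λ.h x y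

/-- The group `U(L)` of the automorphisms which preserve the lattice and the form. -/
noncomputable def U : Subgroup (Gp n) := Subgroup.closure {g | Λ.InU g}

/-- A reflection: `x ↦ x - (1 - ε) (h(x, r) / h(r, r)) r` with `h(r, r) > 0` and `ε ≠ 1` a root of
unity. -/
def IsRefl (g : Gp n) : Prop :=
  Λ.InU g ∧ ∃ (r : Sp n) (ε : ℂ), 0 < (Λ.h r r).re ∧ ε ≠ 1 ∧ (∃ m : ℕ, 0 < m ∧ ε ^ m = 1) ∧
    ∀ x, ap g x = x - ((1 - ε) * (Λ.h x r / Λ.h r r)) • r

/-- The affine cone over the ball. -/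
def A : Set (Sp n) := {z | (Λ.h z z).re < 0}

/-- The functions on the cone. -/
def Fn : Type := Λ.A → ℂ

/-- The ring of the functions on the cone. -/
noncomputable instance instFn : CommRing Λ.Fn := @Pi.commRing Λ.A (fun _ => ℂ) _

/-- The algebra of the functions on the cone. -/
noncomputable instance instFnC : Algebra ℂ Λ.Fn := @Pi.algebra Λ.A ℂ (fun _ => ℂ) _ _ _

/-- The value of a function. -/
def ev (f : Λ.Fn) (z : Λ.A) : ℂ := f z

open Classical in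
/-- The extension of a function by zero. -/
noncomputable def ext (f : Λ.Fn) (z : Sp n) : ℂ := if hz : z ∈ Λ.A then Λ.ev f ⟨z, hz⟩ else 0

/-- Modular forms of weight `k` for `Γ` (for `n ≥ 2` the condition at the cusps is automatic). -/
structure IsMF (Γ : Subgroup (Gp n)) (k : ℕ) (f : Λ.Fn) : Prop where
  hol : DifferentiableOn ℂ (Λ.ext f) Λ.A
  hom : ∀ (t : ℂ) (z z' : Λ.A), z'.1 = t • z.1 → t ^ k * Λ.ev f z' = Λ.ev f z
  inv : ∀ γ ∈ Γ, ∀ z z' : Λ.A, z'.1 = ap γ z.1 → Λ.ev f z' = Λ.ev f z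

/-- The algebra of modular forms for `Γ`. -/
noncomputable def MS (Γ : Subgroup (Gp n)) : Subalgebra ℂ Λ.Fn := Algebra.adjoin ℂ {f | ∃ k : ℕ, Λ.IsMF Γ k f}

/-- The algebra of modular forms for `Γ` is a polynomial algebra in `n + 1` algebraically
independent modular forms of positive weights. -/
def IsFree (Γ : Subgroup (Gp n)) : Prop :=
  ∃ X : Fin (n + 1) → Λ.Fn, (∀ i, ∃ k : ℕ, 0 < k ∧ Λ.IsMF Γ k (X i)) ∧
    AlgebraicIndependent ℂ X ∧ Algebra.adjoin ℂ (Set.range X) = Λ.MS Γ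

/-- The algebra of modular forms for `Γ` is a unique factorization domain. -/
def IsFact (Γ : Subgroup (Gp n)) : Prop := IsDomain (Λ.MS Γ) ∧ UniqueFactorizationMonoid (Λ.MS Γ)

/-- The condition at the cusps is void: `n ≥ 2`, or `n = 1` and the form is anisotropic. -/
def NC : Prop := 2 ≤ n ∨ n = 1 ∧ ∀ x ∈ Λ.L, Λ.h x x = 0 → x = 0

/-- `Γ` is a subgroup of finite index of `U(L)`. -/
def FinInd (Γ : Subgroup (Gp n)) : Prop := Γ ≤ Λ.U ∧ (Γ.subgroupOf Λ.U).index ≠ 0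

/-- `Γ₁` is a subgroup of `U(L)` which contains `Γ`, and it is generated by `Γ` and by
reflections. -/
def GenBy (Γ Γ₁ : Subgroup (Gp n)) : Prop :=
  Γ ≤ Γ₁ ∧ Γ₁ ≤ Λ.U ∧ Γ₁ = Subgroup.closure {σ | σ ∈ Γ ∨ σ ∈ Γ₁ ∧ Λ.IsRefl σ}

/-- `Γ₀` is a subgroup of `Γ₁` which is normalized by `Γ₁`. -/
def Nrm (Γ₀ Γ₁ : Subgroup (Gp n)) : Prop := Γ₀ ≤ Γ₁ ∧ ∀ g ∈ Γ₁, ∀ γ ∈ Γ₀, g * γ * g⁻¹ ∈ Γ₀

end HLat

end Pool.Agent.MFB.UMF
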